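import Mathlib
import Pool.Agent.Y870.Z.Ph

/-! Phases for moduli with separate residue classes of the factors (helper503).
Adapted from `Pool.Agent.Y870.Z`. -/

open Finset

namespace Pool.Agent.R503.N

open Pool.Agent.Y826.Z Pool.Agent.Y870.Z

/-- number of solutions of `m x = c` mod `q` -/
theorem cl_sum (q : ℕ) (hq : 0 < q) (c : ℤ) (hc : IsCoprime c (q : ℤ)) (x : ℤ) :
    ∑ m ∈ range q, iC ((((m : ℤ) * x : ℤ) : ZMod q) = (c : ZMod q)) = iC (IsCoprime x (q : ℤ)) := by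
  classical
  have : NeZero q := ⟨hq.ne'⟩
  have h1 := sum_range_zmod q (fun y => iC (y * (x : ZMod q) = (c : ZMod q)))
  have h2 : ∑ m ∈ range q, iC ((((m : ℤ) * x : ℤ) : ZMod q) = (c : ZMod q)) =
      ∑ j ∈ range q, iC (((j : ℕ) : ZMod q) * (x : ZMod q) = (c : ZMod q)) := by
    refine Finset.sum_congr rfl fun m _ => ?_
    push_cast
    rfl
  have hcu : IsUnit ((c : ℤ) : ZMod q) := by
    obtain ⟨u, v, huv⟩ := hc
    have h3 := congrArg (fun z : ℤ => (z : ZMod q)) huv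
    simp only [Int.cast_add, Int.cast_mul, Int.cast_natCast, CharP.cast_eq_zero, mul_zero, add_zero,
      Int.cast_one] at h3
    exact IsUnit.of_mul_eq_one _ (by rw [mul_comm]; exact h3)
  rw [h2, h1]
  by_cases hx : IsCoprime x (q : ℤ)
  · have hxu : IsUnit ((x : ℤ) : ZMod q) := by
      obtain ⟨u, v, huv⟩ := hx
      have h3 := congrArg (fun z : ℤ => (z : ZMod q)) huv
      simp only [Int.cast_add, Int.cast_mul, Int.cast_natCast, CharP.cast_eq_zero, mul_zero, add_zero,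
        Int.cast_one] at h3
      exact IsUnit.of_mul_eq_one _ (by rw [mul_comm]; exact h3)
    obtain ⟨w, hw⟩ := hxu
    rw [iC_congr (iff_true_intro hx), Finset.sum_eq_single ((c : ZMod q) * ((w⁻¹ : (ZMod q)ˣ) : ZMod q))]
    · congr 1
      rw [← hw, mul_assoc, Units.inv_mul, mul_one]
      simp
    · intro y _ hy
      rw [iC, if_neg]
      intro h3
      apply hy
      rw [← h3, ← hw, mul_assoc, Units.mul_inv, mul_one]
    · intro h3
      exact absurd (mem_univ _) h3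
  · rw [iC_congr (iff_false_intro hx)]
    rw [Finset.sum_eq_zero]
    · simp [iC]
    · intro y _
      rw [iC, if_neg]
      intro h3
      apply hx
      rw [← h3] at hcu
      have h4 : IsUnit (x : ZMod q) := isUnit_of_mul_isUnit_right hcu
      obtain ⟨z, hz⟩ := ZMod.intCast_surjective (((h4.unit⁻¹ : (ZMod q)ˣ) : ZMod q))
      have h5 : ((z * x : ℤ) : ZMod q) = ((1 : ℤ) : ZMod q) := by
        push_cast
        rw [hz]
        exact IsUnit.val_inv_mul h4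
      rw [ZMod.intCast_eq_intCast_iff_dvd_sub] at h5
      obtain ⟨k, hk⟩ := h5
      exact ⟨z, k, by linarith⟩

/-- the discrepancy of the classes `c` mod `u`, `d` mod `w` -/
noncomputable def DD (u w : ℕ) (c d : ℤ) (x : ℤ) : ℂ :=
  iC ((x : ZMod u) = (c : ZMod u)) * iC ((x : ZMod w) = (d : ZMod w)) -
    (1 / (Nat.totient (u * w) : ℂ)) * iC (IsCoprime x ((u * w : ℕ) : ℤ))

/-- the real version -/
noncomputable def Dr (u w : ℕ) (c d : ℤ) (x : ℤ) : ℝ :=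
  ind ((x : ZMod u) = (c : ZMod u) ∧ (x : ZMod w) = (d : ZMod w)) -
    (1 / (Nat.totient (u * w) : ℝ)) * ind (IsCoprime x ((u * w : ℕ) : ℤ))

theorem Dr_DD (u w : ℕ) (c d x : ℤ) : ((Dr u w c d x : ℝ) : ℂ) = DD u w c d x := by
  unfold Dr DD
  push_cast
  rw [iC_ind, iC_ind, iC_and]

/-- classes -/
noncomputable def cl (c : ℤ) (U : ℕ) (o : Option (Rs U)) (p : ℕ) : ZMod p :=
  match o with
  | none => (c : ZMod p)
  | some y => ((y.1 : ℕ) : ZMod p)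

/-- factors of the second part of the modulus -/
noncomputable def vf (d : ℤ) (U : ℕ) (o : Option (Rs U)) (w : ℕ) (x : ℤ) : ℂ :=
  match o with
  | none => iC ((x : ZMod w) = (d : ZMod w))
  | some _ => (1 / (Nat.totient w : ℂ)) * iC (IsCoprime x (w : ℤ))

theorem cl_ne (c : ℤ) (U : ℕ) (hc : IsCoprime c (U : ℤ)) (o : Option (Rs U)) {p : ℕ} (hp : p.Prime) (hd : p ∣ U) :
    cl c U o p ≠ 0 := by
  match o with
  | none =>
    simp only [cl]
    intro h0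
    have h1 := (ZMod.intCast_zmod_eq_zero_iff_dvd c p).1 h0
    have h2 : (p : ℤ) ∣ (U : ℤ) := Int.natCast_dvd_natCast.2 hd
    have h3 := hc.isUnit_of_dvd' h1 h2
    have h4 := Int.isUnit_iff.1 h3
    have := hp.one_lt
    omega
  | some y =>
    simp only [cl]
    intro h0
    rw [ZMod.natCast_eq_zero_iff] at h0
    have h1 := (mem_filter.1 y.2).2
    exact hp.one_lt.ne' (Nat.eq_one_of_dvd_coprimes h1 hd h0)

theorem DD_expand (u w : ℕ) (c d : ℤ) (hu : Squarefree u) (huw : u.Coprime w) (x : ℤ) :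
    DD u w c d x = ∑ o : Option (Rs u), (wt u o : ℂ) *
      (∏ p ∈ u.primeFactors, loc p (cl c u o p) x) * vf d u o w x := by
  rw [Fintype.sum_option]
  have hU : 0 < u := Nat.pos_of_ne_zero hu.ne_zero
  have h0 : (Nat.totient u : ℂ) ≠ 0 := by exact_mod_cast (Nat.totient_pos.2 hU).ne'
  simp only [wt, vf, cl]
  have h1 : ∀ y : Rs u, ∏ p ∈ u.primeFactors, loc p ((y.1 : ℕ) : ZMod p) x =
      iC ((x : ZMod u) = (y.1 : ℕ)) := by
    intro y
    have := res_prod u hu x (y.1 : ℕ)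
    rw [Int.cast_natCast] at this
    rw [this]
    refine Finset.prod_congr rfl fun p _ => ?_
    rw [Int.cast_natCast]
  have h2 : ∑ y : Rs u, iC ((x : ZMod u) = (y.1 : ℕ)) = iC (IsCoprime x (u : ℤ)) := by
    have : NeZero u := ⟨hU.ne'⟩
    rw [Finset.sum_coe_sort ((range u).filter (fun y => u.Coprime y)) (fun y => iC ((x : ZMod u) = (y : ℕ)))]
    set n := (x : ZMod u).val with hn
    have hxn : (x : ZMod u) = (n : ℕ) := (ZMod.natCast_zmod_val _).symm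
    have hcop : IsCoprime x (u : ℤ) ↔ u.Coprime n := by
      rw [← Nat.isCoprime_iff_coprime, isCoprime_comm]
      have h3 : (u : ℤ) ∣ (n : ℤ) - x := by
        rw [← ZMod.intCast_eq_intCast_iff_dvd_sub]
        rw [hxn]; simp
      obtain ⟨c, hc⟩ := h3
      have h4 : (n : ℤ) = x + (u : ℤ) * c := by linarith
      rw [h4]
      exact (IsCoprime.add_mul_left_right_iff (z := c)).symm
    by_cases hc : u.Coprime n
    · rw [Finset.sum_eq_single n]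
      · rw [iC_congr (iff_true_intro hxn), iC_congr (iff_true_intro (hcop.2 hc))]
      · intro y hy hyn
        rw [mem_filter, mem_range] at hy
        rw [iC, if_neg]
        intro h5
        apply hyn
        rw [hn, h5, ZMod.val_cast_of_lt hy.1]
      · intro hn2
        exact absurd (mem_filter.2 ⟨mem_range.2 (ZMod.val_lt _), hc⟩) hn2
    · rw [iC_congr (iff_false_intro (fun h8 => hc (hcop.1 h8)))]
      rw [Finset.sum_eq_zero]
      · simp [iC]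
      · intro y hy
        rw [mem_filter, mem_range] at hy
        rw [iC, if_neg]
        intro h5
        apply hc
        rw [hn, h5, ZMod.val_cast_of_lt hy.1]
        exact hy.2
  have h3 : ∑ y : Rs u, ((-(1 / (Nat.totient u : ℝ)) : ℝ) : ℂ) *
      (∏ p ∈ u.primeFactors, loc p ((y.1 : ℕ) : ZMod p) x) *
      (1 / (Nat.totient w : ℂ) * iC (IsCoprime x (w : ℤ))) =
      -(1 / (Nat.totient u : ℂ)) * (1 / (Nat.totient w : ℂ)) *
        (iC (IsCoprime x (u : ℤ)) * iC (IsCoprime x (w : ℤ))) := by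
    rw [← h2, Finset.sum_mul, Finset.mul_sum]
    refine Finset.sum_congr rfl fun y _ => ?_
    rw [h1]
    push_cast
    ring
  have h4 : iC (IsCoprime x ((u * w : ℕ) : ℤ)) = iC (IsCoprime x (u : ℤ)) * iC (IsCoprime x (w : ℤ)) := by
    rw [← iC_and]
    apply iC_congr
    rw [Nat.cast_mul]
    exact IsCoprime.mul_right_iff
  rw [h3, ← res_prod u hu x c, DD, Nat.totient_mul huw, h4, Nat.cast_mul, Complex.ofReal_one, one_div, one_div,
    one_div, mul_inv]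
  ring

theorem cl_per (W : ℕ) (c : ℤ) {x y : ℤ} (hxy : (W : ℤ) ∣ x - y) :
    iC ((x : ZMod W) = (c : ZMod W)) = iC ((y : ZMod W) = (c : ZMod W)) := by
  have h1 : (x : ZMod W) = (y : ZMod W) := by
    rw [ZMod.intCast_eq_intCast_iff_dvd_sub, ← neg_sub, dvd_neg]
    exact hxy
  rw [h1]

theorem vf_per (d : ℤ) (U : ℕ) (o : Option (Rs U)) (w : ℕ) {x y : ℤ} (hxy : (w : ℤ) ∣ x - y) :
    vf d U o w x = vf d U o w y := by
  match o with
  | none => exact cl_per w d hxy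
  | some _ =>
    simp only [vf]
    rw [cop_per w hxy]

theorem DD_per (u w : ℕ) (c d : ℤ) {x y : ℤ} (hxy : ((u * w : ℕ) : ℤ) ∣ x - y) :
    DD u w c d x = DD u w c d y := by
  have h1 : (u : ℤ) ∣ x - y := (Int.natCast_dvd_natCast.2 (dvd_mul_right _ _)).trans hxy
  have h2 : (w : ℤ) ∣ x - y := (Int.natCast_dvd_natCast.2 (dvd_mul_left _ _)).trans hxy
  unfold DD
  rw [cl_per u c h1, cl_per w d h2, cop_per (u * w) hxy]

theorem vf_sum (d : ℤ) (U : ℕ) (o : Option (Rs U)) (w : ℕ) (hw : 0 < w) (hd : IsCoprime d (w : ℤ)) (x : ℤ) :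
    ∑ m ∈ range w, vf d U o w ((m : ℤ) * x) = iC (IsCoprime x (w : ℤ)) := by
  match o with
  | none => exact cl_sum w hw d hd x
  | some _ =>
    simp only [vf]
    rw [← Finset.mul_sum, cop_sum]
    have h0 : (Nat.totient w : ℂ) ≠ 0 := by exact_mod_cast (Nat.totient_pos.2 hw).ne'
    field_simp

theorem DD_mean (u w : ℕ) (c d : ℤ) (hu : 0 < u) (hw : 0 < w) (huw : u.Coprime w) (hc : IsCoprime c (u : ℤ))
    (hd : IsCoprime d (w : ℤ)) (x : ℤ) :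
    ∑ m ∈ range (u * w), DD u w c d ((m : ℤ) * x) = 0 := by
  unfold DD
  rw [Finset.sum_sub_distrib, ← Finset.mul_sum, cop_sum]
  have h1 := sum_crt u w hu hw huw
    (fun m => iC (((m * x : ℤ) : ZMod u) = (c : ZMod u))) (fun m => iC (((m * x : ℤ) : ZMod w) = (d : ZMod w)))
    (fun m => cl_per u c ⟨x, by ring⟩) (fun m => cl_per w d ⟨x, by ring⟩)
  rw [h1, cl_sum u hu c hc x, cl_sum w hw d hd x, ← iC_and]
  have h0 : (Nat.totient (u * w) : ℂ) ≠ 0 := by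
    exact_mod_cast (Nat.totient_pos.2 (Nat.mul_pos hu hw)).ne'
  have h4 : iC (IsCoprime x ((u * w : ℕ) : ℤ)) = iC (IsCoprime x (u : ℤ) ∧ IsCoprime x (w : ℤ)) := by
    apply iC_congr
    rw [Nat.cast_mul]
    exact IsCoprime.mul_right_iff
  rw [h4]
  field_simp
  ring

theorem vf_norm_eq (d : ℤ) (U : ℕ) (o : Option (Rs U)) (w : ℕ) (x : ℤ) :
    ((‖vf d U o w x‖ : ℝ) : ℂ) = vf d U o w x := by
  match o with
  | none => exact iC_norm_eq _
  | some _ =>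
    simp only [vf]
    rw [norm_mul]
    push_cast
    rw [iC_norm_eq]
    congr 1
    simp

/-- the factors of modulus `a * w1 * w2` -/
noncomputable def GG (a : ℕ) (h : ℤ) (U1 U2 : ℕ) (t : ℤ) (o1 : Option (Rs U1))
    (o2 : Option (Rs U2)) (w1 w2 : ℕ) (d1 d2 : ℤ) (x m : ℤ) : ℂ :=
  iC (((m * x : ℤ) : ZMod a) = (h : ZMod a)) *
    vf d1 U1 o1 w1 (m * x) * vf d2 U2 o2 w2 (m * (x + t))

theorem GG_per_m (a : ℕ) (h : ℤ) (U1 U2 : ℕ) (t : ℤ) (o1 : Option (Rs U1))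
    (o2 : Option (Rs U2)) (w1 w2 : ℕ) (d1 d2 : ℤ) (x m : ℤ) :
    GG a h U1 U2 t o1 o2 w1 w2 d1 d2 x (m + ((a * w1 * w2 : ℕ) : ℤ)) =
      GG a h U1 U2 t o1 o2 w1 w2 d1 d2 x m := by
  unfold GG
  congr 1
  · congr 1
    · exact cl_per a h ⟨w1 * w2 * x, by push_cast; ring⟩
    · exact vf_per d1 U1 o1 w1 ⟨a * w2 * x, by push_cast; ring⟩
  · exact vf_per d2 U2 o2 w2 ⟨a * w1 * (x + t), by push_cast; ring⟩

theorem GG_per_x (a : ℕ) (h : ℤ) (U1 U2 : ℕ) (t : ℤ) (o1 : Option (Rs U1))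
    (o2 : Option (Rs U2)) (w1 w2 : ℕ) (d1 d2 : ℤ) (x m : ℤ) :
    GG a h U1 U2 t o1 o2 w1 w2 d1 d2 (x + ((a * w1 * w2 : ℕ) : ℤ)) m =
      GG a h U1 U2 t o1 o2 w1 w2 d1 d2 x m := by
  unfold GG
  congr 1
  · congr 1
    · exact cl_per a h ⟨w1 * w2 * m, by push_cast; ring⟩
    · exact vf_per d1 U1 o1 w1 ⟨a * w2 * m, by push_cast; ring⟩
  · exact vf_per d2 U2 o2 w2 ⟨a * w1 * m, by push_cast; ring⟩

theorem GG_norm (a : ℕ) (h : ℤ) (U1 U2 : ℕ) (t : ℤ) (o1 : Option (Rs U1))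
    (o2 : Option (Rs U2)) (w1 w2 : ℕ) (d1 d2 : ℤ) (x : ℤ) (ha : 0 < a) (h1 : 0 < w1) (h2 : 0 < w2)
    (c1 : a.Coprime w1) (c2 : (a * w1).Coprime w2) (hh : IsCoprime h (a : ℤ)) (hd1 : IsCoprime d1 (w1 : ℤ))
    (hd2 : IsCoprime d2 (w2 : ℤ)) :
    ∑ m ∈ range (a * w1 * w2), ‖GG a h U1 U2 t o1 o2 w1 w2 d1 d2 x m‖ ≤ 1 := by
  have e1 : ∑ m ∈ range (a * w1 * w2), ‖GG a h U1 U2 t o1 o2 w1 w2 d1 d2 x m‖ =
      ((∑ m ∈ range a, ‖iC ((((m : ℤ) * x : ℤ) : ZMod a) = (h : ZMod a))‖) *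
        ∑ m ∈ range w1, ‖vf d1 U1 o1 w1 ((m : ℤ) * x)‖) *
        ∑ m ∈ range w2, ‖vf d2 U2 o2 w2 ((m : ℤ) * (x + t))‖ := by
    rw [← sum_crt a w1 ha h1 c1 (fun m => ‖iC (((m * x : ℤ) : ZMod a) = (h : ZMod a))‖)
      (fun m => ‖vf d1 U1 o1 w1 (m * x)‖)
      (fun m => congrArg _ (cl_per a h ⟨x, by push_cast; ring⟩))
      (fun m => congrArg _ (vf_per d1 U1 o1 w1 ⟨x, by push_cast; ring⟩))]
    rw [← sum_crt (a * w1) w2 (Nat.mul_pos ha h1) h2 c2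
      (fun m => ‖iC (((m * x : ℤ) : ZMod a) = (h : ZMod a))‖ * ‖vf d1 U1 o1 w1 (m * x)‖)
      (fun m => ‖vf d2 U2 o2 w2 (m * (x + t))‖)
      (fun m => by
        congr 1
        · exact congrArg _ (cl_per a h ⟨w1 * x, by push_cast; ring⟩)
        · exact congrArg _ (vf_per d1 U1 o1 w1 ⟨a * x, by push_cast; ring⟩))
      (fun m => congrArg _ (vf_per d2 U2 o2 w2 ⟨x + t, by push_cast; ring⟩))]
    refine Finset.sum_congr rfl fun m _ => ?_
    unfold GG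
    rw [norm_mul, norm_mul]
  rw [e1]
  have b1 := sum_norm_le (fun m => iC_norm_eq _) (cl_sum a ha h hh x)
  have b3 := sum_norm_le (fun m => vf_norm_eq d1 U1 o1 w1 _) (vf_sum d1 U1 o1 w1 h1 hd1 x)
  have b4 := sum_norm_le (fun m => vf_norm_eq d2 U2 o2 w2 _) (vf_sum d2 U2 o2 w2 h2 hd2 (x + t))
  refine mul_le_one₀ (mul_le_one₀ b1 (Finset.sum_nonneg fun _ _ => norm_nonneg _) b3)
    (Finset.sum_nonneg fun _ _ => norm_nonneg _) b4

/-- the conditions on the periodic factor -/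
def Good (a w1 w2 : ℕ) (h d1 d2 : ℤ) : Prop :=
  0 < a ∧ 0 < w1 ∧ 0 < w2 ∧ a.Coprime w1 ∧ (a * w1).Coprime w2 ∧ IsCoprime h (a : ℤ) ∧ IsCoprime d1 (w1 : ℤ) ∧
    IsCoprime d2 (w2 : ℤ)

open Classical in
/-- the periodic factor -/
noncomputable def ZZ (a : ℕ) (h : ℤ) (r u1 u2 : ℕ) (t : ℤ) (o1 : Option (Rs u1))
    (o2 : Option (Rs u2)) (w1 w2 : ℕ) (d1 d2 : ℤ) (k x : ℤ) : ℂ :=
  if Good a w1 w2 h d1 d2 then
    ∑ m ∈ range (a * w1 * w2), GG a h u1 u2 t o1 o2 w1 w2 d1 d2 x m *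
      ec (a * w1 * w2) ((k : ZMod (a * w1 * w2)) *
        ((∏ p ∈ (r * u1 * u2).primeFactors, p : ℕ) : ZMod (a * w1 * w2))⁻¹ *
        ((m : ℕ) : ZMod (a * w1 * w2)))
  else 0

theorem ZZ_norm (a : ℕ) (h : ℤ) (r u1 u2 : ℕ) (t : ℤ) (o1 : Option (Rs u1))
    (o2 : Option (Rs u2)) (w1 w2 : ℕ) (d1 d2 : ℤ) (k x : ℤ) :
    ‖ZZ a h r u1 u2 t o1 o2 w1 w2 d1 d2 k x‖ ≤ 1 := by
  unfold ZZ
  split_ifs with hs
  · obtain ⟨g1, g2, g3, g4, g5, g6, g7, g8⟩ := hs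
    have : NeZero (a * w1 * w2) := ⟨by positivity⟩
    refine (norm_sum_le _ _).trans (le_trans ?_ (GG_norm a h u1 u2 t o1 o2 w1 w2 d1 d2 x g1 g2 g3 g4 g5 g6 g7 g8))
    refine Finset.sum_le_sum fun m _ => ?_
    rw [norm_mul, Pool.Agent.Y870.Z.ec_norm, mul_one]
  · simp

theorem ZZ_per (a : ℕ) (h : ℤ) (r u1 u2 : ℕ) (t : ℤ) (o1 : Option (Rs u1))
    (o2 : Option (Rs u2)) (w1 w2 : ℕ) (d1 d2 : ℤ) (k x : ℤ) :
    ZZ a h r u1 u2 t o1 o2 w1 w2 d1 d2 k (x + ((a * w1 * w2 : ℕ) : ℤ)) =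
      ZZ a h r u1 u2 t o1 o2 w1 w2 d1 d2 k x := by
  unfold ZZ
  simp only [GG_per_x]

/-- the classes at all the primes -/
noncomputable def AA (h c1 c2 : ℤ) (r u1 u2 : ℕ) (o1 : Option (Rs u1)) (o2 : Option (Rs u2)) (p : ℕ) : ZMod p :=
  if p ∣ r then (h : ZMod p) else if p ∣ u1 then cl c1 u1 o1 p else cl c2 u2 o2 p

/-- the function of `m` -/
noncomputable def FF (a r u1 u2 w1 w2 : ℕ) (h c1 c2 d1 d2 : ℤ) (x1 x2 m : ℤ) : ℂ :=
  iC (((m * x1 : ℤ) : ZMod a) = (h : ZMod a)) * iC (((m * x1 : ℤ) : ZMod r) = (h : ZMod r)) *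
    DD u1 w1 c1 d1 (m * x1) * DD u2 w2 c2 d2 (m * x2)

/-- the left condition -/
def Lr (a r : ℕ) (h : ℤ) (x : ℤ) : Prop := (x : ZMod a) = (h : ZMod a) ∧ (x : ZMod r) = (h : ZMod r)

theorem FF_eq (a r u1 u2 w1 w2 : ℕ) (h c1 c2 d1 d2 : ℤ) (m n1 n2 : ℕ) :
    ((ind (Lr a r h ((m * n1 : ℕ) : ℤ)) * Dr u1 w1 c1 d1 ((m * n1 : ℕ) : ℤ) *
      Dr u2 w2 c2 d2 ((m * n2 : ℕ) : ℤ) : ℝ) : ℂ) =
      FF a r u1 u2 w1 w2 h c1 c2 d1 d2 n1 n2 m := by
  rw [Complex.ofReal_mul, Complex.ofReal_mul, Dr_DD, Dr_DD, iC_ind]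
  unfold FF Lr
  rw [iC_and]
  push_cast
  rfl

theorem FF_per (a r u1 u2 w1 w2 : ℕ) (h c1 c2 d1 d2 : ℤ) (x1 x2 m : ℤ) :
    FF a r u1 u2 w1 w2 h c1 c2 d1 d2 x1 x2 (m + ((a * r * u1 * u2 * w1 * w2 : ℕ) : ℤ)) =
      FF a r u1 u2 w1 w2 h c1 c2 d1 d2 x1 x2 m := by
  unfold FF
  congr 1
  · congr 1
    · congr 1
      · exact cl_per a h ⟨r * u1 * u2 * w1 * w2 * x1, by push_cast; ring⟩
      · exact cl_per r h ⟨a * u1 * u2 * w1 * w2 * x1, by push_cast; ring⟩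
    · exact DD_per u1 w1 c1 d1 ⟨a * r * u2 * w2 * x1, by push_cast; ring⟩
  · exact DD_per u2 w2 c2 d2 ⟨a * r * u1 * w1 * x2, by push_cast; ring⟩

theorem FF_mean (a r u1 u2 w1 w2 : ℕ) (h c1 c2 d1 d2 : ℤ) (x1 x2 : ℤ)
    (hs : Squarefree (a * r * u1 * u2 * w1 * w2)) (hc1 : IsCoprime c1 (u1 : ℤ)) (hd1 : IsCoprime d1 (w1 : ℤ)) :
    ∑ m ∈ range (a * r * u1 * u2 * w1 * w2), FF a r u1 u2 w1 w2 h c1 c2 d1 d2 x1 x2 m = 0 := by
  have e0 : a * r * u1 * u2 * w1 * w2 = (a * r * u2 * w2) * (u1 * w1) := by ring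
  rw [e0] at hs ⊢
  have c0 := Nat.coprime_of_squarefree_mul hs
  have s1 : Squarefree (u1 * w1) := hs.squarefree_of_dvd (dvd_mul_left _ _)
  have s2 : Squarefree (a * r * u2 * w2) := hs.squarefree_of_dvd (dvd_mul_right _ _)
  have huv := Nat.coprime_of_squarefree_mul s1
  have hu : Squarefree u1 := s1.squarefree_of_dvd (dvd_mul_right _ _)
  have hv : Squarefree w1 := s1.squarefree_of_dvd (dvd_mul_left _ _)
  have h1 := sum_crt (a * r * u2 * w2) (u1 * w1) (Nat.pos_of_ne_zero s2.ne_zero)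
    (Nat.pos_of_ne_zero s1.ne_zero) c0
    (fun m => iC (((m * x1 : ℤ) : ZMod a) = (h : ZMod a)) * iC (((m * x1 : ℤ) : ZMod r) = (h : ZMod r)) *
      DD u2 w2 c2 d2 (m * x2))
    (fun m => DD u1 w1 c1 d1 (m * x1))
    (fun m => by
      congr 1
      · congr 1
        · exact cl_per a h ⟨r * u2 * w2 * x1, by push_cast; ring⟩
        · exact cl_per r h ⟨a * u2 * w2 * x1, by push_cast; ring⟩
      · exact DD_per u2 w2 c2 d2 ⟨a * r * x2, by push_cast; ring⟩)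
    (fun m => DD_per u1 w1 c1 d1 ⟨x1, by push_cast; ring⟩)
  rw [DD_mean u1 w1 c1 d1 (Nat.pos_of_ne_zero hu.ne_zero) (Nat.pos_of_ne_zero hv.ne_zero) huv hc1 hd1, mul_zero] at h1
  rw [← h1]
  refine Finset.sum_congr rfl fun m _ => ?_
  unfold FF
  ring

/-- expansion into local conditions -/
theorem FF_expand (a r u1 u2 w1 w2 : ℕ) (h c1 c2 d1 d2 : ℤ) (x1 x2 t m : ℤ) (hx : x2 = x1 + t)
    (hs : Squarefree (a * r * u1 * u2 * w1 * w2)) :
    FF a r u1 u2 w1 w2 h c1 c2 d1 d2 x1 x2 m =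
      ∑ ξ : Option (Rs u1) × Option (Rs u2), ((wt u1 ξ.1 * wt u2 ξ.2 : ℝ) : ℂ) *
        (GG a h u1 u2 t ξ.1 ξ.2 w1 w2 d1 d2 x1 m *
        ∏ p ∈ (r * u1 * u2).primeFactors,
          loc p (AA h c1 c2 r u1 u2 ξ.1 ξ.2 p) (m * (if p ∣ u2 then x2 else x1))) := by
  have s6 : Squarefree (a * r * u1 * u2 * w1) := hs.squarefree_of_dvd (dvd_mul_right _ _)
  have s5 : Squarefree (a * r * u1 * u2) := s6.squarefree_of_dvd (dvd_mul_right _ _)
  have s4 : Squarefree (a * r * u1) := s5.squarefree_of_dvd (dvd_mul_right _ _)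
  have s3 : Squarefree (a * r) := s4.squarefree_of_dvd (dvd_mul_right _ _)
  have sr : Squarefree r := s3.squarefree_of_dvd (dvd_mul_left _ _)
  have su1 : Squarefree u1 := s4.squarefree_of_dvd (dvd_mul_left _ _)
  have su2 : Squarefree u2 := s5.squarefree_of_dvd (dvd_mul_left _ _)
  have c1' : r.Coprime u1 :=
    Nat.Coprime.coprime_dvd_left (dvd_mul_left _ _) (Nat.coprime_of_squarefree_mul s4)
  have c2' : (r * u1).Coprime u2 := by
    refine Nat.Coprime.coprime_dvd_left ?_ (Nat.coprime_of_squarefree_mul s5)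
    exact ⟨a, by ring⟩
  have cv1 : u1.Coprime w1 := by
    refine Nat.Coprime.coprime_dvd_left ?_ (Nat.coprime_of_squarefree_mul s6)
    exact ⟨a * r * u2, by ring⟩
  have cv2 : u2.Coprime w2 := by
    refine Nat.Coprime.coprime_dvd_left ?_ (Nat.coprime_of_squarefree_mul hs)
    exact ⟨a * r * u1 * w1, by ring⟩
  unfold FF
  rw [DD_expand u1 w1 c1 d1 su1 cv1, DD_expand u2 w2 c2 d2 su2 cv2, res_prod r sr, Fintype.sum_prod_type]
  rw [Finset.mul_sum]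
  symm
  rw [Finset.sum_comm]
  symm
  refine Finset.sum_congr rfl fun o2 _ => ?_
  rw [Finset.mul_sum, Finset.sum_mul]
  refine Finset.sum_congr rfl fun o1 _ => ?_
  rw [prod_split c1' c2']
  have nd : ∀ {A B : ℕ}, A.Coprime B → ∀ p ∈ A.primeFactors, ¬ p ∣ B := by
    intro A B hAB p hp hpB
    exact (Nat.prime_of_mem_primeFactors hp).one_lt.ne'
      (Nat.eq_one_of_dvd_coprimes hAB (Nat.dvd_of_mem_primeFactors hp) hpB)
  have c3 : r.Coprime u2 := Nat.Coprime.coprime_dvd_left (dvd_mul_right _ _) c2'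
  have c4 : u1.Coprime u2 := Nat.Coprime.coprime_dvd_left (dvd_mul_left _ _) c2'
  have e1 : ∏ p ∈ r.primeFactors, loc p (AA h c1 c2 r u1 u2 o1 o2 p) (m * (if p ∣ u2 then x2 else x1)) =
      ∏ p ∈ r.primeFactors, loc p (h : ZMod p) (m * x1) := by
    refine Finset.prod_congr rfl fun p hp => ?_
    rw [AA, if_pos (Nat.dvd_of_mem_primeFactors hp), if_neg (nd c3 p hp)]
  have e2 : ∏ p ∈ u1.primeFactors, loc p (AA h c1 c2 r u1 u2 o1 o2 p) (m * (if p ∣ u2 then x2 else x1)) =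
      ∏ p ∈ u1.primeFactors, loc p (cl c1 u1 o1 p) (m * x1) := by
    refine Finset.prod_congr rfl fun p hp => ?_
    rw [AA, if_neg (nd c1'.symm p hp), if_pos (Nat.dvd_of_mem_primeFactors hp), if_neg (nd c4 p hp)]
  have e3 : ∏ p ∈ u2.primeFactors, loc p (AA h c1 c2 r u1 u2 o1 o2 p) (m * (if p ∣ u2 then x2 else x1)) =
      ∏ p ∈ u2.primeFactors, loc p (cl c2 u2 o2 p) (m * x2) := by
    refine Finset.prod_congr rfl fun p hp => ?_
    rw [AA, if_neg (nd c3.symm p hp), if_neg (nd c4.symm p hp), if_pos (Nat.dvd_of_mem_primeFactors hp)]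
  rw [e1, e2, e3]
  unfold GG
  rw [hx]
  push_cast
  ring

theorem phase (a r u1 u2 : ℕ) (h c1 c2 : ℤ) (l : ℤ) (M : ℕ) (hs0 : Squarefree (a * r * u1 * u2))
    (hha : IsCoprime h (a : ℤ)) (hhr : IsCoprime h (r : ℤ)) (hc1 : IsCoprime c1 (u1 : ℤ)) (hc2 : IsCoprime c2 (u2 : ℤ)) :
    ∃ (n : ℕ) (ω : Fin n → ℝ) (A : Fin n → (p : ℕ) → ZMod p)
      (Z : Fin n → ℕ → ℕ → ℤ → ℤ → ℤ → ℤ → ℂ),
      (∑ ξ, |ω ξ| ≤ 4) ∧
      (∀ ξ (p : ℕ), p.Prime → p ∣ r * u1 * u2 → A ξ p ≠ 0) ∧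
      (∀ ξ w1 w2 d1 d2 k x, ‖Z ξ w1 w2 d1 d2 k x‖ ≤ 1) ∧
      (∀ ξ w1 w2 d1 d2 k x, Z ξ w1 w2 d1 d2 k (x + ((a * w1 * w2 : ℕ) : ℤ)) = Z ξ w1 w2 d1 d2 k x) ∧
      ∀ (w1 w2 : ℕ) (d1 d2 : ℤ), Squarefree (a * r * u1 * u2 * w1 * w2) → IsCoprime d1 (w1 : ℤ) →
        IsCoprime d2 (w2 : ℤ) →
      ∀ n1 n2 : ℕ, (n2 : ℤ) = n1 + l * ((a * r : ℕ) : ℤ) →
        ((∑ m ∈ Ioc M (2 * M), ind (Lr a r h ((m * n1 : ℕ) : ℤ)) * Dr u1 w1 c1 d1 ((m * n1 : ℕ) : ℤ) *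
          Dr u2 w2 c2 d2 ((m * n2 : ℕ) : ℤ) : ℝ) : ℂ) =
        ∑ ξ, (ω ξ : ℂ) * ∑ k ∈ freq (a * r * u1 * u2 * w1 * w2),
          Ih M (a * r * u1 * u2 * w1 * w2) k * Z ξ w1 w2 d1 d2 k n1 *
          PH (r * u1 * u2).primeFactors
            (fun p => (k : ZMod p) * ((a * r * u1 * u2 * w1 * w2 / p : ℕ) : ZMod p)⁻¹ * A ξ p)
            (fun p => if p ∣ u2 then ((l * ((a * r : ℕ) : ℤ) : ℤ) : ZMod p) else 0) n1 := by
  classical
  let e : Option (Rs u1) × Option (Rs u2) ≃ Fin (Fintype.card (Option (Rs u1) × Option (Rs u2))) :=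
    Fintype.equivFin _
  have s4 : Squarefree (a * r * u1) := hs0.squarefree_of_dvd (dvd_mul_right _ _)
  have su1 : Squarefree u1 := s4.squarefree_of_dvd (dvd_mul_left _ _)
  have su2 : Squarefree u2 := hs0.squarefree_of_dvd (dvd_mul_left _ _)
  have hAA : ∀ (o1 : Option (Rs u1)) (o2 : Option (Rs u2)) (p : ℕ), p.Prime → p ∣ r * u1 * u2 →
      AA h c1 c2 r u1 u2 o1 o2 p ≠ 0 := by
    intro o1 o2 p hp hd
    unfold AA
    split_ifs with h1 h2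
    · have := cl_ne h r hhr none hp h1
      simpa [cl] using this
    · exact cl_ne c1 u1 hc1 o1 hp h2
    · refine cl_ne c2 u2 hc2 o2 hp ?_
      rcases (Nat.Prime.dvd_mul hp).1 hd with h3 | h3
      · rcases (Nat.Prime.dvd_mul hp).1 h3 with h4 | h4
        · exact absurd h4 h1
        · exact absurd h4 h2
      · exact h3
  refine ⟨Fintype.card (Option (Rs u1) × Option (Rs u2)),
    fun i => wt u1 (e.symm i).1 * wt u2 (e.symm i).2,
    fun i => AA h c1 c2 r u1 u2 (e.symm i).1 (e.symm i).2,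
    fun i => ZZ a h r u1 u2 (l * ((a * r : ℕ) : ℤ)) (e.symm i).1 (e.symm i).2, ?_, ?_, ?_, ?_, ?_⟩
  · rw [Equiv.sum_comp e.symm (fun ξ => |wt u1 ξ.1 * wt u2 ξ.2|), Fintype.sum_prod_type]
    simp only [abs_mul]
    rw [← Finset.sum_mul_sum, wt_sum _ (Nat.pos_of_ne_zero su1.ne_zero), wt_sum _ (Nat.pos_of_ne_zero su2.ne_zero)]
    norm_num
  · intro i p hp hd
    exact hAA _ _ p hp hd
  · intro i w1 w2 d1 d2 k x
    exact ZZ_norm a h r u1 u2 _ _ _ w1 w2 d1 d2 k x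
  · intro i w1 w2 d1 d2 k x
    exact ZZ_per a h r u1 u2 _ _ _ w1 w2 d1 d2 k x
  · intro w1 w2 d1 d2 hs hd1 hd2 n1 n2 hn
    set t : ℤ := l * ((a * r : ℕ) : ℤ) with ht
    have hq0 : 0 < a * r * u1 * u2 * w1 * w2 := Nat.pos_of_ne_zero hs.ne_zero
    have : NeZero (a * r * u1 * u2 * w1 * w2) := ⟨hq0.ne'⟩
    have e0 : ((∑ m ∈ Ioc M (2 * M), ind (Lr a r h ((m * n1 : ℕ) : ℤ)) * Dr u1 w1 c1 d1 ((m * n1 : ℕ) : ℤ) *
          Dr u2 w2 c2 d2 ((m * n2 : ℕ) : ℤ) : ℝ) : ℂ) =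
        ∑ m ∈ Ioc M (2 * M), FF a r u1 u2 w1 w2 h c1 c2 d1 d2 n1 n2 m := by
      rw [Complex.ofReal_sum]
      exact Finset.sum_congr rfl fun m _ => FF_eq a r u1 u2 w1 w2 h c1 c2 d1 d2 m n1 n2
    rw [e0, fourier _ M hq0 (FF a r u1 u2 w1 w2 h c1 c2 d1 d2 n1 n2)
        (FF_per a r u1 u2 w1 w2 h c1 c2 d1 d2 n1 n2),
      freq0_eq _ hq0, Finset.sum_insert (zero_notin_freq _)]
    have e1 : ∑ j ∈ range (a * r * u1 * u2 * w1 * w2), FF a r u1 u2 w1 w2 h c1 c2 d1 d2 n1 n2 j *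
        ec (a * r * u1 * u2 * w1 * w2)
          ((((0 : ℤ)) : ZMod (a * r * u1 * u2 * w1 * w2)) * ((j : ℕ) : ZMod _)) = 0 := by
      rw [← FF_mean a r u1 u2 w1 w2 h c1 c2 d1 d2 n1 n2 hs hc1 hd1]
      refine Finset.sum_congr rfl fun j _ => ?_
      rw [Int.cast_zero, zero_mul, ec_zero, mul_one]
    rw [e1, mul_zero, zero_add]
    have e2 : ∀ k ∈ freq (a * r * u1 * u2 * w1 * w2),
        ∑ j ∈ range (a * r * u1 * u2 * w1 * w2), FF a r u1 u2 w1 w2 h c1 c2 d1 d2 n1 n2 j *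
        ec (a * r * u1 * u2 * w1 * w2)
          ((k : ZMod (a * r * u1 * u2 * w1 * w2)) * ((j : ℕ) : ZMod _)) =
        ∑ ξ : Option (Rs u1) × Option (Rs u2), ((wt u1 ξ.1 * wt u2 ξ.2 : ℝ) : ℂ) *
          (ZZ a h r u1 u2 t ξ.1 ξ.2 w1 w2 d1 d2 k n1 *
          PH (r * u1 * u2).primeFactors
          (fun p => (k : ZMod p) * ((a * r * u1 * u2 * w1 * w2 / p : ℕ) : ZMod p)⁻¹ *
            AA h c1 c2 r u1 u2 ξ.1 ξ.2 p)
          (fun p => if p ∣ u2 then (t : ZMod p) else 0) n1) := by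
      intro k _
      have e3 : ∀ j : ℕ, FF a r u1 u2 w1 w2 h c1 c2 d1 d2 n1 n2 j *
        ec (a * r * u1 * u2 * w1 * w2)
          ((k : ZMod (a * r * u1 * u2 * w1 * w2)) * ((j : ℕ) : ZMod _)) =
          ∑ ξ : Option (Rs u1) × Option (Rs u2), ((wt u1 ξ.1 * wt u2 ξ.2 : ℝ) : ℂ) *
        (GG a h u1 u2 t ξ.1 ξ.2 w1 w2 d1 d2 n1 j *
        (∏ p ∈ (r * u1 * u2).primeFactors,
          loc p (AA h c1 c2 r u1 u2 ξ.1 ξ.2 p) (j * (if p ∣ u2 then (n2 : ℤ) else (n1 : ℤ)))) *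
          ec (a * r * u1 * u2 * w1 * w2)
          ((k : ZMod (a * r * u1 * u2 * w1 * w2)) * ((j : ℕ) : ZMod _))) := by
        intro j
        rw [FF_expand a r u1 u2 w1 w2 h c1 c2 d1 d2 n1 n2 t j hn hs, Finset.sum_mul]
        refine Finset.sum_congr rfl fun ξ _ => ?_
        ring
      rw [Finset.sum_congr rfl (fun j _ => e3 j), Finset.sum_comm]
      refine Finset.sum_congr rfl fun ξ _ => ?_
      rw [← Finset.mul_sum]
      congr 1
      have hq1s : Squarefree (a * w1 * w2) :=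
        hs.squarefree_of_dvd ⟨r * u1 * u2, by ring⟩
      have hd2s : Squarefree (r * u1 * u2) :=
        hs.squarefree_of_dvd ⟨a * w1 * w2, by ring⟩
      have hqq : a * r * u1 * u2 * w1 * w2 =
          (a * w1 * w2) * ∏ p ∈ (r * u1 * u2).primeFactors, p := by
        rw [prod_pf hd2s]; ring
      have hcc : ∀ p ∈ (r * u1 * u2).primeFactors, Nat.Coprime (a * w1 * w2) p := by
        intro p hp
        have h1 : Squarefree ((a * w1 * w2) * (r * u1 * u2)) :=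
          hs.squarefree_of_dvd ⟨1, by ring⟩
        exact Nat.Coprime.coprime_dvd_right (Nat.dvd_of_mem_primeFactors hp) (Nat.coprime_of_squarefree_mul h1)
      have h3 := sum_crt_primes' (r * u1 * u2).primeFactors
        (fun p hp => Nat.prime_of_mem_primeFactors hp) (a * w1 * w2)
        (Nat.pos_of_ne_zero hq1s.ne_zero) hcc (GG a h u1 u2 t ξ.1 ξ.2 w1 w2 d1 d2 n1)
        (fun m => GG_per_m a h u1 u2 t ξ.1 ξ.2 w1 w2 d1 d2 n1 m)
        (fun p m => loc p (AA h c1 c2 r u1 u2 ξ.1 ξ.2 p) (m * (if p ∣ u2 then (n2 : ℤ) else (n1 : ℤ))))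
        (fun p _ m => loc_per p _ ⟨(if p ∣ u2 then (n2 : ℤ) else (n1 : ℤ)), by ring⟩) k _ hqq
      rw [h3]
      have s12 : Squarefree (a * w1) := hq1s.squarefree_of_dvd (dvd_mul_right _ _)
      have hgood : Good a w1 w2 h d1 d2 :=
        ⟨Nat.pos_of_ne_zero (s12.squarefree_of_dvd (dvd_mul_right _ _)).ne_zero,
          Nat.pos_of_ne_zero (s12.squarefree_of_dvd (dvd_mul_left _ _)).ne_zero,
          Nat.pos_of_ne_zero (hq1s.squarefree_of_dvd (dvd_mul_left _ _)).ne_zero,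
          Nat.coprime_of_squarefree_mul s12, Nat.coprime_of_squarefree_mul hq1s, hha, hd1, hd2⟩
      congr 1
      · rw [ZZ, if_pos hgood]
      · unfold PH
        refine Finset.prod_congr rfl fun p hp => ?_
        have hpp := Nat.prime_of_mem_primeFactors hp
        refine loc_sum p hpp (AA h c1 c2 r u1 u2 ξ.1 ξ.2 p) (if p ∣ u2 then (t : ZMod p) else 0) _
          (hAA _ _ p hpp (Nat.dvd_of_mem_primeFactors hp)) n1 _ ?_
        split_ifs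
        · rw [hn]; push_cast; rfl
        · simp
    have e4 : ∑ k ∈ freq (a * r * u1 * u2 * w1 * w2),
        Ih M (a * r * u1 * u2 * w1 * w2) k *
        ∑ j ∈ range (a * r * u1 * u2 * w1 * w2), FF a r u1 u2 w1 w2 h c1 c2 d1 d2 n1 n2 j *
        ec (a * r * u1 * u2 * w1 * w2)
          ((k : ZMod (a * r * u1 * u2 * w1 * w2)) * ((j : ℕ) : ZMod _)) =
        ∑ ξ : Option (Rs u1) × Option (Rs u2), ((wt u1 ξ.1 * wt u2 ξ.2 : ℝ) : ℂ) *
          ∑ k ∈ freq (a * r * u1 * u2 * w1 * w2),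
          Ih M (a * r * u1 * u2 * w1 * w2) k *
          ZZ a h r u1 u2 t ξ.1 ξ.2 w1 w2 d1 d2 k n1 *
          PH (r * u1 * u2).primeFactors
          (fun p => (k : ZMod p) * ((a * r * u1 * u2 * w1 * w2 / p : ℕ) : ZMod p)⁻¹ *
            AA h c1 c2 r u1 u2 ξ.1 ξ.2 p)
          (fun p => if p ∣ u2 then (t : ZMod p) else 0) n1 := by
      rw [Finset.sum_congr rfl (fun k hk => by rw [e2 k hk, Finset.mul_sum])]
      rw [Finset.sum_comm]
      refine Finset.sum_congr rfl fun ξ _ => ?_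
      rw [Finset.mul_sum]
      refine Finset.sum_congr rfl fun k _ => ?_
      ring
    rw [e4]
    rw [← Equiv.sum_comp e.symm]

end Pool.Agent.R503.N
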