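import Mathlib
import Pool.Agent.Y826.Z.Main
import Pool.Agent.R503.N.Ph

/-! The off-diagonal terms for fixed outer variables, separate classes (helper503).
Adapted from `Pool.Agent.Y535.ZP.OA`. -/

open Finset Filter

namespace Pool.Agent.R503.N

open Pool.Agent.Y826.Z Pool.Agent.Y535.ZP

/-- one-tuples -/
abbrev Tp := Fin 1 → ℕ

theorem oa (ε : ℝ) (hε : 0 < ε) : ∃ C : ℝ, 1 ≤ C ∧
    ∀ (X : ℝ) (M N : ℕ) (a r u1 u2 e1 e2 : ℕ) (h c1 c2 : ℤ) (l : ℤ) (SV : Finset Tp)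
      (d1 d2 : Tp → ℤ) (κ : Tp → Tp → ℝ) (V1 q0 b0 : ℝ) (β : ℕ → ℝ),
    1 ≤ X → 1 ≤ N → (N : ℝ) ≤ X → (M : ℝ) ≤ X → Squarefree (a * r * u1 * u2) →
    IsCoprime h (a : ℤ) → IsCoprime h (r : ℤ) → IsCoprime c1 (u1 : ℤ) → IsCoprime c2 (u2 : ℤ) →
    (∀ v ∈ SV, (Pr v : ℝ) ≤ V1) → (a * e1 * e2 : ℝ) * V1 ^ 4 ≤ N → 0 < q0 → (∀ v1 v2, |κ v1 v2| ≤ 1) →
    (∀ v1 ∈ SV, ∀ v2 ∈ SV, κ v1 v2 ≠ 0 →
      Squarefree (a * r * u1 * u2 * (e1 * Pr v1) * (e2 * Pr v2)) ∧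
      IsCoprime (d1 v1) ((e1 * Pr v1 : ℕ) : ℤ) ∧ IsCoprime (d2 v2) ((e2 * Pr v2 : ℕ) : ℤ) ∧
      q0 ≤ ((a * r * u1 * u2 * (e1 * Pr v1) * (e2 * Pr v2) : ℕ) : ℝ) ∧
      ((a * r * u1 * u2 * (e1 * Pr v1) * (e2 * Pr v2) : ℕ) : ℝ) ≤ X) →
    (∀ n ∈ Ioc N (2 * N), |β n| ≤ b0) →
    |∑ v1 ∈ SV, ∑ v2 ∈ SV, κ v1 v2 * ∑ n1 ∈ Ioc N (2 * N), ∑ n2 ∈ Ioc N (2 * N),
        ind ((n2 : ℤ) = n1 + l * ((a * r : ℕ) : ℤ)) * (β n1 * β n2 *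
          ∑ m ∈ Ioc M (2 * M), ind (Lr a r h ((m * n1 : ℕ) : ℤ)) *
            Dr u1 (e1 * Pr v1) c1 (d1 v1) ((m * n1 : ℕ) : ℤ) *
            Dr u2 (e2 * Pr v2) c2 (d2 v2) ((m * n2 : ℕ) : ℤ))| ≤
      C * X ^ ε * b0 ^ 2 * ∑ i ∈ range (Nat.log 2 ⌊X⌋₊ + 2), min (M / q0) (1 / (2 : ℝ) ^ i) *
        Real.sqrt (N * (N * (((Ix i SV ×ˢ Ix i SV).filter (fun p => Dt p.1 p.2 = 0)).card : ℝ) +
          ∑ p ∈ (Ix i SV ×ˢ Ix i SV).filter (fun p => Dt p.1 p.2 ≠ 0),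
            Bd N ((a * e1 * e2 : ℝ) * V1 ^ 4) ((r * u1 * u2 : ℕ) : ℝ)
              (Int.gcd (Dt p.1 p.2) ((r * u1 * u2 : ℕ) : ℤ)))) := by
  classical
  obtain ⟨C, hC, hV⟩ := s_vdc ε hε
  refine ⟨4 * Real.sqrt C, ?_, ?_⟩
  · have : 1 ≤ Real.sqrt C := by
      rw [show (1 : ℝ) = Real.sqrt 1 by simp]; exact Real.sqrt_le_sqrt hC
    linarith
  intro X M N a r u1 u2 e1 e2 h c1 c2 l SV d1 d2 κ V1 q0 b0 β hX hN hNX hMX hsf hha hhr hc1 hc2 hSV hW hq0 hκ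
    hκ2 hβ
  obtain ⟨nn, ω, A, Z, hω, hA, hZ1, hZ2, hR⟩ := phase a r u1 u2 h c1 c2 l M hsf hha hhr hc1 hc2
  have hb0 : 0 ≤ b0 := (abs_nonneg _).trans (hβ (N + 1) (by rw [mem_Ioc]; omega))
  set t : ℤ := l * ((a * r : ℕ) : ℤ) with ht
  set c : (p : ℕ) → ZMod p := fun p => if p ∣ u2 then ((t : ℤ) : ZMod p) else 0 with hc
  set BB : ℕ → ℝ := Bf N β t with hBB
  have hBBle : ∀ n ∈ Ioc N (2 * N), |BB n| ≤ b0 ^ 2 := fun n hn => Bf_le N β t b0 hb0 hβ n hn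
  set T0 : ℕ := a * e1 * e2 with hT0
  set Pi : ℕ := r * u1 * u2 with hPi
  have hq : ∀ v1 v2 : Tp, a * r * u1 * u2 * (e1 * Pr v1) * (e2 * Pr v2) =
      T0 * Pi * (Pr v1 * Pr v2) := by
    intro v1 v2
    rw [hT0, hPi]; ring
  have hT0c : (a * e1 * e2 : ℝ) = (T0 : ℝ) := by rw [hT0]; push_cast; ring
  rw [hT0c] at hW
  simp only [hq] at hκ2
  rw [hT0c]
  set RHS := ∑ i ∈ range (Nat.log 2 ⌊X⌋₊ + 2), min (M / q0) (1 / (2 : ℝ) ^ i) *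
      Real.sqrt (N * (N * (((Ix i SV ×ˢ Ix i SV).filter (fun p => Dt p.1 p.2 = 0)).card : ℝ) +
        ∑ p ∈ (Ix i SV ×ˢ Ix i SV).filter (fun p => Dt p.1 p.2 ≠ 0),
          Bd N ((T0 : ℝ) * V1 ^ 4) (Pi : ℝ) (Int.gcd (Dt p.1 p.2) (Pi : ℤ)))) with hRHS
  have hZp : ∀ (ξ : Fin nn) (v1 v2 : Tp) (k x : ℤ), Z ξ (e1 * Pr v1) (e2 * Pr v2) (d1 v1) (d2 v2) k
      (x + ((T0 * (Pr v1 * Pr v2) : ℕ) : ℤ)) = Z ξ (e1 * Pr v1) (e2 * Pr v2) (d1 v1) (d2 v2) k x := by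
    intro ξ v1 v2 k x
    rw [← hZ2 ξ (e1 * Pr v1) (e2 * Pr v2) (d1 v1) (d2 v2) k x]
    congr 3
    rw [hT0]; ring
  set E : Fin nn → ℂ := fun ξ => ∑ v1 ∈ SV, ∑ v2 ∈ SV, (κ v1 v2 : ℂ) *
      ∑ k ∈ freq (T0 * Pi * (Pr v1 * Pr v2)), Ih M (T0 * Pi * (Pr v1 * Pr v2)) k *
        ∑ n ∈ Ioc N (2 * N), (BB n : ℂ) * (Z ξ (e1 * Pr v1) (e2 * Pr v2) (d1 v1) (d2 v2) k (n : ℤ) *
          PH Pi.primeFactors
          (fun p => (k : ZMod p) *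
            ((T0 * Pi * (Pr v1 * Pr v2) / p : ℕ) : ZMod p)⁻¹ * A ξ p)
          c (n : ℤ)) with hE
  have hEle : ∀ ξ, ‖E ξ‖ ≤ (Real.sqrt C * X ^ ε) * b0 ^ 2 * RHS := by
    intro ξ
    exact one hε hC hV T0 Pi M N X V1 q0 b0 (A ξ) c
      (fun v1 v2 => Z ξ (e1 * Pr v1) (e2 * Pr v2) (d1 v1) (d2 v2)) SV κ BB
      hX hN hNX hSV (hA ξ) (fun v1 v2 => hZ1 ξ (e1 * Pr v1) (e2 * Pr v2) (d1 v1) (d2 v2)) (hZp ξ) hW hq0 hκ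
      (fun v1 h1 v2 h2 h3 => ⟨(hκ2 v1 h1 v2 h2 h3).1, (hκ2 v1 h1 v2 h2 h3).2.2.2.1,
        (hκ2 v1 h1 v2 h2 h3).2.2.2.2⟩) hBBle
  set T := ∑ v1 ∈ SV, ∑ v2 ∈ SV, κ v1 v2 * ∑ n1 ∈ Ioc N (2 * N), ∑ n2 ∈ Ioc N (2 * N),
      ind ((n2 : ℤ) = n1 + t) * (β n1 * β n2 *
        ∑ m ∈ Ioc M (2 * M), ind (Lr a r h ((m * n1 : ℕ) : ℤ)) *
            Dr u1 (e1 * Pr v1) c1 (d1 v1) ((m * n1 : ℕ) : ℤ) *
            Dr u2 (e2 * Pr v2) c2 (d2 v2) ((m * n2 : ℕ) : ℤ)) with hT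
  have hTE : (T : ℂ) = ∑ ξ, (ω ξ : ℂ) * E ξ := by
    have e0 : ∑ ξ, (ω ξ : ℂ) * E ξ = ∑ v1 ∈ SV, ∑ v2 ∈ SV, (κ v1 v2 : ℂ) *
        ∑ n ∈ Ioc N (2 * N), (BB n : ℂ) * ∑ ξ, (ω ξ : ℂ) *
          ∑ k ∈ freq (T0 * Pi * (Pr v1 * Pr v2)),
            Ih M (T0 * Pi * (Pr v1 * Pr v2)) k * Z ξ (e1 * Pr v1) (e2 * Pr v2) (d1 v1) (d2 v2) k (n : ℤ) *
            PH Pi.primeFactors
            (fun p => (k : ZMod p) *
              ((T0 * Pi * (Pr v1 * Pr v2) / p : ℕ) : ZMod p)⁻¹ * A ξ p)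
            c (n : ℤ) := by
      simp only [hE]
      simp only [mul_sum]
      rw [sum_comm]
      apply sum_congr rfl; intro v1 _
      rw [sum_comm]
      apply sum_congr rfl; intro v2 _
      rw [sum_comm' (s := univ) (t := fun _ => freq (T0 * Pi * (Pr v1 * Pr v2)))
        (t' := freq (T0 * Pi * (Pr v1 * Pr v2))) (s' := fun _ => univ)
        (by simp)]
      rw [sum_comm' (s := Ioc N (2 * N)) (t := fun _ => univ) (t' := univ)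
        (s' := fun _ => Ioc N (2 * N)) (by simp)]
      rw [sum_comm]
      apply sum_congr rfl; intro ξ _
      rw [sum_comm]
      apply sum_congr rfl; intro n _
      apply sum_congr rfl; intro k _
      ring
    rw [e0, hT]
    push_cast
    apply sum_congr rfl; intro v1 hv1
    apply sum_congr rfl; intro v2 hv2
    by_cases hk : κ v1 v2 = 0
    · rw [hk]; simp
    congr 1
    apply sum_congr rfl; intro n1 hn1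
    obtain ⟨hsq, hd1, hd2, -, -⟩ := hκ2 v1 hv1 v2 hv2 hk
    simp only [hBB, Bf]
    push_cast
    rw [sum_mul]
    apply sum_congr rfl; intro n2 hn2
    by_cases hn : (n2 : ℤ) = n1 + t
    · have hr := hR (e1 * Pr v1) (e2 * Pr v2) (d1 v1) (d2 v2) (by rw [hq]; exact hsq) hd1 hd2 n1 n2 hn
      simp only [hq] at hr
      push_cast at hr
      rw [hr]
      ring
    · have : ind ((n2 : ℤ) = n1 + t) = 0 := by unfold ind; rw [if_neg hn]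
      rw [this]; simp
  have hfin : |T| ≤ 4 * ((Real.sqrt C * X ^ ε) * b0 ^ 2 * RHS) := by
    have h1 : |T| = ‖(T : ℂ)‖ := by rw [Complex.norm_real, Real.norm_eq_abs]
    rw [h1, hTE]
    refine (norm_sum_le _ _).trans ?_
    have h0 : 0 ≤ (Real.sqrt C * X ^ ε) * b0 ^ 2 * RHS := by
      rw [hRHS]
      apply mul_nonneg
      · have := Real.rpow_nonneg (by linarith : (0 : ℝ) ≤ X) ε
        positivity
      · apply sum_nonneg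
        intro i _
        apply mul_nonneg _ (Real.sqrt_nonneg _)
        apply le_min <;> positivity
    calc ∑ ξ, ‖(ω ξ : ℂ) * E ξ‖ ≤ ∑ ξ, |ω ξ| * ((Real.sqrt C * X ^ ε) * b0 ^ 2 * RHS) := by
          apply sum_le_sum
          intro ξ _
          rw [norm_mul, Complex.norm_real, Real.norm_eq_abs]
          exact mul_le_mul_of_nonneg_left (hEle ξ) (abs_nonneg _)
      _ = (∑ ξ, |ω ξ|) * ((Real.sqrt C * X ^ ε) * b0 ^ 2 * RHS) := by rw [sum_mul]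
      _ ≤ 4 * ((Real.sqrt C * X ^ ε) * b0 ^ 2 * RHS) := mul_le_mul_of_nonneg_right hω h0
  refine hfin.trans (le_of_eq ?_)
  ring

end Pool.Agent.R503.N
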