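import Mathlib
import Pool.Agent.R503.N.OA

/-! Off-diagonal terms for one left modulus (helper503). Preparations. -/

open Finset Filter

namespace Pool.Agent.R503.N

open Pool.Agent.Y826.Z Pool.Agent.Y826.Z.OB

/-- sums over the pairs of indices of functions of the determinant -/
lemma sum_Dt (i : ℕ) (SV : Finset Tp) (V1 Λ : ℝ) (h0 : ∀ v ∈ SV, Pr v ≠ 0) (hV : ∀ v ∈ SV, (Pr v : ℝ) ≤ V1)
    (hΛ : ∀ n : ℕ, n ≠ 0 → (n : ℝ) ≤ 2 ^ (i + 1) * V1 ^ 2 → tau n ^ 2 ≤ Λ) (f : ℕ → ℝ) (hf : ∀ n, 0 ≤ f n) :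
    ∑ p ∈ (Ix i SV ×ˢ Ix i SV).filter (fun p => Dt p.1 p.2 ≠ 0), f (Dt p.1 p.2).natAbs ≤
      Λ * (2 ^ (i + 2) * (SV.card : ℝ) ^ 2) * (2 * ∑ D ∈ Icc 1 ⌊2 * (2 ^ (i + 1) * V1 ^ 2)⌋₊, f D) := by
  classical
  set T := (Ix i SV ×ˢ Ix i SV).filter (fun p => Dt p.1 p.2 ≠ 0) with hT
  set Dm := ⌊2 * (2 ^ (i + 1) * V1 ^ 2)⌋₊ with hDm
  set DS : Finset ℤ := (Icc (-(Dm : ℤ)) Dm).filter (fun d => d ≠ 0) with hDS
  set φ : ((ℤ × Tp × Tp) × (ℤ × Tp × Tp)) → ℤ × (ℤ × Tp × Tp) :=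
    fun p => (Dt p.1 p.2, (p.2.1, p.1.2)) with hφ
  have hmaps : ∀ p ∈ T, φ p ∈ DS ×ˢ Ix i SV := by
    intro p hp
    rw [hT, Finset.mem_filter] at hp
    obtain ⟨hp1, hp2⟩ := hp
    have hle := Dt_le i SV V1 hV p hp1
    rw [Finset.mem_product] at hp1 ⊢
    refine ⟨?_, ?_⟩
    · rw [hDS, Finset.mem_filter, Finset.mem_Icc]
      have h1 : (Dt p.1 p.2).natAbs ≤ Dm := Nat.le_floor hle
      refine ⟨?_, hp2⟩
      show -(Dm : ℤ) ≤ Dt p.1 p.2 ∧ Dt p.1 p.2 ≤ Dm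
      omega
    · have h1 := hp1.1
      have h2 := hp1.2
      rw [OB.Ix_eq, Finset.mem_product] at h1 h2 ⊢
      exact ⟨h2.1, h1.2⟩
  rw [← Finset.sum_fiberwise_of_maps_to hmaps]
  have hfib : ∀ y ∈ DS ×ˢ Ix i SV, ∑ p ∈ T.filter (fun p => φ p = y), f (Dt p.1 p.2).natAbs ≤
      Λ * f y.1.natAbs := by
    intro y hy
    rw [Finset.mem_product] at hy
    -- the value of k * v1' * v2'
    set z : ℤ := y.1 + y.2.1 * ((Pr y.2.2.1 * Pr y.2.2.2 : ℕ) : ℤ) with hz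
    have hval : ∀ p ∈ T.filter (fun p => φ p = y), f (Dt p.1 p.2).natAbs = f y.1.natAbs := by
      intro p hp
      rw [Finset.mem_filter] at hp
      rw [← hp.2]
    rw [Finset.sum_congr rfl hval, Finset.sum_const, nsmul_eq_mul]
    apply mul_le_mul_of_nonneg_right _ (hf _)
    by_cases hemp : (T.filter (fun p => φ p = y)) = ∅
    · rw [hemp]
      simp only [Finset.card_empty, Nat.cast_zero]
      refine le_trans ?_ (hΛ 1 one_ne_zero ?_)
      · positivity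
      · -- needs 1 ≤ 2^(i+1) V1^2
        have hy2 := hy.2
        rw [OB.Ix_eq, Finset.mem_product, Finset.mem_product] at hy2
        have h5 : (1 : ℝ) ≤ V1 := by
          have h6 := h0 _ hy2.2.1
          have h7 : (1 : ℝ) ≤ (Pr y.2.2.1 : ℝ) := by
            exact_mod_cast Nat.one_le_iff_ne_zero.2 h6
          exact h7.trans (hV _ hy2.2.1)
        have h8 : (1 : ℝ) ≤ V1 ^ 2 := one_le_pow₀ h5
        have h9 : (1 : ℝ) ≤ 2 ^ (i + 1) := one_le_pow₀ (by norm_num)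
        push_cast
        nlinarith
    obtain ⟨p0, hp0⟩ := Finset.nonempty_iff_ne_empty.2 hemp
    -- facts for members of the fibre
    have hmem : ∀ p ∈ T.filter (fun p => φ p = y), p.1.1 * ((Pr p.2.2.1 * Pr p.2.2.2 : ℕ) : ℤ) = z ∧
        p.1.1 ∈ Kx i ∧ p.2.2.1 ∈ SV ∧ p.2.2.2 ∈ SV ∧ p.2.1 = y.2.1 ∧ p.1.2 = y.2.2 := by
      intro p hp
      rw [Finset.mem_filter, hT, Finset.mem_filter, Finset.mem_product] at hp
      obtain ⟨⟨⟨h1, h2⟩, h3⟩, h4⟩ := hp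
      rw [OB.Ix_eq, Finset.mem_product, Finset.mem_product] at h1 h2
      have e1 : Dt p.1 p.2 = y.1 := congrArg Prod.fst h4
      have e2 : p.2.1 = y.2.1 := congrArg (fun q => q.2.1) h4
      have e3 : p.1.2 = y.2.2 := congrArg (fun q => q.2.2) h4
      refine ⟨?_, h1.1, h2.2.1, h2.2.2, e2, e3⟩
      rw [hz, ← e1, ← e2, ← e3]
      unfold Dt
      ring
    obtain ⟨hz0, hk0, hv01, hv02, -, -⟩ := hmem p0 hp0
    have hzne : z ≠ 0 := by
      rw [← hz0]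
      apply mul_ne_zero (Kx_ne hk0)
      exact_mod_cast mul_ne_zero (h0 _ hv01) (h0 _ hv02)
    have hzle : (z.natAbs : ℝ) ≤ 2 ^ (i + 1) * V1 ^ 2 := by
      have h1 : ((z.natAbs : ℕ) : ℝ) = |(z : ℝ)| := by
        rw [← Int.cast_abs, Int.abs_eq_natAbs]; simp
      rw [h1, ← hz0]
      push_cast
      rw [abs_mul]
      have h2 := Kx_le hk0
      have h3 : |(Pr p0.2.2.1 : ℝ) * (Pr p0.2.2.2 : ℝ)| ≤ V1 ^ 2 := by
        rw [abs_of_nonneg (by positivity), sq]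
        exact mul_le_mul (hV _ hv01) (hV _ hv02) (by positivity) (le_trans (by positivity) (hV _ hv01))
      exact mul_le_mul h2 h3 (abs_nonneg _) (by positivity)
    have hτ := hΛ z.natAbs (Int.natAbs_ne_zero.2 hzne) hzle
    refine le_trans ?_ hτ
    -- injection into pairs of divisors
    have hinj : ((T.filter (fun p => φ p = y)).card : ℝ) ≤
        ((z.natAbs.divisors ×ˢ z.natAbs.divisors).card : ℝ) := by
      apply Nat.cast_le.2
      refine Finset.card_le_card_of_injOn (fun p => (Pr p.2.2.1, Pr p.2.2.2)) ?_ ?_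
      · intro p hp
        obtain ⟨g1, g2, g3, g4, -, -⟩ := hmem p hp
        have hd : ∀ n : ℕ, (n : ℤ) ∣ z → n ∈ z.natAbs.divisors := by
          intro n hn
          rw [Nat.mem_divisors]
          exact ⟨Int.natCast_dvd.1 hn, Int.natAbs_ne_zero.2 hzne⟩
        show (Pr p.2.2.1, Pr p.2.2.2) ∈ z.natAbs.divisors ×ˢ z.natAbs.divisors
        rw [Finset.mem_product]
        refine ⟨hd _ ?_, hd _ ?_⟩
        · rw [← g1]; push_cast
          exact ⟨p.1.1 * (Pr p.2.2.2 : ℤ), by ring⟩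
        · rw [← g1]; push_cast
          exact ⟨p.1.1 * (Pr p.2.2.1 : ℤ), by ring⟩
      · intro p hp q hq hpq
        obtain ⟨g1, g2, g3, g4, g5, g6⟩ := hmem p hp
        obtain ⟨k1, k2, k3, k4, k5, k6⟩ := hmem q hq
        simp only [Prod.mk.injEq] at hpq
        have ePr : ∀ v w : Tp, Pr v = Pr w → v = w := by
          intro v w hvw
          unfold Pr at hvw
          simp at hvw
          funext j
          rw [Subsingleton.elim j 0]
          exact hvw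
        have e1 := ePr _ _ hpq.1
        have e2 := ePr _ _ hpq.2
        have hne : ((Pr p.2.2.1 * Pr p.2.2.2 : ℕ) : ℤ) ≠ 0 := by
          exact_mod_cast mul_ne_zero (h0 _ g3) (h0 _ g4)
        have e3 : p.1.1 = q.1.1 := by
          apply mul_right_cancel₀ hne
          rw [g1, ← k1, hpq.1, hpq.2]
        refine Prod.ext (Prod.ext e3 (by rw [g6, k6])) (Prod.ext (by rw [g5, k5]) (Prod.ext e1 e2))
    refine hinj.trans (le_of_eq ?_)
    rw [Finset.card_product]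
    unfold tau
    push_cast
    ring
  refine (Finset.sum_le_sum hfib).trans ?_
  rw [← Finset.mul_sum, Finset.sum_product]
  simp only [Finset.sum_const, nsmul_eq_mul]
  rw [← Finset.mul_sum]
  have hDSsum : ∑ d ∈ DS, f d.natAbs ≤ 2 * ∑ D ∈ Icc 1 Dm, f D := by
    have hsplit : DS ⊆ (Icc 1 Dm).image (fun n : ℕ => (n : ℤ)) ∪ (Icc 1 Dm).image (fun n : ℕ => -(n : ℤ)) := by
      intro d hd
      rw [hDS, Finset.mem_filter, Finset.mem_Icc] at hd
      rw [Finset.mem_union, Finset.mem_image, Finset.mem_image]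
      rcases lt_or_gt_of_ne hd.2 with h | h
      · right
        refine ⟨d.natAbs, ?_, ?_⟩
        · rw [Finset.mem_Icc]; omega
        · omega
      · left
        refine ⟨d.natAbs, ?_, ?_⟩
        · rw [Finset.mem_Icc]; omega
        · omega
    refine (Finset.sum_le_sum_of_subset_of_nonneg hsplit (fun d _ _ => hf _)).trans ?_
    have e0 := Finset.sum_union_inter (s₁ := (Icc 1 Dm).image (fun n : ℕ => (n : ℤ)))
      (s₂ := (Icc 1 Dm).image (fun n : ℕ => -(n : ℤ))) (f := fun d : ℤ => f d.natAbs)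
    have e1 : ∑ d ∈ (Icc 1 Dm).image (fun n : ℕ => (n : ℤ)), f d.natAbs = ∑ D ∈ Icc 1 Dm, f D := by
      rw [Finset.sum_image (fun x _ y _ hxy => by exact_mod_cast hxy)]
      simp
    have e2 : ∑ d ∈ (Icc 1 Dm).image (fun n : ℕ => -(n : ℤ)), f d.natAbs = ∑ D ∈ Icc 1 Dm, f D := by
      rw [Finset.sum_image (fun x _ y _ hxy => by
        have : (x : ℤ) = y := neg_injective hxy
        exact_mod_cast this)]
      simp
    have e3 : 0 ≤ ∑ d ∈ (Icc 1 Dm).image (fun n : ℕ => (n : ℤ)) ∩ (Icc 1 Dm).image (fun n : ℕ => -(n : ℤ)),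
        f d.natAbs := Finset.sum_nonneg fun d _ => hf _
    linarith
  have hcard := card_Ix i SV
  have hS0 : 0 ≤ ∑ d ∈ DS, f d.natAbs := Finset.sum_nonneg fun d _ => hf _
  by_cases hSV : SV.Nonempty
  · obtain ⟨v0, hv0⟩ := hSV
    have h5 : (1 : ℝ) ≤ V1 := by
      have h7 : (1 : ℝ) ≤ (Pr v0 : ℝ) := by
        exact_mod_cast Nat.one_le_iff_ne_zero.2 (h0 _ hv0)
      exact h7.trans (hV _ hv0)
    have h8 : (1 : ℝ) ≤ V1 ^ 2 := one_le_pow₀ h5
    have h9 : (1 : ℝ) ≤ 2 ^ (i + 1) := one_le_pow₀ (by norm_num)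
    have hΛ1 : 0 ≤ Λ := le_trans (by positivity) (hΛ 1 one_ne_zero (by push_cast; nlinarith))
    calc Λ * (((Ix i SV).card : ℝ) * ∑ x ∈ DS, f x.natAbs)
        ≤ Λ * ((2 ^ (i + 2) * (SV.card : ℝ) ^ 2) * (2 * ∑ D ∈ Icc 1 Dm, f D)) := by gcongr
      _ = Λ * (2 ^ (i + 2) * (SV.card : ℝ) ^ 2) * (2 * ∑ D ∈ Icc 1 Dm, f D) := by ring
  · rw [Finset.not_nonempty_iff_eq_empty] at hSV
    subst hSV
    simp [Ix]

end Pool.Agent.R503.N
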