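import Mathlib
import Pool.Agent.R503.N.OffB
import Pool.Agent.Y61.Z.TII

/-! Counting lemmas for the trivial part (helper503). -/

open Finset

namespace Pool.Agent.R503.N

open Pool.Agent.Y826.Z Pool.Agent.Y826.Z.OB

/-- integers in `[1, Y]` which are pairwise congruent mod `q` -/
lemma card_cls (Y q : ℕ) (hq : 0 < q) (F : Finset ℕ) (hF : F ⊆ Icc 1 Y)
    (hc : ∀ x ∈ F, ∀ y ∈ F, (q : ℤ) ∣ (x : ℤ) - y) : (F.card : ℝ) ≤ Y / q + 1 := by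
  have h1 : F.card ≤ (range (Y / q + 1)).card := by
    apply card_le_card_of_injOn (fun x => x / q)
    · intro x hx
      have := mem_Icc.1 (hF hx)
      simp only [coe_range, Set.mem_Iio]
      exact Nat.lt_succ_of_le (Nat.div_le_div_right this.2)
    · intro x hx y hy he
      simp only at he
      have h2 : x % q = y % q := by
        have h3 := hc y hy x hx
        have h4 : (x : ℤ) ≡ y [ZMOD q] := Int.modEq_iff_dvd.2 h3
        exact Int.natCast_modEq_iff.1 h4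
      rw [← Nat.div_add_mod x q, ← Nat.div_add_mod y q, he, h2]
  rw [card_range] at h1
  have h2 : ((Y / q : ℕ) : ℝ) ≤ (Y : ℝ) / q := Nat.cast_div_le
  calc (F.card : ℝ) ≤ ((Y / q + 1 : ℕ) : ℝ) := by exact_mod_cast h1
    _ = ((Y / q : ℕ) : ℝ) + 1 := by push_cast; ring
    _ ≤ _ := by linarith

/-- sums over multiples -/
lemma sum_mult (p Y : ℕ) (hp : 0 < p) (S : Finset ℕ) (hS : ∀ t ∈ S, 0 < t ∧ t ≤ Y ∧ p ∣ t) :
    ∑ t ∈ S, (1 / (t : ℝ)) ≤ (1 + Real.log Y) / p := by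
  classical
  have h1 : S ⊆ (Icc 1 Y).image (fun k => p * k) := by
    intro t ht
    obtain ⟨h0, h1, k, hk⟩ := hS t ht
    rw [mem_image]
    refine ⟨k, ?_, hk.symm⟩
    rw [mem_Icc]
    constructor
    · rcases Nat.eq_zero_or_pos k with h | h
      · rw [h, mul_zero] at hk; omega
      · exact h
    · calc k ≤ p * k := Nat.le_mul_of_pos_left k hp
        _ = t := hk.symm
        _ ≤ Y := h1
  have h2 : ∑ t ∈ S, (1 / (t : ℝ)) ≤ ∑ t ∈ (Icc 1 Y).image (fun k => p * k), (1 / (t : ℝ)) :=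
    sum_le_sum_of_subset_of_nonneg h1 (fun _ _ _ => by positivity)
  refine h2.trans ?_
  rw [sum_image (by intro a _ b _ h; exact Nat.eq_of_mul_eq_mul_left hp h)]
  have h3 := Pool.Agent.Y61.Z.tau_moment_div 0 Y
  simp only [pow_zero, pow_one] at h3
  calc ∑ k ∈ Icc 1 Y, (1 / ((p * k : ℕ) : ℝ)) = (∑ k ∈ Icc 1 Y, (1 / (k : ℝ))) / p := by
        rw [sum_div]
        refine sum_congr rfl fun k _ => ?_
        push_cast
        rw [div_div, mul_comm]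
    _ ≤ _ := by gcongr

lemma card_mult (p Y : ℕ) (hp : 0 < p) (S : Finset ℕ) (hS : ∀ t ∈ S, 0 < t ∧ t ≤ Y ∧ p ∣ t) :
    (S.card : ℝ) ≤ Y / p := by
  have h1 : S ⊆ (Icc 1 (Y / p)).image (fun k => p * k) := by
    intro t ht
    obtain ⟨h0, h1, k, hk⟩ := hS t ht
    rw [mem_image]
    refine ⟨k, ?_, hk.symm⟩
    rw [mem_Icc]
    constructor
    · rcases Nat.eq_zero_or_pos k with h | h
      · rw [h, mul_zero] at hk; omega
      · exact h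
    · rw [Nat.le_div_iff_mul_le hp, mul_comm, ← hk]
      exact h1
  have h2 := (card_le_card h1).trans card_image_le
  rw [Nat.card_Icc] at h2
  have h3 : ((Y / p : ℕ) : ℝ) ≤ (Y : ℝ) / p := Nat.cast_div_le
  refine le_trans ?_ h3
  have h4 : S.card ≤ Y / p := by
    rw [Nat.add_sub_cancel] at h2
    exact h2
  exact_mod_cast h4

/-- sums of the reciprocals of the least common multiples -/
lemma sum_lcm (S : Finset ℕ) (p Q : ℕ) (ℓ : ℝ) (hp : 0 < p) (hS : ∀ t ∈ S, 0 < t ∧ t ≤ Q ∧ p ∣ t)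
    (hτ : ∀ n : ℕ, n ≠ 0 → n ≤ Q * Q → tau n ^ 2 ≤ ℓ) (hlog : 1 + Real.log ((Q * Q : ℕ) : ℝ) ≤ ℓ) :
    ∑ t1 ∈ S, ∑ t2 ∈ S, (1 / (Nat.lcm t1 t2 : ℝ)) ≤ ℓ ^ 2 / p := by
  classical
  have hℓ : 0 ≤ ℓ := le_trans (by have := Real.log_natCast_nonneg (Q * Q); linarith) hlog
  rw [← sum_product' S S (fun t1 t2 => (1 / (Nat.lcm t1 t2 : ℝ)))]
  set Z := (Icc 1 (Q * Q)).filter (fun L => p ∣ L) with hZ
  have hmaps : ∀ x ∈ S ×ˢ S, Nat.lcm x.1 x.2 ∈ Z := by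
    intro x hx
    rw [mem_product] at hx
    obtain ⟨a1, a2, a3⟩ := hS _ hx.1
    obtain ⟨b1, b2, b3⟩ := hS _ hx.2
    rw [hZ, mem_filter, mem_Icc]
    refine ⟨⟨Nat.lcm_pos a1 b1, ?_⟩, a3.trans (Nat.dvd_lcm_left _ _)⟩
    exact (Nat.le_of_dvd (Nat.mul_pos a1 b1) (Nat.lcm_dvd_mul _ _)).trans (Nat.mul_le_mul a2 b2)
  rw [← sum_fiberwise_of_maps_to hmaps]
  have h1 : ∀ L ∈ Z, ∑ x ∈ (S ×ˢ S).filter (fun x => Nat.lcm x.1 x.2 = L), (1 / (Nat.lcm x.1 x.2 : ℝ)) ≤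
      ℓ * (1 / (L : ℝ)) := by
    intro L hL
    rw [hZ, mem_filter, mem_Icc] at hL
    have hL0 : L ≠ 0 := by omega
    rw [sum_congr rfl (fun x hx => by rw [(mem_filter.1 hx).2])]
    rw [sum_const, nsmul_eq_mul]
    apply mul_le_mul_of_nonneg_right _ (by positivity)
    refine le_trans ?_ (hτ L hL0 hL.1.2)
    have h2 : ((S ×ˢ S).filter (fun x => Nat.lcm x.1 x.2 = L)).card ≤ (L.divisors ×ˢ L.divisors).card := by
      apply card_le_card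
      intro x hx
      rw [mem_filter] at hx
      rw [mem_product, Nat.mem_divisors, Nat.mem_divisors, ← hx.2]
      rw [← hx.2] at hL0
      exact ⟨⟨Nat.dvd_lcm_left _ _, hL0⟩, ⟨Nat.dvd_lcm_right _ _, hL0⟩⟩
    rw [card_product] at h2
    calc (((S ×ˢ S).filter (fun x => Nat.lcm x.1 x.2 = L)).card : ℝ) ≤ ((L.divisors.card * L.divisors.card : ℕ) : ℝ) := by
          exact_mod_cast h2
      _ = tau L ^ 2 := by unfold tau; push_cast; ring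
  refine (sum_le_sum h1).trans ?_
  rw [← mul_sum]
  have h3 := sum_mult p (Q * Q) hp Z (fun t ht => by
    rw [hZ, mem_filter, mem_Icc] at ht
    exact ⟨ht.1.1, ht.1.2, ht.2⟩)
  calc ℓ * ∑ L ∈ Z, (1 / (L : ℝ)) ≤ ℓ * ((1 + Real.log ((Q * Q : ℕ) : ℝ)) / p) :=
        mul_le_mul_of_nonneg_left h3 hℓ
    _ ≤ ℓ * (ℓ / p) := by gcongr
    _ = _ := by ring

/-- sums of reciprocals of totients -/
lemma sum_phi (S : Finset ℕ) (p Q : ℕ) (ℓ : ℝ) (hp : 0 < p) (hS : ∀ t ∈ S, 0 < t ∧ t ≤ Q ∧ p ∣ t)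
    (hτ : ∀ n : ℕ, n ≠ 0 → n ≤ Q → tau n ≤ ℓ) (hlog : 1 + Real.log (Q : ℝ) ≤ ℓ) :
    ∑ t ∈ S, (1 / (Nat.totient t : ℝ)) ≤ ℓ ^ 2 / p := by
  have hℓ : 0 ≤ ℓ := le_trans (by have := Real.log_natCast_nonneg Q; linarith) hlog
  have h1 : ∀ t ∈ S, (1 / (Nat.totient t : ℝ)) ≤ ℓ * (1 / (t : ℝ)) := by
    intro t ht
    obtain ⟨a1, a2, a3⟩ := hS _ ht
    refine (Pool.Agent.Y61.Z.one_div_totient_le t a1).trans ?_
    rw [mul_one_div]
    gcongr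
    exact hτ t a1.ne' a2
  refine (sum_le_sum h1).trans ?_
  rw [← mul_sum]
  calc ℓ * ∑ t ∈ S, (1 / (t : ℝ)) ≤ ℓ * ((1 + Real.log (Q : ℝ)) / p) :=
        mul_le_mul_of_nonneg_left (sum_mult p Q hp S hS) hℓ
    _ ≤ ℓ * (ℓ / p) := by gcongr
    _ = _ := by ring

/-- number of moduli with `x` in the given class -/
noncomputable def Act (S : Finset ℕ) (c : ℕ → ℤ) (x : ℕ) : ℝ := ∑ t ∈ S, ind ((t : ℤ) ∣ (x : ℤ) - c t)

lemma Act_nonneg (S : Finset ℕ) (c : ℕ → ℤ) (x : ℕ) : 0 ≤ Act S c x :=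
  sum_nonneg fun _ _ => ind_nonneg _

lemma Act_card (S : Finset ℕ) (c : ℕ → ℤ) (x : ℕ) :
    ∃ k : ℕ, Act S c x = k := by
  classical
  refine ⟨(S.filter (fun t : ℕ => (t : ℤ) ∣ (x : ℤ) - c t)).card, ?_⟩
  rw [← sum_boole]
  unfold Act
  refine sum_congr rfl fun t _ => ?_
  unfold ind
  by_cases ht : (t : ℤ) ∣ (x : ℤ) - c t <;> simp [ht]

lemma Act_le_sq (S : Finset ℕ) (c : ℕ → ℤ) (x : ℕ) : Act S c x ≤ Act S c x ^ 2 := by
  obtain ⟨k, hk⟩ := Act_card S c x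
  rw [hk]
  have : k ≤ k ^ 2 := Nat.le_self_pow two_ne_zero k
  exact_mod_cast this

lemma sum_Act_sq (S : Finset ℕ) (c : ℕ → ℤ) (h : ℤ) (r p Q Y : ℕ) (ℓ : ℝ) (hp : 0 < p) (hr : 0 < r)
    (hS : ∀ t ∈ S, 0 < t ∧ t ≤ Q ∧ p ∣ t) (hcop : ∀ t ∈ S, r.Coprime t)
    (hτ : ∀ n : ℕ, n ≠ 0 → n ≤ Q * Q → tau n ^ 2 ≤ ℓ) (hlog : 1 + Real.log ((Q * Q : ℕ) : ℝ) ≤ ℓ) :
    ∑ x ∈ Icc 1 Y, ind ((r : ℤ) ∣ (x : ℤ) - h) * Act S c x ^ 2 ≤
      (Y : ℝ) / r * (ℓ ^ 2 / p) + ((Q : ℝ) / p) ^ 2 := by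
  classical
  have hrr : (0 : ℝ) < r := by exact_mod_cast hr
  have e1 : ∑ x ∈ Icc 1 Y, ind ((r : ℤ) ∣ (x : ℤ) - h) * Act S c x ^ 2 =
      ∑ t1 ∈ S, ∑ t2 ∈ S, ∑ x ∈ Icc 1 Y, ind ((r : ℤ) ∣ (x : ℤ) - h) *
        (ind ((t1 : ℤ) ∣ (x : ℤ) - c t1) * ind ((t2 : ℤ) ∣ (x : ℤ) - c t2)) := by
    have : ∀ x ∈ Icc 1 Y, ind ((r : ℤ) ∣ (x : ℤ) - h) * Act S c x ^ 2 =
        ∑ t1 ∈ S, ∑ t2 ∈ S, ind ((r : ℤ) ∣ (x : ℤ) - h) *
        (ind ((t1 : ℤ) ∣ (x : ℤ) - c t1) * ind ((t2 : ℤ) ∣ (x : ℤ) - c t2)) := by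
      intro x _
      unfold Act
      rw [pow_two, sum_mul_sum, mul_sum]
      refine sum_congr rfl fun t1 _ => ?_
      rw [mul_sum]
    rw [sum_congr rfl this, sum_comm]
    refine sum_congr rfl fun t1 _ => ?_
    rw [sum_comm]
  rw [e1]
  have h1 : ∀ t1 ∈ S, ∀ t2 ∈ S, ∑ x ∈ Icc 1 Y, ind ((r : ℤ) ∣ (x : ℤ) - h) *
        (ind ((t1 : ℤ) ∣ (x : ℤ) - c t1) * ind ((t2 : ℤ) ∣ (x : ℤ) - c t2)) ≤
        (Y : ℝ) / r * (1 / (Nat.lcm t1 t2 : ℝ)) + 1 := by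
    intro t1 ht1 t2 ht2
    have e2 : ∑ x ∈ Icc 1 Y, ind ((r : ℤ) ∣ (x : ℤ) - h) *
        (ind ((t1 : ℤ) ∣ (x : ℤ) - c t1) * ind ((t2 : ℤ) ∣ (x : ℤ) - c t2)) =
        (((Icc 1 Y).filter (fun x : ℕ => (r : ℤ) ∣ (x : ℤ) - h ∧ (t1 : ℤ) ∣ (x : ℤ) - c t1 ∧
          (t2 : ℤ) ∣ (x : ℤ) - c t2)).card : ℝ) := by
      rw [← sum_boole]
      refine sum_congr rfl fun x _ => ?_
      unfold ind
      by_cases a1 : (r : ℤ) ∣ (x : ℤ) - h <;> by_cases a2 : (t1 : ℤ) ∣ (x : ℤ) - c t1 <;>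
        by_cases a3 : (t2 : ℤ) ∣ (x : ℤ) - c t2 <;> simp [a1, a2, a3]
    rw [e2]
    have hq : 0 < r * Nat.lcm t1 t2 := Nat.mul_pos hr (Nat.lcm_pos (hS _ ht1).1 (hS _ ht2).1)
    have h3 := card_cls Y (r * Nat.lcm t1 t2) hq _ (filter_subset (fun x : ℕ => (r : ℤ) ∣ (x : ℤ) - h ∧ (t1 : ℤ) ∣ (x : ℤ) - c t1 ∧
          (t2 : ℤ) ∣ (x : ℤ) - c t2) (Icc 1 Y)) (by
      intro x hx y hy
      rw [mem_filter] at hx hy
      have k1 : (r : ℤ) ∣ (x : ℤ) - y := by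
        have := dvd_sub hx.2.1 hy.2.1
        rwa [sub_sub_sub_cancel_right] at this
      have k2 : (t1 : ℤ) ∣ (x : ℤ) - y := by
        have := dvd_sub hx.2.2.1 hy.2.2.1
        rwa [sub_sub_sub_cancel_right] at this
      have k3 : (t2 : ℤ) ∣ (x : ℤ) - y := by
        have := dvd_sub hx.2.2.2 hy.2.2.2
        rwa [sub_sub_sub_cancel_right] at this
      have k4 : ((Nat.lcm t1 t2 : ℕ) : ℤ) ∣ (x : ℤ) - y := by
        rw [Int.natCast_dvd] at k2 k3 ⊢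
        exact Nat.lcm_dvd k2 k3
      have k5 : IsCoprime (r : ℤ) ((Nat.lcm t1 t2 : ℕ) : ℤ) := by
        rw [Nat.isCoprime_iff_coprime]
        exact Nat.Coprime.coprime_dvd_right (Nat.lcm_dvd_mul _ _)
          (Nat.Coprime.mul_right (hcop _ ht1) (hcop _ ht2))
      push_cast
      exact k5.mul_dvd k1 k4)
    refine h3.trans (le_of_eq ?_)
    push_cast
    rw [div_mul_div_comm, mul_one]
  refine (sum_le_sum fun t1 ht1 => sum_le_sum fun t2 ht2 => h1 t1 ht1 t2 ht2).trans ?_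
  have e3 : ∑ t1 ∈ S, ∑ t2 ∈ S, ((Y : ℝ) / r * (1 / (Nat.lcm t1 t2 : ℝ)) + 1) =
      (Y : ℝ) / r * ∑ t1 ∈ S, ∑ t2 ∈ S, (1 / (Nat.lcm t1 t2 : ℝ)) + (S.card : ℝ) ^ 2 := by
    simp only [sum_add_distrib, mul_sum, sum_const, nsmul_eq_mul, mul_one]
    ring
  rw [e3]
  have h4 := sum_lcm S p Q ℓ hp hS hτ hlog
  have h5 := card_mult p Q hp S hS
  gcongr

/-- sums over products -/
lemma conv_box (M N : ℕ) (ℓ : ℝ) (hτ : ∀ n : ℕ, n ≠ 0 → n ≤ 4 * M * N → tau n ^ 3 ≤ ℓ) (F : ℕ → ℝ)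
    (hF : ∀ x, 0 ≤ F x) :
    ∑ m ∈ Ioc M (2 * M), ∑ n ∈ Ioc N (2 * N), F (m * n) ≤ ℓ * ∑ x ∈ Icc 1 (4 * M * N), F x := by
  have h0 : ∀ A : ℕ, Ioc A (2 * A) ⊆ Icc 1 (2 * A) := by
    intro A x hx
    rw [mem_Ioc] at hx
    rw [mem_Icc]
    omega
  have h1 : ∑ m ∈ Ioc M (2 * M), ∑ n ∈ Ioc N (2 * N), F (m * n) ≤
      ∑ m ∈ Icc 1 (2 * M), ∑ n ∈ Icc 1 (2 * N), tau m * tau n * F (m * n) := by
    refine (sum_le_sum fun m hm => ?_).trans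
      (sum_le_sum_of_subset_of_nonneg (h0 M) (fun m _ _ => sum_nonneg fun n _ => ?_))
    · refine (sum_le_sum fun n hn => ?_).trans
        (sum_le_sum_of_subset_of_nonneg (h0 N) (fun n _ _ => ?_))
      · rw [mem_Ioc] at hm hn
        have a1 : 1 ≤ tau m := tau_ge_one (by omega)
        have a2 : 1 ≤ tau n := tau_ge_one (by omega)
        exact le_mul_of_one_le_left (hF _) (one_le_mul_of_one_le_of_one_le a1 a2)
      · exact mul_nonneg (mul_nonneg (OB.tau_nonneg _) (OB.tau_nonneg _)) (hF _)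
    · exact mul_nonneg (mul_nonneg (OB.tau_nonneg _) (OB.tau_nonneg _)) (hF _)
  refine h1.trans ((Pool.Agent.Y61.Z.conv_le (2 * M) (2 * N) F hF).trans ?_)
  have e : 2 * M * (2 * N) = 4 * M * N := by ring
  rw [e, mul_sum]
  refine sum_le_sum fun x hx => ?_
  rw [mem_Icc] at hx
  exact mul_le_mul_of_nonneg_right (hτ x (by omega) hx.2) (hF x)

/-- different congruent integers in `(N, 2N]` -/
lemma sum_ne (N q : ℕ) (hq : 0 < q) (n1 : ℕ) (h1 : n1 ∈ Ioc N (2 * N)) :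
    ∑ n2 ∈ Ioc N (2 * N), ind (n1 ≠ n2 ∧ n1 ≡ n2 [MOD q]) ≤ (N : ℝ) / q := by
  classical
  set F := (Ioc N (2 * N)).filter (fun n2 => n1 ≡ n2 [MOD q]) with hF
  have hmem : n1 ∈ F := by
    rw [hF, mem_filter]
    exact ⟨h1, Nat.ModEq.refl _⟩
  have e1 : ∑ n2 ∈ Ioc N (2 * N), ind (n1 ≠ n2 ∧ n1 ≡ n2 [MOD q]) = ((F.erase n1).card : ℝ) := by
    have : F.erase n1 = (Ioc N (2 * N)).filter (fun n2 => n1 ≠ n2 ∧ n1 ≡ n2 [MOD q]) := by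
      ext n
      rw [mem_erase, hF, mem_filter, mem_filter]
      constructor
      · rintro ⟨a, b, c⟩
        exact ⟨b, fun h => a h.symm, c⟩
      · rintro ⟨b, a, c⟩
        exact ⟨fun h => a h.symm, b, c⟩
    rw [this, ← sum_boole]
    refine sum_congr rfl fun n _ => ?_
    unfold ind
    by_cases hn : n1 ≠ n ∧ n1 ≡ n [MOD q] <;> simp [hn]
  rw [e1, card_erase_of_mem hmem]
  have h2 : ((F.image (fun n => n - N)).card : ℝ) ≤ (N : ℝ) / q + 1 := by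
    apply card_cls N q hq
    · intro x hx
      rw [mem_image] at hx
      obtain ⟨n, hn, rfl⟩ := hx
      rw [hF, mem_filter, mem_Ioc] at hn
      rw [mem_Icc]
      omega
    · intro x hx y hy
      rw [mem_image] at hx hy
      obtain ⟨n, hn, rfl⟩ := hx
      obtain ⟨n', hn', rfl⟩ := hy
      rw [hF, mem_filter, mem_Ioc] at hn hn'
      have h3 : n ≡ n' [MOD q] := hn.2.symm.trans hn'.2
      have h4 := (Nat.modEq_iff_dvd.1 h3.symm)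
      have e2 : ((n - N : ℕ) : ℤ) - ((n' - N : ℕ) : ℤ) = (n : ℤ) - n' := by
        rw [Nat.cast_sub (by omega), Nat.cast_sub (by omega)]
        ring
      rw [e2]
      exact h4
  rw [card_image_of_injOn] at h2
  · have h3 : 1 ≤ F.card := card_pos.2 ⟨n1, hmem⟩
    push_cast [Nat.cast_sub h3]
    linarith
  · intro a ha b hb h
    rw [hF] at ha hb
    have ha' := (mem_Ioc.1 (mem_filter.1 ha).1)
    have hb' := (mem_Ioc.1 (mem_filter.1 hb).1)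
    simp only at h
    omega

end Pool.Agent.R503.N
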