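import Mathlib
import Pool.Agent.R503.N.TrA

/-! The trivial part: equal `n` and moduli with a common factor (helper503). -/

open Finset

namespace Pool.Agent.R503.N

open Pool.Agent.Y826.Z Pool.Agent.Y826.Z.OB

/-- the discrepancy of the class `c` mod `t` -/
noncomputable def Dc (t : ℕ) (c x : ℤ) : ℝ :=
  ind ((t : ℤ) ∣ x - c) - (1 / (Nat.totient t : ℝ)) * ind (IsCoprime x (t : ℤ))

lemma Dc_abs (t : ℕ) (c x : ℤ) : |Dc t c x| ≤ ind ((t : ℤ) ∣ x - c) + 1 / (Nat.totient t : ℝ) := by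
  unfold Dc
  have h1 := ind_nonneg ((t : ℤ) ∣ x - c)
  have h2 := ind_nonneg (IsCoprime x (t : ℤ))
  have h3 := ind_le_one (IsCoprime x (t : ℤ))
  have h4 : (0 : ℝ) ≤ 1 / (Nat.totient t : ℝ) := by positivity
  rw [abs_le]
  constructor
  · nlinarith
  · nlinarith [mul_nonneg h4 h2]

/-- left class -/
noncomputable def Pl (r : ℕ) (h : ℤ) (x : ℕ) : ℝ := ind ((r : ℤ) ∣ (x : ℤ) - h)

lemma Pl_nonneg (r : ℕ) (h : ℤ) (x : ℕ) : 0 ≤ Pl r h x := ind_nonneg _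

lemma Pl_le (r : ℕ) (h : ℤ) (x : ℕ) : Pl r h x ≤ 1 := ind_le_one _

/-- the second moment -/
noncomputable def SSt (r M N : ℕ) (h c : ℤ) (T : Finset ℕ) (κ β : ℕ → ℝ) : ℝ :=
  ∑ m ∈ Ioc M (2 * M), (∑ t ∈ T, κ t * ∑ n ∈ Ioc N (2 * N), β n *
    (Pl r h (m * n) * Dc t c ((m * n : ℕ) : ℤ))) ^ 2

/-- its main part -/
noncomputable def Sof (r M N : ℕ) (h c : ℤ) (T : Finset ℕ) (κ β : ℕ → ℝ) : ℝ :=
  ∑ t1 ∈ T, ∑ t2 ∈ T, ind (t1.Coprime t2) * (κ t1 * κ t2) * ∑ n1 ∈ Ioc N (2 * N), ∑ n2 ∈ Ioc N (2 * N),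
    ind (n1 ≠ n2 ∧ n1 ≡ n2 [MOD r]) * (β n1 * β n2 * ∑ m ∈ Ioc M (2 * M), Pl r h (m * n1) *
      Dc t1 c ((m * n1 : ℕ) : ℤ) * Dc t2 c ((m * n2 : ℕ) : ℤ))

lemma sum4_comm {ι1 ι2 ι3 ι4 : Type*} (A : Finset ι1) (B : Finset ι2) (C : Finset ι3) (D : Finset ι4)
    (f : ι1 → ι2 → ι3 → ι4 → ℝ) :
    ∑ a ∈ A, ∑ b ∈ B, ∑ c ∈ C, ∑ d ∈ D, f a b c d = ∑ c ∈ C, ∑ d ∈ D, ∑ a ∈ A, ∑ b ∈ B, f a b c d := by
  calc ∑ a ∈ A, ∑ b ∈ B, ∑ c ∈ C, ∑ d ∈ D, f a b c d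
      = ∑ a ∈ A, ∑ c ∈ C, ∑ b ∈ B, ∑ d ∈ D, f a b c d := sum_congr rfl fun a _ => sum_comm
    _ = ∑ c ∈ C, ∑ a ∈ A, ∑ b ∈ B, ∑ d ∈ D, f a b c d := sum_comm
    _ = ∑ c ∈ C, ∑ d ∈ D, ∑ a ∈ A, ∑ b ∈ B, f a b c d := by
        refine sum_congr rfl fun c _ => ?_
        calc ∑ a ∈ A, ∑ b ∈ B, ∑ d ∈ D, f a b c d = ∑ a ∈ A, ∑ d ∈ D, ∑ b ∈ B, f a b c d :=
              sum_congr rfl fun a _ => sum_comm
          _ = _ := sum_comm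

lemma SSt_eq (r M N : ℕ) (h c : ℤ) (T : Finset ℕ) (κ β : ℕ → ℝ) :
    SSt r M N h c T κ β = ∑ m ∈ Ioc M (2 * M), ∑ n1 ∈ Ioc N (2 * N), ∑ n2 ∈ Ioc N (2 * N),
      ∑ t1 ∈ T, ∑ t2 ∈ T, (Pl r h (m * n1) * Pl r h (m * n2)) * (κ t1 * κ t2 * (β n1 * β n2) *
        (Dc t1 c ((m * n1 : ℕ) : ℤ) * Dc t2 c ((m * n2 : ℕ) : ℤ))) := by
  unfold SSt
  refine sum_congr rfl fun m _ => ?_
  rw [← sum4_comm]
  rw [pow_two, sum_mul_sum]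
  refine sum_congr rfl fun t1 _ => sum_congr rfl fun t2 _ => ?_
  rw [mul_mul_mul_comm, sum_mul_sum, mul_sum]
  refine sum_congr rfl fun n1 _ => ?_
  rw [mul_sum]
  refine sum_congr rfl fun n2 _ => ?_
  ring

lemma Sof_eq (r M N : ℕ) (h c : ℤ) (T : Finset ℕ) (κ β : ℕ → ℝ) :
    Sof r M N h c T κ β = ∑ m ∈ Ioc M (2 * M), ∑ n1 ∈ Ioc N (2 * N), ∑ n2 ∈ Ioc N (2 * N),
      ∑ t1 ∈ T, ∑ t2 ∈ T, (ind (t1.Coprime t2) * ind (n1 ≠ n2 ∧ n1 ≡ n2 [MOD r]) * Pl r h (m * n1)) *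
        (κ t1 * κ t2 * (β n1 * β n2) * (Dc t1 c ((m * n1 : ℕ) : ℤ) * Dc t2 c ((m * n2 : ℕ) : ℤ))) := by
  have h1 : ∀ m ∈ Ioc M (2 * M), ∑ n1 ∈ Ioc N (2 * N), ∑ n2 ∈ Ioc N (2 * N),
      ∑ t1 ∈ T, ∑ t2 ∈ T, (ind (t1.Coprime t2) * ind (n1 ≠ n2 ∧ n1 ≡ n2 [MOD r]) * Pl r h (m * n1)) *
        (κ t1 * κ t2 * (β n1 * β n2) * (Dc t1 c ((m * n1 : ℕ) : ℤ) * Dc t2 c ((m * n2 : ℕ) : ℤ))) =
      ∑ t1 ∈ T, ∑ t2 ∈ T, ∑ n1 ∈ Ioc N (2 * N), ∑ n2 ∈ Ioc N (2 * N),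
        (ind (t1.Coprime t2) * ind (n1 ≠ n2 ∧ n1 ≡ n2 [MOD r]) * Pl r h (m * n1)) *
        (κ t1 * κ t2 * (β n1 * β n2) * (Dc t1 c ((m * n1 : ℕ) : ℤ) * Dc t2 c ((m * n2 : ℕ) : ℤ))) :=
    fun m _ => by rw [sum4_comm]
  rw [sum_congr rfl h1, sum_comm]
  unfold Sof
  refine sum_congr rfl fun t1 _ => ?_
  rw [sum_comm]
  refine sum_congr rfl fun t2 _ => ?_
  rw [mul_sum, sum_comm]
  refine sum_congr rfl fun n1 _ => ?_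
  rw [mul_sum, sum_comm]
  refine sum_congr rfl fun n2 _ => ?_
  rw [mul_sum, mul_sum, mul_sum]
  refine sum_congr rfl fun m _ => ?_
  ring

/-- the sum of the absolute values -/
noncomputable def Bp (T : Finset ℕ) (c : ℤ) (p : ℕ) (x : ℕ) : ℝ :=
  ∑ t ∈ T, ind (p ∣ t) * |Dc t c (x : ℤ)|

lemma Bp_nonneg (T : Finset ℕ) (c : ℤ) (p x : ℕ) : 0 ≤ Bp T c p x :=
  sum_nonneg fun _ _ => mul_nonneg (ind_nonneg _) (abs_nonneg _)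

lemma Bp_le (T : Finset ℕ) (c : ℤ) (p x : ℕ) :
    Bp T c p x ≤ Act (T.filter (fun t => p ∣ t)) (fun _ => c) x +
      ∑ t ∈ T.filter (fun t => p ∣ t), (1 / (Nat.totient t : ℝ)) := by
  unfold Bp Act
  rw [← sum_add_distrib, sum_filter]
  refine sum_le_sum fun t _ => ?_
  by_cases h : p ∣ t
  · rw [ind_true h, one_mul, if_pos h]
    exact Dc_abs t c _
  · rw [ind_false h, zero_mul, if_neg h]

lemma cls_iff (r : ℕ) (h : ℤ) (hh : IsCoprime h (r : ℤ)) (m n1 n2 : ℕ)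
    (h1 : (r : ℤ) ∣ ((m * n1 : ℕ) : ℤ) - h) :
    ((r : ℤ) ∣ ((m * n2 : ℕ) : ℤ) - h) ↔ n1 ≡ n2 [MOD r] := by
  have hm : IsCoprime (m : ℤ) (r : ℤ) := by
    obtain ⟨k, hk⟩ := h1
    have e : h = (m : ℤ) * n1 + (r : ℤ) * (-k) := by
      push_cast at hk
      linarith
    rw [e] at hh
    have := IsCoprime.of_add_mul_left_left hh
    exact (IsCoprime.of_mul_left_left this)
  constructor
  · intro h2
    have h3 := dvd_sub h2 h1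
    have e : ((m * n2 : ℕ) : ℤ) - h - (((m * n1 : ℕ) : ℤ) - h) = (m : ℤ) * ((n2 : ℤ) - n1) := by
      push_cast; ring
    rw [e] at h3
    have h4 := hm.symm.dvd_of_dvd_mul_left h3
    exact Nat.modEq_iff_dvd.2 h4
  · intro h2
    have h3 := Nat.modEq_iff_dvd.1 h2
    have e : ((m * n2 : ℕ) : ℤ) - h = (((m * n1 : ℕ) : ℤ) - h) + (m : ℤ) * ((n2 : ℤ) - n1) := by
      push_cast; ring
    rw [e]
    exact dvd_add h1 (Dvd.dvd.mul_left h3 _)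

lemma Pl_mul (r : ℕ) (h : ℤ) (hh : IsCoprime h (r : ℤ)) (m n1 n2 : ℕ) :
    Pl r h (m * n1) * Pl r h (m * n2) = Pl r h (m * n1) * ind (n1 ≡ n2 [MOD r]) := by
  by_cases h1 : (r : ℤ) ∣ ((m * n1 : ℕ) : ℤ) - h
  · unfold Pl
    rw [propext (cls_iff r h hh m n1 n2 h1)]
  · unfold Pl
    rw [ind_false h1, zero_mul, zero_mul]

/-- the bound for the weights -/
lemma wt_bd (r G Q : ℕ) (h : ℤ) (hh : IsCoprime h (r : ℤ)) (m n1 n2 t1 t2 : ℕ) (h2 : 0 < t2)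
    (hQ : t2 ≤ Q) (hG : ∀ p : ℕ, p.Prime → p ∣ t1 → G < p) :
    |Pl r h (m * n1) * Pl r h (m * n2) -
      ind (t1.Coprime t2) * ind (n1 ≠ n2 ∧ n1 ≡ n2 [MOD r]) * Pl r h (m * n1)| ≤
      Pl r h (m * n1) * (ind (n1 = n2) + ind (n1 ≠ n2 ∧ n1 ≡ n2 [MOD r]) *
        ∑ p ∈ (Ioc G Q).filter Nat.Prime, ind (p ∣ t1) * ind (p ∣ t2)) := by
  rw [Pl_mul r h hh]
  have hP := Pl_nonneg r h (m * n1)
  have hS : 0 ≤ ∑ p ∈ (Ioc G Q).filter Nat.Prime, ind (p ∣ t1) * ind (p ∣ t2) :=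
    sum_nonneg fun _ _ => mul_nonneg (ind_nonneg _) (ind_nonneg _)
  by_cases e1 : n1 = n2
  · subst e1
    have e2 : ¬ (n1 ≠ n1 ∧ n1 ≡ n1 [MOD r]) := fun h => h.1 rfl
    rw [ind_false e2, ind_true (Nat.ModEq.refl n1), ind_true (rfl : n1 = n1)]
    simp only [mul_one, mul_zero, zero_mul, sub_zero, add_zero]
    rw [abs_of_nonneg hP]
  · by_cases e2 : n1 ≡ n2 [MOD r]
    · rw [ind_true e2, ind_true (⟨e1, e2⟩ : n1 ≠ n2 ∧ n1 ≡ n2 [MOD r]), ind_false e1]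
      by_cases e3 : t1.Coprime t2
      · rw [ind_true e3]
        simp only [mul_one, one_mul, sub_self, abs_zero, zero_add]
        exact mul_nonneg hP hS
      · rw [ind_false e3]
        simp only [mul_one, one_mul, zero_mul, sub_zero, zero_add]
        rw [abs_of_nonneg hP]
        refine le_mul_of_one_le_right hP ?_
        obtain ⟨p, hp, a1, a2⟩ := Nat.Prime.not_coprime_iff_dvd.1 e3
        have hmem : p ∈ (Ioc G Q).filter Nat.Prime := by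
          rw [mem_filter, mem_Ioc]
          exact ⟨⟨hG p hp a1, (Nat.le_of_dvd h2 a2).trans hQ⟩, hp⟩
        refine le_trans ?_ (single_le_sum (f := fun p => ind (p ∣ t1) * ind (p ∣ t2))
          (fun _ _ => mul_nonneg (ind_nonneg _) (ind_nonneg _)) hmem)
        rw [ind_true a1, ind_true a2, one_mul]
    · have e3 : ¬ (n1 ≠ n2 ∧ n1 ≡ n2 [MOD r]) := fun h => e2 h.2
      rw [ind_false e2, ind_false e3, ind_false e1]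
      simp

/-- the first bound -/
lemma diff_le (r M N G Q : ℕ) (h c : ℤ) (T : Finset ℕ) (κ β : ℕ → ℝ) (ℓ : ℝ) (hℓ : 0 ≤ ℓ)
    (hh : IsCoprime h (r : ℤ)) (hT : ∀ t ∈ T, 0 < t ∧ t ≤ Q) (hG : ∀ t ∈ T, ∀ p : ℕ, p.Prime → p ∣ t → G < p)
    (hκ : ∀ t, |κ t| ≤ 1) (hβ : ∀ n ∈ Ioc N (2 * N), |β n| ≤ ℓ) :
    |SSt r M N h c T κ β - Sof r M N h c T κ β| ≤
      ℓ ^ 2 * (∑ m ∈ Ioc M (2 * M), ∑ n ∈ Ioc N (2 * N), Pl r h (m * n) * Bp T c 1 (m * n) ^ 2 +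
        ∑ p ∈ (Ioc G Q).filter Nat.Prime, ∑ m ∈ Ioc M (2 * M), ∑ n1 ∈ Ioc N (2 * N), ∑ n2 ∈ Ioc N (2 * N),
          Pl r h (m * n1) * (ind (n1 ≠ n2 ∧ n1 ≡ n2 [MOD r]) * (Bp T c p (m * n1) * Bp T c p (m * n2)))) := by
  classical
  have e1 : ∀ x, Bp T c 1 x = ∑ t ∈ T, |Dc t c (x : ℤ)| := by
    intro x
    unfold Bp
    refine sum_congr rfl fun t _ => ?_
    rw [ind_true (one_dvd t), one_mul]
  have key : ∀ m ∈ Ioc M (2 * M), ∀ n1 ∈ Ioc N (2 * N), ∀ n2 ∈ Ioc N (2 * N),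
      |∑ t1 ∈ T, ∑ t2 ∈ T, (Pl r h (m * n1) * Pl r h (m * n2)) * (κ t1 * κ t2 * (β n1 * β n2) *
        (Dc t1 c ((m * n1 : ℕ) : ℤ) * Dc t2 c ((m * n2 : ℕ) : ℤ))) -
       ∑ t1 ∈ T, ∑ t2 ∈ T, (ind (t1.Coprime t2) * ind (n1 ≠ n2 ∧ n1 ≡ n2 [MOD r]) * Pl r h (m * n1)) *
        (κ t1 * κ t2 * (β n1 * β n2) * (Dc t1 c ((m * n1 : ℕ) : ℤ) * Dc t2 c ((m * n2 : ℕ) : ℤ)))| ≤
      ℓ ^ 2 * (ind (n1 = n2) * (Pl r h (m * n1) * Bp T c 1 (m * n1) ^ 2) +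
        ∑ p ∈ (Ioc G Q).filter Nat.Prime, Pl r h (m * n1) * (ind (n1 ≠ n2 ∧ n1 ≡ n2 [MOD r]) *
          (Bp T c p (m * n1) * Bp T c p (m * n2)))) := by
    intro m _ n1 hn1 n2 hn2
    rw [← sum_sub_distrib]
    refine (abs_sum_le_sum_abs _ _).trans ?_
    have b1 : ∀ t1 ∈ T, |∑ t2 ∈ T, (Pl r h (m * n1) * Pl r h (m * n2)) * (κ t1 * κ t2 * (β n1 * β n2) *
        (Dc t1 c ((m * n1 : ℕ) : ℤ) * Dc t2 c ((m * n2 : ℕ) : ℤ))) -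
       ∑ t2 ∈ T, (ind (t1.Coprime t2) * ind (n1 ≠ n2 ∧ n1 ≡ n2 [MOD r]) * Pl r h (m * n1)) *
        (κ t1 * κ t2 * (β n1 * β n2) * (Dc t1 c ((m * n1 : ℕ) : ℤ) * Dc t2 c ((m * n2 : ℕ) : ℤ)))| ≤
        ∑ t2 ∈ T, ℓ ^ 2 * ((Pl r h (m * n1) * (ind (n1 = n2) + ind (n1 ≠ n2 ∧ n1 ≡ n2 [MOD r]) *
        ∑ p ∈ (Ioc G Q).filter Nat.Prime, ind (p ∣ t1) * ind (p ∣ t2))) *
          (|Dc t1 c ((m * n1 : ℕ) : ℤ)| * |Dc t2 c ((m * n2 : ℕ) : ℤ)|)) := by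
      intro t1 ht1
      rw [← sum_sub_distrib]
      refine (abs_sum_le_sum_abs _ _).trans (sum_le_sum fun t2 ht2 => ?_)
      rw [← sub_mul, abs_mul]
      have c1 := wt_bd r G Q h hh m n1 n2 t1 t2 (hT t2 ht2).1 (hT t2 ht2).2 (hG t1 ht1)
      have c2 : |κ t1 * κ t2 * (β n1 * β n2) *
          (Dc t1 c ((m * n1 : ℕ) : ℤ) * Dc t2 c ((m * n2 : ℕ) : ℤ))| ≤
          ℓ ^ 2 * (|Dc t1 c ((m * n1 : ℕ) : ℤ)| * |Dc t2 c ((m * n2 : ℕ) : ℤ)|) := by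
        rw [abs_mul, abs_mul (Dc _ _ _)]
        apply mul_le_mul_of_nonneg_right _ (by positivity)
        rw [abs_mul, abs_mul, abs_mul]
        have d1 : |κ t1| * |κ t2| ≤ 1 := mul_le_one₀ (hκ _) (abs_nonneg _) (hκ _)
        have d2 : |β n1| * |β n2| ≤ ℓ * ℓ := mul_le_mul (hβ _ hn1) (hβ _ hn2) (abs_nonneg _) hℓ
        calc |κ t1| * |κ t2| * (|β n1| * |β n2|) ≤ 1 * (ℓ * ℓ) :=
              mul_le_mul d1 d2 (by positivity) zero_le_one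
          _ = ℓ ^ 2 := by ring
      refine (mul_le_mul c1 c2 (abs_nonneg _) (le_trans (abs_nonneg _) c1)).trans (le_of_eq ?_)
      ring
    refine (sum_le_sum b1).trans (le_of_eq ?_)
    simp only [← mul_sum]
    congr 1
    have e2 : ind (n1 = n2) * (Pl r h (m * n1) * Bp T c 1 (m * n1) ^ 2) =
        ind (n1 = n2) * (Pl r h (m * n1) * (Bp T c 1 (m * n1) * Bp T c 1 (m * n2))) := by
      by_cases e : n1 = n2
      · subst e; rw [pow_two]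
      · rw [ind_false e, zero_mul, zero_mul]
    rw [e2, e1, e1, sum_mul_sum]
    have e3 : ∀ p, Bp T c p (m * n1) * Bp T c p (m * n2) = ∑ t1 ∈ T, ∑ t2 ∈ T,
        (ind (p ∣ t1) * ind (p ∣ t2)) * (|Dc t1 c ((m * n1 : ℕ) : ℤ)| * |Dc t2 c ((m * n2 : ℕ) : ℤ)|) := by
      intro p
      unfold Bp
      rw [sum_mul_sum]
      refine sum_congr rfl fun t1 _ => sum_congr rfl fun t2 _ => ?_
      ring
    simp only [e3]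
    have e4 : Pl r h (m * n1) * (ind (n1 ≠ n2 ∧ n1 ≡ n2 [MOD r]) * ∑ p ∈ (Ioc G Q).filter Nat.Prime, 
        ∑ t1 ∈ T, ∑ t2 ∈ T, (ind (p ∣ t1) * ind (p ∣ t2)) *
          (|Dc t1 c ((m * n1 : ℕ) : ℤ)| * |Dc t2 c ((m * n2 : ℕ) : ℤ)|)) =
        ∑ t1 ∈ T, ∑ t2 ∈ T, Pl r h (m * n1) * (ind (n1 ≠ n2 ∧ n1 ≡ n2 [MOD r]) *
          ((∑ p ∈ (Ioc G Q).filter Nat.Prime, ind (p ∣ t1) * ind (p ∣ t2)) *
          (|Dc t1 c ((m * n1 : ℕ) : ℤ)| * |Dc t2 c ((m * n2 : ℕ) : ℤ)|))) := by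
      simp only [mul_sum, sum_mul]
      rw [sum_comm]
      refine sum_congr rfl fun t1 _ => ?_
      rw [sum_comm]
    rw [e4]
    simp only [mul_sum]
    rw [← sum_add_distrib]
    refine sum_congr rfl fun t1 _ => ?_
    rw [← sum_add_distrib]
    refine sum_congr rfl fun t2 _ => ?_
    simp only [← mul_sum]
    ring
  rw [SSt_eq, Sof_eq, ← sum_sub_distrib]
  refine (abs_sum_le_sum_abs _ _).trans ?_
  have k1 : ∀ m ∈ Ioc M (2 * M), |∑ n1 ∈ Ioc N (2 * N), ∑ n2 ∈ Ioc N (2 * N),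
      ∑ t1 ∈ T, ∑ t2 ∈ T, (Pl r h (m * n1) * Pl r h (m * n2)) * (κ t1 * κ t2 * (β n1 * β n2) *
        (Dc t1 c ((m * n1 : ℕ) : ℤ) * Dc t2 c ((m * n2 : ℕ) : ℤ))) -
      ∑ n1 ∈ Ioc N (2 * N), ∑ n2 ∈ Ioc N (2 * N), ∑ t1 ∈ T, ∑ t2 ∈ T,
        (ind (t1.Coprime t2) * ind (n1 ≠ n2 ∧ n1 ≡ n2 [MOD r]) * Pl r h (m * n1)) *
        (κ t1 * κ t2 * (β n1 * β n2) * (Dc t1 c ((m * n1 : ℕ) : ℤ) * Dc t2 c ((m * n2 : ℕ) : ℤ)))| ≤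
      ∑ n1 ∈ Ioc N (2 * N), ∑ n2 ∈ Ioc N (2 * N),
        ℓ ^ 2 * (ind (n1 = n2) * (Pl r h (m * n1) * Bp T c 1 (m * n1) ^ 2) +
        ∑ p ∈ (Ioc G Q).filter Nat.Prime, Pl r h (m * n1) * (ind (n1 ≠ n2 ∧ n1 ≡ n2 [MOD r]) *
          (Bp T c p (m * n1) * Bp T c p (m * n2)))) := by
    intro m hm
    rw [← sum_sub_distrib]
    refine (abs_sum_le_sum_abs _ _).trans (sum_le_sum fun n1 hn1 => ?_)
    rw [← sum_sub_distrib]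
    exact (abs_sum_le_sum_abs _ _).trans (sum_le_sum fun n2 hn2 => key m hm n1 hn1 n2 hn2)
  refine (sum_le_sum k1).trans (le_of_eq ?_)
  simp only [← mul_sum, sum_add_distrib]
  congr 1
  congr 1
  · refine sum_congr rfl fun m _ => sum_congr rfl fun n1 hn1 => ?_
    rw [← sum_mul]
    have : ∑ n2 ∈ Ioc N (2 * N), ind (n1 = n2) = 1 := by
      unfold ind
      rw [sum_eq_single n1]
      · simp
      · intro b _ hb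
        rw [if_neg (Ne.symm hb)]
      · intro h; exact absurd hn1 h
    rw [this, one_mul]
  · symm
    rw [sum_comm]
    refine sum_congr rfl fun m _ => ?_
    rw [sum_comm]
    refine sum_congr rfl fun n1 _ => ?_
    simp only [mul_sum]
    exact sum_comm

end Pool.Agent.R503.N
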