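import Mathlib
import Pool.Agent.R503.N.TrB

/-! The trivial part: estimates (helper503). -/

open Finset

namespace Pool.Agent.R503.N

open Pool.Agent.Y826.Z Pool.Agent.Y826.Z.OB

/-- exchange of the variables -/
lemma sym_sum (I : Finset ℕ) (E : ℕ → ℕ → ℝ) (P f : ℕ → ℝ) (hE : ∀ a b, E a b = E b a)
    (hP : ∀ a ∈ I, ∀ b ∈ I, E a b * P a = E a b * P b) :
    ∑ a ∈ I, ∑ b ∈ I, P a * (E a b * f b) = ∑ a ∈ I, ∑ b ∈ I, P a * (E a b * f a) := by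
  rw [sum_comm]
  refine sum_congr rfl fun a ha => sum_congr rfl fun b hb => ?_
  have := hP a ha b hb
  rw [hE b a]
  calc P b * (E a b * f a) = (E a b * P b) * f a := by ring
    _ = (E a b * P a) * f a := by rw [this]
    _ = _ := by ring

/-- parameters -/
structure Par (r M N Q : ℕ) (ℓ : ℝ) : Prop where
  r0 : 0 < r
  M0 : 0 < M
  N0 : 0 < N
  Q0 : 0 < Q
  l1 : 1 ≤ ℓ
  ht : ∀ n : ℕ, n ≠ 0 → (n ≤ Q * Q ∨ n ≤ 4 * M * N) → tau n ^ 3 ≤ ℓ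
  hl : 1 + Real.log ((Q * Q : ℕ) : ℝ) ≤ ℓ
  rQ : (r : ℝ) * Q ^ 2 ≤ M * N

lemma Par.t2 {r M N Q : ℕ} {ℓ : ℝ} (P : Par r M N Q ℓ) (n : ℕ) (hn : n ≠ 0) (h : n ≤ Q * Q) : tau n ^ 2 ≤ ℓ :=
  (pow_le_pow_right₀ (tau_ge_one hn) (by norm_num)).trans (P.ht n hn (Or.inl h))

lemma Par.t1 {r M N Q : ℕ} {ℓ : ℝ} (P : Par r M N Q ℓ) (n : ℕ) (hn : n ≠ 0) (h : n ≤ Q) : tau n ≤ ℓ := by
  have h2 : n ≤ Q * Q := h.trans (Nat.le_mul_of_pos_left Q P.Q0)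
  calc tau n = tau n ^ 1 := (pow_one _).symm
    _ ≤ tau n ^ 3 := pow_le_pow_right₀ (tau_ge_one hn) (by norm_num)
    _ ≤ ℓ := P.ht n hn (Or.inl h2)

lemma Par.lQ {r M N Q : ℕ} {ℓ : ℝ} (P : Par r M N Q ℓ) : 1 + Real.log (Q : ℝ) ≤ ℓ := by
  refine le_trans ?_ P.hl
  have h1 : (0 : ℝ) < Q := by exact_mod_cast P.Q0
  have h2 : (Q : ℝ) ≤ ((Q * Q : ℕ) : ℝ) := by exact_mod_cast Nat.le_mul_of_pos_left Q P.Q0
  have := Real.log_le_log h1 h2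
  linarith

lemma Z0_le {r M N Q : ℕ} {ℓ : ℝ} (P : Par r M N Q ℓ) (h : ℤ) :
    ∑ m ∈ Ioc M (2 * M), ∑ n ∈ Ioc N (2 * N), Pl r h (m * n) ≤ 5 * ℓ * (M * N / r) := by
  have hr : (0 : ℝ) < r := by exact_mod_cast P.r0
  have hℓ : 0 < ℓ := lt_of_lt_of_le one_pos P.l1
  have h1 := conv_box M N ℓ (fun n hn hle => P.ht n hn (Or.inr hle)) (Pl r h) (Pl_nonneg r h)
  refine h1.trans ?_
  have h2 : ∑ x ∈ Icc 1 (4 * M * N), Pl r h x ≤ ((4 * M * N : ℕ) : ℝ) / r + 1 := by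
    classical
    have e : ∑ x ∈ Icc 1 (4 * M * N), Pl r h x =
        (((Icc 1 (4 * M * N)).filter (fun x : ℕ => (r : ℤ) ∣ (x : ℤ) - h)).card : ℝ) := by
      rw [← sum_boole]
      refine sum_congr rfl fun x _ => ?_
      unfold Pl ind
      by_cases hx : (r : ℤ) ∣ (x : ℤ) - h <;> simp [hx]
    rw [e]
    apply card_cls _ r P.r0 _ (filter_subset _ _)
    intro x hx y hy
    rw [mem_filter] at hx hy
    have := dvd_sub hx.2 hy.2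
    rwa [sub_sub_sub_cancel_right] at this
  have h3 : (1 : ℝ) ≤ M * N / r := by
    rw [le_div_iff₀ hr, one_mul]
    refine le_trans ?_ P.rQ
    have : (1 : ℝ) ≤ (Q : ℝ) ^ 2 := one_le_pow₀ (by exact_mod_cast P.Q0)
    exact le_mul_of_one_le_right hr.le this
  calc ℓ * ∑ x ∈ Icc 1 (4 * M * N), Pl r h x ≤ ℓ * (((4 * M * N : ℕ) : ℝ) / r + 1) :=
        mul_le_mul_of_nonneg_left h2 hℓ.le
    _ ≤ ℓ * (4 * (M * N / r) + M * N / r) := by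
        push_cast
        apply mul_le_mul_of_nonneg_left _ hℓ.le
        have : (4 : ℝ) * M * N / r = 4 * (M * N / r) := by ring
        rw [this]
        linarith
    _ = _ := by ring

lemma Z2_le {r M N Q : ℕ} {ℓ : ℝ} (P : Par r M N Q ℓ) (h : ℤ) (c : ℕ → ℤ) (S : Finset ℕ) (p : ℕ) (hp : 0 < p)
    (hS : ∀ t ∈ S, 0 < t ∧ t ≤ Q ∧ p ∣ t) (hcop : ∀ t ∈ S, r.Coprime t) :
    ∑ m ∈ Ioc M (2 * M), ∑ n ∈ Ioc N (2 * N), Pl r h (m * n) * Act S c (m * n) ^ 2 ≤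
      5 * ℓ ^ 3 * (M * N / (r * p)) := by
  have hr : (0 : ℝ) < r := by exact_mod_cast P.r0
  have hpp : (0 : ℝ) < p := by exact_mod_cast hp
  have hp1 : (1 : ℝ) ≤ p := by exact_mod_cast hp
  have hℓ : 0 < ℓ := lt_of_lt_of_le one_pos P.l1
  have hMN : (0 : ℝ) ≤ M * N := by positivity
  have h1 := conv_box M N ℓ (fun n hn hle => P.ht n hn (Or.inr hle)) (fun x => Pl r h x * Act S c x ^ 2)
    (fun x => mul_nonneg (Pl_nonneg r h x) (sq_nonneg _))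
  refine h1.trans ?_
  have h2 := sum_Act_sq S c h r p Q (4 * M * N) ℓ hp P.r0 hS hcop P.t2 P.hl
  have h3 : ((Q : ℝ) / p) ^ 2 ≤ ℓ ^ 2 * (M * N / (r * p)) := by
    have e : ((Q : ℝ) / p) ^ 2 = (r * (Q : ℝ) ^ 2) / (r * p) * (1 / p) := by
      field_simp
    rw [e]
    calc (r * (Q : ℝ) ^ 2) / (r * p) * (1 / p) ≤ (M * N) / (r * p) * 1 := by
          apply mul_le_mul
          · exact div_le_div_of_nonneg_right P.rQ (by positivity)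
          · rw [div_le_one hpp]; exact hp1
          · positivity
          · positivity
      _ = 1 * (M * N / (r * p)) := by ring
      _ ≤ ℓ ^ 2 * (M * N / (r * p)) := by
          apply mul_le_mul_of_nonneg_right (one_le_pow₀ P.l1) (by positivity)
  calc ℓ * ∑ x ∈ Icc 1 (4 * M * N), Pl r h x * Act S c x ^ 2
      ≤ ℓ * (((4 * M * N : ℕ) : ℝ) / r * (ℓ ^ 2 / p) + ((Q : ℝ) / p) ^ 2) :=
        mul_le_mul_of_nonneg_left h2 hℓ.le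
    _ ≤ ℓ * (((4 * M * N : ℕ) : ℝ) / r * (ℓ ^ 2 / p) + ℓ ^ 2 * (M * N / (r * p))) := by gcongr
    _ = _ := by
        push_cast
        field_simp
        ring

lemma Z1_le_Z2 (r M N : ℕ) (h : ℤ) (c : ℕ → ℤ) (S : Finset ℕ) :
    ∑ m ∈ Ioc M (2 * M), ∑ n ∈ Ioc N (2 * N), Pl r h (m * n) * Act S c (m * n) ≤
    ∑ m ∈ Ioc M (2 * M), ∑ n ∈ Ioc N (2 * N), Pl r h (m * n) * Act S c (m * n) ^ 2 :=
  sum_le_sum fun _ _ => sum_le_sum fun _ _ =>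
    mul_le_mul_of_nonneg_left (Act_le_sq S c _) (Pl_nonneg _ _ _)

/-- equal `n` -/
lemma diag_le {r M N Q : ℕ} {ℓ : ℝ} (P : Par r M N Q ℓ) (h c : ℤ) (T : Finset ℕ)
    (hT : ∀ t ∈ T, 0 < t ∧ t ≤ Q) (hcop : ∀ t ∈ T, r.Coprime t) :
    ∑ m ∈ Ioc M (2 * M), ∑ n ∈ Ioc N (2 * N), Pl r h (m * n) * Bp T c 1 (m * n) ^ 2 ≤
      20 * ℓ ^ 5 * (M * N / r) := by
  classical
  have hr : (0 : ℝ) < r := by exact_mod_cast P.r0
  have hℓ : 0 < ℓ := lt_of_lt_of_le one_pos P.l1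
  have hMN : (0 : ℝ) ≤ M * N := by positivity
  set b := ∑ t ∈ T, (1 / (Nat.totient t : ℝ)) with hb
  have hb0 : 0 ≤ b := sum_nonneg fun _ _ => by positivity
  have hS : ∀ t ∈ T, 0 < t ∧ t ≤ Q ∧ 1 ∣ t := fun t ht => ⟨(hT t ht).1, (hT t ht).2, one_dvd _⟩
  have hbl : b ≤ ℓ ^ 2 := by
    have := sum_phi T 1 Q ℓ one_pos hS P.t1 P.lQ
    rw [Nat.cast_one, div_one] at this
    exact this
  have hfil : T.filter (fun t => 1 ∣ t) = T := by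
    apply filter_true_of_mem
    intro t _; exact one_dvd t
  have h1 : ∀ x, Bp T c 1 x ^ 2 ≤ 2 * Act T (fun _ => c) x ^ 2 + 2 * b ^ 2 := by
    intro x
    have h2 := Bp_le T c 1 x
    rw [hfil, ← hb] at h2
    have h3 := Bp_nonneg T c 1 x
    calc Bp T c 1 x ^ 2 ≤ (Act T (fun _ => c) x + b) ^ 2 := pow_le_pow_left₀ h3 h2 2
      _ ≤ _ := by nlinarith [sq_nonneg (Act T (fun _ => c) x - b)]
  have h2 : ∑ m ∈ Ioc M (2 * M), ∑ n ∈ Ioc N (2 * N), Pl r h (m * n) * Bp T c 1 (m * n) ^ 2 ≤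
      2 * ∑ m ∈ Ioc M (2 * M), ∑ n ∈ Ioc N (2 * N), Pl r h (m * n) * Act T (fun _ => c) (m * n) ^ 2 +
      2 * b ^ 2 * ∑ m ∈ Ioc M (2 * M), ∑ n ∈ Ioc N (2 * N), Pl r h (m * n) := by
    simp only [mul_sum, ← sum_add_distrib]
    refine sum_le_sum fun m _ => sum_le_sum fun n _ => ?_
    calc Pl r h (m * n) * Bp T c 1 (m * n) ^ 2
        ≤ Pl r h (m * n) * (2 * Act T (fun _ => c) (m * n) ^ 2 + 2 * b ^ 2) :=
          mul_le_mul_of_nonneg_left (h1 _) (Pl_nonneg _ _ _)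
      _ = _ := by ring
  refine h2.trans ?_
  have h3 := Z2_le P h (fun _ => c) T 1 one_pos hS hcop
  have h4 := Z0_le P h
  have h00 : 0 ≤ ∑ m ∈ Ioc M (2 * M), ∑ n ∈ Ioc N (2 * N), Pl r h (m * n) :=
    sum_nonneg fun _ _ => sum_nonneg fun _ _ => Pl_nonneg _ _ _
  simp only [Nat.cast_one, mul_one] at h3
  have h5 : ℓ ^ 3 ≤ ℓ ^ 5 := pow_le_pow_right₀ P.l1 (by norm_num)
  calc _ ≤ 2 * (5 * ℓ ^ 3 * (M * N / r)) + 2 * (ℓ ^ 2) ^ 2 * (5 * ℓ * (M * N / r)) := by gcongr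
    _ = 10 * ℓ ^ 3 * (M * N / r) + 10 * ℓ ^ 5 * (M * N / r) := by ring
    _ ≤ 10 * ℓ ^ 5 * (M * N / r) + 10 * ℓ ^ 5 * (M * N / r) := by gcongr
    _ = _ := by ring

/-- moduli with a common prime factor -/
lemma pairs_le {r M N Q : ℕ} {ℓ : ℝ} (P : Par r M N Q ℓ) (h c : ℤ) (hh : IsCoprime h (r : ℤ)) (T : Finset ℕ)
    (hT : ∀ t ∈ T, 0 < t ∧ t ≤ Q) (hcop : ∀ t ∈ T, r.Coprime t) (hc : ∀ t ∈ T, IsCoprime c (t : ℤ))
    (p : ℕ) (hp : p.Prime) :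
    ∑ m ∈ Ioc M (2 * M), ∑ n1 ∈ Ioc N (2 * N), ∑ n2 ∈ Ioc N (2 * N),
          Pl r h (m * n1) * (ind (n1 ≠ n2 ∧ n1 ≡ n2 [MOD r]) * (Bp T c p (m * n1) * Bp T c p (m * n2))) ≤
      20 * ℓ ^ 5 * (M * (N : ℝ) ^ 2 / (r : ℝ) ^ 2) * ((p : ℝ) ^ 2)⁻¹ := by
  classical
  have hr : (0 : ℝ) < r := by exact_mod_cast P.r0
  have hpp : (0 : ℝ) < p := by exact_mod_cast hp.pos
  have hℓ : 0 < ℓ := lt_of_lt_of_le one_pos P.l1
  have hMN : (0 : ℝ) ≤ M * N := by positivity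
  have hN0 : (0 : ℝ) ≤ N := Nat.cast_nonneg N
  by_cases hex : ∃ t ∈ T, p ∣ t
  swap
  · have h0 : ∀ x, Bp T c p x = 0 := by
      intro x
      unfold Bp
      refine sum_eq_zero fun t ht => ?_
      have : ¬ p ∣ t := fun hd => hex ⟨t, ht, hd⟩
      rw [ind_false this, zero_mul]
    simp only [h0, mul_zero, sum_const_zero]
    positivity
  obtain ⟨t0, ht0, hpt0⟩ := hex
  have hrp : r.Coprime p := (hcop t0 ht0).coprime_dvd_right hpt0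
  have hcp : IsCoprime c (p : ℤ) := (hc t0 ht0).of_isCoprime_of_dvd_right (Int.natCast_dvd_natCast.2 hpt0)
  set S := T.filter (fun t => p ∣ t) with hSdef
  set b := ∑ t ∈ S, (1 / (Nat.totient t : ℝ)) with hb
  have hb0 : 0 ≤ b := sum_nonneg fun _ _ => by positivity
  have hS : ∀ t ∈ S, 0 < t ∧ t ≤ Q ∧ p ∣ t := by
    intro t ht
    rw [hSdef, mem_filter] at ht
    exact ⟨(hT t ht.1).1, (hT t ht.1).2, ht.2⟩
  have hScop : ∀ t ∈ S, r.Coprime t := by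
    intro t ht
    rw [hSdef, mem_filter] at ht
    exact hcop t ht.1
  have hbl : b ≤ ℓ ^ 2 / p := sum_phi S p Q ℓ hp.pos hS P.t1 P.lQ
  set A := Act S (fun _ => c) with hA
  have hA0 : ∀ x, 0 ≤ A x := fun x => Act_nonneg S _ x
  have hAp : ∀ x, A x ≠ 0 → (p : ℤ) ∣ (x : ℤ) - c := by
    intro x hx
    obtain ⟨t, ht, htx⟩ := exists_ne_zero_of_sum_ne_zero hx
    have h1 : (t : ℤ) ∣ (x : ℤ) - c := by
      by_contra h2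
      exact htx (ind_false h2)
    exact (Int.natCast_dvd_natCast.2 (hS t ht).2.2).trans h1
  -- pointwise bound
  have hpt : ∀ m n1 n2 : ℕ, Pl r h (m * n1) * (ind (n1 ≠ n2 ∧ n1 ≡ n2 [MOD r]) *
      (Bp T c p (m * n1) * Bp T c p (m * n2))) ≤
      (Pl r h (m * n1) * (ind (n1 ≠ n2 ∧ n1 ≡ n2 [MOD (r * p)]) * A (m * n1) ^ 2) / 2 +
       Pl r h (m * n1) * (ind (n1 ≠ n2 ∧ n1 ≡ n2 [MOD (r * p)]) * A (m * n2) ^ 2) / 2) +
      (b * (Pl r h (m * n1) * (ind (n1 ≠ n2 ∧ n1 ≡ n2 [MOD r]) * A (m * n1))) +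
       b * (Pl r h (m * n1) * (ind (n1 ≠ n2 ∧ n1 ≡ n2 [MOD r]) * A (m * n2))) +
       b ^ 2 * (Pl r h (m * n1) * (ind (n1 ≠ n2 ∧ n1 ≡ n2 [MOD r]) * 1))) := by
    intro m n1 n2
    have a1 := Bp_le T c p (m * n1)
    have a2 := Bp_le T c p (m * n2)
    rw [← hSdef, ← hb, ← hA] at a1 a2
    have a3 : Bp T c p (m * n1) * Bp T c p (m * n2) ≤ (A (m * n1) + b) * (A (m * n2) + b) :=
      mul_le_mul a1 a2 (Bp_nonneg _ _ _ _) (by have := hA0 (m * n1); positivity)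
    have a4 : ind (n1 ≠ n2 ∧ n1 ≡ n2 [MOD r]) * (A (m * n1) * A (m * n2)) ≤
        ind (n1 ≠ n2 ∧ n1 ≡ n2 [MOD (r * p)]) * ((A (m * n1) ^ 2 + A (m * n2) ^ 2) / 2) := by
      have hR : 0 ≤ ind (n1 ≠ n2 ∧ n1 ≡ n2 [MOD (r * p)]) * ((A (m * n1) ^ 2 + A (m * n2) ^ 2) / 2) :=
        mul_nonneg (ind_nonneg _) (by positivity)
      by_cases e0 : n1 ≠ n2 ∧ n1 ≡ n2 [MOD r]
      swap
      · rw [ind_false e0, zero_mul]; exact hR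
      by_cases e1 : A (m * n1) = 0
      · rw [e1, zero_mul, mul_zero]
        rw [e1] at hR; exact hR
      by_cases e2 : A (m * n2) = 0
      · rw [e2, mul_zero, mul_zero]
        rw [e2] at hR; exact hR
      have e3 := hAp _ e1
      have e4 := hAp _ e2
      have e5 := (cls_iff p c hcp m n1 n2 e3).1 e4
      have e6 : n1 ≡ n2 [MOD (r * p)] := (Nat.modEq_and_modEq_iff_modEq_mul hrp).1 ⟨e0.2, e5⟩
      rw [ind_true e0, ind_true (⟨e0.1, e6⟩ : n1 ≠ n2 ∧ n1 ≡ n2 [MOD (r * p)])]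
      nlinarith [sq_nonneg (A (m * n1) - A (m * n2))]
    have hP0 := Pl_nonneg r h (m * n1)
    have hi0 := ind_nonneg (n1 ≠ n2 ∧ n1 ≡ n2 [MOD r])
    calc Pl r h (m * n1) * (ind (n1 ≠ n2 ∧ n1 ≡ n2 [MOD r]) * (Bp T c p (m * n1) * Bp T c p (m * n2)))
        ≤ Pl r h (m * n1) * (ind (n1 ≠ n2 ∧ n1 ≡ n2 [MOD r]) * ((A (m * n1) + b) * (A (m * n2) + b))) := by
          gcongr
      _ = Pl r h (m * n1) * (ind (n1 ≠ n2 ∧ n1 ≡ n2 [MOD r]) * (A (m * n1) * A (m * n2))) +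
          (b * (Pl r h (m * n1) * (ind (n1 ≠ n2 ∧ n1 ≡ n2 [MOD r]) * A (m * n1))) +
       b * (Pl r h (m * n1) * (ind (n1 ≠ n2 ∧ n1 ≡ n2 [MOD r]) * A (m * n2))) +
       b ^ 2 * (Pl r h (m * n1) * (ind (n1 ≠ n2 ∧ n1 ≡ n2 [MOD r]) * 1))) := by ring
      _ ≤ Pl r h (m * n1) * (ind (n1 ≠ n2 ∧ n1 ≡ n2 [MOD (r * p)]) * ((A (m * n1) ^ 2 + A (m * n2) ^ 2) / 2)) +
          (b * (Pl r h (m * n1) * (ind (n1 ≠ n2 ∧ n1 ≡ n2 [MOD r]) * A (m * n1))) +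
       b * (Pl r h (m * n1) * (ind (n1 ≠ n2 ∧ n1 ≡ n2 [MOD r]) * A (m * n2))) +
       b ^ 2 * (Pl r h (m * n1) * (ind (n1 ≠ n2 ∧ n1 ≡ n2 [MOD r]) * 1))) := by gcongr
      _ = _ := by ring
  -- symmetry
  have hsymE : ∀ q a b' : ℕ, ind (a ≠ b' ∧ a ≡ b' [MOD q]) = ind (b' ≠ a ∧ b' ≡ a [MOD q]) := by
    intro q a b'
    congr 1
    rw [eq_iff_iff]
    constructor
    · rintro ⟨h1, h2⟩; exact ⟨h1.symm, h2.symm⟩
    · rintro ⟨h1, h2⟩; exact ⟨h1.symm, h2.symm⟩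
  have hPE : ∀ q, r ∣ q → ∀ m n1 n2 : ℕ, ind (n1 ≠ n2 ∧ n1 ≡ n2 [MOD q]) * Pl r h (m * n1) =
      ind (n1 ≠ n2 ∧ n1 ≡ n2 [MOD q]) * Pl r h (m * n2) := by
    intro q hq m n1 n2
    by_cases e : n1 ≠ n2 ∧ n1 ≡ n2 [MOD q]
    · have e2 : n1 ≡ n2 [MOD r] := e.2.of_dvd hq
      congr 1
      unfold Pl
      congr 1
      rw [eq_iff_iff]
      constructor
      · intro h1; exact (cls_iff r h hh m n1 n2 h1).2 e2
      · intro h1; exact (cls_iff r h hh m n2 n1 h1).2 e2.symm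
    · rw [ind_false e, zero_mul, zero_mul]
  have hs : ∀ q, 0 < q → r ∣ q → ∀ m : ℕ, ∀ f : ℕ → ℝ, (∀ n, 0 ≤ f n) →
      (∑ n1 ∈ Ioc N (2 * N), ∑ n2 ∈ Ioc N (2 * N), Pl r h (m * n1) *
        (ind (n1 ≠ n2 ∧ n1 ≡ n2 [MOD q]) * f n1) ≤ (N / q) * ∑ n ∈ Ioc N (2 * N), Pl r h (m * n) * f n) ∧
      (∑ n1 ∈ Ioc N (2 * N), ∑ n2 ∈ Ioc N (2 * N), Pl r h (m * n1) *
        (ind (n1 ≠ n2 ∧ n1 ≡ n2 [MOD q]) * f n2) ≤ (N / q) * ∑ n ∈ Ioc N (2 * N), Pl r h (m * n) * f n) := by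
    intro q hq hrq m f hf
    have h1 : ∑ n1 ∈ Ioc N (2 * N), ∑ n2 ∈ Ioc N (2 * N), Pl r h (m * n1) *
        (ind (n1 ≠ n2 ∧ n1 ≡ n2 [MOD q]) * f n1) ≤ (N / q) * ∑ n ∈ Ioc N (2 * N), Pl r h (m * n) * f n := by
      rw [mul_sum]
      refine sum_le_sum fun n1 hn1 => ?_
      have h2 : ∑ n2 ∈ Ioc N (2 * N), Pl r h (m * n1) * (ind (n1 ≠ n2 ∧ n1 ≡ n2 [MOD q]) * f n1) =
          (∑ n2 ∈ Ioc N (2 * N), ind (n1 ≠ n2 ∧ n1 ≡ n2 [MOD q])) * (Pl r h (m * n1) * f n1) := by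
        rw [sum_mul]
        refine sum_congr rfl fun n2 _ => ?_
        ring
      rw [h2]
      exact mul_le_mul_of_nonneg_right (sum_ne N q hq n1 hn1) (mul_nonneg (Pl_nonneg _ _ _) (hf _))
    refine ⟨h1, ?_⟩
    rw [sym_sum (Ioc N (2 * N)) (fun a b' => ind (a ≠ b' ∧ a ≡ b' [MOD q])) (fun n => Pl r h (m * n)) f
      (hsymE q) (fun a _ b' _ => hPE q hrq m a b')]
    exact h1
  have hrp0 : 0 < r * p := Nat.mul_pos P.r0 hp.pos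
  -- for fixed `m`
  have hm : ∀ m ∈ Ioc M (2 * M), ∑ n1 ∈ Ioc N (2 * N), ∑ n2 ∈ Ioc N (2 * N),
      Pl r h (m * n1) * (ind (n1 ≠ n2 ∧ n1 ≡ n2 [MOD r]) * (Bp T c p (m * n1) * Bp T c p (m * n2))) ≤
      (N / (r * p)) * ∑ n ∈ Ioc N (2 * N), Pl r h (m * n) * A (m * n) ^ 2 +
      (N / r) * (2 * b * ∑ n ∈ Ioc N (2 * N), Pl r h (m * n) * A (m * n) +
        b ^ 2 * ∑ n ∈ Ioc N (2 * N), Pl r h (m * n)) := by
    intro m _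
    refine (sum_le_sum fun n1 _ => sum_le_sum fun n2 _ => hpt m n1 n2).trans ?_
    simp only [sum_add_distrib, ← mul_sum, ← sum_div]
    have g1 := (hs (r * p) hrp0 (Dvd.intro _ rfl) m (fun n => A (m * n) ^ 2) (fun _ => sq_nonneg _))
    have g2 := (hs r P.r0 dvd_rfl m (fun n => A (m * n)) (fun _ => hA0 _))
    have g3 := (hs r P.r0 dvd_rfl m (fun _ => 1) (fun _ => zero_le_one)).1
    simp only [← mul_sum] at g1 g2 g3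
    push_cast at g1
    simp only [mul_one] at g3 ⊢
    have g4 := mul_le_mul_of_nonneg_left g2.1 hb0
    have g5 := mul_le_mul_of_nonneg_left g2.2 hb0
    have g6 := mul_le_mul_of_nonneg_left g3 (sq_nonneg b)
    linarith [g1.1, g1.2, g4, g5, g6]
  refine (sum_le_sum hm).trans ?_
  simp only [sum_add_distrib, ← mul_sum]
  have k2 := Z2_le P h (fun _ => c) S p hp.pos hS hScop
  have k1 := (Z1_le_Z2 r M N h (fun _ => c) S).trans k2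
  have k0 := Z0_le P h
  have h00 : 0 ≤ ∑ m ∈ Ioc M (2 * M), ∑ n ∈ Ioc N (2 * N), Pl r h (m * n) :=
    sum_nonneg fun _ _ => sum_nonneg fun _ _ => Pl_nonneg _ _ _
  have h01 : 0 ≤ ∑ m ∈ Ioc M (2 * M), ∑ n ∈ Ioc N (2 * N), Pl r h (m * n) * A (m * n) :=
    sum_nonneg fun _ _ => sum_nonneg fun _ _ => mul_nonneg (Pl_nonneg _ _ _) (hA0 _)
  rw [← hA] at k1 k2
  have h5 : ℓ ^ 3 ≤ ℓ ^ 5 := pow_le_pow_right₀ P.l1 (by norm_num)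
  calc _ ≤ (N / (r * p)) * (5 * ℓ ^ 3 * (M * N / (r * p))) +
      (N / r) * (2 * (ℓ ^ 2 / p) * (5 * ℓ ^ 3 * (M * N / (r * p))) + (ℓ ^ 2 / p) ^ 2 * (5 * ℓ * (M * N / r))) := by
        gcongr
    _ = (5 * ℓ ^ 3 + 15 * ℓ ^ 5) * (M * (N : ℝ) ^ 2 / (r : ℝ) ^ 2) * ((p : ℝ) ^ 2)⁻¹ := by
        field_simp
        ring
    _ ≤ (5 * ℓ ^ 5 + 15 * ℓ ^ 5) * (M * (N : ℝ) ^ 2 / (r : ℝ) ^ 2) * ((p : ℝ) ^ 2)⁻¹ := by gcongr
    _ = _ := by ring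

/-- the trivial part -/
theorem triv {r M N Q G : ℕ} {ℓ : ℝ} (P : Par r M N Q ℓ) (h c : ℤ) (hh : IsCoprime h (r : ℤ)) (T : Finset ℕ)
    (κ β : ℕ → ℝ) (hT : ∀ t ∈ T, 0 < t ∧ t ≤ Q) (hcop : ∀ t ∈ T, r.Coprime t)
    (hc : ∀ t ∈ T, IsCoprime c (t : ℤ)) (hG0 : 0 < G) (hG : ∀ t ∈ T, ∀ p : ℕ, p.Prime → p ∣ t → G < p)
    (hrG : (r : ℝ) * G ≤ N) (hκ : ∀ t, |κ t| ≤ 1) (hβ : ∀ n ∈ Ioc N (2 * N), |β n| ≤ ℓ) :
    |SSt r M N h c T κ β - Sof r M N h c T κ β| ≤ 40 * ℓ ^ 7 * (M * (N : ℝ) ^ 2 / (r : ℝ) ^ 2) / G := by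
  have hr : (0 : ℝ) < r := by exact_mod_cast P.r0
  have hℓ : 0 < ℓ := lt_of_lt_of_le one_pos P.l1
  have hGr : (0 : ℝ) < G := by exact_mod_cast hG0
  have h1 := diff_le r M N G Q h c T κ β ℓ hℓ.le hh hT hG hκ hβ
  refine h1.trans ?_
  have h2 := diag_le P h c T hT hcop
  have h3 : ∑ p ∈ (Ioc G Q).filter Nat.Prime, ∑ m ∈ Ioc M (2 * M), ∑ n1 ∈ Ioc N (2 * N), ∑ n2 ∈ Ioc N (2 * N),
          Pl r h (m * n1) * (ind (n1 ≠ n2 ∧ n1 ≡ n2 [MOD r]) * (Bp T c p (m * n1) * Bp T c p (m * n2))) ≤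
      ∑ p ∈ (Ioc G Q).filter Nat.Prime, 20 * ℓ ^ 5 * (M * (N : ℝ) ^ 2 / (r : ℝ) ^ 2) * ((p : ℝ) ^ 2)⁻¹ :=
    sum_le_sum fun p hp => pairs_le P h c hh T hT hcop hc p (mem_filter.1 hp).2
  have h4 : ∑ p ∈ (Ioc G Q).filter Nat.Prime, ((p : ℝ) ^ 2)⁻¹ ≤ (G : ℝ)⁻¹ := by
    refine (sum_le_sum_of_subset_of_nonneg (filter_subset _ _) (fun _ _ _ => by positivity)).trans ?_
    by_cases hGQ : G ≤ Q
    · refine (sum_Ioc_inv_sq_le_sub hG0.ne' hGQ).trans ?_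
      have : (0 : ℝ) ≤ (Q : ℝ)⁻¹ := by positivity
      linarith
    · rw [Ioc_eq_empty (by omega), sum_empty]
      positivity
  rw [← mul_sum] at h3
  have h5 : (M * N / r : ℝ) ≤ (M * (N : ℝ) ^ 2 / (r : ℝ) ^ 2) / G := by
    rw [div_div, div_le_div_iff₀ hr (by positivity)]
    have hM : (0 : ℝ) ≤ M := Nat.cast_nonneg M
    have hN : (0 : ℝ) ≤ N := Nat.cast_nonneg N
    calc (M : ℝ) * N * ((r : ℝ) ^ 2 * G) = (M * N * r) * (r * G) := by ring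
      _ ≤ (M * N * r) * N := by gcongr
      _ = _ := by ring
  calc _ ≤ ℓ ^ 2 * (20 * ℓ ^ 5 * ((M * (N : ℝ) ^ 2 / (r : ℝ) ^ 2) / G) +
        20 * ℓ ^ 5 * (M * (N : ℝ) ^ 2 / (r : ℝ) ^ 2) * (G : ℝ)⁻¹) := by
        apply mul_le_mul_of_nonneg_left _ (by positivity)
        apply add_le_add
        · exact h2.trans (mul_le_mul_of_nonneg_left h5 (by positivity))
        · exact h3.trans (mul_le_mul_of_nonneg_left h4 (by positivity))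
    _ = _ := by ring

end Pool.Agent.R503.N
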