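import Mathlib
import Pool.Agent.R503.N.TrC

/-! The bilinear sums for one left modulus: connection of the two forms (helper503). -/

open Finset

namespace Pool.Agent.R503.N

open Pool.Agent.Y826.Z Pool.Agent.Y826.Z.OB

lemma zmod_iff (t : ℕ) (c x : ℤ) : ((x : ZMod t) = (c : ZMod t)) ↔ (t : ℤ) ∣ x - c := by
  rw [ZMod.intCast_eq_intCast_iff_dvd_sub, ← dvd_neg, neg_sub]

lemma Lr_one (r : ℕ) (h : ℤ) (x : ℤ) : Lr 1 r h x ↔ (r : ℤ) ∣ x - h := by
  unfold Lr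
  rw [zmod_iff, zmod_iff]
  constructor
  · exact fun h => h.2
  · exact fun h => ⟨by simp, h⟩

lemma Dr_same (u w : ℕ) (c x : ℤ) (huw : u.Coprime w) : Dr u w c c x = Dc (u * w) c x := by
  unfold Dr Dc
  have h1 : ((x : ZMod u) = (c : ZMod u) ∧ (x : ZMod w) = (c : ZMod w)) ↔ ((u * w : ℕ) : ℤ) ∣ x - c := by
    rw [zmod_iff, zmod_iff]
    constructor
    · rintro ⟨h1, h2⟩
      push_cast
      exact (Nat.isCoprime_iff_coprime.2 huw).mul_dvd h1 h2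
    · intro h
      push_cast at h
      exact ⟨(Dvd.intro _ rfl).trans h, (Dvd.intro_left _ rfl).trans h⟩
  rw [propext h1]

/-- the coefficients in terms of the factors -/
noncomputable def kq (T : Finset ℕ) (e u v : ℕ → ℕ) (κ : ℕ → ℝ) (o : ℕ × ℕ) (w : Tp) : ℝ :=
  ind (o.1 * o.2 * Pr w ∈ T ∧ e (o.1 * o.2 * Pr w) = o.1 ∧ u (o.1 * o.2 * Pr w) = o.2 ∧
    v (o.1 * o.2 * Pr w) = Pr w) * κ (o.1 * o.2 * Pr w)

/-- one-tuples -/
def tp (n : ℕ) : Tp := fun _ => n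

lemma Pr_tp (n : ℕ) : Pr (tp n) = n := by
  unfold Pr tp
  simp

lemma tp_Pr (w : Tp) : tp (Pr w) = w := by
  funext i
  unfold tp Pr
  rw [Fin.prod_univ_one]
  congr 1
  exact (Subsingleton.elim _ _)

lemma sum_dec (T : Finset ℕ) (e u v : ℕ → ℕ) (κ : ℕ → ℝ) (hdec : ∀ t ∈ T, e t * u t * v t = t)
    (F : ℕ × ℕ → Tp → ℝ) :
    ∑ o ∈ T.image (fun t => (e t, u t)), ∑ w ∈ T.image (fun t => tp (v t)), kq T e u v κ o w * F o w =
      ∑ t ∈ T, κ t * F (e t, u t) (tp (v t)) := by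
  classical
  rw [← sum_product' (T.image (fun t => (e t, u t))) (T.image (fun t => tp (v t)))
    (fun o w => kq T e u v κ o w * F o w)]
  symm
  have h1 : ∑ t ∈ T, κ t * F (e t, u t) (tp (v t)) =
      ∑ x ∈ T.image (fun t => ((e t, u t), tp (v t))), kq T e u v κ x.1 x.2 * F x.1 x.2 := by
    rw [sum_image]
    · refine sum_congr rfl fun t ht => ?_
      have h2 : e t * u t * Pr (tp (v t)) = t := by rw [Pr_tp]; exact hdec t ht
      simp only [kq]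
      rw [h2, ind_true ⟨ht, rfl, rfl, (Pr_tp _).symm⟩, one_mul]
    · intro a ha b hb hab
      simp only [Prod.mk.injEq] at hab
      have h3 : v a = v b := by
        have := congrArg Pr hab.2
        rwa [Pr_tp, Pr_tp] at this
      rw [← hdec a ha, ← hdec b hb, hab.1.1, hab.1.2, h3]
  rw [h1]
  apply sum_subset
  · intro x hx
    rw [mem_image] at hx
    obtain ⟨t, ht, rfl⟩ := hx
    rw [mem_product]
    exact ⟨mem_image_of_mem _ ht, mem_image_of_mem _ ht⟩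
  · intro x _ hx
    have h4 : ¬ (x.1.1 * x.1.2 * Pr x.2 ∈ T ∧ e (x.1.1 * x.1.2 * Pr x.2) = x.1.1 ∧
        u (x.1.1 * x.1.2 * Pr x.2) = x.1.2 ∧ v (x.1.1 * x.1.2 * Pr x.2) = Pr x.2) := by
      rintro ⟨a1, a2, a3, a4⟩
      apply hx
      rw [mem_image]
      refine ⟨_, a1, ?_⟩
      rw [a2, a3, a4, tp_Pr]
    unfold kq
    rw [ind_false h4, zero_mul, zero_mul]

lemma Soff_eq_Sof (r M N : ℕ) (c : ℤ) (T : Finset ℕ) (e u v : ℕ → ℕ) (κ β : ℕ → ℝ)
    (hdec : ∀ t ∈ T, e t * u t * v t = t) (hsf : ∀ t ∈ T, Squarefree t) :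
    Soff 1 r M N c (T.image (fun t => (e t, u t))) (T.image (fun t => tp (v t))) (kq T e u v κ)
      (fun _ => c) (fun _ _ => c) β = Sof r M N c c T κ β := by
  classical
  set SO := T.image (fun t => (e t, u t)) with hSO
  set SV := T.image (fun t => tp (v t)) with hSV
  set Φ : ℕ × ℕ → ℕ × ℕ → Tp → Tp → ℝ := fun o1 o2 v1 v2 =>
    ind ((o1.1 * o1.2 * Pr v1).Coprime (o2.1 * o2.2 * Pr v2)) *
    ∑ n1 ∈ Ioc N (2 * N), ∑ n2 ∈ Ioc N (2 * N), ind (n1 ≠ n2 ∧ n1 ≡ n2 [MOD (1 * r)]) *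
      (β n1 * β n2 * inn 1 r M c (fun _ => c) (fun _ _ => c) o1 o2 v1 v2 n1 n2) with hΦ
  have e1 : Soff 1 r M N c SO SV (kq T e u v κ) (fun _ => c) (fun _ _ => c) β =
      ∑ o1 ∈ SO, ∑ v1 ∈ SV, kq T e u v κ o1 v1 * ∑ o2 ∈ SO, ∑ v2 ∈ SV, kq T e u v κ o2 v2 *
        Φ o1 o2 v1 v2 := by
    unfold Soff
    refine sum_congr rfl fun o1 _ => ?_
    rw [sum_comm]
    refine sum_congr rfl fun v1 _ => ?_
    rw [mul_sum]
    refine sum_congr rfl fun o2 _ => ?_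
    rw [mul_sum]
    refine sum_congr rfl fun v2 _ => ?_
    rw [hΦ]
    simp only [kap]
    ring
  rw [e1, sum_dec T e u v κ hdec (fun o1 v1 => ∑ o2 ∈ SO, ∑ v2 ∈ SV, kq T e u v κ o2 v2 * Φ o1 o2 v1 v2)]
  unfold Sof
  refine sum_congr rfl fun t1 ht1 => ?_
  rw [sum_dec T e u v κ hdec (fun o2 v2 => Φ (e t1, u t1) o2 (tp (v t1)) v2), mul_sum]
  refine sum_congr rfl fun t2 ht2 => ?_
  rw [hΦ]
  simp only [Pr_tp, hdec t1 ht1, hdec t2 ht2, one_mul]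
  have hD : ∀ t ∈ T, ∀ x : ℤ, Dr (u t) (e t * v t) c c x = Dc t c x := by
    intro t ht x
    have h1 : t = u t * (e t * v t) := by
      calc t = e t * u t * v t := (hdec t ht).symm
        _ = _ := by ring
    have h2 := hsf t ht
    rw [h1, Nat.squarefree_mul_iff] at h2
    rw [Dr_same _ _ _ _ h2.1, ← h1]
  have hin : ∀ n1 n2, inn 1 r M c (fun _ => c) (fun _ _ => c) (e t1, u t1) (e t2, u t2) (tp (v t1)) (tp (v t2))
      n1 n2 = ∑ m ∈ Ioc M (2 * M), Pl r c (m * n1) *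
      Dc t1 c ((m * n1 : ℕ) : ℤ) * Dc t2 c ((m * n2 : ℕ) : ℤ) := by
    intro n1 n2
    unfold inn
    refine sum_congr rfl fun m _ => ?_
    simp only [Pr_tp]
    rw [hD t1 ht1, hD t2 ht2, propext (Lr_one r c _)]
    rfl
  simp only [hin]
  ring

end Pool.Agent.R503.N
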