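import Mathlib
import Pool.Agent.R503.N.BlkA

/-! The bilinear sums for one left modulus (helper503). -/

open Finset

namespace Pool.Agent.R503.N

open Pool.Agent.Y826.Z Pool.Agent.Y826.Z.OB

/-- parameters -/
structure EnvX (X Λ ℓ C : ℝ) : Prop where
  hX : 256 ≤ X
  hΛ : 4 ≤ Λ
  hΛX : Λ ^ 2 ≤ X
  hC1 : 1 ≤ C
  hCΛ : C ≤ Λ
  hI : ((Nat.log 2 ⌊X ^ 3⌋₊ + 2 : ℕ) : ℝ) ≤ Λ
  l1 : 1 ≤ ℓ
  hℓΛ : ℓ ≤ Λ
  ht : ∀ n : ℕ, n ≠ 0 → (n : ℝ) ≤ X ^ 10 → tau n ^ 3 ≤ ℓ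
  hl : 1 + Real.log (X ^ 10) ≤ ℓ
  hoa : ∀ (r M N : ℕ) (h : ℤ) (SV : Finset Tp) (β : ℕ → ℝ), 0 < N → (N : ℝ) ≤ X ^ 3 → (M : ℝ) ≤ X ^ 3 →
    IsCoprime h (r : ℤ) → OAI 1 r M N h (X ^ 3) C Λ SV β

lemma EnvX.t2 {X Λ ℓ C : ℝ} (E : EnvX X Λ ℓ C) (n : ℕ) (hn : n ≠ 0) (h : (n : ℝ) ≤ X ^ 10) :
    tau n ^ 2 ≤ Λ :=
  ((pow_le_pow_right₀ (tau_ge_one hn) (by norm_num)).trans (E.ht n hn h)).trans E.hℓΛ

lemma EnvX.bigX {X Λ ℓ C : ℝ} (E : EnvX X Λ ℓ C) : 64 * X ≤ X ^ 10 := by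
  have hX := E.hX
  have h1 : X ^ 2 ≤ X ^ 10 := pow_le_pow_right₀ (by linarith) (by norm_num)
  nlinarith

lemma EnvX.par {X Λ ℓ C : ℝ} (E : EnvX X Λ ℓ C) (r M N Q : ℕ) (hr : 0 < r) (hM : 0 < M) (hN : 0 < N)
    (hQ : 0 < Q) (hMN : (M : ℝ) * N ≤ 16 * X) (hrQ : (r : ℝ) * Q ^ 2 ≤ M * N) : Par r M N Q ℓ := by
  have hr1 : (1 : ℝ) ≤ r := by exact_mod_cast hr
  have hbig := E.bigX
  have hX := E.hX
  have hQQ : (((Q * Q : ℕ)) : ℝ) ≤ 16 * X := by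
    push_cast
    calc (Q : ℝ) * Q = 1 * (Q : ℝ) ^ 2 := by ring
      _ ≤ r * (Q : ℝ) ^ 2 := by gcongr
      _ ≤ M * N := hrQ
      _ ≤ 16 * X := hMN
  refine ⟨hr, hM, hN, hQ, E.l1, ?_, ?_, hrQ⟩
  · intro n hn h
    apply E.ht n hn
    rcases h with h | h
    · have : (n : ℝ) ≤ ((Q * Q : ℕ) : ℝ) := by exact_mod_cast h
      linarith
    · have h2 : (n : ℝ) ≤ ((4 * M * N : ℕ) : ℝ) := by exact_mod_cast h
      push_cast at h2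
      linarith
  · refine le_trans ?_ E.hl
    have h3 : (0 : ℝ) < ((Q * Q : ℕ) : ℝ) := by exact_mod_cast Nat.mul_pos hQ hQ
    have := Real.log_le_log h3 (hQQ.trans (by linarith : 16 * X ≤ X ^ 10))
    linarith

/-- the second moment, with windows -/
theorem SSt_le {X Λ ℓ C : ℝ} (E : EnvX X Λ ℓ C) (r M N G Q : ℕ) (c : ℤ) (T : Finset ℕ) (e u v : ℕ → ℕ)
    (W U V : ℝ) (κ β : ℕ → ℝ) (hM : 0 < M) (hN : 0 < N) (hMN : (M : ℝ) * N ≤ 16 * X) (hr : 0 < r)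
    (hW : 0 < W) (hU : 0 < U) (hV : 1 ≤ V) (hdec : ∀ t ∈ T, e t * u t * v t = t)
    (hsf : ∀ t ∈ T, Squarefree (r * t)) (hc : IsCoprime c (r : ℤ)) (hct : ∀ t ∈ T, IsCoprime c (t : ℤ))
    (hG0 : 0 < G) (hG : ∀ t ∈ T, ∀ p : ℕ, p.Prime → p ∣ t → G < p) (hrG : (r : ℝ) * G ≤ N)
    (we : ∀ t ∈ T, W / Λ ≤ e t ∧ (e t : ℝ) ≤ W * Λ) (wu : ∀ t ∈ T, U / Λ ≤ u t ∧ (u t : ℝ) ≤ U * Λ)
    (wv : ∀ t ∈ T, V / Λ ≤ v t ∧ (v t : ℝ) ≤ V * Λ)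
    (s2 : r * W ^ 2 * U ^ 2 * Λ ^ 1000 ≤ M) (s3 : W ^ 2 * V ^ 12 * Λ ^ 1000 ≤ N)
    (s4 : r * U ^ 2 * V ^ 16 * Λ ^ 1000 ≤ (N : ℝ) ^ 2) (s5 : V ^ 16 * Λ ^ 1000 ≤ r * U ^ 2)
    (hQ : 0 < Q) (hTQ : ∀ t ∈ T, t ≤ Q) (hrQ : (r : ℝ) * Q ^ 2 ≤ M * N)
    (hκ : ∀ t, |κ t| ≤ 1) (hβ : ∀ n ∈ Ioc N (2 * N), |β n| ≤ ℓ) :
    SSt r M N c c T κ β ≤ (40 * ℓ ^ 7 / G + Λ⁻¹) * (M * (N : ℝ) ^ 2 / (r : ℝ) ^ 2) := by
  classical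
  have P := E.par r M N Q hr hM hN hQ hMN hrQ
  have hΛ1 : 1 ≤ Λ := by linarith [E.hΛ]
  have hX := E.hX
  have hX1 : 1 ≤ X := by linarith
  have hV0 : 0 < V := by linarith
  have hMr : (0 : ℝ) < M := by exact_mod_cast hM
  have hNr : (0 : ℝ) < N := by exact_mod_cast hN
  have hrr : (0 : ℝ) < r := by exact_mod_cast hr
  have hM1 : (1 : ℝ) ≤ M := by exact_mod_cast hM
  have hN1 : (1 : ℝ) ≤ N := by exact_mod_cast hN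
  have hT0 : ∀ t ∈ T, 0 < t ∧ t ≤ Q := fun t ht =>
    ⟨Nat.pos_of_ne_zero (fun h0 => by
      have := (hsf t ht).ne_zero
      rw [h0, mul_zero] at this
      exact this rfl), hTQ t ht⟩
  have hcop : ∀ t ∈ T, r.Coprime t := fun t ht => (Nat.squarefree_mul_iff.1 (hsf t ht)).1
  have hst : ∀ t ∈ T, Squarefree t := fun t ht => (Nat.squarefree_mul_iff.1 (hsf t ht)).2.2
  have h1 := triv (G := G) P c c hc T κ β hT0 hcop hct hG0 hG hrG hκ hβ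
  have hN3 : (N : ℝ) ≤ X ^ 3 := by
    have : (N : ℝ) ≤ M * N := le_mul_of_one_le_left hNr.le hM1
    nlinarith [sq_nonneg X]
  have hM3 : (M : ℝ) ≤ X ^ 3 := by
    have : (M : ℝ) ≤ M * N := le_mul_of_one_le_right hMr.le hN1
    nlinarith [sq_nonneg X]
  have hH1 : 1 ≤ V ^ 2 := one_le_pow₀ hV
  have hΛ1000 : 1 ≤ Λ ^ 1000 := one_le_pow₀ hΛ1
  have h2 : |Soff 1 r M N c (T.image (fun t => (e t, u t))) (T.image (fun t => tp (v t))) (kq T e u v κ)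
      (fun _ => c) (fun _ _ => c) β| ≤ Λ⁻¹ * (M * (N : ℝ) ^ 2 / (((1 : ℕ) : ℝ) * r) ^ 2) := by
    apply off_det 1 r M N c _ _ _ _ _ β Λ X C W U V (V ^ 2) hX E.hΛ E.hΛX E.hC1 E.hCΛ E.hI
      E.t2 hMN hM hN one_pos hr hW hU hV0 hH1
    · rw [Nat.cast_one, one_mul, div_le_iff₀ hMr]
      calc r * W ^ 2 * U ^ 2 * V ^ 2 = V ^ 2 * (r * W ^ 2 * U ^ 2 * 1) := by ring
        _ ≤ V ^ 2 * (r * W ^ 2 * U ^ 2 * Λ ^ 1000) := by gcongr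
        _ ≤ V ^ 2 * M := by gcongr
    · rw [Nat.cast_one, one_mul]; exact s2
    · rw [Nat.cast_one, one_mul]
      calc W ^ 2 * V ^ 4 * (V ^ 2) ^ 4 * Λ ^ 1000 = W ^ 2 * V ^ 12 * Λ ^ 1000 := by ring
        _ ≤ (N : ℝ) := s3
    · calc r * U ^ 2 * (V ^ 2) ^ 8 * Λ ^ 1000 = r * U ^ 2 * V ^ 16 * Λ ^ 1000 := by ring
        _ ≤ _ := s4
    · calc (V ^ 2) ^ 8 * Λ ^ 1000 = V ^ 16 * Λ ^ 1000 := by ring
        _ ≤ _ := s5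
    · intro o w
      unfold kq
      rw [abs_mul, abs_of_nonneg (ind_nonneg _)]
      exact mul_le_one₀ (ind_le_one _) (abs_nonneg _) (hκ _)
    · intro o w hk
      have hmem : o.1 * o.2 * Pr w ∈ T ∧ e (o.1 * o.2 * Pr w) = o.1 ∧ u (o.1 * o.2 * Pr w) = o.2 ∧
          v (o.1 * o.2 * Pr w) = Pr w := by
        by_contra hcon
        apply hk
        unfold kq
        rw [ind_false hcon, zero_mul]
      have hmt := hmem.1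
      have hcc := hct _ hmt
      refine ⟨?_, ?_, ?_⟩
      · rw [one_mul]; exact hsf _ hmt
      · exact hcc.of_isCoprime_of_dvd_right (Int.natCast_dvd_natCast.2 ⟨o.1 * Pr w, by ring⟩)
      · exact hcc.of_isCoprime_of_dvd_right (Int.natCast_dvd_natCast.2 ⟨o.2, by ring⟩)
    · intro o ho
      rw [mem_image] at ho
      obtain ⟨t, ht, rfl⟩ := ho
      exact (we t ht).2
    · intro o ho
      rw [mem_image] at ho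
      obtain ⟨t, ht, rfl⟩ := ho
      exact (we t ht).1
    · intro o ho
      rw [mem_image] at ho
      obtain ⟨t, ht, rfl⟩ := ho
      exact (wu t ht).2
    · intro o ho
      rw [mem_image] at ho
      obtain ⟨t, ht, rfl⟩ := ho
      exact (wu t ht).1
    · intro w hw
      rw [mem_image] at hw
      obtain ⟨t, ht, rfl⟩ := hw
      rw [Pr_tp]
      exact (wv t ht).2
    · intro w hw
      rw [mem_image] at hw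
      obtain ⟨t, ht, rfl⟩ := hw
      rw [Pr_tp]
      exact (wv t ht).1
    · intro n hn
      exact (hβ n hn).trans E.hℓΛ
    · exact E.hoa r M N c _ β hN hN3 hM3 hc
  rw [Soff_eq_Sof r M N c T e u v κ β hdec hst, Nat.cast_one, one_mul] at h2
  have h3 := abs_le.1 h1
  have h4 := abs_le.1 h2
  calc SSt r M N c c T κ β = (SSt r M N c c T κ β - Sof r M N c c T κ β) + Sof r M N c c T κ β := by ring
    _ ≤ 40 * ℓ ^ 7 * (M * (N : ℝ) ^ 2 / (r : ℝ) ^ 2) / G + Λ⁻¹ * (M * (N : ℝ) ^ 2 / (r : ℝ) ^ 2) :=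
        add_le_add h3.2 h4.2
    _ = _ := by ring

/-- the bilinear sums for one left modulus, with windows -/
theorem blk1 {X Λ ℓ C : ℝ} (E : EnvX X Λ ℓ C) (r M N G Q : ℕ) (c : ℤ) (T : Finset ℕ) (e u v : ℕ → ℕ)
    (W U V : ℝ) (α β : ℕ → ℝ) (hM : 0 < M) (hN : 0 < N) (hMN : (M : ℝ) * N ≤ 16 * X) (hr : 0 < r)
    (hW : 0 < W) (hU : 0 < U) (hV : 1 ≤ V) (hdec : ∀ t ∈ T, e t * u t * v t = t)
    (hsf : ∀ t ∈ T, Squarefree (r * t)) (hc : IsCoprime c (r : ℤ)) (hct : ∀ t ∈ T, IsCoprime c (t : ℤ))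
    (hG0 : 0 < G) (hG : ∀ t ∈ T, ∀ p : ℕ, p.Prime → p ∣ t → G < p) (hrG : (r : ℝ) * G ≤ N)
    (we : ∀ t ∈ T, W / Λ ≤ e t ∧ (e t : ℝ) ≤ W * Λ) (wu : ∀ t ∈ T, U / Λ ≤ u t ∧ (u t : ℝ) ≤ U * Λ)
    (wv : ∀ t ∈ T, V / Λ ≤ v t ∧ (v t : ℝ) ≤ V * Λ)
    (s2 : r * W ^ 2 * U ^ 2 * Λ ^ 1000 ≤ M) (s3 : W ^ 2 * V ^ 12 * Λ ^ 1000 ≤ N)
    (s4 : r * U ^ 2 * V ^ 16 * Λ ^ 1000 ≤ (N : ℝ) ^ 2) (s5 : V ^ 16 * Λ ^ 1000 ≤ r * U ^ 2)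
    (hQ : 0 < Q) (hTQ : ∀ t ∈ T, t ≤ Q) (hrQ : (r : ℝ) * Q ^ 2 ≤ M * N)
    (hα : ∀ m ∈ Ioc M (2 * M), |α m| ≤ ℓ) (hβ : ∀ n ∈ Ioc N (2 * N), |β n| ≤ ℓ) :
    ∑ t ∈ T, |∑ m ∈ Ioc M (2 * M), ∑ n ∈ Ioc N (2 * N), α m * β n *
      (Pl r c (m * n) * Dc t c ((m * n : ℕ) : ℤ))| ≤
      ℓ * Real.sqrt (40 * ℓ ^ 7 / G + Λ⁻¹) * (M * N / r) := by
  classical
  have hℓ0 : 0 ≤ ℓ := le_trans zero_le_one E.l1
  have hMr : (0 : ℝ) < M := by exact_mod_cast hM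
  have hNr : (0 : ℝ) < N := by exact_mod_cast hN
  have hrr : (0 : ℝ) < r := by exact_mod_cast hr
  have hΛ0 : 0 < Λ := by linarith [E.hΛ]
  set Bt : ℕ → ℝ := fun t => ∑ m ∈ Ioc M (2 * M), ∑ n ∈ Ioc N (2 * N), α m * β n *
      (Pl r c (m * n) * Dc t c ((m * n : ℕ) : ℤ)) with hB
  set κ : ℕ → ℝ := fun t => if 0 ≤ Bt t then 1 else -1 with hκ
  have hκ1 : ∀ t, |κ t| ≤ 1 := by
    intro t
    simp only [hκ]
    split_ifs <;> simp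
  have hBk : ∀ t, |Bt t| = κ t * Bt t := by
    intro t
    simp only [hκ]
    split_ifs with h
    · rw [one_mul, abs_of_nonneg h]
    · rw [neg_one_mul, abs_of_neg (not_le.1 h)]
  have e1 : ∑ t ∈ T, |Bt t| = ∑ m ∈ Ioc M (2 * M), α m * (∑ t ∈ T, κ t * ∑ n ∈ Ioc N (2 * N), β n *
      (Pl r c (m * n) * Dc t c ((m * n : ℕ) : ℤ))) := by
    rw [sum_congr rfl (fun t _ => hBk t)]
    simp only [hB, mul_sum]
    rw [sum_comm]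
    refine sum_congr rfl fun m _ => sum_congr rfl fun t _ => sum_congr rfl fun n _ => ?_
    ring
  have hS := SSt_le E r M N G Q c T e u v W U V κ β hM hN hMN hr hW hU hV hdec hsf hc hct hG0 hG hrG we wu wv
    s2 s3 s4 s5 hQ hTQ hrQ hκ1 hβ
  change ∑ t ∈ T, |Bt t| ≤ _
  rw [e1]
  have h1 : (∑ m ∈ Ioc M (2 * M), α m * (∑ t ∈ T, κ t * ∑ n ∈ Ioc N (2 * N), β n *
      (Pl r c (m * n) * Dc t c ((m * n : ℕ) : ℤ)))) ^ 2 ≤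
      (∑ m ∈ Ioc M (2 * M), α m ^ 2) * SSt r M N c c T κ β := sum_mul_sq_le_sq_mul_sq _ _ _
  have h2 : ∑ m ∈ Ioc M (2 * M), α m ^ 2 ≤ ℓ ^ 2 * M := by
    have : ∀ m ∈ Ioc M (2 * M), α m ^ 2 ≤ ℓ ^ 2 := fun m hm => by
      rw [← sq_abs]
      exact pow_le_pow_left₀ (abs_nonneg _) (hα m hm) 2
    refine (sum_le_sum this).trans ?_
    rw [sum_const, nsmul_eq_mul, Nat.card_Ioc, mul_comm]
    have e : 2 * M - M = M := by omega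
    rw [e]
  have hR : 0 ≤ 40 * ℓ ^ 7 / G + Λ⁻¹ := by positivity
  have h3 : (∑ m ∈ Ioc M (2 * M), α m * (∑ t ∈ T, κ t * ∑ n ∈ Ioc N (2 * N), β n *
      (Pl r c (m * n) * Dc t c ((m * n : ℕ) : ℤ)))) ^ 2 ≤
      (ℓ * Real.sqrt (40 * ℓ ^ 7 / G + Λ⁻¹) * (M * N / r)) ^ 2 := by
    refine h1.trans ?_
    calc (∑ m ∈ Ioc M (2 * M), α m ^ 2) * SSt r M N c c T κ β
        ≤ (ℓ ^ 2 * M) * ((40 * ℓ ^ 7 / G + Λ⁻¹) * (M * (N : ℝ) ^ 2 / (r : ℝ) ^ 2)) := by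
          apply mul_le_mul h2 hS _ (by positivity)
          exact sum_nonneg fun _ _ => sq_nonneg _
      _ = _ := by
          rw [mul_pow, mul_pow, Real.sq_sqrt hR]
          field_simp
  exact abs_le_of_sq_le_sq' h3 (by positivity) |>.2

end Pool.Agent.R503.N
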