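import Mathlib
import Pool.Agent.R503.N.BlkB

/-! The bilinear sums for one left modulus, moduli with factorisations (helper503). -/

open Finset

namespace Pool.Agent.R503.N

open Pool.Agent.Y826.Z Pool.Agent.Y826.Z.OB

/-- admissible factorisations -/
structure Adm (Λ : ℝ) (r M N : ℕ) (t e u v : ℕ) : Prop where
  dec : e * u * v = t
  p1 : (r : ℝ) * ((e : ℝ) * u) ^ 2 * Λ ^ 1000 ≤ M
  p2 : (e : ℝ) ^ 2 * (v : ℝ) ^ 12 * Λ ^ 1000 ≤ N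
  p3 : (r : ℝ) * (u : ℝ) ^ 2 * (v : ℝ) ^ 16 * Λ ^ 1000 ≤ (N : ℝ) ^ 2
  p4 : (v : ℝ) ^ 16 * Λ ^ 1002 ≤ (r : ℝ) * (u : ℝ) ^ 2

lemma Adm.sq {Λ : ℝ} {r M N t e u v : ℕ} (hΛ : 1 ≤ Λ) (ht : 0 < t) (A : Adm Λ r M N t e u v) :
    (r : ℝ) * (t : ℝ) ^ 2 ≤ M * N := by
  have hd := A.dec
  have he : 0 < e := Nat.pos_of_ne_zero (by rintro rfl; simp at hd; omega)
  have hv : 0 < v := Nat.pos_of_ne_zero (by rintro rfl; simp at hd; omega)
  have he1 : (1 : ℝ) ≤ e := by exact_mod_cast he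
  have hv1 : (1 : ℝ) ≤ v := by exact_mod_cast hv
  have h1000 : 1 ≤ Λ ^ 1000 := one_le_pow₀ hΛ
  have h1 : (r : ℝ) * ((e : ℝ) * u) ^ 2 ≤ M :=
    (le_mul_of_one_le_right (by positivity) h1000).trans A.p1
  have h2 : (v : ℝ) ^ 2 ≤ N := by
    calc (v : ℝ) ^ 2 ≤ (v : ℝ) ^ 12 := pow_le_pow_right₀ hv1 (by norm_num)
      _ = 1 * (v : ℝ) ^ 12 * 1 := by ring
      _ ≤ (e : ℝ) ^ 2 * (v : ℝ) ^ 12 * Λ ^ 1000 := by
          have : (1 : ℝ) ≤ (e : ℝ) ^ 2 := one_le_pow₀ he1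
          gcongr
      _ ≤ N := A.p2
  rw [← hd]
  push_cast
  calc (r : ℝ) * ((e : ℝ) * u * v) ^ 2 = (r * ((e : ℝ) * u) ^ 2) * (v : ℝ) ^ 2 := by ring
    _ ≤ (M : ℝ) * N := mul_le_mul h1 h2 (by positivity) (Nat.cast_nonneg M)

lemma exists_win {Λ : ℝ} (hΛ : 1 < Λ) (n : ℕ) : ∃ k : ℕ, 0 < n → Λ ^ k ≤ n ∧ (n : ℝ) < Λ ^ (k + 1) := by
  by_cases hn : 0 < n
  · obtain ⟨k, hk⟩ := exists_nat_pow_near (x := (n : ℝ)) (y := Λ) (by exact_mod_cast hn) hΛ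
    exact ⟨k, fun _ => hk⟩
  · exact ⟨0, fun h => absurd h hn⟩

/-- the bilinear sums for one left modulus -/
theorem blk2 {X Λ ℓ C : ℝ} (E : EnvX X Λ ℓ C) (r M N G R : ℕ) (c : ℤ) (T : Finset ℕ) (e u v : ℕ → ℕ)
    (α β : ℕ → ℝ) (hM : 0 < M) (hN : 0 < N) (hMN : (M : ℝ) * N ≤ 16 * X) (hr : 0 < r)
    (hA : ∀ t ∈ T, Adm Λ r M N t (e t) (u t) (v t))
    (hsf : ∀ t ∈ T, Squarefree (r * t)) (hc : IsCoprime c (r : ℤ)) (hct : ∀ t ∈ T, IsCoprime c (t : ℤ))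
    (hG0 : 0 < G) (hG : ∀ t ∈ T, ∀ p : ℕ, p.Prime → p ∣ t → G < p) (hrG : (r : ℝ) * G ≤ N)
    (hR : 16 * X < Λ ^ R)
    (hα : ∀ m ∈ Ioc M (2 * M), |α m| ≤ ℓ) (hβ : ∀ n ∈ Ioc N (2 * N), |β n| ≤ ℓ) :
    ∑ t ∈ T, |∑ m ∈ Ioc M (2 * M), ∑ n ∈ Ioc N (2 * N), α m * β n *
      (Pl r c (m * n) * Dc t c ((m * n : ℕ) : ℤ))| ≤
      (R : ℝ) ^ 3 * (ℓ * Real.sqrt (40 * ℓ ^ 7 / G + Λ⁻¹) * (M * N / r)) := by
  classical
  have hΛ4 := E.hΛ
  have hΛ1 : 1 < Λ := by linarith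
  have hΛ0 : 0 < Λ := by linarith
  have hX := E.hX
  choose kf hkf using fun n => exists_win hΛ1 n
  have hrr : (1 : ℝ) ≤ r := by exact_mod_cast hr
  have hpos : ∀ t ∈ T, 0 < t := fun t ht => Nat.pos_of_ne_zero (fun h0 => by
      have := (hsf t ht).ne_zero
      rw [h0, mul_zero] at this
      exact this rfl)
  have hsq : ∀ t ∈ T, (r : ℝ) * (t : ℝ) ^ 2 ≤ M * N := fun t ht => (hA t ht).sq hΛ1.le (hpos t ht)
  have htX : ∀ t ∈ T, (t : ℝ) ≤ 16 * X := by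
    intro t ht
    have h1 : (1 : ℝ) ≤ t := by exact_mod_cast hpos t ht
    calc (t : ℝ) ≤ (t : ℝ) ^ 2 := by nlinarith
      _ = 1 * (t : ℝ) ^ 2 := (one_mul _).symm
      _ ≤ r * (t : ℝ) ^ 2 := by gcongr
      _ ≤ M * N := hsq t ht
      _ ≤ 16 * X := hMN
  have hdv : ∀ t ∈ T, e t ∣ t ∧ u t ∣ t ∧ v t ∣ t := by
    intro t ht
    have hd := (hA t ht).dec
    refine ⟨⟨u t * v t, ?_⟩, ⟨e t * v t, ?_⟩, ⟨e t * u t, ?_⟩⟩
    · calc t = e t * u t * v t := hd.symm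
        _ = _ := by ring
    · calc t = e t * u t * v t := hd.symm
        _ = _ := by ring
    · calc t = e t * u t * v t := hd.symm
        _ = _ := by ring
  have hfac : ∀ t ∈ T, ∀ d, d ∣ t → 0 < d ∧ kf d < R := by
    intro t ht d hd
    have h0 : 0 < d := Nat.pos_of_dvd_of_pos hd (hpos t ht)
    refine ⟨h0, ?_⟩
    have h1 := (hkf d h0).1
    have h2 : (d : ℝ) ≤ t := by exact_mod_cast Nat.le_of_dvd (hpos t ht) hd
    have h3 : Λ ^ kf d < Λ ^ R := lt_of_le_of_lt (h1.trans (h2.trans (htX t ht))) hR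
    exact (pow_lt_pow_iff_right₀ hΛ1).1 h3
  set ix : ℕ → ℕ × ℕ × ℕ := fun t => (kf (e t), kf (u t), kf (v t)) with hix
  set J : Finset (ℕ × ℕ × ℕ) := range R ×ˢ range R ×ˢ range R with hJ
  have hmaps : ∀ t ∈ T, ix t ∈ J := by
    intro t ht
    obtain ⟨a1, a2, a3⟩ := hdv t ht
    rw [hJ, mem_product, mem_product, mem_range, mem_range, mem_range]
    exact ⟨(hfac t ht _ a1).2, (hfac t ht _ a2).2, (hfac t ht _ a3).2⟩
  rw [← sum_fiberwise_of_maps_to hmaps]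
  have hK : 0 ≤ ℓ * Real.sqrt (40 * ℓ ^ 7 / G + Λ⁻¹) * (M * N / r) := by
    have := E.l1
    positivity
  have hcls : ∀ y ∈ J, ∑ t ∈ T.filter (fun t => ix t = y), |∑ m ∈ Ioc M (2 * M), ∑ n ∈ Ioc N (2 * N), α m * β n *
      (Pl r c (m * n) * Dc t c ((m * n : ℕ) : ℤ))| ≤
      ℓ * Real.sqrt (40 * ℓ ^ 7 / G + Λ⁻¹) * (M * N / r) := by
    intro y _
    set T' := T.filter (fun t => ix t = y) with hT'
    by_cases hne : T'.Nonempty
    swap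
    · rw [not_nonempty_iff_eq_empty] at hne
      rw [hne, sum_empty]
      exact hK
    obtain ⟨t0, ht0⟩ := hne
    have hsub : ∀ t ∈ T', t ∈ T ∧ kf (e t) = y.1 ∧ kf (u t) = y.2.1 ∧ kf (v t) = y.2.2 := by
      intro t ht
      rw [hT', mem_filter] at ht
      refine ⟨ht.1, ?_, ?_, ?_⟩
      · rw [← ht.2]
      · rw [← ht.2]
      · rw [← ht.2]
    obtain ⟨m0, w1, w2, w3⟩ := hsub t0 ht0
    obtain ⟨d1, d2, d3⟩ := hdv t0 m0
    have hwin : ∀ n k : ℕ, 0 < n → kf n = k → Λ ^ k / Λ ≤ n ∧ (n : ℝ) ≤ Λ ^ k * Λ ∧ Λ ^ k ≤ n := by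
      intro n k hn hk
      have h1 := hkf n hn
      rw [hk] at h1
      refine ⟨(div_le_self (by positivity) hΛ1.le).trans h1.1, ?_, h1.1⟩
      rw [← pow_succ]
      exact h1.2.le
    have we0 := hwin _ _ (hfac t0 m0 _ d1).1 w1
    have wu0 := hwin _ _ (hfac t0 m0 _ d2).1 w2
    have wv0 := hwin _ _ (hfac t0 m0 _ d3).1 w3
    have A0 := hA t0 m0
    have hrp : (0 : ℝ) < r := by linarith
    -- the largest modulus
    obtain ⟨tm, htm, hmax⟩ := exists_max_image T' id ⟨t0, ht0⟩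
    have htmT := (hsub tm htm).1
    refine blk1 E r M N G tm c T' e u v (Λ ^ y.1) (Λ ^ y.2.1) (Λ ^ y.2.2) α β hM hN hMN hr (by positivity)
      (by positivity) (one_le_pow₀ hΛ1.le) (fun t ht => (hA t (hsub t ht).1).dec)
      (fun t ht => hsf t (hsub t ht).1) hc (fun t ht => hct t (hsub t ht).1) hG0
      (fun t ht => hG t (hsub t ht).1) hrG ?_ ?_ ?_ ?_ ?_ ?_ ?_ (hpos tm htmT) hmax (hsq tm htmT) hα hβ
    · intro t ht
      obtain ⟨mt, w, -, -⟩ := hsub t ht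
      have := hwin _ _ (hfac t mt _ (hdv t mt).1).1 w
      exact ⟨this.1, this.2.1⟩
    · intro t ht
      obtain ⟨mt, -, w, -⟩ := hsub t ht
      have := hwin _ _ (hfac t mt _ (hdv t mt).2.1).1 w
      exact ⟨this.1, this.2.1⟩
    · intro t ht
      obtain ⟨mt, -, -, w⟩ := hsub t ht
      have := hwin _ _ (hfac t mt _ (hdv t mt).2.2).1 w
      exact ⟨this.1, this.2.1⟩
    · refine le_trans ?_ A0.p1
      rw [mul_pow, ← mul_assoc]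
      have g1 := we0.2.2
      have g2 := wu0.2.2
      gcongr
    · refine le_trans ?_ A0.p2
      have g1 := we0.2.2
      have g3 := wv0.2.2
      gcongr
    · refine le_trans ?_ A0.p3
      have g2 := wu0.2.2
      have g3 := wv0.2.2
      gcongr
    · have g3 := wv0.2.2
      have g2 := wu0.2.1
      have h1 : (Λ ^ y.2.2) ^ 16 * Λ ^ 1000 * Λ ^ 2 ≤ r * (Λ ^ y.2.1) ^ 2 * Λ ^ 2 := by
        calc (Λ ^ y.2.2) ^ 16 * Λ ^ 1000 * Λ ^ 2 = (Λ ^ y.2.2) ^ 16 * Λ ^ 1002 := by ring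
          _ ≤ (v t0 : ℝ) ^ 16 * Λ ^ 1002 := by gcongr
          _ ≤ r * (u t0 : ℝ) ^ 2 := A0.p4
          _ ≤ r * (Λ ^ y.2.1 * Λ) ^ 2 := by gcongr
          _ = _ := by ring
      exact le_of_mul_le_mul_right h1 (by positivity)
  refine (sum_le_sum hcls).trans (le_of_eq ?_)
  rw [sum_const, nsmul_eq_mul, hJ, card_product, card_product, card_range]
  push_cast
  ring

end Pool.Agent.R503.N
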