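import Mathlib
import Pool.Agent.R503.N.BlkC

/-! Telescoping over the factors of the modulus (helper503). -/

open Finset

namespace Pool.Agent.R503.N

open Pool.Agent.Y826.Z Pool.Agent.Y826.Z.OB

/-- the bilinear form -/
noncomputable def bil (M N : ℕ) (α β : ℕ → ℝ) (c : ℤ) (q t : ℕ) : ℝ :=
  ∑ m ∈ Ioc M (2 * M), ∑ n ∈ Ioc N (2 * N), α m * β n * (Pl q c (m * n) * Dc t c ((m * n : ℕ) : ℤ))

/-- restriction to integers coprime to `w` -/
noncomputable def rs (α : ℕ → ℝ) (w : ℕ) (m : ℕ) : ℝ := ind (m.Coprime w) * α m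

lemma rs_abs {α : ℕ → ℝ} {w m : ℕ} {ℓ : ℝ} (h : |α m| ≤ ℓ) : |rs α w m| ≤ ℓ := by
  unfold rs
  rw [abs_mul, abs_of_nonneg (ind_nonneg _)]
  exact (mul_le_of_le_one_left (abs_nonneg _) (ind_le_one _)).trans h

lemma ind_mul (P Q : Prop) : ind P * ind Q = ind (P ∧ Q) := by
  unfold ind
  by_cases hP : P <;> by_cases hQ : Q <;> simp [hP, hQ]

lemma tel_pt (c : ℤ) (q t1 t2 : ℕ) (hsf : Squarefree (q * (t1 * t2))) (x : ℕ) :
    Pl q c x * Dc (t1 * t2) c (x : ℤ) = Pl (q * t1) c x * Dc t2 c (x : ℤ) +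
      (1 / (Nat.totient t2 : ℝ)) * (ind (x.Coprime t2) * (Pl q c x * Dc t1 c (x : ℤ))) := by
  rw [Nat.squarefree_mul_iff] at hsf
  obtain ⟨h1, -, h3⟩ := hsf
  rw [Nat.squarefree_mul_iff] at h3
  have hq1 : q.Coprime t1 := h1.coprime_dvd_right (Dvd.intro _ rfl)
  have e1 : Pl (q * t1) c x = Pl q c x * ind ((t1 : ℤ) ∣ (x : ℤ) - c) := by
    unfold Pl
    rw [ind_mul]
    congr 1
    rw [eq_iff_iff]
    push_cast
    constructor
    · intro h
      exact ⟨(Dvd.intro _ rfl).trans h, (Dvd.intro_left _ rfl).trans h⟩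
    · rintro ⟨a, b⟩
      exact (Nat.isCoprime_iff_coprime.2 hq1).mul_dvd a b
  have e2 : ind (((t1 * t2 : ℕ) : ℤ) ∣ (x : ℤ) - c) = ind ((t1 : ℤ) ∣ (x : ℤ) - c) * ind ((t2 : ℤ) ∣ (x : ℤ) - c) := by
    rw [ind_mul]
    congr 1
    rw [eq_iff_iff]
    push_cast
    constructor
    · intro h
      exact ⟨(Dvd.intro _ rfl).trans h, (Dvd.intro_left _ rfl).trans h⟩
    · rintro ⟨a, b⟩
      exact (Nat.isCoprime_iff_coprime.2 h3.1).mul_dvd a b
  have e3 : ind (IsCoprime (x : ℤ) ((t1 * t2 : ℕ) : ℤ)) = ind (IsCoprime (x : ℤ) (t1 : ℤ)) *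
      ind (IsCoprime (x : ℤ) (t2 : ℤ)) := by
    rw [ind_mul]
    congr 1
    rw [eq_iff_iff]
    push_cast
    exact IsCoprime.mul_right_iff
  have e4 : ind (x.Coprime t2) = ind (IsCoprime (x : ℤ) (t2 : ℤ)) := by
    congr 1
    rw [eq_iff_iff, Nat.isCoprime_iff_coprime]
  have e5 : (Nat.totient (t1 * t2) : ℝ) = Nat.totient t1 * Nat.totient t2 := by
    rw [Nat.totient_mul h3.1]; push_cast; ring
  rw [e1, e4]
  unfold Dc
  rw [e2, e3, e5, ← one_div_mul_one_div]
  ring

lemma bil_tel (M N : ℕ) (α β : ℕ → ℝ) (c : ℤ) (q t1 t2 : ℕ) (hsf : Squarefree (q * (t1 * t2))) :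
    bil M N α β c q (t1 * t2) = bil M N α β c (q * t1) t2 +
      (1 / (Nat.totient t2 : ℝ)) * bil M N (rs α t2) (rs β t2) c q t1 := by
  unfold bil
  simp only [mul_sum]
  rw [← sum_add_distrib]
  refine sum_congr rfl fun m _ => ?_
  rw [← sum_add_distrib]
  refine sum_congr rfl fun n _ => ?_
  rw [tel_pt c q t1 t2 hsf]
  unfold rs
  have e : ind ((m * n).Coprime t2) = ind (m.Coprime t2) * ind (n.Coprime t2) := by
    rw [ind_mul]
    congr 1
    rw [eq_iff_iff]
    exact Nat.coprime_mul_iff_left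
  rw [e]
  ring

lemma bil_one (M N : ℕ) (α β : ℕ → ℝ) (c : ℤ) (q : ℕ) : bil M N α β c q 1 = 0 := by
  unfold bil
  refine sum_eq_zero fun m _ => sum_eq_zero fun n _ => ?_
  have : Dc 1 c ((m * n : ℕ) : ℤ) = 0 := by
    unfold Dc
    rw [ind_true (by simp), ind_true (by simp [isCoprime_one_right])]
    simp
  rw [this, mul_zero, mul_zero]

/-- families of moduli -/
structure Fam (X Λ : ℝ) (q0 M N G : ℕ) (c : ℤ) (D : Set ℕ) : Prop where
  q0p : 0 < q0
  c0 : IsCoprime c (q0 : ℤ)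
  sf : ∀ t ∈ D, Squarefree (q0 * t)
  cc : ∀ t ∈ D, IsCoprime c (t : ℤ)
  pr : ∀ t ∈ D, ∀ p : ℕ, p.Prime → p ∣ t → G < p
  dv : ∀ t ∈ D, ∀ d, d ∣ t → d ∈ D
  dc : ∀ t ∈ D, t ≠ 1 → ∃ t1 e u v : ℕ, t1 * (e * u * v) = t ∧ e * u * v ≠ 1 ∧
    Adm Λ (q0 * t1) M N (e * u * v) e u v ∧ ((q0 * t1 : ℕ) : ℝ) * G ≤ N
  bd : ∀ t ∈ D, (t : ℝ) ≤ X ^ 10

theorem tel {X Λ ℓ C : ℝ} (E : EnvX X Λ ℓ C) (q0 M N G R : ℕ) (c : ℤ) (D : Set ℕ)
    (hM : 0 < M) (hN : 0 < N) (hMN : (M : ℝ) * N ≤ 16 * X) (F : Fam X Λ q0 M N G c D)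
    (hG0 : 0 < G) (hR : 16 * X < Λ ^ R) (K : ℝ)
    (hK : (R : ℝ) ^ 3 * (ℓ * Real.sqrt (40 * ℓ ^ 7 / G + Λ⁻¹)) ≤ K) (k : ℕ) :
    ∀ (T : Finset ℕ) (α β : ℕ → ℝ), (∀ t ∈ T, t ∈ D) → (∀ t ∈ T, t.primeFactors.card ≤ k) →
    (∀ m ∈ Ioc M (2 * M), |α m| ≤ ℓ) → (∀ n ∈ Ioc N (2 * N), |β n| ≤ ℓ) →
    ∑ t ∈ T, |bil M N α β c q0 t| ≤ k * (ℓ ^ 2) ^ k * K * (M * N / q0) := by
  classical
  have hℓ1 := E.l1
  have hℓ0 : 0 ≤ ℓ := le_trans zero_le_one hℓ1
  have hK0 : 0 ≤ K := le_trans (by positivity) hK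
  have hq0 : (0 : ℝ) < q0 := by exact_mod_cast F.q0p
  have hX := E.hX
  induction k with
  | zero =>
    intro T α β hT hk _ _
    have : ∑ t ∈ T, |bil M N α β c q0 t| = 0 := by
      refine sum_eq_zero fun t ht => ?_
      have h1 := hk t ht
      have h2 : t.primeFactors = ∅ := card_eq_zero.1 (Nat.le_zero.1 h1)
      have h3 := F.sf t (hT t ht)
      have h4 : t ≠ 0 := by
        rintro rfl
        simp at h3
      rw [Nat.primeFactors_eq_empty] at h2
      have h5 : t = 1 := by omega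
      rw [h5, bil_one, abs_zero]
    rw [this]
    positivity
  | succ k ih =>
    intro T α β hT hk hα hβ
    choose! t1 e u v hdec using F.dc
    set t2 : ℕ → ℕ := fun t => e t * u t * v t with ht2
    set T0 := T.filter (fun t => t ≠ 1) with hT0
    have hm0 : ∀ t ∈ T0, t ∈ T ∧ t ∈ D ∧ t ≠ 1 := by
      intro t ht
      rw [hT0, mem_filter] at ht
      exact ⟨ht.1, hT t ht.1, ht.2⟩
    have hprod : ∀ t ∈ T0, t1 t * t2 t = t := fun t ht => (hdec t (hm0 t ht).2.1 (hm0 t ht).2.2).1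
    have hdpos : ∀ t ∈ D, 0 < t := by
      intro t ht
      refine Nat.pos_of_ne_zero fun h0 => ?_
      have := (F.sf t ht).ne_zero
      rw [h0, mul_zero] at this
      exact this rfl
    have e0 : ∑ t ∈ T, |bil M N α β c q0 t| = ∑ t ∈ T0, |bil M N α β c q0 t| := by
      rw [hT0, sum_filter]
      refine sum_congr rfl fun t _ => ?_
      by_cases h : t = 1
      · rw [h, bil_one, abs_zero]; simp
      · rw [if_pos h]
    have e1 : ∀ t ∈ T0, |bil M N α β c q0 t| ≤ |bil M N α β c (q0 * t1 t) (t2 t)| +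
        (1 / (Nat.totient (t2 t) : ℝ)) * |bil M N (rs α (t2 t)) (rs β (t2 t)) c q0 (t1 t)| := by
      intro t ht
      have h1 := hprod t ht
      have h2 := F.sf t (hm0 t ht).2.1
      have h3 := bil_tel M N α β c q0 (t1 t) (t2 t) (by rw [h1]; exact h2)
      rw [h1] at h3
      rw [h3]
      refine (abs_add_le _ _).trans ?_
      rw [abs_mul, abs_of_nonneg (by positivity : (0 : ℝ) ≤ 1 / (Nat.totient (t2 t) : ℝ))]
    rw [e0]
    refine (sum_le_sum e1).trans ?_
    rw [sum_add_distrib]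
    set Y : ℕ := ⌊X ^ 10⌋₊ with hY
    have hX10 : 1 ≤ X ^ 10 := one_le_pow₀ (by linarith)
    have hYr : (Y : ℝ) ≤ X ^ 10 := Nat.floor_le (by positivity)
    have hY0 : 0 < Y := Nat.floor_pos.2 hX10
    have hlogY : 1 + Real.log (Y : ℝ) ≤ ℓ := by
      refine le_trans ?_ E.hl
      have := Real.log_le_log (by exact_mod_cast hY0 : (0 : ℝ) < Y) hYr
      linarith
    have hD1 : ∀ t ∈ D, 0 < t ∧ t ≤ Y ∧ 1 ∣ t := fun t ht => ⟨hdpos t ht, Nat.le_floor (F.bd t ht), one_dvd _⟩
    have hd1 : ∀ t ∈ T0, t1 t ∈ D := fun t ht =>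
      F.dv t (hm0 t ht).2.1 _ (Dvd.intro _ (hprod t ht))
    have hd2 : ∀ t ∈ T0, t2 t ∈ D := fun t ht =>
      F.dv t (hm0 t ht).2.1 _ (Dvd.intro_left _ (hprod t ht))
    -- first part
    have P1 : ∑ t ∈ T0, |bil M N α β c (q0 * t1 t) (t2 t)| ≤ ℓ ^ 2 * K * (M * N / q0) := by
      have hmaps : ∀ t ∈ T0, t1 t ∈ T0.image t1 := fun t ht => mem_image_of_mem _ ht
      rw [← sum_fiberwise_of_maps_to hmaps]
      have hs : ∀ s ∈ T0.image t1, ∑ t ∈ T0.filter (fun t => t1 t = s), |bil M N α β c (q0 * t1 t) (t2 t)| ≤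
          (K * (M * N / q0)) * (1 / (s : ℝ)) := by
        intro s hs
        have hsD : s ∈ D := by
          rw [mem_image] at hs
          obtain ⟨t, ht, rfl⟩ := hs
          exact hd1 t ht
        have hspos := hdpos s hsD
        set Fi := T0.filter (fun t => t1 t = s) with hFi
        have hfi : ∀ t ∈ Fi, t ∈ T0 ∧ s * t2 t = t := by
          intro t ht
          rw [hFi, mem_filter] at ht
          refine ⟨ht.1, ?_⟩
          rw [← ht.2]
          exact hprod t ht.1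
        have e2 : ∑ t ∈ Fi, |bil M N α β c (q0 * t1 t) (t2 t)| =
            ∑ w ∈ Fi.image t2, |bil M N α β c (q0 * s) w| := by
          rw [sum_image]
          · refine sum_congr rfl fun t ht => ?_
            rw [hFi, mem_filter] at ht
            rw [ht.2]
          · intro a ha b hb hab
            rw [← (hfi a ha).2, ← (hfi b hb).2, hab]
        rw [e2]
        have hw : ∀ w ∈ Fi.image t2, s * w ∈ T0 ∧ t1 (s * w) = s ∧ t2 (s * w) = w := by
          intro w hw
          rw [mem_image] at hw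
          obtain ⟨t, ht, rfl⟩ := hw
          have h1 := hfi t ht
          rw [h1.2]
          refine ⟨h1.1, ?_, rfl⟩
          rw [hFi, mem_filter] at ht
          exact ht.2
        have hA : ∀ w ∈ Fi.image t2, Adm Λ (q0 * s) M N w (e (s * w)) (u (s * w)) (v (s * w)) ∧
            ((q0 * s : ℕ) : ℝ) * G ≤ N := by
          intro w hwm
          obtain ⟨a1, a2, a3⟩ := hw w hwm
          have h1 := hdec (s * w) (hm0 _ a1).2.1 (hm0 _ a1).2.2
          rw [a2] at h1
          have a4 : e (s * w) * u (s * w) * v (s * w) = w := a3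
          rw [a4] at h1
          exact ⟨h1.2.2.1, h1.2.2.2⟩
        by_cases hne : (Fi.image t2).Nonempty
        swap
        · rw [not_nonempty_iff_eq_empty] at hne
          rw [hne, sum_empty]
          positivity
        obtain ⟨w0, hw0⟩ := hne
        have hb := blk2 E (q0 * s) M N G R c (Fi.image t2) (fun w => e (s * w)) (fun w => u (s * w))
          (fun w => v (s * w)) α β hM hN hMN (Nat.mul_pos F.q0p hspos) (fun w hwm => (hA w hwm).1)
          (fun w hwm => by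
            obtain ⟨a1, a2, a3⟩ := hw w hwm
            rw [mul_assoc]
            exact F.sf _ (hm0 _ a1).2.1)
          (by
            push_cast
            exact IsCoprime.mul_right F.c0 (F.cc s hsD))
          (fun w hwm => by
            obtain ⟨a1, a2, a3⟩ := hw w hwm
            have := hd2 _ a1
            rw [a3] at this
            exact F.cc w this)
          hG0
          (fun w hwm => by
            obtain ⟨a1, a2, a3⟩ := hw w hwm
            have := hd2 _ a1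
            rw [a3] at this
            exact F.pr w this)
          (hA w0 hw0).2 hR hα hβ
        refine hb.trans ?_
        have hsr : (0 : ℝ) < s := by exact_mod_cast hspos
        calc (R : ℝ) ^ 3 * (ℓ * Real.sqrt (40 * ℓ ^ 7 / G + Λ⁻¹) * (M * N / ((q0 * s : ℕ) : ℝ)))
            = ((R : ℝ) ^ 3 * (ℓ * Real.sqrt (40 * ℓ ^ 7 / G + Λ⁻¹))) * ((M * N / q0) * (1 / (s : ℝ))) := by
              push_cast
              field_simp
          _ ≤ K * ((M * N / q0) * (1 / (s : ℝ))) := mul_le_mul_of_nonneg_right hK (by positivity)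
          _ = _ := by ring
      refine (sum_le_sum hs).trans ?_
      rw [← mul_sum]
      have hS := sum_mult 1 Y one_pos (T0.image t1) (fun s hs => by
        rw [mem_image] at hs
        obtain ⟨t, ht, rfl⟩ := hs
        exact hD1 _ (hd1 t ht))
      rw [Nat.cast_one, div_one] at hS
      have hS2 : ∑ s ∈ T0.image t1, (1 / (s : ℝ)) ≤ ℓ ^ 2 := by
        refine (hS.trans hlogY).trans ?_
        nlinarith
      calc K * (M * N / q0) * ∑ s ∈ T0.image t1, (1 / (s : ℝ)) ≤ K * (M * N / q0) * ℓ ^ 2 :=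
            mul_le_mul_of_nonneg_left hS2 (by positivity)
        _ = _ := by ring
    -- second part
    have P2 : ∑ t ∈ T0, (1 / (Nat.totient (t2 t) : ℝ)) * |bil M N (rs α (t2 t)) (rs β (t2 t)) c q0 (t1 t)| ≤
        ℓ ^ 2 * (k * (ℓ ^ 2) ^ k * K * (M * N / q0)) := by
      have hmaps : ∀ t ∈ T0, t2 t ∈ T0.image t2 := fun t ht => mem_image_of_mem _ ht
      rw [← sum_fiberwise_of_maps_to hmaps]
      have hs : ∀ w ∈ T0.image t2, ∑ t ∈ T0.filter (fun t => t2 t = w),
          (1 / (Nat.totient (t2 t) : ℝ)) * |bil M N (rs α (t2 t)) (rs β (t2 t)) c q0 (t1 t)| ≤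
          (k * (ℓ ^ 2) ^ k * K * (M * N / q0)) * (1 / (Nat.totient w : ℝ)) := by
        intro w hw
        set Fi := T0.filter (fun t => t2 t = w) with hFi
        have hfi : ∀ t ∈ Fi, t ∈ T0 ∧ t2 t = w ∧ t1 t * w = t := by
          intro t ht
          rw [hFi, mem_filter] at ht
          refine ⟨ht.1, ht.2, ?_⟩
          have := hprod t ht.1
          rw [ht.2] at this
          exact this
        have e2 : ∑ t ∈ Fi, (1 / (Nat.totient (t2 t) : ℝ)) * |bil M N (rs α (t2 t)) (rs β (t2 t)) c q0 (t1 t)| =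
            (∑ s ∈ Fi.image t1, |bil M N (rs α w) (rs β w) c q0 s|) * (1 / (Nat.totient w : ℝ)) := by
          rw [sum_image, sum_mul]
          · refine sum_congr rfl fun t ht => ?_
            rw [(hfi t ht).2.1, mul_comm]
          · intro a ha b hb hab
            rw [← (hfi a ha).2.2, ← (hfi b hb).2.2, hab]
        rw [e2]
        apply mul_le_mul_of_nonneg_right _ (by positivity)
        apply ih
        · intro s hs
          rw [mem_image] at hs
          obtain ⟨t, ht, rfl⟩ := hs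
          exact hd1 t (hfi t ht).1
        · intro s hs
          rw [mem_image] at hs
          obtain ⟨t, ht, rfl⟩ := hs
          obtain ⟨a1, a2, a3⟩ := hfi t ht
          have h1 := hk t (hm0 t a1).1
          have h2 : Squarefree t := (Nat.squarefree_mul_iff.1 (F.sf t (hm0 t a1).2.1)).2.2
          rw [← a3, Nat.squarefree_mul_iff] at h2
          rw [← a3, h2.1.primeFactors_mul, card_union_of_disjoint h2.1.disjoint_primeFactors] at h1
          have h3 : 0 < w.primeFactors.card := by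
            rw [card_pos, Nat.nonempty_primeFactors]
            have h4 := (hdec t (hm0 t a1).2.1 (hm0 t a1).2.2).2.1
            have h5 : t2 t ≠ 1 := h4
            rw [a2] at h5
            have h6 := hdpos _ (hd2 t a1)
            rw [a2] at h6
            omega
          omega
        · intro m hm; exact rs_abs (hα m hm)
        · intro n hn; exact rs_abs (hβ n hn)
      refine (sum_le_sum hs).trans ?_
      rw [← mul_sum]
      have hS := sum_phi (T0.image t2) 1 Y ℓ one_pos (fun s hs => by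
        rw [mem_image] at hs
        obtain ⟨t, ht, rfl⟩ := hs
        exact hD1 _ (hd2 t ht)) (fun n hn hnY => by
          have h1 := E.ht n hn ((Nat.cast_le.2 hnY).trans hYr)
          calc tau n = tau n ^ 1 := (pow_one _).symm
            _ ≤ tau n ^ 3 := pow_le_pow_right₀ (tau_ge_one hn) (by norm_num)
            _ ≤ ℓ := h1) hlogY
      rw [Nat.cast_one, div_one] at hS
      calc (k * (ℓ ^ 2) ^ k * K * (M * N / q0)) * ∑ w ∈ T0.image t2, (1 / (Nat.totient w : ℝ))
          ≤ (k * (ℓ ^ 2) ^ k * K * (M * N / q0)) * ℓ ^ 2 := mul_le_mul_of_nonneg_left hS (by positivity)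
        _ = _ := by ring
    refine (add_le_add P1 P2).trans ?_
    have h1 : 1 ≤ (ℓ ^ 2) ^ k := one_le_pow₀ (one_le_pow₀ hℓ1)
    have h2 : 0 ≤ K * (M * N / q0) := by positivity
    calc ℓ ^ 2 * K * (M * N / q0) + ℓ ^ 2 * (k * (ℓ ^ 2) ^ k * K * (M * N / q0))
        = ℓ ^ 2 * (1 + k * (ℓ ^ 2) ^ k) * (K * (M * N / q0)) := by ring
      _ ≤ ℓ ^ 2 * ((ℓ ^ 2) ^ k + k * (ℓ ^ 2) ^ k) * (K * (M * N / q0)) := by gcongr
      _ = _ := by
          push_cast
          ring

end Pool.Agent.R503.N
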