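import Mathlib
import Pool.Agent.R503.N.Tel

/-! Factorisations of smooth moduli (helper503). -/

open Finset

namespace Pool.Agent.R503.N

open Pool.Agent.Y826.Z Pool.Agent.Y826.Z.OB

/-- greedy divisors -/
lemma greedy (z Y : ℝ) (t : ℕ) (ht : 0 < t) (hz : ∀ p : ℕ, p.Prime → p ∣ t → (p : ℝ) ≤ z) (hY : 1 ≤ Y) :
    ∃ d, d ∣ t ∧ (d : ℝ) ≤ Y ∧ (d = t ∨ Y < d * z) := by
  classical
  set S := t.divisors.filter (fun d : ℕ => (d : ℝ) ≤ Y) with hS
  have hne : S.Nonempty := ⟨1, by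
    rw [hS, mem_filter, Nat.mem_divisors]
    exact ⟨⟨one_dvd _, ht.ne'⟩, by simpa using hY⟩⟩
  obtain ⟨d, hd, hmax⟩ := exists_max_image S id hne
  rw [hS, mem_filter, Nat.mem_divisors] at hd
  refine ⟨d, hd.1.1, hd.2, ?_⟩
  by_cases hdt : d = t
  · exact Or.inl hdt
  right
  obtain ⟨k, hk⟩ := hd.1.1
  have hk1 : k ≠ 1 := by
    rintro rfl
    rw [mul_one] at hk
    exact hdt hk.symm
  obtain ⟨p, hp, hpk⟩ := Nat.exists_prime_and_dvd hk1
  have hpt : p ∣ t := by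
    rw [hk]
    exact hpk.mul_left d
  have hdp : d * p ∣ t := by
    rw [hk]
    exact Nat.mul_dvd_mul_left d hpk
  have hd0 : 0 < d := Nat.pos_of_dvd_of_pos hd.1.1 ht
  by_contra hcon
  rw [not_lt] at hcon
  have h1 : ((d * p : ℕ) : ℝ) ≤ Y := by
    push_cast
    refine le_trans ?_ hcon
    exact mul_le_mul_of_nonneg_left (hz p hp hpt) (Nat.cast_nonneg d)
  have h2 : d * p ∈ S := by
    rw [hS, mem_filter, Nat.mem_divisors]
    exact ⟨⟨hdp, ht.ne'⟩, h1⟩
  have h3 := hmax _ h2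
  simp only [id] at h3
  have h4 : d * 1 < d * p := Nat.mul_lt_mul_of_pos_left hp.one_lt hd0
  omega

/-- the family of moduli -/
def DD0 (q0 G : ℕ) (z P : ℝ) (c : ℤ) : Set ℕ :=
  {t | Squarefree (q0 * t) ∧ IsCoprime c (t : ℤ) ∧ (∀ p : ℕ, p.Prime → p ∣ t → G < p ∧ (p : ℝ) ≤ z) ∧
    (q0 : ℝ) * t ≤ P}

theorem fam_mk (X Λ z P G' Vm : ℝ) (q0 M N G : ℕ) (c : ℤ) (hΛ : 1 ≤ Λ) (hz : 1 ≤ z) (hG' : z ^ 2 * Λ ^ 1000 ≤ G')
    (hG : Λ ^ 1002 ≤ (G : ℝ) ^ 2) (hGG : (G : ℝ) ≤ G') (hM : 0 < M) (hN : 0 < N) (hNM : N ≤ M) (hq : 0 < q0)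
    (hqN : q0 * G' ≤ N) (hV : 1 ≤ Vm) (hPV : P ^ 2 * z ^ 3 * G' * Λ ^ 1000 ≤ Vm ^ 2 * (M * N))
    (hVN : Vm ^ 16 * Λ ^ 1002 * G' * z ≤ N) (hVE : M * z ^ 2 * Vm ^ 28 * Λ ^ 1000 ≤ (N : ℝ) ^ 3)
    (hPX : P ≤ X ^ 10) (hc : IsCoprime c (q0 : ℤ)) :
    Fam X Λ q0 M N G c (DD0 q0 G z P c) := by
  have hz0 : 0 < z := by linarith
  have hΛ0 : 0 < Λ := by linarith
  have hV0 : 0 < Vm := by linarith
  have hpw : ∀ n : ℕ, 1 ≤ Λ ^ n := fun n => one_le_pow₀ hΛ
  have hzz : 1 ≤ z ^ 2 := one_le_pow₀ hz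
  have hG'1 : 1 ≤ G' := by
    refine le_trans ?_ hG'
    exact one_le_mul_of_one_le_of_one_le hzz (hpw _)
  have hG'0 : 0 < G' := by linarith
  have hMr : (0 : ℝ) < M := by exact_mod_cast hM
  have hNr : (0 : ℝ) < N := by exact_mod_cast hN
  have hN1 : (1 : ℝ) ≤ N := by exact_mod_cast hN
  have hNMr : (N : ℝ) ≤ M := by exact_mod_cast hNM
  have hqr : (1 : ℝ) ≤ q0 := by exact_mod_cast hq
  have hqr0 : (0 : ℝ) < q0 := by linarith
  have hV16 : 1 ≤ Vm ^ 16 := one_le_pow₀ hV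
  have hLN : Λ ^ 1000 ≤ N := by
    calc Λ ^ 1000 ≤ Λ ^ 1002 := pow_le_pow_right₀ hΛ (by norm_num)
      _ = 1 * Λ ^ 1002 * 1 * 1 := by ring
      _ ≤ Vm ^ 16 * Λ ^ 1002 * G' * z := by gcongr
      _ ≤ N := hVN
  have hpos : ∀ t ∈ DD0 q0 G z P c, 0 < t := by
    intro t ht
    refine Nat.pos_of_ne_zero fun h0 => ?_
    have := ht.1.ne_zero
    rw [h0, mul_zero] at this
    exact this rfl
  refine ⟨hq, hc, fun t ht => ht.1, fun t ht => ht.2.1, fun t ht p hp hd => (ht.2.2.1 p hp hd).1, ?_, ?_, ?_⟩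
  · -- divisors
    intro t ht d hd
    have h1 : q0 * d ∣ q0 * t := Nat.mul_dvd_mul_left q0 hd
    refine ⟨ht.1.squarefree_of_dvd h1, ht.2.1.of_isCoprime_of_dvd_right (Int.natCast_dvd_natCast.2 hd),
      fun p hp hpd => ht.2.2.1 p hp (hpd.trans hd), ?_⟩
    refine le_trans ?_ ht.2.2.2
    have : (d : ℝ) ≤ t := by exact_mod_cast Nat.le_of_dvd (hpos t ht) hd
    gcongr
  · -- factorisations
    intro t ht ht1
    have ht0 := hpos t ht
    have htr : (0 : ℝ) < t := by exact_mod_cast ht0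
    by_cases hcase : (q0 : ℝ) * t * G' ≤ N
    · -- small moduli: a prime factor
      set p := t.minFac with hp
      have hpp : p.Prime := Nat.minFac_prime ht1
      have hpd : p ∣ t := Nat.minFac_dvd t
      obtain ⟨hGp, hpz⟩ := ht.2.2.1 p hpp hpd
      have hGpr : (G : ℝ) ≤ p := by exact_mod_cast hGp.le
      have hd1 : t / p * p = t := Nat.div_mul_cancel hpd
      have hr1 : 0 < t / p := Nat.div_pos (Nat.le_of_dvd ht0 hpd) hpp.pos
      have hrt : ((t / p : ℕ) : ℝ) ≤ t := by exact_mod_cast Nat.div_le_self t p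
      have hr2 : (1 : ℝ) ≤ ((t / p : ℕ) : ℝ) := by exact_mod_cast hr1
      have hrN : ((q0 * (t / p) : ℕ) : ℝ) * G' ≤ N := by
        push_cast
        refine le_trans ?_ hcase
        gcongr
      have hr3 : (1 : ℝ) ≤ ((q0 * (t / p) : ℕ) : ℝ) := by
        exact_mod_cast Nat.mul_pos hq hr1
      refine ⟨t / p, 1, p, 1, ?_, ?_, ⟨rfl, ?_, ?_, ?_, ?_⟩, ?_⟩
      · simpa using hd1
      · simpa using hpp.one_lt.ne'
      · rw [Nat.cast_one, one_mul]
        calc ((q0 * (t / p) : ℕ) : ℝ) * (p : ℝ) ^ 2 * Λ ^ 1000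
            ≤ ((q0 * (t / p) : ℕ) : ℝ) * z ^ 2 * Λ ^ 1000 := by gcongr
          _ = ((q0 * (t / p) : ℕ) : ℝ) * (z ^ 2 * Λ ^ 1000) := by ring
          _ ≤ ((q0 * (t / p) : ℕ) : ℝ) * G' := by gcongr
          _ ≤ N := hrN
          _ ≤ M := hNMr
      · rw [Nat.cast_one, one_pow, one_pow, one_mul, one_mul]
        exact hLN
      · rw [Nat.cast_one, one_pow, mul_one]
        calc ((q0 * (t / p) : ℕ) : ℝ) * (p : ℝ) ^ 2 * Λ ^ 1000
            ≤ ((q0 * (t / p) : ℕ) : ℝ) * z ^ 2 * Λ ^ 1000 := by gcongr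
          _ = ((q0 * (t / p) : ℕ) : ℝ) * (z ^ 2 * Λ ^ 1000) := by ring
          _ ≤ ((q0 * (t / p) : ℕ) : ℝ) * G' := by gcongr
          _ ≤ N := hrN
          _ ≤ (N : ℝ) ^ 2 := by nlinarith
      · rw [Nat.cast_one, one_pow, one_mul]
        calc Λ ^ 1002 ≤ (G : ℝ) ^ 2 := hG
          _ ≤ (p : ℝ) ^ 2 := by gcongr
          _ = 1 * (p : ℝ) ^ 2 := (one_mul _).symm
          _ ≤ ((q0 * (t / p) : ℕ) : ℝ) * (p : ℝ) ^ 2 := by gcongr
      · refine le_trans ?_ hrN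
        gcongr
    · -- large moduli
      rw [not_le] at hcase
      have hY1 : 1 ≤ N / (G' * q0) := by
        rw [one_le_div (by positivity)]
        linarith [hqN, mul_comm (q0 : ℝ) G']
      obtain ⟨t1, ht1d, ht1Y, ht1z⟩ := greedy z (N / (G' * q0)) t ht0 (fun p hp hd => (ht.2.2.1 p hp hd).2) hY1
      obtain ⟨w, hw⟩ := ht1d
      rw [le_div_iff₀ (by positivity)] at ht1Y
      have ht1ne : t1 ≠ t := by
        rintro h
        rw [h] at ht1Y
        have : (t : ℝ) * (G' * q0) = q0 * t * G' := by ring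
        linarith
      have ht1z' : (N : ℝ) < t1 * z * (G' * q0) := by
        rcases ht1z with h | h
        · exact absurd h ht1ne
        · rwa [div_lt_iff₀ (by positivity)] at h
      have ht10 : 0 < t1 := Nat.pos_of_ne_zero (by rintro rfl; rw [zero_mul] at hw; omega)
      have hw0 : 0 < w := Nat.pos_of_ne_zero (by rintro rfl; rw [mul_zero] at hw; omega)
      have hw1 : w ≠ 1 := by
        rintro rfl
        rw [mul_one] at hw
        exact ht1ne hw.symm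
      set r : ℝ := ((q0 * t1 : ℕ) : ℝ) with hr
      have hre : r = q0 * t1 := by rw [hr]; push_cast; ring
      have hr0 : 0 < r := by rw [hr]; exact_mod_cast Nat.mul_pos hq ht10
      have hrN : r * G' ≤ N := by rw [hre]; linarith [ht1Y, (by ring : (t1 : ℝ) * (G' * q0) = q0 * t1 * G')]
      have hrz : (N : ℝ) < r * z * G' := by
        rw [hre]
        have : (t1 : ℝ) * z * (G' * q0) = q0 * t1 * z * G' := by ring
        linarith
      have hprw : ∀ p : ℕ, p.Prime → p ∣ w → (p : ℝ) ≤ z := fun p hp hd => (ht.2.2.1 p hp (by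
        rw [hw]; exact hd.mul_left t1)).2
      -- the factor `e u`
      have hrM : r * Λ ^ 1000 ≤ M := by
        have h1 : Λ ^ 1000 ≤ G' := by
          refine le_trans ?_ hG'
          exact le_mul_of_one_le_left (by positivity) hzz
        calc r * Λ ^ 1000 ≤ r * G' := by gcongr
          _ ≤ N := hrN
          _ ≤ M := hNMr
      have hZ1 : 1 ≤ Real.sqrt (M / (r * Λ ^ 1000)) := by
        rw [Real.one_le_sqrt, one_le_div (by positivity)]
        exact hrM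
      obtain ⟨b, hbd, hbY, hbz⟩ := greedy z _ w hw0 hprw hZ1
      obtain ⟨v, hv⟩ := hbd
      have hb0 : 0 < b := Nat.pos_of_ne_zero (by rintro rfl; rw [zero_mul] at hv; omega)
      have hv0 : 0 < v := Nat.pos_of_ne_zero (by rintro rfl; rw [mul_zero] at hv; omega)
      have hbr : (0 : ℝ) < b := by exact_mod_cast hb0
      have hvr : (0 : ℝ) < v := by exact_mod_cast hv0
      have hv1 : (1 : ℝ) ≤ v := by exact_mod_cast hv0
      have hb2 : r * (b : ℝ) ^ 2 * Λ ^ 1000 ≤ M := by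
        have h1 : (b : ℝ) ^ 2 ≤ M / (r * Λ ^ 1000) := by
          calc (b : ℝ) ^ 2 ≤ (Real.sqrt (M / (r * Λ ^ 1000))) ^ 2 := pow_le_pow_left₀ hbr.le hbY 2
            _ = M / (r * Λ ^ 1000) := Real.sq_sqrt (by positivity)
        rw [le_div_iff₀ (by positivity)] at h1
        calc r * (b : ℝ) ^ 2 * Λ ^ 1000 = (b : ℝ) ^ 2 * (r * Λ ^ 1000) := by ring
          _ ≤ (M : ℝ) := h1
      have hvV : (v : ℝ) ≤ Vm := by
        rcases hbz with h | h
        · have : v = 1 := by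
            rw [h] at hv
            exact Nat.eq_of_mul_eq_mul_left hw0 (by rw [mul_one]; exact hv.symm)
          rw [this, Nat.cast_one]
          exact hV
        · have h1 : M / (r * Λ ^ 1000) < (b * z) ^ 2 := by
            have := Real.sqrt_lt' (x := M / (r * Λ ^ 1000)) (by positivity : (0 : ℝ) < b * z)
            exact this.1 h
          rw [div_lt_iff₀ (by positivity)] at h1
          have h2 : r * (b * v) ≤ P := by
            refine le_trans (le_of_eq ?_) ht.2.2.2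
            rw [hre, hw, hv]
            push_cast
            ring
          have h3 : (v : ℝ) ^ 2 * (M * N) ≤ Vm ^ 2 * (M * N) := by
            calc (v : ℝ) ^ 2 * (M * N) ≤ (v : ℝ) ^ 2 * (((b * z) ^ 2 * (r * Λ ^ 1000)) * (r * z * G')) := by
                  gcongr
              _ = (r * (b * v)) ^ 2 * z ^ 3 * G' * Λ ^ 1000 := by ring
              _ ≤ P ^ 2 * z ^ 3 * G' * Λ ^ 1000 := by gcongr
              _ ≤ _ := hPV
          have h4 : (v : ℝ) ^ 2 ≤ Vm ^ 2 := le_of_mul_le_mul_right h3 (by positivity)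
          exact (abs_le_of_sq_le_sq' h4 hV0.le).2
      -- the factor `u`
      have hY2 : 1 ≤ Real.sqrt ((N : ℝ) ^ 2 / (r * v ^ 16 * Λ ^ 1000)) := by
        rw [Real.one_le_sqrt, one_le_div (by positivity)]
        have h1 : r ≤ N := (le_mul_of_one_le_right hr0.le hG'1).trans hrN
        have h2 : (v : ℝ) ^ 16 * Λ ^ 1000 ≤ N := by
          calc (v : ℝ) ^ 16 * Λ ^ 1000 ≤ Vm ^ 16 * Λ ^ 1002 := by
                have : Λ ^ 1000 ≤ Λ ^ 1002 := pow_le_pow_right₀ hΛ (by norm_num)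
                gcongr
            _ = Vm ^ 16 * Λ ^ 1002 * 1 * 1 := by ring
            _ ≤ Vm ^ 16 * Λ ^ 1002 * G' * z := by gcongr
            _ ≤ N := hVN
        calc r * v ^ 16 * Λ ^ 1000 = r * (v ^ 16 * Λ ^ 1000) := by ring
          _ ≤ (N : ℝ) * N := by gcongr
          _ = (N : ℝ) ^ 2 := by ring
      obtain ⟨u, hud, huY, huz⟩ := greedy z _ b hb0 (fun p hp hd => hprw p hp (by
        rw [hv]; exact hd.mul_right v)) hY2
      obtain ⟨e, he⟩ := hud
      have hu0 : 0 < u := Nat.pos_of_ne_zero (by rintro rfl; rw [zero_mul] at he; omega)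
      have he0 : 0 < e := Nat.pos_of_ne_zero (by rintro rfl; rw [mul_zero] at he; omega)
      have hur : (0 : ℝ) < u := by exact_mod_cast hu0
      have hu1 : (1 : ℝ) ≤ u := by exact_mod_cast hu0
      have her : (0 : ℝ) < e := by exact_mod_cast he0
      have hu2 : r * (u : ℝ) ^ 2 * v ^ 16 * Λ ^ 1000 ≤ (N : ℝ) ^ 2 := by
        have h1 : (u : ℝ) ^ 2 ≤ (N : ℝ) ^ 2 / (r * v ^ 16 * Λ ^ 1000) := by
          calc (u : ℝ) ^ 2 ≤ (Real.sqrt ((N : ℝ) ^ 2 / (r * v ^ 16 * Λ ^ 1000))) ^ 2 := pow_le_pow_left₀ hur.le huY 2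
            _ = _ := Real.sq_sqrt (by positivity)
        rw [le_div_iff₀ (by positivity)] at h1
        calc r * (u : ℝ) ^ 2 * v ^ 16 * Λ ^ 1000 = (u : ℝ) ^ 2 * (r * v ^ 16 * Λ ^ 1000) := by ring
          _ ≤ _ := h1
      have hbe : (b : ℝ) = u * e := by rw [he]; push_cast; ring
      have hweuv : e * u * v = w := by rw [hv, he]; ring
      refine ⟨t1, e, u, v, ?_, ?_, ⟨rfl, ?_, ?_, ?_, ?_⟩, ?_⟩
      · rw [hweuv, hw]
      · rw [hweuv]; exact hw1
      · refine le_trans (le_of_eq ?_) hb2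
        rw [hbe, ← hr]
        ring
      · -- p2
        rcases huz with h | h
        · have : e = 1 := by
            rw [h] at he
            exact Nat.eq_of_mul_eq_mul_left hb0 (by rw [mul_one]; exact he.symm)
          rw [this, Nat.cast_one, one_pow, one_mul]
          calc (v : ℝ) ^ 12 * Λ ^ 1000 ≤ Vm ^ 16 * Λ ^ 1002 := by
                have h1 : Λ ^ 1000 ≤ Λ ^ 1002 := pow_le_pow_right₀ hΛ (by norm_num)
                have h2 : (v : ℝ) ^ 12 ≤ Vm ^ 16 := by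
                  calc (v : ℝ) ^ 12 ≤ Vm ^ 12 := by gcongr
                    _ ≤ Vm ^ 16 := pow_le_pow_right₀ hV (by norm_num)
                gcongr
            _ = Vm ^ 16 * Λ ^ 1002 * 1 * 1 := by ring
            _ ≤ Vm ^ 16 * Λ ^ 1002 * G' * z := by gcongr
            _ ≤ N := hVN
        · have h1 : (N : ℝ) ^ 2 / (r * v ^ 16 * Λ ^ 1000) < (u * z) ^ 2 := by
            have := Real.sqrt_lt' (x := (N : ℝ) ^ 2 / (r * v ^ 16 * Λ ^ 1000)) (by positivity : (0 : ℝ) < u * z)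
            exact this.1 h
          rw [div_lt_iff₀ (by positivity)] at h1
          have h2 : r * ((u : ℝ) * e) ^ 2 * Λ ^ 1000 ≤ M := by rw [← hbe]; exact hb2
          -- `e² v^12 Λ^1000 N² ≤ M z² v^28 Λ^1000`
          have h3 : ((e : ℝ) ^ 2 * v ^ 12 * Λ ^ 1000) * (N : ℝ) ^ 2 ≤ N * (N : ℝ) ^ 2 := by
            calc ((e : ℝ) ^ 2 * v ^ 12 * Λ ^ 1000) * (N : ℝ) ^ 2
                ≤ ((e : ℝ) ^ 2 * v ^ 12 * Λ ^ 1000) * ((u * z) ^ 2 * (r * v ^ 16 * Λ ^ 1000)) := by gcongr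
              _ = (r * ((u : ℝ) * e) ^ 2 * Λ ^ 1000) * z ^ 2 * v ^ 28 * Λ ^ 1000 := by ring
              _ ≤ (M : ℝ) * z ^ 2 * Vm ^ 28 * Λ ^ 1000 := by gcongr
              _ ≤ (N : ℝ) ^ 3 := hVE
              _ = N * (N : ℝ) ^ 2 := by ring
          exact le_of_mul_le_mul_right h3 (by positivity)
      · exact hu2
      · -- p4
        calc (v : ℝ) ^ 16 * Λ ^ 1002 ≤ Vm ^ 16 * Λ ^ 1002 := by gcongr
          _ ≤ r * (u : ℝ) ^ 2 := by
            have h1 : Vm ^ 16 * Λ ^ 1002 * (G' * z) ≤ r * (G' * z) := by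
              calc Vm ^ 16 * Λ ^ 1002 * (G' * z) = Vm ^ 16 * Λ ^ 1002 * G' * z := by ring
                _ ≤ (N : ℝ) := hVN
                _ ≤ r * z * G' := hrz.le
                _ = r * (G' * z) := by ring
            have h2 : Vm ^ 16 * Λ ^ 1002 ≤ r := le_of_mul_le_mul_right h1 (by positivity)
            refine h2.trans ?_
            exact le_mul_of_one_le_right hr0.le (one_le_pow₀ hu1)
      · refine le_trans ?_ hrN
        gcongr
  · intro t ht
    refine le_trans ?_ hPX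
    refine le_trans ?_ ht.2.2.2
    exact le_mul_of_one_le_left (Nat.cast_nonneg t) hqr

end Pool.Agent.R503.N
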