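import Mathlib
import Pool.Agent.R503.N.Cut

/-! Blocks (helper503). -/

open Finset

namespace Pool.Agent.R503.N

open Pool.Agent.Y826.Z Pool.Agent.Y826.Z.OB

/-- parameters -/
structure Env2 (x : ℕ) (Λ ℓ C Qm z P G' Vm W : ℝ) (G R R0 U k L B1 : ℕ) : Prop where
  E : EnvX x Λ ℓ C
  hz : 1 ≤ z
  hG' : z ^ 2 * Λ ^ 1000 ≤ G'
  hG : Λ ^ 1002 ≤ (G : ℝ) ^ 2
  hG2 : 2 ≤ G
  hGG : (G : ℝ) ≤ G'
  hU : 0 < U
  hQU : Qm * G' ≤ U
  hV : 1 ≤ Vm
  hPV : P ^ 2 * z ^ 3 * G' * Λ ^ 1000 ≤ Vm ^ 2 * (B1 / 4)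
  hVN : Vm ^ 16 * Λ ^ 1002 * G' * z ≤ U
  hVE : x * z ^ 2 * Vm ^ 28 * Λ ^ 1000 ≤ (U : ℝ) ^ 4
  hP0 : 0 ≤ P
  hPX : P ≤ (x : ℝ) ^ 10
  hR : 16 * (x : ℝ) < Λ ^ R
  hR0 : 0 < R0
  hk : P < (G : ℝ) ^ (k + 1)
  hW1 : ((x - x * R0 / (R0 + 1) : ℕ) : ℝ) ≤ W
  hW2 : (B1 : ℝ) ≤ W
  hW3 : ((U * U * U : ℕ) : ℝ) ≤ W
  hU3 : U * U * U ≤ x
  hL : x ≤ U * 2 ^ L
  hL2 : (L : ℝ) ≤ ℓ

/-- the constant of the bilinear bound -/
noncomputable def KK (Λ ℓ : ℝ) (G R : ℕ) : ℝ := (R : ℝ) ^ 3 * (ℓ * Real.sqrt (40 * ℓ ^ 7 / G + Λ⁻¹))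

/-- the bound for a block -/
noncomputable def BB (x : ℕ) (Λ ℓ P W : ℝ) (G R R0 k q0 : ℕ) : ℝ :=
  R0 * (k * (ℓ ^ 2) ^ k * KK Λ ℓ G R * (x / q0)) + ℓ ^ 3 * (2 * ℓ ^ 2 * (W / q0 + 1) + P / q0)

lemma cb_swap (x M N : ℕ) (α β : ℕ → ℝ) (c : ℤ) (q t : ℕ) : cb x M N α β c q t = cb x N M β α c q t := by
  unfold cb
  rw [sum_comm]
  refine sum_congr rfl fun n _ => sum_congr rfl fun m _ => ?_
  rw [mul_comm m n]
  ring

lemma cb_zero (x M N : ℕ) (α β : ℕ → ℝ) (c : ℤ) (q t : ℕ) (h : x ≤ M * N) : cb x M N α β c q t = 0 := by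
  unfold cb
  refine sum_eq_zero fun m hm => sum_eq_zero fun n hn => ?_
  rw [mem_Ioc] at hm hn
  have h1 : ¬ (m * n ≤ x) := by
    have : M * N < m * n := Nat.mul_lt_mul_of_lt_of_le hm.1 hn.1.le (by omega)
    omega
  rw [ind_false h1, zero_mul]

section
variable {x : ℕ} {Λ ℓ C Qm z P G' Vm W : ℝ} {G R R0 U k L B1 : ℕ}

lemma D_pos {q0 : ℕ} {c : ℤ} {t : ℕ} (ht : t ∈ DD0 q0 G z P c) : 0 < t := by
  refine Nat.pos_of_ne_zero fun h0 => ?_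
  have := ht.1.ne_zero
  rw [h0, mul_zero] at this
  exact this rfl

lemma card_T {q0 : ℕ} (hq : 0 < q0) (hP : 0 ≤ P) {c : ℤ} (T : Finset ℕ) (hT : ∀ t ∈ T, t ∈ DD0 q0 G z P c) :
    (T.card : ℝ) ≤ P / q0 := by
  have hqr : (0 : ℝ) < q0 := by exact_mod_cast hq
  have h1 : T ⊆ Icc 1 ⌊P / q0⌋₊ := by
    intro t ht
    rw [mem_Icc]
    refine ⟨D_pos (hT t ht), Nat.le_floor ?_⟩
    rw [le_div_iff₀ hqr, mul_comm]
    exact (hT t ht).2.2.2
  have h2 := card_le_card h1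
  rw [Nat.card_Icc, Nat.add_sub_cancel] at h2
  calc (T.card : ℝ) ≤ (⌊P / q0⌋₊ : ℝ) := by exact_mod_cast h2
    _ ≤ _ := Nat.floor_le (by positivity)

variable (h : Env2 x Λ ℓ C Qm z P G' Vm W G R R0 U k L B1)
include h

lemma KK_nonneg : 0 ≤ KK Λ ℓ G R := by
  unfold KK
  have := h.E.l1
  positivity

lemma W_nonneg : 0 ≤ W := le_trans (Nat.cast_nonneg _) h.hW3

lemma card_pf {q0 : ℕ} (hq : 0 < q0) {c : ℤ} {t : ℕ} (ht : t ∈ DD0 q0 G z P c) : t.primeFactors.card ≤ k := by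
  have h0 := D_pos ht
  have hsf : Squarefree t := (Nat.squarefree_mul_iff.1 ht.1).2.2
  have h1 : G ^ t.primeFactors.card ≤ t := by
    calc G ^ t.primeFactors.card ≤ ∏ p ∈ t.primeFactors, p :=
          pow_card_le_prod _ _ _ (fun p hp => (ht.2.2.1 p (Nat.prime_of_mem_primeFactors hp)
            (Nat.dvd_of_mem_primeFactors hp)).1.le)
      _ = t := Nat.prod_primeFactors_of_squarefree hsf
  have hqr : (1 : ℝ) ≤ q0 := by exact_mod_cast hq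
  have h2 : (G : ℝ) ^ t.primeFactors.card < (G : ℝ) ^ (k + 1) := by
    calc (G : ℝ) ^ t.primeFactors.card ≤ t := by exact_mod_cast h1
      _ ≤ q0 * t := le_mul_of_one_le_left (Nat.cast_nonneg t) hqr
      _ ≤ P := ht.2.2.2
      _ < _ := h.hk
  have h3 : (1 : ℝ) < G := by
    have := h.hG2
    exact_mod_cast (by omega : 1 < G)
  have := (pow_lt_pow_iff_right₀ h3).1 h2
  omega

/-- the trivial bound -/
lemma tb2 {q0 : ℕ} (hq : 0 < q0) {c : ℤ} (T : Finset ℕ) (hT : ∀ t ∈ T, t ∈ DD0 q0 G z P c) (A B : ℕ)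
    (hAB : ((B - A : ℕ) : ℝ) ≤ W) :
    ∑ t ∈ T, ∑ n ∈ Ioc A B, |ww q0 c t n| ≤ 2 * ℓ ^ 2 * (W / q0 + 1) + P / q0 := by
  have hE := h.E
  have hX := hE.hX
  have hqr : (1 : ℝ) ≤ q0 := by exact_mod_cast hq
  have hY : 1 ≤ ⌊(x : ℝ) ^ 10⌋₊ := Nat.floor_pos.2 (one_le_pow₀ (by linarith))
  have hYr : ((⌊(x : ℝ) ^ 10⌋₊ : ℕ) : ℝ) ≤ (x : ℝ) ^ 10 := Nat.floor_le (by positivity)
  have h1 := tb q0 c ℓ ⌊(x : ℝ) ^ 10⌋₊ T A B hq hE.l1 (fun t ht => ⟨D_pos (hT t ht), Nat.le_floor (by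
    refine le_trans ?_ h.hPX
    exact (le_mul_of_one_le_left (Nat.cast_nonneg t) hqr).trans (hT t ht).2.2.2),
    (Nat.squarefree_mul_iff.1 (hT t ht).1).1⟩)
    (fun n hn hnY => by
      have h1 := hE.ht n hn ((Nat.cast_le.2 hnY).trans hYr)
      calc tau n = tau n ^ 1 := (pow_one _).symm
        _ ≤ tau n ^ 3 := pow_le_pow_right₀ (tau_ge_one hn) (by norm_num)
        _ ≤ ℓ := h1)
    (by
      refine le_trans ?_ hE.hl
      have := Real.log_le_log (by exact_mod_cast hY : (0 : ℝ) < (⌊(x : ℝ) ^ 10⌋₊ : ℕ)) hYr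
      linarith)
  refine h1.trans ?_
  have h2 := card_T hq h.hP0 T hT
  have hq0 : (0 : ℝ) < q0 := by linarith
  have hℓ := hE.l1
  gcongr

/-- a block with the longer variable first -/
lemma blk_main {q0 : ℕ} (hq : 0 < q0) (hqQ : (q0 : ℝ) ≤ Qm) {c : ℤ} (hc : IsCoprime c (q0 : ℤ)) (T : Finset ℕ)
    (hT : ∀ t ∈ T, t ∈ DD0 q0 G z P c) (M N : ℕ) (hUN : U ≤ N) (hNM : N ≤ M) (hMN : M * N ≤ x)
    (hB : B1 ≤ 4 * (M * N)) (α β : ℕ → ℝ)
    (hα : ∀ m ∈ Ioc M (2 * M), |α m| ≤ ℓ) (hβ : ∀ n ∈ Ioc N (2 * N), |β n| ≤ ℓ) :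
    ∑ t ∈ T, |cb x M N α β c q0 t| ≤ BB x Λ ℓ P W G R R0 k q0 := by
  have hE := h.E
  have hN0 : 0 < N := lt_of_lt_of_le h.hU hUN
  have hM0 : 0 < M := lt_of_lt_of_le hN0 hNM
  have hNr : (0 : ℝ) < N := by exact_mod_cast hN0
  have hMr : (0 : ℝ) < M := by exact_mod_cast hM0
  have hMNr : (M : ℝ) * N ≤ x := by exact_mod_cast hMN
  have hUNr : (U : ℝ) ≤ N := by exact_mod_cast hUN
  have hX := hE.hX
  have hx0 : (0 : ℝ) < x := by linarith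
  have hΛ1 : 1 ≤ Λ := by linarith [hE.hΛ]
  have hz0 : 0 ≤ z := by linarith [h.hz]
  have hV0 : 0 ≤ Vm := by linarith [h.hV]
  have hG'0 : 0 ≤ G' := le_trans (Nat.cast_nonneg _) h.hGG
  have hℓ1 := hE.l1
  have hq0 : (0 : ℝ) < q0 := by exact_mod_cast hq
  have F := fam_mk x Λ z P G' Vm q0 M N G c hΛ1 h.hz h.hG' h.hG h.hGG hM0 hN0 hNM hq
    (by
      calc (q0 : ℝ) * G' ≤ Qm * G' := by gcongr
        _ ≤ U := h.hQU
        _ ≤ N := hUNr) h.hV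
    (by
      refine h.hPV.trans ?_
      have h1 : (B1 : ℝ) / 4 ≤ M * N := by
        rw [div_le_iff₀ (by norm_num)]
        have : (B1 : ℝ) ≤ ((4 * (M * N) : ℕ) : ℝ) := by exact_mod_cast hB
        push_cast at this
        linarith
      gcongr)
    (h.hVN.trans hUNr)
    (by
      have h1 : (M * z ^ 2 * Vm ^ 28 * Λ ^ 1000) * N ≤ (N : ℝ) ^ 3 * N := by
        calc (M * z ^ 2 * Vm ^ 28 * Λ ^ 1000) * N = (M * N) * z ^ 2 * Vm ^ 28 * Λ ^ 1000 := by ring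
          _ ≤ x * z ^ 2 * Vm ^ 28 * Λ ^ 1000 := by gcongr
          _ ≤ (U : ℝ) ^ 4 := h.hVE
          _ ≤ (N : ℝ) ^ 4 := by gcongr
          _ = (N : ℝ) ^ 3 * N := by ring
      exact le_of_mul_le_mul_right h1 hNr)
    h.hPX hc
  have hK : (R : ℝ) ^ 3 * (ℓ * Real.sqrt (40 * ℓ ^ 7 / G + Λ⁻¹)) ≤ KK Λ ℓ G R := le_rfl
  have hK0 := KK_nonneg h
  have htel := tel hE q0 M N G R c (DD0 q0 G z P c) hM0 hN0 (by linarith) F (by have := h.hG2; omega)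
    h.hR (KK Λ ℓ G R) hK k
  have hcut := cut x M N R0 α β c q0 ℓ (k * (ℓ ^ 2) ^ k * KK Λ ℓ G R * (x / q0)) T hN0 h.hR0 (by linarith) hα hβ
    (fun α' β' hα' hβ' => by
      refine (htel T α' β' hT (fun t ht => card_pf h hq (hT t ht)) hα' hβ').trans ?_
      gcongr)
    (fun n hn hle => hE.ht n hn (by
      have h1 : (n : ℝ) ≤ ((4 * M * N : ℕ) : ℝ) := by exact_mod_cast hle
      push_cast at h1
      have := hE.bigX
      linarith))
  refine hcut.trans ?_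
  unfold BB
  have h2 := tb2 h hq T hT (x * R0 / (R0 + 1)) x h.hW1
  gcongr

/-- a block -/
lemma blk_le {q0 : ℕ} (hq : 0 < q0) (hqQ : (q0 : ℝ) ≤ Qm) {c : ℤ} (hc : IsCoprime c (q0 : ℤ)) (T : Finset ℕ)
    (hT : ∀ t ∈ T, t ∈ DD0 q0 G z P c) (y : ℕ) (hy : y = x ∨ y = U * U * U) (M N : ℕ) (hUM : U ≤ M) (hUN : U ≤ N)
    (α β : ℕ → ℝ)
    (hα : ∀ m ∈ Ioc M (2 * M), |α m| ≤ ℓ) (hβ : ∀ n ∈ Ioc N (2 * N), |β n| ≤ ℓ) :
    ∑ t ∈ T, |cb y M N α β c q0 t| ≤ BB x Λ ℓ P W G R R0 k q0 := by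
  have hE := h.E
  have hℓ1 := hE.l1
  have hq0 : (0 : ℝ) < q0 := by exact_mod_cast hq
  have hX := hE.hX
  have hK0 := KK_nonneg h
  have hW0 := W_nonneg h
  have hP0 := h.hP0
  have hBB : ℓ ^ 3 * (2 * ℓ ^ 2 * (W / q0 + 1) + P / q0) ≤ BB x Λ ℓ P W G R R0 k q0 := by
    unfold BB
    have : 0 ≤ (R0 : ℝ) * (k * (ℓ ^ 2) ^ k * KK Λ ℓ G R * (x / q0)) := by positivity
    linarith
  by_cases hz : y ≤ M * N
  · have : ∑ t ∈ T, |cb y M N α β c q0 t| = 0 :=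
      sum_eq_zero fun t _ => by rw [cb_zero y M N α β c q0 t hz, abs_zero]
    rw [this]
    exact le_trans (by positivity) hBB
  rw [not_le] at hz
  have hyx : y ≤ x := by
    rcases hy with h1 | h1
    · exact h1.le
    · rw [h1]; exact h.hU3
  have hτ : ∀ n : ℕ, n ≠ 0 → n ≤ 4 * M * N → tau n ^ 3 ≤ ℓ := fun n hn hle => hE.ht n hn (by
      have h1 : (n : ℝ) ≤ ((4 * M * N : ℕ) : ℝ) := by exact_mod_cast hle
      have h2 : (4 * M * N : ℕ) ≤ 4 * x := by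
        calc 4 * M * N = 4 * (M * N) := by ring
          _ ≤ 4 * x := Nat.mul_le_mul_left 4 (hz.le.trans hyx)
      have h3 : ((4 * M * N : ℕ) : ℝ) ≤ ((4 * x : ℕ) : ℝ) := by exact_mod_cast h2
      push_cast at h1 h3
      have := hE.bigX
      linarith)
  rcases hy with hy | hy
  · subst hy
    by_cases hB : B1 ≤ 4 * (M * N)
    · rcases le_total N M with hNM | hNM
      · exact blk_main h hq hqQ hc T hT M N hUN hNM hz.le hB α β hα hβ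
      · simp only [cb_swap _ M N]
        exact blk_main h hq hqQ hc T hT N M hUM hNM (by rw [mul_comm]; exact hz.le) (by rw [mul_comm N M]; exact hB)
          β α hβ hα
    · refine (cb_triv y M N α β c q0 ℓ T (by linarith) hα hβ hτ B1 (Or.inr (by
        rw [mul_assoc]; omega))).trans ?_
      refine le_trans ?_ hBB
      have := tb2 h hq T hT 0 B1 (by rw [Nat.sub_zero]; exact h.hW2)
      gcongr
  · subst hy
    refine (cb_triv (U * U * U) M N α β c q0 ℓ T (by linarith) hα hβ hτ (U * U * U) (Or.inl le_rfl)).trans ?_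
    refine le_trans ?_ hBB
    have := tb2 h hq T hT 0 (U * U * U) (by rw [Nat.sub_zero]; exact h.hW3)
    gcongr

omit h in
lemma dyad (U L : ℕ) (f : ℕ → ℝ) :
    ∑ m ∈ Ioc U (U * 2 ^ L), f m = ∑ i ∈ range L, ∑ m ∈ Ioc (U * 2 ^ i) (2 * (U * 2 ^ i)), f m := by
  induction L with
  | zero => simp
  | succ L ih =>
    rw [sum_range_succ, ← ih]
    have h1 : U ≤ U * 2 ^ L := Nat.le_mul_of_pos_right U (by positivity)
    have h2 : U * 2 ^ L ≤ U * 2 ^ (L + 1) := Nat.mul_le_mul_left U (Nat.pow_le_pow_right (by norm_num) (by omega))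
    rw [← sum_Ioc_consecutive f h1 h2]
    have h3 : 2 * (U * 2 ^ L) = U * 2 ^ (L + 1) := by ring
    rw [h3]

/-- all blocks -/
lemma blks {q0 : ℕ} (hq : 0 < q0) (hqQ : (q0 : ℝ) ≤ Qm) {c : ℤ} (hc : IsCoprime c (q0 : ℤ)) (T : Finset ℕ)
    (hT : ∀ t ∈ T, t ∈ DD0 q0 G z P c) (y : ℕ) (hy : y = x ∨ y = U * U * U) (α β : ℕ → ℝ)
    (hα : ∀ m : ℕ, 0 < m → (m : ℝ) ≤ (x : ℝ) ^ 10 → |α m| ≤ ℓ)
    (hβ : ∀ m : ℕ, 0 < m → (m : ℝ) ≤ (x : ℝ) ^ 10 → |β m| ≤ ℓ) :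
    ∑ t ∈ T, |∑ m ∈ Ioc U x, ∑ n ∈ Ioc U x, ind (m * n ≤ y) * (α m * β n * ww q0 c t (m * n))| ≤
      L ^ 2 * BB x Λ ℓ P W G R R0 k q0 := by
  have hE := h.E
  have hX := hE.hX
  have hyx : y ≤ x := by
    rcases hy with h1 | h1
    · exact h1.le
    · rw [h1]; exact h.hU3
  have hU := h.hU
  have e1 : ∀ t, ∑ m ∈ Ioc U x, ∑ n ∈ Ioc U x, ind (m * n ≤ y) * (α m * β n * ww q0 c t (m * n)) =
      ∑ i ∈ range L, ∑ j ∈ range L, cb y (U * 2 ^ i) (U * 2 ^ j) α β c q0 t := by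
    intro t
    have hsub : Ioc U x ⊆ Ioc U (U * 2 ^ L) := Ioc_subset_Ioc_right h.hL
    have e2 : ∀ m, 0 < m → ∑ n ∈ Ioc U x, ind (m * n ≤ y) * (α m * β n * ww q0 c t (m * n)) =
        ∑ n ∈ Ioc U (U * 2 ^ L), ind (m * n ≤ y) * (α m * β n * ww q0 c t (m * n)) := by
      intro m hm
      apply sum_subset hsub
      intro n hn hn'
      have h1 : ¬ (m * n ≤ y) := by
        rw [mem_Ioc] at hn hn'
        have h2 : n ≤ m * n := Nat.le_mul_of_pos_left n hm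
        omega
      rw [ind_false h1, zero_mul]
    have e3 : ∑ m ∈ Ioc U x, ∑ n ∈ Ioc U x, ind (m * n ≤ y) * (α m * β n * ww q0 c t (m * n)) =
        ∑ m ∈ Ioc U (U * 2 ^ L), ∑ n ∈ Ioc U (U * 2 ^ L), ind (m * n ≤ y) * (α m * β n * ww q0 c t (m * n)) := by
      rw [sum_congr rfl (fun m hm => e2 m (by rw [mem_Ioc] at hm; omega))]
      apply sum_subset hsub
      intro m hm hm'
      apply sum_eq_zero
      intro n hn
      have h1 : ¬ (m * n ≤ y) := by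
        rw [mem_Ioc] at hn hm hm'
        have h2 : m ≤ m * n := Nat.le_mul_of_pos_right m (by omega)
        omega
      rw [ind_false h1, zero_mul]
    rw [e3, dyad]
    refine sum_congr rfl fun i _ => ?_
    have e4 : ∀ m ∈ Ioc (U * 2 ^ i) (2 * (U * 2 ^ i)),
        ∑ n ∈ Ioc U (U * 2 ^ L), ind (m * n ≤ y) * (α m * β n * ww q0 c t (m * n)) =
        ∑ j ∈ range L, ∑ n ∈ Ioc (U * 2 ^ j) (2 * (U * 2 ^ j)), ind (m * n ≤ y) * (α m * β n * ww q0 c t (m * n)) :=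
      fun m _ => dyad U L _
    rw [sum_congr rfl e4, sum_comm]
    rfl
  simp only [e1]
  calc ∑ t ∈ T, |∑ i ∈ range L, ∑ j ∈ range L, cb y (U * 2 ^ i) (U * 2 ^ j) α β c q0 t|
      ≤ ∑ t ∈ T, ∑ i ∈ range L, ∑ j ∈ range L, |cb y (U * 2 ^ i) (U * 2 ^ j) α β c q0 t| :=
        sum_le_sum fun t _ => (abs_sum_le_sum_abs _ _).trans (sum_le_sum fun i _ => abs_sum_le_sum_abs _ _)
    _ = ∑ i ∈ range L, ∑ j ∈ range L, ∑ t ∈ T, |cb y (U * 2 ^ i) (U * 2 ^ j) α β c q0 t| := by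
        rw [sum_comm]
        refine sum_congr rfl fun i _ => ?_
        rw [sum_comm]
    _ ≤ ∑ i ∈ range L, ∑ j ∈ range L, BB x Λ ℓ P W G R R0 k q0 := by
        refine sum_le_sum fun i _ => sum_le_sum fun j _ => ?_
        have hUi : ∀ i : ℕ, U ≤ U * 2 ^ i := fun i => Nat.le_mul_of_pos_right U (by positivity)
        -- blocks beyond `x` vanish
        by_cases hbig : U * 2 ^ i ≤ x ∧ U * 2 ^ j ≤ x
        · have hr : ∀ i : ℕ, U * 2 ^ i ≤ x → ∀ m ∈ Ioc (U * 2 ^ i) (2 * (U * 2 ^ i)),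
              0 < m ∧ (m : ℝ) ≤ (x : ℝ) ^ 10 := by
            intro i hi m hm
            rw [mem_Ioc] at hm
            refine ⟨by omega, ?_⟩
            have h1 : (m : ℝ) ≤ ((2 * x : ℕ) : ℝ) := by exact_mod_cast (by omega : m ≤ 2 * x)
            push_cast at h1
            have := hE.bigX
            linarith
          exact blk_le h hq hqQ hc T hT y hy _ _ (hUi i) (hUi j) α β
            (fun m hm => hα m (hr i hbig.1 m hm).1 (hr i hbig.1 m hm).2)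
            (fun m hm => hβ m (hr j hbig.2 m hm).1 (hr j hbig.2 m hm).2)
        · have hz : y ≤ U * 2 ^ i * (U * 2 ^ j) := by
            rw [not_and_or, not_le, not_le] at hbig
            have h1 : 0 < U * 2 ^ i := by positivity
            have h2 : 0 < U * 2 ^ j := by positivity
            rcases hbig with hb | hb
            · calc y ≤ U * 2 ^ i := by omega
                _ ≤ U * 2 ^ i * (U * 2 ^ j) := Nat.le_mul_of_pos_right _ h2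
            · calc y ≤ U * 2 ^ j := by omega
                _ ≤ U * 2 ^ i * (U * 2 ^ j) := Nat.le_mul_of_pos_left _ h1
          have h0 : ∑ t ∈ T, |cb y (U * 2 ^ i) (U * 2 ^ j) α β c q0 t| = 0 :=
            sum_eq_zero fun t _ => by rw [cb_zero y _ _ α β c q0 t hz, abs_zero]
          rw [h0]
          unfold BB
          have hℓ1 := hE.l1
          have hq0 : (0 : ℝ) < q0 := by exact_mod_cast hq
          have hK0 := KK_nonneg h
          have hW0 := W_nonneg h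
          have hP0 := h.hP0
          positivity
    _ = _ := by
        rw [sum_const, sum_const, card_range, nsmul_eq_mul, nsmul_eq_mul]
        ring

end

end Pool.Agent.R503.N
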