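import Mathlib
import Pool.Agent.R503.N.Blo

/-! Vaughan's identity (helper503). -/

open Finset

namespace Pool.Agent.R503.N

open Pool.Agent.Y826.Z Pool.Agent.Y826.Z.OB
open Pool.Agent.Helper112 (betaV)
open Pool.Agent.Helper112.TI (mu1)
open Pool.Agent.Y818.YZ (nuL vau_id mu1_le nuL_abs)

lemma exists_nat_class (Q : ℕ) (hQ : 0 < Q) (c : ℤ) : ∃ c0 : ℕ, ∀ q : ℕ, q ∣ Q → ∀ n : ℕ,
    ((q : ℤ) ∣ (n : ℤ) - c ↔ n ≡ c0 [MOD q]) := by
  refine ⟨(c % (Q : ℤ)).toNat, fun q hq n => ?_⟩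
  have hQz : (0 : ℤ) < Q := by exact_mod_cast hQ
  have h1 : 0 ≤ c % (Q : ℤ) := Int.emod_nonneg _ hQz.ne'
  rw [← Int.natCast_modEq_iff, Int.toNat_of_nonneg h1]
  have h2 : c % (Q : ℤ) ≡ c [ZMOD (q : ℤ)] := (Int.mod_modEq c Q).of_dvd (Int.natCast_dvd_natCast.2 hq)
  constructor
  · intro h3
    refine Int.ModEq.trans ?_ h2.symm
    exact (Int.modEq_iff_dvd.2 h3).symm
  · intro h3
    exact Int.modEq_iff_dvd.1 (h3.trans h2).symm

/-- sums over one long variable -/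
lemma ti1 (q t : ℕ) (c : ℤ) (hsf : Squarefree (q * t)) (hc : IsCoprime c (q : ℤ)) (hct : IsCoprime c (t : ℤ))
    (d y : ℕ) : |∑ l ∈ Icc 1 y, ww q c t (d * l)| ≤ 2 := by
  have hQ0 : 0 < q * t := Nat.pos_of_ne_zero hsf.ne_zero
  have hq0 : 0 < q := Nat.pos_of_mul_pos_right hQ0 |> fun _ => Nat.pos_of_ne_zero (by
    rintro rfl; simp at hQ0)
  have ht0 : 0 < t := Nat.pos_of_ne_zero (by rintro rfl; simp at hQ0)
  have hqt : q.Coprime t := (Nat.squarefree_mul_iff.1 hsf).1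
  by_cases hd : d.Coprime (q * t)
  swap
  · have hz : ∀ l ∈ Icc 1 y, ww q c t (d * l) = 0 := by
      intro l _
      obtain ⟨p, hp, h1, h2⟩ := Nat.Prime.not_coprime_iff_dvd.1 hd
      have hpz : ∀ m : ℕ, p ∣ m → IsCoprime c (m : ℤ) → (m : ℤ) ∣ ((d * l : ℕ) : ℤ) - c → False := by
        intro m hm hcm hdv
        have h3 : (p : ℤ) ∣ ((d * l : ℕ) : ℤ) - c := (Int.natCast_dvd_natCast.2 hm).trans hdv
        have h4 : (p : ℤ) ∣ ((d * l : ℕ) : ℤ) := Int.natCast_dvd_natCast.2 (h1.mul_right l)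
        have h5 : (p : ℤ) ∣ c := by
          have := dvd_sub h4 h3
          rwa [sub_sub_cancel] at this
        have h6 := hcm.isUnit_of_dvd' h5 (Int.natCast_dvd_natCast.2 hm)
        have h7 := Int.isUnit_iff.1 h6
        have := hp.one_lt
        omega
      unfold ww
      rcases (hp.dvd_mul).1 h2 with h3 | h3
      · unfold Pl
        rw [ind_false (fun h => hpz q h3 hc h), zero_mul]
      · unfold Dc
        rw [ind_false (fun h => hpz t h3 hct h), ind_false (P := IsCoprime ((d * l : ℕ) : ℤ) (t : ℤ))]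
        · simp
        · intro h
          rw [Nat.isCoprime_iff_coprime] at h
          exact hp.one_lt.ne' (Nat.eq_one_of_dvd_coprimes h (h1.mul_right l) h3)
    rw [sum_eq_zero hz, abs_zero]
    norm_num
  obtain ⟨c0, hc0⟩ := exists_nat_class (q * t) hQ0 c
  obtain ⟨c1, hc1⟩ := TIa.mul_class d (q * t) c0 hQ0 hd
  obtain ⟨c2, hc2⟩ := TIa.mul_class d q c0 hq0 (hd.coprime_dvd_right (Dvd.intro _ rfl))
  have e1 : ∀ l ∈ Icc 1 y, ww q c t (d * l) = ind (l ≡ c1 [MOD (q * t)]) -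
      (1 / (Nat.totient t : ℝ)) * ind (l ≡ c2 [MOD q] ∧ l.Coprime t) := by
    intro l _
    unfold ww Dc
    rw [mul_sub]
    congr 1
    · unfold Pl
      rw [ind_mul]
      congr 1
      rw [eq_iff_iff, ← hc1, ← hc0 (q * t) dvd_rfl]
      push_cast
      constructor
      · rintro ⟨a, b⟩
        exact (Nat.isCoprime_iff_coprime.2 hqt).mul_dvd a b
      · intro h
        exact ⟨(Dvd.intro _ rfl).trans h, (Dvd.intro_left _ rfl).trans h⟩
    · have e2 : Pl q c (d * l) * ind (IsCoprime ((d * l : ℕ) : ℤ) (t : ℤ)) = ind (l ≡ c2 [MOD q] ∧ l.Coprime t) := by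
        unfold Pl
        rw [ind_mul]
        congr 1
        rw [eq_iff_iff, ← hc2, ← hc0 q (Dvd.intro _ rfl), Nat.isCoprime_iff_coprime]
        constructor
        · rintro ⟨a, b⟩
          exact ⟨a, Nat.Coprime.coprime_mul_left b⟩
        · rintro ⟨a, b⟩
          exact ⟨a, Nat.Coprime.mul_left (hd.coprime_dvd_right (Dvd.intro_left _ rfl)) b⟩
      rw [← e2]
      ring
  rw [sum_congr rfl e1, sum_sub_distrib, ← mul_sum]
  have h1 := TIa.count_class y (q * t) c1 hQ0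
  have h2 := TIa.count_cop y q t c2 hq0 ht0 hqt
  have hφ : (0 : ℝ) < Nat.totient t := by exact_mod_cast Nat.totient_pos.2 ht0
  have h3 : |(1 / (Nat.totient t : ℝ)) * ∑ l ∈ Icc 1 y, ind (l ≡ c2 [MOD q] ∧ l.Coprime t) -
      (y : ℝ) / ((q * t : ℕ) : ℝ)| ≤ 1 := by
    have e3 : (1 / (Nat.totient t : ℝ)) * ∑ l ∈ Icc 1 y, ind (l ≡ c2 [MOD q] ∧ l.Coprime t) -
      (y : ℝ) / ((q * t : ℕ) : ℝ) = (1 / (Nat.totient t : ℝ)) * (∑ l ∈ Icc 1 y, ind (l ≡ c2 [MOD q] ∧ l.Coprime t) -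
        (Nat.totient t : ℝ) * ((y : ℝ) / ((q * t : ℕ) : ℝ))) := by
      field_simp
    rw [e3, abs_mul, abs_of_nonneg (by positivity)]
    calc (1 / (Nat.totient t : ℝ)) * _ ≤ (1 / (Nat.totient t : ℝ)) * (Nat.totient t : ℝ) :=
          mul_le_mul_of_nonneg_left h2 (by positivity)
      _ = 1 := by field_simp
  have h4 := abs_le.1 h1
  have h5 := abs_le.1 h3
  exact abs_le.2 ⟨by linarith [h4.1, h5.2], by linarith [h4.2, h5.1]⟩

/-- with a monotone weight -/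
lemma ti2 (q t : ℕ) (c : ℤ) (hsf : Squarefree (q * t)) (hc : IsCoprime c (q : ℤ)) (hct : IsCoprime c (t : ℤ))
    (d y : ℕ) (g : ℕ → ℝ) (hg0 : ∀ l, 0 ≤ g l) (hg : ∀ l, 1 ≤ l → g l ≤ g (l + 1)) (B : ℝ) (hB : 0 ≤ B)
    (hgB : g y ≤ B) :
    |∑ l ∈ Icc 1 y, g l * ww q c t (d * l)| ≤ 4 * B := by
  refine (TIa.abel_le g (fun l => ww q c t (d * l)) y 2 (ti1 q t c hsf hc hct d)).trans ?_
  have h1 : ∑ l ∈ Ico 1 y, |g (l + 1) - g l| ≤ B := by
    have e : ∑ l ∈ Ico 1 y, |g (l + 1) - g l| = ∑ l ∈ Ico 1 y, (g (l + 1) - g l) := by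
      refine sum_congr rfl fun l hl => ?_
      rw [mem_Ico] at hl
      exact abs_of_nonneg (sub_nonneg.2 (hg l hl.1))
    rw [e]
    rcases Nat.lt_or_ge y 1 with h | h
    · rw [Ico_eq_empty (by omega), sum_empty]; exact hB
    · rw [sum_Ico_sub g h]
      linarith [hg0 1]
  rw [abs_of_nonneg (hg0 y)]
  linarith

/-- the cut weight -/
noncomputable def wc (x U : ℕ) (q : ℕ) (c : ℤ) (t n : ℕ) : ℝ := ind (U * U * U < n ∧ n ≤ x) * ww q c t n

lemma ti3 (x U : ℕ) (hU : U * U * U ≤ x) (q t : ℕ) (c : ℤ) (hsf : Squarefree (q * t)) (hc : IsCoprime c (q : ℤ))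
    (hct : IsCoprime c (t : ℤ)) (d : ℕ) (hd : 0 < d) (g : ℕ → ℝ) (hg0 : ∀ l, 0 ≤ g l)
    (hg : ∀ l, 1 ≤ l → g l ≤ g (l + 1)) (B : ℝ) (hB : 0 ≤ B) (hgB : ∀ l, l ≤ x → g l ≤ B) :
    |∑ l ∈ Icc 1 x, g l * wc x U q c t (d * l)| ≤ 8 * B := by
  have e1 : ∀ y, y ≤ x → ∑ l ∈ Icc 1 x, ind (d * l ≤ y) * (g l * ww q c t (d * l)) =
      ∑ l ∈ Icc 1 (y / d), g l * ww q c t (d * l) := by
    intro y hy
    have hsub : Icc 1 (y / d) ⊆ Icc 1 x := Icc_subset_Icc_right ((Nat.div_le_self y d).trans hy)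
    rw [← sum_subset hsub]
    · refine sum_congr rfl fun l hl => ?_
      rw [mem_Icc] at hl
      have : d * l ≤ y := by
        rw [mul_comm]
        exact (Nat.le_div_iff_mul_le hd).1 hl.2
      rw [ind_true this, one_mul]
    · intro l hl hl'
      rw [mem_Icc] at hl hl'
      have : ¬ (d * l ≤ y) := by
        intro h
        apply hl'
        refine ⟨hl.1, (Nat.le_div_iff_mul_le hd).2 ?_⟩
        rw [mul_comm]; exact h
      rw [ind_false this, zero_mul]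
  have e2 : ∑ l ∈ Icc 1 x, g l * wc x U q c t (d * l) =
      ∑ l ∈ Icc 1 (x / d), g l * ww q c t (d * l) - ∑ l ∈ Icc 1 (U * U * U / d), g l * ww q c t (d * l) := by
    rw [← e1 x le_rfl, ← e1 _ hU, ← sum_sub_distrib]
    refine sum_congr rfl fun l _ => ?_
    unfold wc
    by_cases h1 : d * l ≤ x
    · by_cases h2 : d * l ≤ U * U * U
      · rw [ind_true h1, ind_true h2, ind_false (by omega)]; ring
      · rw [ind_true h1, ind_false h2, ind_true (⟨by omega, h1⟩ : U * U * U < d * l ∧ d * l ≤ x)]; ring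
    · rw [ind_false h1, ind_false (by omega : ¬ (d * l ≤ U * U * U)), ind_false (by omega)]; ring
  rw [e2]
  have h1 := ti2 q t c hsf hc hct d (x / d) g hg0 hg B hB (hgB _ (Nat.div_le_self _ _))
  have h2 := ti2 q t c hsf hc hct d (U * U * U / d) g hg0 hg B hB (hgB _ ((Nat.div_le_self _ _).trans hU))
  have := abs_sub (∑ l ∈ Icc 1 (x / d), g l * ww q c t (d * l)) (∑ l ∈ Icc 1 (U * U * U / d), g l * ww q c t (d * l))
  linarith

section
variable {x : ℕ} {Λ ℓ C Qm z P G' Vm W : ℝ} {G R R0 U k L B1 : ℕ}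

lemma bil_cut (x U : ℕ) (hU : U * U * U ≤ x) (q : ℕ) (c : ℤ) (t : ℕ) (α β : ℕ → ℝ) :
    ∑ m ∈ Ioc U x, ∑ n ∈ Ioc U x, α m * β n * wc x U q c t (m * n) =
      ∑ m ∈ Ioc U x, ∑ n ∈ Ioc U x, ind (m * n ≤ x) * (α m * β n * ww q c t (m * n)) -
      ∑ m ∈ Ioc U x, ∑ n ∈ Ioc U x, ind (m * n ≤ U * U * U) * (α m * β n * ww q c t (m * n)) := by
  rw [← sum_sub_distrib]
  refine sum_congr rfl fun m _ => ?_
  rw [← sum_sub_distrib]
  refine sum_congr rfl fun n _ => ?_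
  unfold wc
  by_cases h1 : m * n ≤ x
  · by_cases h2 : m * n ≤ U * U * U
    · rw [ind_true h1, ind_true h2, ind_false (by omega)]; ring
    · rw [ind_true h1, ind_false h2, ind_true (⟨by omega, h1⟩ : U * U * U < m * n ∧ m * n ≤ x)]; ring
  · rw [ind_false h1, ind_false (by omega : ¬ (m * n ≤ U * U * U)), ind_false (by omega)]; ring

/-- the von Mangoldt function -/
theorem vauT (h : Env2 x Λ ℓ C Qm z P G' Vm W G R R0 U k L B1) {q0 : ℕ} (hq : 0 < q0) (hqQ : (q0 : ℝ) ≤ Qm)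
    {c : ℤ} (hc : IsCoprime c (q0 : ℤ)) (T : Finset ℕ) (hT : ∀ t ∈ T, t ∈ DD0 q0 G z P c) :
    ∑ t ∈ T, |∑ n ∈ Icc 1 x, ArithmeticFunction.vonMangoldt n * ww q0 c t n| ≤
      4 * (L ^ 2 * BB x Λ ℓ P W G R R0 k q0) + 16 * ℓ ^ 2 * U * (P / q0) +
        ℓ * (2 * ℓ ^ 2 * (W / q0 + 1) + P / q0) := by
  have hE := h.E
  have hℓ1 := hE.l1
  have hX := hE.hX
  have hU3 := h.hU3
  have hUx : U ≤ x := by
    have hU := h.hU
    have h1 : U * 1 ≤ U * U := Nat.mul_le_mul_left U hU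
    have h2 : U * U * 1 ≤ U * U * U := Nat.mul_le_mul_left (U * U) hU
    omega
  have hx10 : (x : ℝ) ≤ (x : ℝ) ^ 10 := by
    have := hE.bigX
    linarith
  have hlog : ∀ n : ℕ, 0 < n → (n : ℝ) ≤ (x : ℝ) ^ 10 → Real.log n ≤ ℓ := by
    intro n hn hle
    have h1 := Real.log_le_log (by exact_mod_cast hn : (0 : ℝ) < n) hle
    have := hE.hl
    linarith
  have htau : ∀ n : ℕ, 0 < n → (n : ℝ) ≤ (x : ℝ) ^ 10 → tau n ≤ ℓ := by
    intro n hn hle
    calc tau n = tau n ^ 1 := (pow_one _).symm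
      _ ≤ tau n ^ 3 := pow_le_pow_right₀ (tau_ge_one hn.ne') (by norm_num)
      _ ≤ ℓ := hE.ht n hn.ne' hle
  have b1 : ∀ m : ℕ, 0 < m → (m : ℝ) ≤ (x : ℝ) ^ 10 → |betaV U m| ≤ ℓ := by
    intro m hm hle
    refine le_trans ?_ (htau m hm hle)
    exact Pool.Agent.Helper112.TII.betaV_abs U m
  have b2 : ∀ m : ℕ, 0 < m → (m : ℝ) ≤ (x : ℝ) ^ 10 → |ArithmeticFunction.vonMangoldt m| ≤ ℓ := by
    intro m hm hle
    rw [abs_of_nonneg ArithmeticFunction.vonMangoldt_nonneg]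
    exact ArithmeticFunction.vonMangoldt_le_log.trans (hlog m hm hle)
  have b3 : ∀ m : ℕ, 0 < m → (m : ℝ) ≤ (x : ℝ) ^ 10 → |nuL U m| ≤ ℓ := fun m hm hle =>
    (nuL_abs U m).trans (hlog m hm hle)
  have b4 : ∀ m : ℕ, 0 < m → (m : ℝ) ≤ (x : ℝ) ^ 10 → |(fun _ : ℕ => (1 : ℝ)) m| ≤ ℓ := by
    intro m _ _
    simpa using hℓ1
  -- the four parts
  have key : ∀ t ∈ T, |∑ n ∈ Icc 1 x, ArithmeticFunction.vonMangoldt n * ww q0 c t n| ≤
      (|∑ m ∈ Ioc U x, ∑ n ∈ Ioc U x, ind (m * n ≤ x) * (betaV U m * ArithmeticFunction.vonMangoldt n * ww q0 c t (m * n))| +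
       |∑ m ∈ Ioc U x, ∑ n ∈ Ioc U x, ind (m * n ≤ U * U * U) *
        (betaV U m * ArithmeticFunction.vonMangoldt n * ww q0 c t (m * n))|) +
      (|∑ m ∈ Ioc U x, ∑ n ∈ Ioc U x, ind (m * n ≤ x) * (nuL U m * (fun _ : ℕ => (1 : ℝ)) n * ww q0 c t (m * n))| +
       |∑ m ∈ Ioc U x, ∑ n ∈ Ioc U x, ind (m * n ≤ U * U * U) *
        (nuL U m * (fun _ : ℕ => (1 : ℝ)) n * ww q0 c t (m * n))|) +
      16 * ℓ ^ 2 * U + ℓ * ∑ n ∈ Ioc 0 (U * U * U), |ww q0 c t n| := by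
    intro t ht
    have hD := hT t ht
    have hsf := hD.1
    have hct := hD.2.1
    have e0 : ∑ n ∈ Icc 1 x, ArithmeticFunction.vonMangoldt n * ww q0 c t n =
        ∑ n ∈ Icc 1 x, ArithmeticFunction.vonMangoldt n * wc x U q0 c t n +
        ∑ n ∈ Ioc 0 (U * U * U), ArithmeticFunction.vonMangoldt n * ww q0 c t n := by
      have e1 : ∑ n ∈ Ioc 0 (U * U * U), ArithmeticFunction.vonMangoldt n * ww q0 c t n =
          ∑ n ∈ Icc 1 x, ind (n ≤ U * U * U) * (ArithmeticFunction.vonMangoldt n * ww q0 c t n) := by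
        have hsub : Ioc 0 (U * U * U) ⊆ Icc 1 x := by
          intro n hn
          rw [mem_Ioc] at hn
          rw [mem_Icc]
          omega
        rw [← sum_subset hsub]
        · refine sum_congr rfl fun n hn => ?_
          rw [mem_Ioc] at hn
          rw [ind_true hn.2, one_mul]
        · intro n hn hn'
          rw [mem_Icc] at hn
          rw [mem_Ioc] at hn'
          rw [ind_false (by omega), zero_mul]
      rw [e1, ← sum_add_distrib]
      refine sum_congr rfl fun n hn => ?_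
      rw [mem_Icc] at hn
      unfold wc
      by_cases h2 : n ≤ U * U * U
      · rw [ind_true h2, ind_false (by omega)]; ring
      · rw [ind_false h2, ind_true (⟨by omega, hn.2⟩ : U * U * U < n ∧ n ≤ x)]; ring
    have hv := vau_id (wc x U q0 c t) x U hUx (fun n hn => by
        unfold wc; rw [ind_false (by omega), zero_mul]) (fun n hn => by
        unfold wc; rw [ind_false (by omega), zero_mul])
    rw [e0, hv]
    rw [bil_cut x U hU3 q0 c t (betaV U) ArithmeticFunction.vonMangoldt]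
    have e5 : ∑ m ∈ Ioc U x, ∑ n ∈ Ioc U x, nuL U m * wc x U q0 c t (m * n) =
        ∑ m ∈ Ioc U x, ∑ n ∈ Ioc U x, nuL U m * (fun _ : ℕ => (1 : ℝ)) n * wc x U q0 c t (m * n) := by
      refine sum_congr rfl fun m _ => sum_congr rfl fun n _ => ?_
      rw [mul_one]
    rw [e5, bil_cut x U hU3 q0 c t (nuL U) (fun _ => 1)]
    -- type I
    have t1 : |∑ d ∈ Icc 1 U, mu1 U d * ∑ l ∈ Icc 1 x, Real.log l * wc x U q0 c t (d * l)| ≤ 8 * ℓ ^ 2 * U := by
      refine (abs_sum_le_sum_abs _ _).trans ?_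
      have : ∀ d ∈ Icc 1 U, |mu1 U d * ∑ l ∈ Icc 1 x, Real.log l * wc x U q0 c t (d * l)| ≤ 8 * ℓ ^ 2 := by
        intro d hd
        rw [mem_Icc] at hd
        rw [abs_mul]
        have h1 := ti3 x U hU3 q0 t c hsf hc hct d (by omega) (fun l => Real.log l)
          (fun l => Real.log_natCast_nonneg l) (fun l hl => Real.log_le_log (by exact_mod_cast hl) (by
            exact_mod_cast Nat.le_succ l)) ℓ (by linarith) (fun l hl => by
            rcases Nat.eq_zero_or_pos l with h0 | h0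
            · rw [h0]; simp; linarith
            · exact hlog l h0 ((by exact_mod_cast hl : (l : ℝ) ≤ x).trans hx10))
        calc |mu1 U d| * |∑ l ∈ Icc 1 x, Real.log l * wc x U q0 c t (d * l)| ≤ 1 * (8 * ℓ) :=
              mul_le_mul (mu1_le U d) h1 (abs_nonneg _) zero_le_one
          _ ≤ 8 * ℓ ^ 2 := by nlinarith
      refine (sum_le_sum this).trans (le_of_eq ?_)
      rw [sum_const, Nat.card_Icc, Nat.add_sub_cancel, nsmul_eq_mul]
      ring
    have t2 : |∑ d ∈ Icc 1 U, nuL U d * ∑ l ∈ Icc 1 x, wc x U q0 c t (d * l)| ≤ 8 * ℓ ^ 2 * U := by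
      refine (abs_sum_le_sum_abs _ _).trans ?_
      have : ∀ d ∈ Icc 1 U, |nuL U d * ∑ l ∈ Icc 1 x, wc x U q0 c t (d * l)| ≤ 8 * ℓ ^ 2 := by
        intro d hd
        rw [mem_Icc] at hd
        rw [abs_mul]
        have h1 := ti3 x U hU3 q0 t c hsf hc hct d (by omega) (fun _ => 1)
          (fun l => zero_le_one) (fun l hl => le_rfl) 1 zero_le_one (fun l hl => le_rfl)
        simp only [one_mul] at h1
        have h2 : |nuL U d| ≤ ℓ := b3 d (by omega) (by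
          have : (d : ℝ) ≤ x := by exact_mod_cast hd.2.trans hUx
          linarith)
        calc |nuL U d| * |∑ l ∈ Icc 1 x, wc x U q0 c t (d * l)| ≤ ℓ * (8 * 1) :=
              mul_le_mul h2 h1 (abs_nonneg _) (by linarith)
          _ ≤ 8 * ℓ ^ 2 := by nlinarith
      refine (sum_le_sum this).trans (le_of_eq ?_)
      rw [sum_const, Nat.card_Icc, Nat.add_sub_cancel, nsmul_eq_mul]
      ring
    have t3 : |∑ n ∈ Ioc 0 (U * U * U), ArithmeticFunction.vonMangoldt n * ww q0 c t n| ≤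
        ℓ * ∑ n ∈ Ioc 0 (U * U * U), |ww q0 c t n| := by
      refine (abs_sum_le_sum_abs _ _).trans ?_
      rw [mul_sum]
      refine sum_le_sum fun n hn => ?_
      rw [mem_Ioc] at hn
      rw [abs_mul]
      apply mul_le_mul_of_nonneg_right _ (abs_nonneg _)
      apply b2 n hn.1
      have : (n : ℝ) ≤ x := by exact_mod_cast hn.2.trans hU3
      linarith
    set S1 := ∑ m ∈ Ioc U x, ∑ n ∈ Ioc U x, ind (m * n ≤ x) * (betaV U m * ArithmeticFunction.vonMangoldt n * ww q0 c t (m * n))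
    set S2 := ∑ m ∈ Ioc U x, ∑ n ∈ Ioc U x, ind (m * n ≤ U * U * U) *
        (betaV U m * ArithmeticFunction.vonMangoldt n * ww q0 c t (m * n))
    set S3 := ∑ m ∈ Ioc U x, ∑ n ∈ Ioc U x, ind (m * n ≤ x) * (nuL U m * (fun _ : ℕ => (1 : ℝ)) n * ww q0 c t (m * n))
    set S4 := ∑ m ∈ Ioc U x, ∑ n ∈ Ioc U x, ind (m * n ≤ U * U * U) *
        (nuL U m * (fun _ : ℕ => (1 : ℝ)) n * ww q0 c t (m * n))
    have a1 := abs_le.1 t1
    have a2 := abs_le.1 t2
    have a3 := abs_le.1 t3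
    have c1 := abs_le.1 (le_refl |S1|)
    have c2 := abs_le.1 (le_refl |S2|)
    have c3 := abs_le.1 (le_refl |S3|)
    have c4 := abs_le.1 (le_refl |S4|)
    refine abs_le.2 ⟨?_, ?_⟩
    · linarith [a1.1, a2.2, a3.1, c1.1, c2.2, c3.2, c4.1]
    · linarith [a1.2, a2.1, a3.2, c1.2, c2.1, c3.1, c4.2]
  refine (sum_le_sum key).trans ?_
  rw [sum_add_distrib, sum_add_distrib, sum_add_distrib, sum_add_distrib, sum_add_distrib, sum_const,
    nsmul_eq_mul, ← mul_sum]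
  have k1 := blks h hq hqQ hc T hT x (Or.inl rfl) _ _ b1 b2
  have k2 := blks h hq hqQ hc T hT (U * U * U) (Or.inr rfl) _ _ b1 b2
  have k3 := blks h hq hqQ hc T hT x (Or.inl rfl) _ _ b3 b4
  have k4 := blks h hq hqQ hc T hT (U * U * U) (Or.inr rfl) _ _ b3 b4
  have k5 := card_T hq h.hP0 T hT
  have k6 := tb2 h hq T hT 0 (U * U * U) (by rw [Nat.sub_zero]; exact h.hW3)
  have k7 : (T.card : ℝ) * (16 * ℓ ^ 2 * U) ≤ 16 * ℓ ^ 2 * U * (P / q0) := by
    rw [mul_comm]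
    exact mul_le_mul_of_nonneg_left k5 (by positivity)
  have k8 := mul_le_mul_of_nonneg_left k6 (by linarith : (0 : ℝ) ≤ ℓ)
  beta_reduce
  linarith

end

end Pool.Agent.R503.N
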