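import Mathlib
import Pool.Agent.R503.N.Vau

/-! Choice of the parameters, part A (helper503). -/

open Finset Filter

namespace Pool.Agent.R503.N

open Pool.Agent.Y826.Z Pool.Agent.Y826.Z.OB

lemma ev_c (c : ℝ) {a b : ℝ} (h : a < b) : ∀ᶠ X : ℝ in atTop, c * X ^ a ≤ X ^ b := by
  filter_upwards [Pool.Agent.Y61.Z.ev_rpow c (sub_pos.2 h), eventually_gt_atTop 0] with X h1 h2
  calc c * X ^ a ≤ X ^ (b - a) * X ^ a := mul_le_mul_of_nonneg_right h1 (Real.rpow_nonneg h2.le _)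
    _ = X ^ b := by rw [← Real.rpow_add h2]; congr 1; ring

theorem env1 (lam l' : ℝ) (h0 : 0 < lam) (h1 : lam ≤ 1 / 2) (h2 : 0 < l') (h3 : l' ≤ lam) :
    ∃ C : ℝ, ∀ᶠ X : ℝ in atTop, EnvX X (X ^ lam) (X ^ l') C := by
  obtain ⟨C, hC, hoa⟩ := oa (lam / 3) (by positivity)
  refine ⟨C, ?_⟩
  have htau : ∀ᶠ X : ℝ in atTop, ∀ n : ℕ, 1 ≤ n → (n : ℝ) ≤ X ^ 10 →
      tau n * Real.log (X ^ 10) ≤ (X ^ 10) ^ (l' / 30) := by
    have ht : Tendsto (fun X : ℝ => X ^ 10) atTop atTop := tendsto_pow_atTop (by norm_num)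
    exact ht.eventually (Pool.Agent.Y61.Z.ev_tau (by positivity : 0 < l' / 30))
  filter_upwards [eventually_ge_atTop 256, Pool.Agent.Y61.Z.ev_rpow 4 h0, Pool.Agent.Y61.Z.ev_rpow C h0,
    Pool.Agent.Y814.Z.ev_log lam h0, htau, Pool.Agent.Y61.Z.ev_log_rpow 11 1 h2,
    Pool.Agent.Y61.Z.ev_log 1] with X hX hΛ hCΛ hI ht hlog hl1
  have hX0 : 0 < X := by linarith
  have hX1 : 1 ≤ X := by linarith
  refine ⟨hX, hΛ, ?_, hC, hCΛ, hI, ?_, ?_, ?_, ?_, ?_⟩
  · rw [← Real.rpow_natCast, ← Real.rpow_mul hX0.le]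
    calc X ^ (lam * ((2 : ℕ) : ℝ)) ≤ X ^ (1 : ℝ) := by
          apply Real.rpow_le_rpow_of_exponent_le hX1
          push_cast
          linarith
      _ = X := Real.rpow_one X
  · exact Real.one_le_rpow hX1 h2.le
  · exact Real.rpow_le_rpow_of_exponent_le hX1 h3
  · intro n hn hle
    have h4 := ht n (by omega) hle
    have h5 : 1 ≤ Real.log (X ^ 10) := by
      rw [Real.log_pow]
      push_cast
      linarith
    have h6 : tau n ≤ (X ^ 10) ^ (l' / 30) := by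
      refine le_trans ?_ h4
      exact le_mul_of_one_le_right (OB.tau_nonneg n) h5
    calc tau n ^ 3 ≤ ((X ^ 10) ^ (l' / 30)) ^ 3 := pow_le_pow_left₀ (OB.tau_nonneg n) h6 3
      _ = X ^ l' := by
          rw [← Real.rpow_natCast X 10, ← Real.rpow_mul hX0.le, ← Real.rpow_natCast, ← Real.rpow_mul hX0.le]
          congr 1
          push_cast
          ring
  · rw [Real.log_pow]
    push_cast
    rw [pow_one] at hlog
    linarith
  · intro r M N h SV β hN hNX hMX hhr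
    intro u1 u2 e1 e2 c1 c2 l d1 d2 κ V1 q0 b0 hsf hc1 hc2 hSV hW hq0 hκ hκ2 hβ
    have h7 := hoa (X ^ 3) M N 1 r u1 u2 e1 e2 h c1 c2 l SV d1 d2 κ V1 q0 b0 β (one_le_pow₀ hX1) hN hNX hMX hsf
      (by simp [isCoprime_one_right]) hhr hc1 hc2 hSV hW hq0 hκ hκ2 hβ
    have e : (X ^ 3) ^ (lam / 3) = X ^ lam := by
      rw [← Real.rpow_natCast X 3, ← Real.rpow_mul hX0.le]
      congr 1
      push_cast
      ring
    rw [e] at h7
    exact h7

/-- powers of powers -/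
lemma pw {X : ℝ} (hX : 0 < X) (a : ℝ) (n : ℕ) : (X ^ a) ^ n = X ^ (a * n) := by
  rw [← Real.rpow_natCast, ← Real.rpow_mul hX.le]

end Pool.Agent.R503.N
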