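import Mathlib
import Pool.Agent.R503.N.ParA

/-! Choice of the parameters, part B (helper503). -/

open Finset Filter

namespace Pool.Agent.R503.N

open Pool.Agent.Y826.Z Pool.Agent.Y826.Z.OB

lemma ev_fl (c : ℝ) (hc : 0 ≤ c) {a b : ℝ} (ha : 0 ≤ a) (h : a < b) :
    ∀ᶠ X : ℝ in atTop, c * X ^ a ≤ (⌊X ^ b⌋₊ : ℝ) := by
  filter_upwards [ev_c (c + 1) h, eventually_ge_atTop 1] with X h1 h2
  have h3 : 1 ≤ X ^ a := Real.one_le_rpow h2 ha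
  have h4 := (Nat.lt_floor_add_one (X ^ b)).le
  nlinarith

theorem env2 (θ κ e δ lam l' : ℝ) (hθ1 : 1 / 2 ≤ θ) (hδ : 0 < δ) (hδ1 : δ ≤ 1 / 1000)
    (hδθ : 28 * (θ - 1 / 2) + 150 * δ ≤ 1 / 3) (hκ0 : 0 ≤ κ) (hκ : κ + 6 * δ ≤ 1 / 3) (he : 0 < e) (heδ : e ≤ δ)
    (hlam : lam = e / 2000) (hl0 : 0 < l') (hl : l' ≤ lam) :
    ∃ (C : ℝ) (R k : ℕ), (R : ℝ) ≤ 2 / lam + 1 ∧ (k : ℝ) ≤ 2 / e + 1 ∧ ∀ᶠ x : ℕ in atTop,
      Env2 x ((x : ℝ) ^ lam) ((x : ℝ) ^ l') C ((x : ℝ) ^ κ) ((x : ℝ) ^ δ) ((x : ℝ) ^ θ) ((x : ℝ) ^ (4 * δ))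
        ((x : ℝ) ^ (θ - 1 / 2 + 5 * δ)) (2 * (x : ℝ) ^ (1 - lam / 4)) ⌊(x : ℝ) ^ e⌋₊ R ⌈(x : ℝ) ^ (lam / 4)⌉₊
        ⌊(x : ℝ) ^ (1 / 3 - δ)⌋₊ k (Nat.log 2 x + 1) ⌊(x : ℝ) ^ (1 - δ)⌋₊ := by
  have hlam0 : 0 < lam := by rw [hlam]; positivity
  have hlam1 : lam ≤ 1 / 2 := by rw [hlam]; linarith
  obtain ⟨C, hC⟩ := env1 lam l' hlam0 hlam1 hl0 hl
  refine ⟨C, ⌈2 / lam⌉₊, ⌈2 / e⌉₊, (Nat.ceil_lt_add_one (by positivity)).le, (Nat.ceil_lt_add_one (by positivity)).le, ?_⟩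
  have hev : ∀ᶠ X : ℝ in atTop, EnvX X (X ^ lam) (X ^ l') C ∧
      1 * X ^ (1 / 3 - 3 / 2 * δ) ≤ (⌊X ^ (1 / 3 - δ)⌋₊ : ℝ) ∧
      4 * X ^ (1 - 3 / 2 * δ) ≤ (⌊X ^ (1 - δ)⌋₊ : ℝ) ∧
      2 * X ^ (3 / 5 * e) ≤ (⌊X ^ e⌋₊ : ℝ) ∧ 256 ≤ X := by
    filter_upwards [hC, ev_fl 1 zero_le_one (by linarith : 0 ≤ 1 / 3 - 3 / 2 * δ) (by linarith : 1 / 3 - 3 / 2 * δ < 1 / 3 - δ),
      ev_fl 4 (by norm_num) (by linarith : 0 ≤ 1 - 3 / 2 * δ) (by linarith : 1 - 3 / 2 * δ < 1 - δ),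
      ev_fl 2 (by norm_num) (by positivity : 0 ≤ 3 / 5 * e) (by linarith : 3 / 5 * e < e), eventually_ge_atTop 256]
      with X h1 h2 h3 h4 h5
    exact ⟨h1, h2, h3, h4, h5⟩
  have hev2 : ∀ᶠ x : ℕ in atTop, EnvX (x : ℝ) ((x : ℝ) ^ lam) ((x : ℝ) ^ l') C ∧
      1 * (x : ℝ) ^ (1 / 3 - 3 / 2 * δ) ≤ (⌊(x : ℝ) ^ (1 / 3 - δ)⌋₊ : ℝ) ∧
      4 * (x : ℝ) ^ (1 - 3 / 2 * δ) ≤ (⌊(x : ℝ) ^ (1 - δ)⌋₊ : ℝ) ∧
      2 * (x : ℝ) ^ (3 / 5 * e) ≤ (⌊(x : ℝ) ^ e⌋₊ : ℝ) ∧ (256 : ℝ) ≤ x := tendsto_natCast_atTop_atTop.eventually hev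
  filter_upwards [hev2] with x hx
  obtain ⟨hE, hU, hB, hG, hX⟩ := hx
  set X : ℝ := (x : ℝ) with hXdef
  have hX0 : 0 < X := by linarith
  have hX1 : 1 ≤ X := by linarith
  have hX1' : 1 < X := by linarith
  have rle : ∀ {a b : ℝ}, a ≤ b → X ^ a ≤ X ^ b := fun h => Real.rpow_le_rpow_of_exponent_le hX1 h
  have radd : ∀ a b : ℝ, X ^ a * X ^ b = X ^ (a + b) := fun a b => (Real.rpow_add hX0 a b).symm
  have rpos : ∀ a : ℝ, 0 < X ^ a := fun a => Real.rpow_pos_of_pos hX0 a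
  have r1 : ∀ {a : ℝ}, 0 ≤ a → 1 ≤ X ^ a := fun h => Real.one_le_rpow hX1 h
  have hUle : (⌊X ^ (1 / 3 - δ)⌋₊ : ℝ) ≤ X ^ (1 / 3 - δ) := Nat.floor_le (rpos _).le
  have hBle : (⌊X ^ (1 - δ)⌋₊ : ℝ) ≤ X ^ (1 - δ) := Nat.floor_le (rpos _).le
  have hGle : (⌊X ^ e⌋₊ : ℝ) ≤ X ^ e := Nat.floor_le (rpos _).le
  rw [one_mul] at hU
  have hU3r : ((⌊X ^ (1 / 3 - δ)⌋₊ * ⌊X ^ (1 / 3 - δ)⌋₊ * ⌊X ^ (1 / 3 - δ)⌋₊ : ℕ) : ℝ) ≤ X ^ (1 - 3 * δ) := by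
    push_cast
    calc (⌊X ^ (1 / 3 - δ)⌋₊ : ℝ) * ⌊X ^ (1 / 3 - δ)⌋₊ * ⌊X ^ (1 / 3 - δ)⌋₊
        ≤ X ^ (1 / 3 - δ) * X ^ (1 / 3 - δ) * X ^ (1 / 3 - δ) := by
          have := (rpos (1 / 3 - δ)).le
          gcongr
      _ = X ^ (1 - 3 * δ) := by rw [radd, radd]; congr 1; ring
  have hR0pos : 0 < ⌈X ^ (lam / 4)⌉₊ := Nat.ceil_pos.2 (rpos _)
  have hUpos : (0 : ℝ) < (⌊X ^ (1 / 3 - δ)⌋₊ : ℝ) := lt_of_lt_of_le (rpos _) hU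
  have hUposN : 0 < ⌊X ^ (1 / 3 - δ)⌋₊ := by exact_mod_cast hUpos
  have hle41 : X ^ (1 - δ) ≤ X ^ (1 - lam / 4) := rle (by rw [hlam]; linarith)
  have hle43 : X ^ (1 - 3 * δ) ≤ X ^ (1 - lam / 4) := rle (by rw [hlam]; linarith)
  have hlog : Real.log X ≤ X ^ l' := by
    have h1 := hE.hl
    rw [Real.log_pow] at h1
    push_cast at h1
    have h2 : 0 ≤ Real.log X := Real.log_nonneg hX1
    linarith
  refine
    { E := hE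
      hz := r1 hδ.le
      hG' := ?_
      hG := ?_
      hG2 := ?_
      hGG := ?_
      hU := hUposN
      hQU := ?_
      hV := r1 (by linarith)
      hPV := ?_
      hVN := ?_
      hVE := ?_
      hP0 := (rpos _).le
      hPX := ?_
      hR := ?_
      hR0 := hR0pos
      hk := ?_
      hW1 := ?_
      hW2 := ?_
      hW3 := ?_
      hU3 := ?_
      hL := ?_
      hL2 := ?_ }
  · rw [pw hX0, pw hX0, radd]
    apply rle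
    push_cast
    rw [hlam]; linarith
  · rw [pw hX0]
    calc X ^ (lam * ((1002 : ℕ) : ℝ)) ≤ X ^ (3 / 5 * e * ((2 : ℕ) : ℝ)) := by
          apply rle; push_cast; rw [hlam]; linarith
      _ = (X ^ (3 / 5 * e)) ^ 2 := (pw hX0 _ _).symm
      _ ≤ (⌊X ^ e⌋₊ : ℝ) ^ 2 := by
          apply pow_le_pow_left₀ (rpos _).le
          linarith [rpos (3 / 5 * e)]
  · have h1 : (2 : ℝ) ≤ (⌊X ^ e⌋₊ : ℝ) := by
      have := r1 (by positivity : 0 ≤ 3 / 5 * e)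
      linarith
    exact_mod_cast h1
  · exact hGle.trans (rle (by linarith))
  · rw [radd]
    exact (rle (by linarith)).trans hU
  · have h1 : X ^ (1 - 3 / 2 * δ) ≤ (⌊X ^ (1 - δ)⌋₊ : ℝ) / 4 := by linarith
    rw [pw hX0, pw hX0, pw hX0, radd, radd, radd, pw hX0]
    calc X ^ (θ * ((2 : ℕ) : ℝ) + δ * ((3 : ℕ) : ℝ) + 4 * δ + lam * ((1000 : ℕ) : ℝ))
        ≤ X ^ ((θ - 1 / 2 + 5 * δ) * ((2 : ℕ) : ℝ) + (1 - 3 / 2 * δ)) := by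
          apply rle; push_cast; rw [hlam]; linarith
      _ = X ^ ((θ - 1 / 2 + 5 * δ) * ((2 : ℕ) : ℝ)) * X ^ (1 - 3 / 2 * δ) := (radd _ _).symm
      _ ≤ _ := mul_le_mul_of_nonneg_left h1 (rpos _).le
  · rw [pw hX0, pw hX0, radd, radd, radd]
    refine le_trans (rle ?_) hU
    push_cast; rw [hlam]; linarith
  · rw [pw hX0, pw hX0, pw hX0]
    have e1 : X * X ^ (δ * ((2 : ℕ) : ℝ)) * X ^ ((θ - 1 / 2 + 5 * δ) * ((28 : ℕ) : ℝ)) * X ^ (lam * ((1000 : ℕ) : ℝ)) =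
        X ^ (1 + δ * ((2 : ℕ) : ℝ) + (θ - 1 / 2 + 5 * δ) * ((28 : ℕ) : ℝ) + lam * ((1000 : ℕ) : ℝ)) := by
      rw [← radd, ← radd, ← radd, Real.rpow_one]
    rw [e1]
    calc X ^ (1 + δ * ((2 : ℕ) : ℝ) + (θ - 1 / 2 + 5 * δ) * ((28 : ℕ) : ℝ) + lam * ((1000 : ℕ) : ℝ))
        ≤ X ^ ((1 / 3 - 3 / 2 * δ) * ((4 : ℕ) : ℝ)) := by
          apply rle; push_cast; rw [hlam]; linarith
      _ = (X ^ (1 / 3 - 3 / 2 * δ)) ^ 4 := (pw hX0 _ _).symm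
      _ ≤ _ := pow_le_pow_left₀ (rpos _).le hU 4
  · rw [← Real.rpow_natCast X 10]
    apply rle
    push_cast
    linarith
  · rw [pw hX0]
    have h1 : 2 ≤ lam * (⌈2 / lam⌉₊ : ℝ) := by
      have := Nat.le_ceil (2 / lam)
      calc (2 : ℝ) = lam * (2 / lam) := by field_simp
        _ ≤ _ := mul_le_mul_of_nonneg_left this hlam0.le
    calc 16 * X < X * X := by nlinarith
      _ = X ^ (2 : ℝ) := by rw [Real.rpow_two]; ring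
      _ ≤ _ := rle h1
  · have h2 : 2 / e ≤ (⌈2 / e⌉₊ : ℝ) := Nat.le_ceil (2 / e)
    have h3 : 1 < 3 / 5 * e * ((⌈2 / e⌉₊ + 1 : ℕ) : ℝ) := by
      push_cast
      have h4 : 3 / 5 * e * (2 / e) = 6 / 5 := by field_simp; norm_num
      have h5 : 3 / 5 * e * (2 / e) ≤ 3 / 5 * e * (⌈2 / e⌉₊ : ℝ) := mul_le_mul_of_nonneg_left h2 (by positivity)
      nlinarith
    calc X ^ θ ≤ X ^ (1 : ℝ) := rle (by linarith)
      _ < X ^ (3 / 5 * e * ((⌈2 / e⌉₊ + 1 : ℕ) : ℝ)) := Real.rpow_lt_rpow_of_exponent_lt hX1' h3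
      _ = (X ^ (3 / 5 * e)) ^ (⌈2 / e⌉₊ + 1) := (pw hX0 _ _).symm
      _ ≤ _ := by
          apply pow_le_pow_left₀ (rpos _).le
          linarith [rpos (3 / 5 * e)]
  · -- hW1
    set r0 := ⌈X ^ (lam / 4)⌉₊ with hr0
    have h1 : X ^ (lam / 4) ≤ r0 := Nat.le_ceil _
    have h2 : x * r0 / (r0 + 1) ≤ x := by
      apply Nat.div_le_of_le_mul
      calc x * r0 ≤ x * (r0 + 1) := Nat.mul_le_mul_left x (Nat.le_succ _)
        _ = (r0 + 1) * x := mul_comm _ _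
    rw [Nat.cast_sub h2]
    have h3 : (X * r0) / (r0 + 1) - 1 ≤ ((x * r0 / (r0 + 1) : ℕ) : ℝ) := by
      have h4 := Nat.lt_div_mul_add (a := x * r0) (b := r0 + 1) (Nat.succ_pos _)
      have h5 : (X * r0) < ((x * r0 / (r0 + 1) : ℕ) : ℝ) * (r0 + 1) + (r0 + 1) := by
        have : ((x * r0 : ℕ) : ℝ) < ((x * r0 / (r0 + 1) * (r0 + 1) + (r0 + 1) : ℕ) : ℝ) := by exact_mod_cast h4
        push_cast at this
        linarith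
      have h6 : (0 : ℝ) < (r0 : ℝ) + 1 := by positivity
      rw [sub_le_iff_le_add, div_le_iff₀ h6]
      nlinarith
    have h7 : X - (X * r0) / (r0 + 1) ≤ X ^ (1 - lam / 4) := by
      have h6 : (0 : ℝ) < (r0 : ℝ) + 1 := by positivity
      have e1 : X - (X * r0) / (r0 + 1) = X / (r0 + 1) := by field_simp; ring
      rw [e1, div_le_iff₀ h6]
      calc X = X ^ (1 - lam / 4) * X ^ (lam / 4) := by rw [radd]; simp
        _ ≤ X ^ (1 - lam / 4) * (r0 + 1) := by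
            apply mul_le_mul_of_nonneg_left _ (rpos _).le
            linarith
    have h8 : 1 ≤ X ^ (1 - lam / 4) := r1 (by linarith)
    linarith
  · have := (rpos (1 - lam / 4)).le
    linarith
  · have := (rpos (1 - lam / 4)).le
    linarith
  · have h1 : X ^ (1 - 3 * δ) ≤ X := by
      calc X ^ (1 - 3 * δ) ≤ X ^ (1 : ℝ) := rle (by linarith)
        _ = X := Real.rpow_one X
    exact (Nat.cast_le (α := ℝ)).1 (hU3r.trans h1)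
  · have h1 : x < 2 ^ (Nat.log 2 x + 1) := Nat.lt_pow_succ_log_self (by norm_num) x
    calc x ≤ 2 ^ (Nat.log 2 x + 1) := h1.le
      _ ≤ _ := Nat.le_mul_of_pos_left _ hUposN
  · have h1 : ((Nat.log 2 x : ℕ) : ℝ) ≤ Real.logb 2 X := Real.natLog_le_logb x 2
    have h2 : Real.logb 2 X ≤ 2 * Real.log X := by
      unfold Real.logb
      rw [div_le_iff₀ (Real.log_pos (by norm_num))]
      have h3 := Real.log_two_gt_d9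
      have h4 : 0 ≤ Real.log X := Real.log_nonneg hX1
      nlinarith
    have h5 := hE.hl
    rw [Real.log_pow] at h5
    push_cast at h5 ⊢
    have h4 : 0 ≤ Real.log X := Real.log_nonneg hX1
    linarith

end Pool.Agent.R503.N
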