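import Mathlib
import Pool.Agent.R503.N.ParC

/-! All heights (helper503). -/

open Finset Filter

namespace Pool.Agent.R503.N

open Pool.Agent.Y826.Z Pool.Agent.Y826.Z.OB

/-- admissible moduli `t` -/
def Mo (x q0 : ℕ) (c : ℤ) (θ ε1 η : ℝ) (t : ℕ) : Prop :=
  Squarefree (q0 * t) ∧ IsCoprime c (t : ℤ) ∧
    (∀ p : ℕ, p.Prime → p ∣ t → (x : ℝ) ^ ε1 < p ∧ (p : ℝ) ≤ (x : ℝ) ^ η) ∧ (q0 : ℝ) * t ≤ (x : ℝ) ^ θ

lemma Mo.pos {x q0 : ℕ} {c : ℤ} {θ ε1 η : ℝ} {t : ℕ} (h : Mo x q0 c θ ε1 η t) : 0 < t := by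
  refine Nat.pos_of_ne_zero fun h0 => ?_
  have := h.1.ne_zero
  rw [h0, mul_zero] at this
  exact this rfl

lemma card_Mo {x q0 : ℕ} {c : ℤ} {θ ε1 η : ℝ} (hx : 0 < x) (hq : 0 < q0) (T : Finset ℕ)
    (hT : ∀ t ∈ T, Mo x q0 c θ ε1 η t) : (T.card : ℝ) ≤ (x : ℝ) ^ θ / q0 := by
  have hqr : (0 : ℝ) < q0 := by exact_mod_cast hq
  have hxr : (0 : ℝ) < x := by exact_mod_cast hx
  have h1 : T ⊆ Icc 1 ⌊(x : ℝ) ^ θ / q0⌋₊ := by
    intro t ht
    rw [mem_Icc]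
    refine ⟨(hT t ht).pos, Nat.le_floor ?_⟩
    rw [le_div_iff₀ hqr, mul_comm]
    exact (hT t ht).2.2.2
  have h2 := card_le_card h1
  rw [Nat.card_Icc, Nat.add_sub_cancel] at h2
  calc (T.card : ℝ) ≤ (⌊(x : ℝ) ^ θ / q0⌋₊ : ℝ) := by exact_mod_cast h2
    _ ≤ _ := Nat.floor_le (by have := Real.rpow_nonneg hxr.le θ; positivity)

/-- basic facts for large `x` -/
lemma ev_basic (r : ℝ) (hr : 0 < r) : ∀ᶠ x : ℕ in atTop, (∀ n : ℕ, n ≠ 0 → n ≤ x → tau n ≤ (x : ℝ) ^ r) ∧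
    1 + Real.log (x : ℝ) ≤ (x : ℝ) ^ r ∧ 1 ≤ Real.log (x : ℝ) ∧ 256 ≤ x := by
  have h1 : ∀ᶠ X : ℝ in atTop, (∀ n : ℕ, 1 ≤ n → (n : ℝ) ≤ X → tau n * Real.log X ≤ X ^ r) ∧
      2 * Real.log X ^ 1 ≤ X ^ r ∧ 1 ≤ Real.log X ∧ 256 ≤ X := by
    filter_upwards [Pool.Agent.Y61.Z.ev_tau hr, Pool.Agent.Y61.Z.ev_log_rpow 2 1 hr, Pool.Agent.Y61.Z.ev_log 1,
      eventually_ge_atTop 256] with X h1 h2 h3 h4
    exact ⟨h1, h2, h3, h4⟩
  filter_upwards [tendsto_natCast_atTop_atTop.eventually h1] with x hx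
  obtain ⟨h1, h2, h3, h4⟩ := hx
  refine ⟨fun n hn hle => ?_, ?_, h3, by exact_mod_cast h4⟩
  · refine le_trans ?_ (h1 n (by omega) (by exact_mod_cast hle))
    exact le_mul_of_one_le_right (OB.tau_nonneg n) h3
  · rw [pow_one] at h2
    linarith

/-- the main estimate at all heights -/
theorem psi_all (θ κ : ℝ) (hθ1 : 1 / 2 ≤ θ) (hθ : θ < 43 / 84) (hκ0 : 0 ≤ κ) (hκ : κ < 1 / 3) :
    ∃ η : ℝ, 0 < η ∧ ∀ ε1 : ℝ, 0 < ε1 → ∃ ε : ℝ, 0 < ε ∧ ∀ᶠ x : ℕ in atTop, ∀ q0 : ℕ, 0 < q0 →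
      (q0 : ℝ) ≤ (x : ℝ) ^ κ → ∀ c : ℤ, IsCoprime c (q0 : ℤ) → ∀ T : Finset ℕ,
      (∀ t ∈ T, Mo x q0 c θ ε1 η t) → ∀ y : ℕ, y ≤ x →
      ∑ t ∈ T, |∑ n ∈ Icc 1 y, ArithmeticFunction.vonMangoldt n * ww q0 c t n| ≤ (x : ℝ) ^ (1 - ε) / q0 := by
  set θ' : ℝ := (θ + 43 / 84) / 2 with hθ'
  set κ' : ℝ := (κ + 1 / 3) / 2 with hκ'
  obtain ⟨η', hη', hmain⟩ := main_psi θ' κ' (by linarith) (by linarith) (by linarith) (by linarith)
  refine ⟨η' / 2, by positivity, fun ε1 hε1 => ?_⟩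
  obtain ⟨ε', hε', hev⟩ := hmain ε1 hε1
  have hθ'0 : 0 < θ' := by linarith
  have hκ'0 : 0 < κ' := by linarith
  set τ : ℝ := min (1 / 2) (min (1 - θ / θ') (1 - κ / κ')) with hτ
  have hτ0 : 0 < τ := by
    rw [hτ]
    refine lt_min (by norm_num) (lt_min ?_ ?_)
    · rw [sub_pos, div_lt_one hθ'0]; linarith
    · rw [sub_pos, div_lt_one hκ'0]; linarith
  have hτ1 : τ ≤ 1 / 2 := min_le_left _ _
  have hτθ : θ ≤ (1 - τ) * θ' := by
    have h1 : τ ≤ 1 - θ / θ' := (min_le_right _ _).trans (min_le_left _ _)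
    have h2 : θ / θ' ≤ 1 - τ := by linarith
    rwa [div_le_iff₀ hθ'0] at h2
  have hτκ : κ ≤ (1 - τ) * κ' := by
    have h1 : τ ≤ 1 - κ / κ' := (min_le_right _ _).trans (min_le_right _ _)
    have h2 : κ / κ' ≤ 1 - τ := by linarith
    rwa [div_le_iff₀ hκ'0] at h2
  have hτη : η' / 2 ≤ (1 - τ) * η' := by nlinarith
  refine ⟨min ε' (τ / 4), lt_min hε' (by positivity), ?_⟩
  obtain ⟨x0, hx0⟩ := eventually_atTop.1 hev
  have hbig : ∀ᶠ x : ℕ in atTop, (x0 : ℝ) ≤ (x : ℝ) ^ (1 - τ) :=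
    tendsto_natCast_atTop_atTop.eventually (Pool.Agent.Y61.Z.ev_rpow _ (by linarith))
  have h5 : ∀ᶠ x : ℕ in atTop, (5 : ℝ) ≤ (x : ℝ) ^ (τ / 8) :=
    tendsto_natCast_atTop_atTop.eventually (Pool.Agent.Y61.Z.ev_rpow _ (by positivity))
  filter_upwards [hbig, ev_basic (τ / 16) (by positivity), h5] with x hx1 hx2 hx5 q0 hq hqκ c hc T hT y hy
  obtain ⟨htau, hlog, hlog1, hx256⟩ := hx2
  have hX : (256 : ℝ) ≤ x := by exact_mod_cast hx256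
  set X : ℝ := (x : ℝ) with hXdef
  have hX0 : 0 < X := by linarith
  have hX1 : 1 ≤ X := by linarith
  have rle : ∀ {a b : ℝ}, a ≤ b → X ^ a ≤ X ^ b := fun h => Real.rpow_le_rpow_of_exponent_le hX1 h
  have radd : ∀ a b : ℝ, X ^ a * X ^ b = X ^ (a + b) := fun a b => (Real.rpow_add hX0 a b).symm
  have rpos : ∀ a : ℝ, 0 < X ^ a := fun a => Real.rpow_pos_of_pos hX0 a
  have hqr : (0 : ℝ) < q0 := by exact_mod_cast hq
  by_cases hyb : X ^ (1 - τ) ≤ y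
  · -- large heights
    have hy0 : x0 ≤ y := by exact_mod_cast hx1.trans hyb
    have hyr : (1 : ℝ) ≤ y := (Real.one_le_rpow hX1 (by linarith)).trans hyb
    have hy0' : (0 : ℝ) < y := by linarith
    have hpow : ∀ {a b : ℝ}, 0 ≤ b → a ≤ (1 - τ) * b → X ^ a ≤ (y : ℝ) ^ b := by
      intro a b hb hab
      calc X ^ a ≤ X ^ ((1 - τ) * b) := rle hab
        _ = (X ^ (1 - τ)) ^ b := by rw [Real.rpow_mul hX0.le]
        _ ≤ (y : ℝ) ^ b := Real.rpow_le_rpow (rpos _).le hyb hb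
    have hyx : (y : ℝ) ≤ X := (Nat.cast_le (α := ℝ)).2 hy
    have h1 := hx0 y hy0 q0 hq (hqκ.trans (hpow hκ'0.le hτκ)) c hc T (by
      intro t ht
      obtain ⟨a1, a2, a3, a4⟩ := hT t ht
      refine ⟨a1, a2, fun p hp hd => ⟨?_, ?_⟩, a4.trans (hpow hθ'0.le hτθ)⟩
      · exact lt_of_le_of_lt (Real.rpow_le_rpow hy0'.le hyx hε1.le) (a3 p hp hd).1
      · exact (a3 p hp hd).2.trans (hpow hη'.le hτη))
    refine h1.trans ?_
    apply div_le_div_of_nonneg_right _ hqr.le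
    by_cases he : 0 ≤ 1 - ε'
    · calc (y : ℝ) ^ (1 - ε') ≤ X ^ (1 - ε') := Real.rpow_le_rpow hy0'.le hyx he
        _ ≤ X ^ (1 - min ε' (τ / 4)) := rle (by linarith [min_le_left ε' (τ / 4)])
    · calc (y : ℝ) ^ (1 - ε') ≤ 1 := Real.rpow_le_one_of_one_le_of_nonpos hyr (by linarith)
        _ ≤ X ^ (1 - min ε' (τ / 4)) := Real.one_le_rpow hX1 (by linarith [min_le_right ε' (τ / 4)])
  · -- small heights
    rw [not_le] at hyb
    set ℓ : ℝ := X ^ (τ / 16) with hℓ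
    have hℓ1 : 1 ≤ ℓ := Real.one_le_rpow hX1 (by positivity)
    have hθ2 : X ^ θ ≤ X := by
      calc X ^ θ ≤ X ^ (1 : ℝ) := rle (by linarith)
        _ = X := Real.rpow_one X
    have htb := tb q0 c ℓ x T 0 y hq hℓ1 (fun t ht => ⟨(hT t ht).pos, by
        have h1 := (hT t ht).2.2.2
        have h2 : (t : ℝ) ≤ X := by
          have h3 : (t : ℝ) ≤ q0 * t := le_mul_of_one_le_left (Nat.cast_nonneg t) (by exact_mod_cast hq)
          linarith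
        exact (Nat.cast_le (α := ℝ)).1 h2, (Nat.squarefree_mul_iff.1 (hT t ht).1).1⟩) htau hlog
    have hΛ : ∀ n ∈ Ioc 0 y, ArithmeticFunction.vonMangoldt n ≤ ℓ := by
      intro n hn
      rw [mem_Ioc] at hn
      have h1 : Real.log n ≤ Real.log X := Real.log_le_log (by exact_mod_cast hn.1)
        ((Nat.cast_le (α := ℝ)).2 (hn.2.trans hy))
      exact (ArithmeticFunction.vonMangoldt_le_log.trans h1).trans (by linarith)
    have e1 : Icc 1 y = Ioc 0 y := by ext n; simp only [mem_Icc, mem_Ioc]; omega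
    have h1 : ∑ t ∈ T, |∑ n ∈ Icc 1 y, ArithmeticFunction.vonMangoldt n * ww q0 c t n| ≤
        ℓ * ∑ t ∈ T, ∑ n ∈ Ioc 0 y, |ww q0 c t n| := by
      rw [mul_sum, e1]
      refine sum_le_sum fun t _ => ?_
      refine (abs_sum_le_sum_abs _ _).trans ?_
      rw [mul_sum]
      refine sum_le_sum fun n hn => ?_
      rw [abs_mul, abs_of_nonneg ArithmeticFunction.vonMangoldt_nonneg]
      exact mul_le_mul_of_nonneg_right (hΛ n hn) (abs_nonneg _)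
    refine h1.trans ?_
    have hcard := card_Mo (by omega : 0 < x) hq T hT
    rw [Nat.sub_zero] at htb
    have hq1 : 1 ≤ X ^ (1 - τ) / q0 := by
      rw [one_le_div hqr]
      exact hqκ.trans (rle (by linarith))
    have hθ3 : X ^ θ / q0 ≤ X ^ (1 - τ / 4 * 3) / q0 := by
      apply div_le_div_of_nonneg_right _ hqr.le
      apply rle
      linarith
    have hτ3 : X ^ (1 - τ) / q0 ≤ X ^ (1 - τ / 4 * 3) / q0 := by
      apply div_le_div_of_nonneg_right _ hqr.le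
      apply rle
      linarith
    have hyq : (y : ℝ) / q0 ≤ X ^ (1 - τ) / q0 := div_le_div_of_nonneg_right hyb.le hqr.le
    set Z : ℝ := X ^ (1 - τ / 4 * 3) / q0 with hZ
    have hZ0 : 0 ≤ Z := by have := (rpos (1 - τ / 4 * 3)).le; positivity
    calc ℓ * ∑ t ∈ T, ∑ n ∈ Ioc 0 y, |ww q0 c t n| ≤ ℓ * (2 * ℓ ^ 2 * ((y : ℝ) / q0 + 1) + T.card) :=
          mul_le_mul_of_nonneg_left htb (by linarith)
      _ ≤ ℓ * (2 * ℓ ^ 2 * (Z + Z) + Z) := by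
          have hc2 : (T.card : ℝ) ≤ Z := hcard.trans hθ3
          have hy2 : (y : ℝ) / q0 ≤ Z := hyq.trans hτ3
          have h12 : 1 ≤ Z := hq1.trans hτ3
          gcongr
      _ ≤ ℓ * (2 * ℓ ^ 2 * (Z + Z) + ℓ ^ 2 * Z) := by
          have : 1 ≤ ℓ ^ 2 := one_le_pow₀ hℓ1
          have h6 : Z ≤ ℓ ^ 2 * Z := le_mul_of_one_le_left hZ0 this
          gcongr
      _ = 5 * (ℓ ^ 3 * Z) := by ring
      _ ≤ X ^ (τ / 8) * (ℓ ^ 3 * Z) := mul_le_mul_of_nonneg_right hx5 (by positivity)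
      _ = X ^ (1 - τ / 16 * 7) / q0 := by
          rw [hℓ, hZ, pw hX0, mul_div_assoc', mul_div_assoc', radd, radd]
          congr 2
          push_cast
          ring
      _ ≤ X ^ (1 - min ε' (τ / 4)) / q0 := by
          apply div_le_div_of_nonneg_right _ hqr.le
          apply rle
          linarith [min_le_right ε' (τ / 4)]

end Pool.Agent.R503.N
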