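import Mathlib
import Pool.Agent.R503.N.Hts

/-! From the von Mangoldt function to the primes (helper503). -/

open Finset Filter

namespace Pool.Agent.R503.N

open Pool.Agent.Y826.Z Pool.Agent.Y826.Z.OB

lemma dvd_of_primes (q : ℕ) (hq : Squarefree q) (z : ℤ) (h : ∀ p : ℕ, p.Prime → p ∣ q → (p : ℤ) ∣ z) :
    (q : ℤ) ∣ z := by
  rw [Int.natCast_dvd, ← Nat.prod_primeFactors_of_squarefree hq]
  apply Finset.prod_primes_dvd
  · intro p hp
    exact (Nat.prime_of_mem_primeFactors hp).prime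
  · intro p hp
    rw [← Int.natCast_dvd]
    exact h p (Nat.prime_of_mem_primeFactors hp) (Nat.dvd_of_mem_primeFactors hp)

/-- square roots modulo squarefree numbers -/
lemma card_roots (Y q : ℕ) (hq : Squarefree q) (c : ℤ) :
    ∑ m ∈ Icc 1 Y, ind ((q : ℤ) ∣ ((m ^ 2 : ℕ) : ℤ) - c) ≤ tau q * ((Y : ℝ) / q + 1) := by
  classical
  have hq0 : 0 < q := Nat.pos_of_ne_zero hq.ne_zero
  set F := (Icc 1 Y).filter (fun m : ℕ => (q : ℤ) ∣ ((m ^ 2 : ℕ) : ℤ) - c) with hF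
  have e : ∑ m ∈ Icc 1 Y, ind ((q : ℤ) ∣ ((m ^ 2 : ℕ) : ℤ) - c) = (F.card : ℝ) := by
    rw [hF, ← sum_boole]
    refine sum_congr rfl fun x _ => ?_
    unfold ind
    by_cases hx : (q : ℤ) ∣ ((x ^ 2 : ℕ) : ℤ) - c <;> simp [hx]
  rw [e]
  by_cases hne : F.Nonempty
  swap
  · rw [not_nonempty_iff_eq_empty] at hne
    rw [hne, card_empty, Nat.cast_zero]
    unfold tau
    positivity
  obtain ⟨x0, hx0⟩ := hne
  have hmem : ∀ x ∈ F, (q : ℤ) ∣ ((x ^ 2 : ℕ) : ℤ) - c := fun x hx => (mem_filter.1 hx).2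
  have hmaps : ∀ x ∈ F, Nat.gcd q ((x : ℤ) - x0).natAbs ∈ q.divisors := fun x _ =>
    Nat.mem_divisors.2 ⟨Nat.gcd_dvd_left _ _, hq0.ne'⟩
  rw [card_eq_sum_card_fiberwise hmaps]
  push_cast
  have hfib : ∀ g ∈ q.divisors, ((F.filter (fun x : ℕ => Nat.gcd q ((x : ℤ) - x0).natAbs = g)).card : ℝ) ≤
      (Y : ℝ) / q + 1 := by
    intro g _
    apply card_cls Y q hq0
    · exact (filter_subset _ _).trans (filter_subset _ _)
    · intro x hx y hy
      rw [mem_filter] at hx hy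
      apply dvd_of_primes q hq
      intro p hp hpq
      have key : ∀ x ∈ F, ((p : ℤ) ∣ (x : ℤ) - x0) ∨ ((p : ℤ) ∣ (x : ℤ) + x0) := by
        intro x hx
        have h1 := dvd_sub (hmem x hx) (hmem x0 hx0)
        have h2 : ((x ^ 2 : ℕ) : ℤ) - c - (((x0 ^ 2 : ℕ) : ℤ) - c) = ((x : ℤ) - x0) * ((x : ℤ) + x0) := by
          push_cast; ring
        rw [h2] at h1
        have h3 : (p : ℤ) ∣ ((x : ℤ) - x0) * ((x : ℤ) + x0) := (Int.natCast_dvd_natCast.2 hpq).trans h1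
        exact (Nat.prime_iff_prime_int.1 hp).dvd_or_dvd h3
      have hg : ((p : ℤ) ∣ (x : ℤ) - x0) ↔ ((p : ℤ) ∣ (y : ℤ) - x0) := by
        rw [Int.natCast_dvd, Int.natCast_dvd]
        constructor
        · intro h
          have h1 : p ∣ Nat.gcd q ((x : ℤ) - x0).natAbs := Nat.dvd_gcd hpq h
          rw [hx.2, ← hy.2] at h1
          exact h1.trans (Nat.gcd_dvd_right _ _)
        · intro h
          have h1 : p ∣ Nat.gcd q ((y : ℤ) - x0).natAbs := Nat.dvd_gcd hpq h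
          rw [hy.2, ← hx.2] at h1
          exact h1.trans (Nat.gcd_dvd_right _ _)
      by_cases h4 : (p : ℤ) ∣ (x : ℤ) - x0
      · have h5 := dvd_sub h4 (hg.1 h4)
        rwa [sub_sub_sub_cancel_right] at h5
      · have h5 := (key x hx.1).resolve_left h4
        have h6 := (key y hy.1).resolve_left (fun h => h4 (hg.2 h))
        have h7 := dvd_sub h5 h6
        rwa [add_sub_add_right_eq_sub] at h7
  refine (sum_le_sum hfib).trans (le_of_eq ?_)
  rw [sum_const, nsmul_eq_mul]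
  rfl

/-- the weights of the partial summation -/
noncomputable def Fw (n : ℕ) : ℝ := 1 / Real.log ((max n 2 : ℕ) : ℝ)

lemma Fw_pos (n : ℕ) : 0 < Fw n := by
  unfold Fw
  have : (2 : ℝ) ≤ ((max n 2 : ℕ) : ℝ) := by exact_mod_cast le_max_right n 2
  have := Real.log_pos (by linarith : (1 : ℝ) < ((max n 2 : ℕ) : ℝ))
  positivity

lemma Fw_anti (n : ℕ) : Fw (n + 1) ≤ Fw n := by
  unfold Fw
  have h2 : (2 : ℝ) ≤ ((max n 2 : ℕ) : ℝ) := by exact_mod_cast le_max_right n 2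
  have h3 := Real.log_pos (by linarith : (1 : ℝ) < ((max n 2 : ℕ) : ℝ))
  apply one_div_le_one_div_of_le h3
  apply Real.log_le_log (by linarith)
  exact_mod_cast max_le_max (Nat.le_succ n) le_rfl

lemma Fw_one : Fw 1 ≤ 2 := by
  unfold Fw
  have h1 : ((max 1 2 : ℕ) : ℝ) = 2 := by norm_num
  rw [h1]
  have h3 := Real.log_two_gt_d9
  rw [div_le_iff₀ (by linarith)]
  linarith

lemma Fw_L (n : ℕ) : Fw n * ArithmeticFunction.vonMangoldt n ≤ 1 := by
  rcases Nat.lt_or_ge n 2 with h | h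
  · have : ArithmeticFunction.vonMangoldt n = 0 := by
      rcases Nat.lt_or_ge n 1 with h0 | h0
      · have : n = 0 := by omega
        rw [this]; simp
      · have : n = 1 := by omega
        rw [this]; simp
    rw [this, mul_zero]; norm_num
  · unfold Fw
    rw [max_eq_left h]
    have h3 : 0 < Real.log (n : ℝ) := Real.log_pos (by exact_mod_cast (by omega : 1 < n))
    rw [one_div, inv_mul_le_iff₀ h3, mul_one]
    exact ArithmeticFunction.vonMangoldt_le_log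

lemma Fw_L_prime {p : ℕ} (hp : p.Prime) : Fw p * ArithmeticFunction.vonMangoldt p = 1 := by
  unfold Fw
  rw [max_eq_left hp.two_le, ArithmeticFunction.vonMangoldt_apply_prime hp]
  have h3 : 0 < Real.log (p : ℝ) := Real.log_pos (by exact_mod_cast hp.one_lt)
  rw [one_div, inv_mul_cancel₀ h3.ne']

/-- partial summation for a family -/
lemma part_sum {ι : Type*} (T : Finset ι) (s : ι → ℕ → ℝ) (x : ℕ) (B : ℝ) (hB0 : 0 ≤ B)
    (hB : ∀ y, y ≤ x → ∑ t ∈ T, |∑ n ∈ Icc 1 y, s t n| ≤ B) :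
    ∑ t ∈ T, |∑ n ∈ Icc 1 x, Fw n * s t n| ≤ 2 * B := by
  rcases Nat.eq_zero_or_pos x with h0 | h0
  · subst h0
    simp
    exact hB0
  have h1 : ∀ t ∈ T, |∑ n ∈ Icc 1 x, Fw n * s t n| ≤ Fw x * |∑ n ∈ Icc 1 x, s t n| +
      ∑ l ∈ Ico 1 x, (Fw l - Fw (l + 1)) * |∑ n ∈ Icc 1 l, s t n| := by
    intro t _
    rw [TIa.abel_eq Fw (s t) x]
    refine (abs_sub _ _).trans ?_
    rw [abs_mul, abs_of_pos (Fw_pos x)]
    apply add_le_add le_rfl
    refine (abs_sum_le_sum_abs _ _).trans (sum_le_sum fun l _ => ?_)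
    rw [abs_mul, abs_of_nonpos (by linarith [Fw_anti l]), neg_sub]
  refine (sum_le_sum h1).trans ?_
  rw [sum_add_distrib, ← mul_sum, sum_comm]
  have h2 : ∑ l ∈ Ico 1 x, ∑ t ∈ T, (Fw l - Fw (l + 1)) * |∑ n ∈ Icc 1 l, s t n| ≤
      ∑ l ∈ Ico 1 x, (Fw l - Fw (l + 1)) * B := by
    refine sum_le_sum fun l hl => ?_
    rw [mem_Ico] at hl
    rw [← mul_sum]
    exact mul_le_mul_of_nonneg_left (hB l hl.2.le) (by linarith [Fw_anti l])
  have h3 : ∑ l ∈ Ico 1 x, (Fw l - Fw (l + 1)) = Fw 1 - Fw x := by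
    have := sum_Ico_sub (fun l => - Fw l) h0
    have e : ∑ l ∈ Ico 1 x, (Fw l - Fw (l + 1)) = ∑ l ∈ Ico 1 x, (-Fw (l + 1) - -Fw l) :=
      sum_congr rfl fun l _ => by ring
    rw [e]
    refine Eq.trans this ?_
    simp only [Nat.succ_eq_add_one, zero_add]
    ring
  have h4 := mul_le_mul_of_nonneg_left (hB x le_rfl) (Fw_pos x).le
  calc Fw x * ∑ t ∈ T, |∑ n ∈ Icc 1 x, s t n| + ∑ l ∈ Ico 1 x, ∑ t ∈ T, (Fw l - Fw (l + 1)) * |∑ n ∈ Icc 1 l, s t n|
      ≤ Fw x * B + (Fw 1 - Fw x) * B := by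
        rw [← sum_mul, h3] at h2
        exact add_le_add h4 h2
    _ = Fw 1 * B := by ring
    _ ≤ 2 * B := mul_le_mul_of_nonneg_right Fw_one hB0

/-- the prime powers which are not primes -/
lemma pp_cases (x n : ℕ) (hn : n ∈ Icc 1 x) (hnp : ¬ n.Prime) (hL : ArithmeticFunction.vonMangoldt n ≠ 0) :
    n ∈ (Icc 1 (Nat.sqrt x)).image (fun m => m ^ 2) ∨
    n ∈ ((Icc 1 ⌊(x : ℝ) ^ (1 / 3 : ℝ)⌋₊) ×ˢ (Icc 3 (Nat.log 2 x))).image (fun a => a.1 ^ a.2) := by
  rw [ArithmeticFunction.vonMangoldt_ne_zero_iff, isPrimePow_nat_iff] at hL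
  obtain ⟨p, k, hp, hk, rfl⟩ := hL
  rw [mem_Icc] at hn
  have hk1 : k ≠ 1 := by
    rintro rfl
    rw [pow_one] at hnp
    exact hnp hp
  rcases Nat.lt_or_ge k 3 with h | h
  · have hk2 : k = 2 := by omega
    left
    rw [mem_image]
    refine ⟨p, ?_, by rw [hk2]⟩
    rw [mem_Icc]
    refine ⟨hp.pos, ?_⟩
    rw [Nat.le_sqrt']
    rw [hk2] at hn
    exact hn.2
  · right
    rw [mem_image]
    refine ⟨(p, k), ?_, rfl⟩
    rw [mem_product, mem_Icc, mem_Icc]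
    refine ⟨⟨hp.pos, ?_⟩, ⟨h, ?_⟩⟩
    · apply Nat.le_floor
      have h1 : (p : ℝ) ^ 3 ≤ x := by
        have : p ^ 3 ≤ p ^ k := Nat.pow_le_pow_right hp.pos h
        exact_mod_cast this.trans hn.2
      have h2 : (p : ℝ) = ((p : ℝ) ^ 3) ^ (1 / 3 : ℝ) := by
        rw [← Real.rpow_natCast, ← Real.rpow_mul (Nat.cast_nonneg p)]
        norm_num
      simp only
      rw [h2]
      exact Real.rpow_le_rpow (by positivity) h1 (by norm_num)
    · apply Nat.le_log_of_pow_le (by norm_num)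
      exact (Nat.pow_le_pow_left hp.two_le k).trans hn.2

end Pool.Agent.R503.N
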