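import Mathlib
import Pool.Agent.R503.N.Pi

/-! The prime counting version (helper503). -/

open Finset Filter

namespace Pool.Agent.R503.N

open Pool.Agent.Y826.Z Pool.Agent.Y826.Z.OB

open Classical in
/-- primes `≤ y` in the class `c` mod `q` -/
noncomputable def pn (y q : ℕ) (c : ℤ) : ℝ :=
  (((Icc 1 y).filter (fun p : ℕ => p.Prime ∧ (q : ℤ) ∣ (p : ℤ) - c)).card : ℝ)

lemma pn_eq (y q : ℕ) (c : ℤ) : pn y q c = ∑ n ∈ Icc 1 y, ind (n.Prime ∧ (q : ℤ) ∣ (n : ℤ) - c) := by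
  classical
  unfold pn
  rw [← sum_boole]
  refine sum_congr rfl fun n _ => ?_
  unfold ind
  congr

lemma sum_image_le' {ι κ : Type*} [DecidableEq κ] (s : Finset ι) (g : ι → κ) (f : κ → ℝ)
    (hf : ∀ k, 0 ≤ f k) : ∑ b ∈ s.image g, f b ≤ ∑ a ∈ s, f (g a) := by
  rw [← sum_fiberwise_of_maps_to (s := s) (t := s.image g) (g := g) (fun x hx => mem_image_of_mem g hx)]
  refine sum_le_sum fun b hb => ?_
  rw [mem_image] at hb
  obtain ⟨a, ha, rfl⟩ := hb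
  exact single_le_sum (f := fun i => f (g i)) (fun i _ => hf (g i))
    (mem_filter.2 ⟨ha, rfl⟩ : a ∈ s.filter (fun i => g i = g a))

lemma ww_abs2 (q : ℕ) (c : ℤ) (t n : ℕ) : |ww q c t n| ≤ 2 := by
  unfold ww
  rw [abs_mul, abs_of_nonneg (Pl_nonneg _ _ _)]
  have h1 := Dc_abs t c (n : ℤ)
  have h2 := ind_le_one ((t : ℤ) ∣ (n : ℤ) - c)
  have h3 : 1 / (Nat.totient t : ℝ) ≤ 1 := by
    rcases Nat.eq_zero_or_pos (Nat.totient t) with h | h
    · rw [h]; norm_num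
    · rw [div_le_one (by exact_mod_cast h)]; exact_mod_cast h
  have h4 := Pl_le q c n
  have h5 := Pl_nonneg q c n
  have h6 := abs_nonneg (Dc t c (n : ℤ))
  nlinarith

/-- the primes dividing the modulus -/
lemma few_primes (y q t : ℕ) (c : ℤ) (ht : 0 < t) :
    ∑ n ∈ Icc 1 y, ind (n.Prime ∧ (q : ℤ) ∣ (n : ℤ) - c ∧ ¬ IsCoprime (n : ℤ) (t : ℤ)) ≤ tau t := by
  classical
  have h1 : ∑ n ∈ Icc 1 y, ind (n.Prime ∧ (q : ℤ) ∣ (n : ℤ) - c ∧ ¬ IsCoprime (n : ℤ) (t : ℤ)) =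
      (((Icc 1 y).filter (fun n : ℕ => n.Prime ∧ (q : ℤ) ∣ (n : ℤ) - c ∧ ¬ IsCoprime (n : ℤ) (t : ℤ))).card : ℝ) := by
    rw [← sum_boole]
    refine sum_congr rfl fun n _ => ?_
    unfold ind
    congr
  rw [h1]
  unfold tau
  have h2 : (Icc 1 y).filter (fun n : ℕ => n.Prime ∧ (q : ℤ) ∣ (n : ℤ) - c ∧ ¬ IsCoprime (n : ℤ) (t : ℤ)) ⊆
      t.divisors := by
    intro n hn
    rw [mem_filter] at hn
    rw [Nat.mem_divisors]
    refine ⟨?_, ht.ne'⟩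
    by_contra h
    exact hn.2.2.2 (Nat.isCoprime_iff_coprime.2 ((Nat.Prime.coprime_iff_not_dvd hn.2.1).2 h))
  exact_mod_cast card_le_card h2

/-- primes and the weights -/
lemma pn_ww (y q t : ℕ) (c : ℤ) (hqt : q.Coprime t) :
    pn y (q * t) c - pn y q c / (Nat.totient t : ℝ) = ∑ n ∈ Icc 1 y, ind (n.Prime) * ww q c t n -
      (1 / (Nat.totient t : ℝ)) *
        ∑ n ∈ Icc 1 y, ind (n.Prime ∧ (q : ℤ) ∣ (n : ℤ) - c ∧ ¬ IsCoprime (n : ℤ) (t : ℤ)) := by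
  rw [pn_eq, pn_eq, sum_div, mul_sum, ← sum_sub_distrib, ← sum_sub_distrib]
  refine sum_congr rfl fun n _ => ?_
  unfold ww Pl Dc
  have h0 : ((q * t : ℕ) : ℤ) ∣ (n : ℤ) - c ↔ ((q : ℤ) ∣ (n : ℤ) - c ∧ (t : ℤ) ∣ (n : ℤ) - c) := by
    push_cast
    constructor
    · intro h
      exact ⟨(Dvd.intro _ rfl).trans h, (Dvd.intro_left _ rfl).trans h⟩
    · rintro ⟨a, b⟩
      exact (Nat.isCoprime_iff_coprime.2 hqt).mul_dvd a b
  rw [show (n.Prime ∧ ((q * t : ℕ) : ℤ) ∣ (n : ℤ) - c) = (n.Prime ∧ ((q : ℤ) ∣ (n : ℤ) - c ∧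
    (t : ℤ) ∣ (n : ℤ) - c)) by rw [eq_iff_iff, h0]]
  unfold ind
  by_cases h1 : n.Prime <;> by_cases h2 : (q : ℤ) ∣ (n : ℤ) - c <;> by_cases h3 : (t : ℤ) ∣ (n : ℤ) - c <;>
    by_cases h4 : IsCoprime (n : ℤ) (t : ℤ) <;> simp [h1, h2, h3, h4]

/-- non-primes -/
lemma nonpr (y q t : ℕ) (c : ℤ) (hq : Squarefree (q * t)) (ht : 0 < t) (hq0 : 0 < q) :
    ∑ n ∈ Icc 1 y, |(1 - ind (n.Prime)) * (Fw n * (ArithmeticFunction.vonMangoldt n * ww q c t n))| ≤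
      (tau (q * t) * ((Nat.sqrt y : ℝ) / ((q * t : ℕ) : ℝ) + 1) +
        (1 / (Nat.totient t : ℝ)) * (tau q * ((Nat.sqrt y : ℝ) / q + 1))) +
      2 * (((⌊(y : ℝ) ^ (1 / 3 : ℝ)⌋₊ : ℕ) : ℝ) * (Nat.log 2 y : ℝ)) := by
  classical
  have hsf := Nat.squarefree_mul_iff.1 hq
  set Q1 := (Icc 1 (Nat.sqrt y)).image (fun m => m ^ 2) with hQ1
  set Q2 := ((Icc 1 ⌊(y : ℝ) ^ (1 / 3 : ℝ)⌋₊) ×ˢ (Icc 3 (Nat.log 2 y))).image (fun a => a.1 ^ a.2) with hQ2
  have h1 : ∑ n ∈ Icc 1 y, |(1 - ind (n.Prime)) * (Fw n * (ArithmeticFunction.vonMangoldt n * ww q c t n))| ≤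
      ∑ n ∈ Q1 ∪ Q2, |ww q c t n| := by
    have h2 : ∑ n ∈ Icc 1 y, |(1 - ind (n.Prime)) * (Fw n * (ArithmeticFunction.vonMangoldt n * ww q c t n))| =
        ∑ n ∈ (Icc 1 y).filter (fun n : ℕ => ¬ n.Prime ∧ ArithmeticFunction.vonMangoldt n ≠ 0),
          |(1 - ind (n.Prime)) * (Fw n * (ArithmeticFunction.vonMangoldt n * ww q c t n))| := by
      rw [sum_filter_of_ne]
      intro n _ h
      constructor
      · intro hp
        apply h
        rw [ind_true hp]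
        simp
      · intro hL
        apply h
        rw [hL]
        simp
    rw [h2]
    calc _ ≤ ∑ n ∈ (Icc 1 y).filter (fun n : ℕ => ¬ n.Prime ∧ ArithmeticFunction.vonMangoldt n ≠ 0), |ww q c t n| := by
          refine sum_le_sum fun n hn => ?_
          rw [mem_filter] at hn
          rw [ind_false hn.2.1, sub_zero, one_mul, ← mul_assoc, abs_mul]
          have h3 : 0 ≤ Fw n * ArithmeticFunction.vonMangoldt n :=
            mul_nonneg (Fw_pos n).le ArithmeticFunction.vonMangoldt_nonneg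
          rw [abs_of_nonneg h3]
          exact mul_le_of_le_one_left (abs_nonneg _) (Fw_L n)
      _ ≤ _ := by
          apply sum_le_sum_of_subset_of_nonneg
          · intro n hn
            rw [mem_filter] at hn
            rw [mem_union]
            exact pp_cases y n hn.1 hn.2.1 hn.2.2
          · intro i _ _
            exact abs_nonneg _
  refine h1.trans ?_
  have h4 : ∑ n ∈ Q1 ∪ Q2, |ww q c t n| ≤ ∑ n ∈ Q1, |ww q c t n| + ∑ n ∈ Q2, |ww q c t n| := by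
    rw [← sum_union_inter]
    exact le_add_of_nonneg_right (sum_nonneg fun i _ => abs_nonneg _)
  refine h4.trans (add_le_add ?_ ?_)
  · refine (sum_image_le' _ _ _ (fun k => abs_nonneg _)).trans ?_
    refine (sum_le_sum fun m _ => ww_abs q c t (m ^ 2) hsf.1).trans ?_
    rw [sum_add_distrib, ← mul_sum]
    apply add_le_add
    · exact card_roots (Nat.sqrt y) (q * t) hq c
    · exact mul_le_mul_of_nonneg_left (card_roots (Nat.sqrt y) q hsf.2.1 c) (by positivity)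
  · refine (sum_image_le' _ _ _ (fun k => abs_nonneg _)).trans ?_
    refine (sum_le_sum fun m _ => ww_abs2 q c t _).trans ?_
    rw [sum_const, card_product, nsmul_eq_mul, Nat.card_Icc, Nat.card_Icc, mul_comm]
    apply mul_le_mul_of_nonneg_left _ (by norm_num)
    rw [Nat.add_sub_cancel, Nat.cast_mul]
    have h5 : ((Nat.log 2 y + 1 - 3 : ℕ) : ℝ) ≤ (Nat.log 2 y : ℝ) := by
      exact_mod_cast (by omega : Nat.log 2 y + 1 - 3 ≤ Nat.log 2 y)
    exact mul_le_mul_of_nonneg_left h5 (Nat.cast_nonneg _)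

/-- one modulus -/
lemma pn_one (y q t : ℕ) (c : ℤ) (hq : Squarefree (q * t)) (ht : 0 < t) (hq0 : 0 < q) :
    |pn y (q * t) c - pn y q c / (Nat.totient t : ℝ)| ≤
      |∑ n ∈ Icc 1 y, Fw n * (ArithmeticFunction.vonMangoldt n * ww q c t n)| +
      ((tau (q * t) * ((Nat.sqrt y : ℝ) / ((q * t : ℕ) : ℝ) + 1) +
        (1 / (Nat.totient t : ℝ)) * (tau q * ((Nat.sqrt y : ℝ) / q + 1))) +
      2 * (((⌊(y : ℝ) ^ (1 / 3 : ℝ)⌋₊ : ℕ) : ℝ) * (Nat.log 2 y : ℝ))) + (1 / (Nat.totient t : ℝ)) * tau t := by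
  rw [pn_ww y q t c (Nat.squarefree_mul_iff.1 hq).1]
  have h1 : ∑ n ∈ Icc 1 y, ind (n.Prime) * ww q c t n =
      ∑ n ∈ Icc 1 y, Fw n * (ArithmeticFunction.vonMangoldt n * ww q c t n) -
      ∑ n ∈ Icc 1 y, (1 - ind (n.Prime)) * (Fw n * (ArithmeticFunction.vonMangoldt n * ww q c t n)) := by
    rw [← sum_sub_distrib]
    refine sum_congr rfl fun n _ => ?_
    by_cases hp : n.Prime
    · rw [ind_true hp, ← mul_assoc (Fw n), Fw_L_prime hp]; ring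
    · rw [ind_false hp]; ring
  have h2 := few_primes y q t c ht
  have h2' : 0 ≤ ∑ n ∈ Icc 1 y, ind (n.Prime ∧ (q : ℤ) ∣ (n : ℤ) - c ∧ ¬ IsCoprime (n : ℤ) (t : ℤ)) :=
    sum_nonneg fun n _ => ind_nonneg _
  have h3 := nonpr y q t c hq ht hq0
  have h4 := abs_sum_le_sum_abs (fun n => (1 - ind (n.Prime)) * (Fw n * (ArithmeticFunction.vonMangoldt n * ww q c t n)))
    (Icc 1 y)
  rw [h1]
  have h5 : (0 : ℝ) ≤ 1 / (Nat.totient t : ℝ) := by positivity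
  refine (abs_sub _ _).trans ?_
  rw [abs_mul, abs_of_nonneg h5, abs_of_nonneg h2']
  apply add_le_add _ (mul_le_mul_of_nonneg_left h2 h5)
  refine (abs_sub _ _).trans ?_
  exact add_le_add le_rfl (h4.trans h3)

end Pool.Agent.R503.N
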