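import Mathlib
import Pool.Agent.R503.N.PiB

/-! The main estimate for primes (helper503). -/

open Finset Filter

namespace Pool.Agent.R503.N

open Pool.Agent.Y826.Z Pool.Agent.Y826.Z.OB

lemma log2_le (y x : ℕ) (hyx : y ≤ x) (ℓ : ℝ) (hx : 1 ≤ x) (hlog : 1 + Real.log (x : ℝ) ≤ ℓ) :
    (Nat.log 2 y : ℝ) ≤ 2 * ℓ := by
  have h1 : Nat.log 2 y ≤ Nat.log 2 x := Nat.log_mono_right hyx
  have h2 : (Nat.log 2 x : ℝ) * Real.log 2 ≤ Real.log x := by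
    rw [← Real.log_pow]
    apply Real.log_le_log (by positivity)
    exact_mod_cast Nat.pow_log_le_self 2 (by omega)
  have h3 := Real.log_two_gt_d9
  have h4 : (Nat.log 2 y : ℝ) ≤ Nat.log 2 x := by exact_mod_cast h1
  have h5 : (0 : ℝ) ≤ (Nat.log 2 x : ℝ) := Nat.cast_nonneg _
  nlinarith

/-- the main estimate for primes, at all heights -/
theorem pi_all (θ κ : ℝ) (hθ1 : 1 / 2 ≤ θ) (hθ : θ < 43 / 84) (hκ0 : 0 ≤ κ) (hκ : κ < 1 / 3) :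
    ∃ η : ℝ, 0 < η ∧ ∀ ε1 : ℝ, 0 < ε1 → ∃ ε : ℝ, 0 < ε ∧ ∀ᶠ x : ℕ in atTop, ∀ q0 : ℕ, 0 < q0 →
      (q0 : ℝ) ≤ (x : ℝ) ^ κ → ∀ c : ℤ, IsCoprime c (q0 : ℤ) → ∀ T : Finset ℕ,
      (∀ t ∈ T, Mo x q0 c θ ε1 η t) → ∀ y : ℕ, y ≤ x →
      ∑ t ∈ T, |pn y (q0 * t) c - pn y q0 c / (Nat.totient t : ℝ)| ≤ (x : ℝ) ^ (1 - ε) / q0 := by
  obtain ⟨η, hη, hmain⟩ := psi_all θ κ hθ1 hθ hκ0 hκ
  refine ⟨η, hη, fun ε1 hε1 => ?_⟩
  obtain ⟨ε', hε', hev⟩ := hmain ε1 hε1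
  set δ : ℝ := min (ε' / 2) (1 / 20) with hδ
  have hδ0 : 0 < δ := lt_min (by positivity) (by norm_num)
  have hδ1 : δ ≤ ε' / 2 := min_le_left _ _
  have hδ2 : δ ≤ 1 / 20 := min_le_right _ _
  refine ⟨δ, hδ0, ?_⟩
  have h11 : ∀ᶠ x : ℕ in atTop, (11 : ℝ) ≤ (x : ℝ) ^ δ :=
    tendsto_natCast_atTop_atTop.eventually (Pool.Agent.Y61.Z.ev_rpow _ hδ0)
  filter_upwards [hev, ev_basic (1 / 100) (by norm_num), h11] with x hx hx2 hx11 q0 hq hqκ c hc T hT y hy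
  obtain ⟨htau, hlog, hlog1, hx256⟩ := hx2
  have hX : (256 : ℝ) ≤ x := by exact_mod_cast hx256
  set X : ℝ := (x : ℝ) with hXdef
  have hX0 : 0 < X := by linarith
  have hX1 : 1 ≤ X := by linarith
  have rle : ∀ {a b : ℝ}, a ≤ b → X ^ a ≤ X ^ b := fun h => Real.rpow_le_rpow_of_exponent_le hX1 h
  have radd : ∀ a b : ℝ, X ^ a * X ^ b = X ^ (a + b) := fun a b => (Real.rpow_add hX0 a b).symm
  have rpos : ∀ a : ℝ, 0 < X ^ a := fun a => Real.rpow_pos_of_pos hX0 a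
  have hqr : (0 : ℝ) < q0 := by exact_mod_cast hq
  set ℓ : ℝ := X ^ (1 / 100 : ℝ) with hℓ
  have hℓ1 : 1 ≤ ℓ := Real.one_le_rpow hX1 (by norm_num)
  have hℓ0 : 0 ≤ ℓ := by linarith
  set Z : ℝ := X ^ θ / q0 with hZ
  have hZ0 : 0 ≤ Z := by have := (rpos θ).le; positivity
  have hcard : (T.card : ℝ) ≤ Z := card_Mo (by omega : 0 < x) hq T hT
  have hθX : X ^ θ ≤ X := by
    calc X ^ θ ≤ X ^ (1 : ℝ) := rle (by linarith)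
      _ = X := Real.rpow_one X
  have hqtx : ∀ t ∈ T, q0 * t ≤ x := by
    intro t ht
    have h1 := ((hT t ht).2.2.2).trans hθX
    have h2 : ((q0 * t : ℕ) : ℝ) ≤ (x : ℝ) := by push_cast; exact h1
    exact (Nat.cast_le (α := ℝ)).1 h2
  have htx : ∀ t ∈ T, 0 < t ∧ t ≤ x := by
    intro t ht
    refine ⟨(hT t ht).pos, (Nat.le_mul_of_pos_left t hq).trans (hqtx t ht)⟩
  have hq0x : q0 ≤ x := by
    have h2 : (q0 : ℝ) ≤ (x : ℝ) := by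
      refine hqκ.trans ?_
      calc X ^ κ ≤ X ^ (1 : ℝ) := rle (by linarith)
        _ = X := Real.rpow_one X
    exact (Nat.cast_le (α := ℝ)).1 h2
  have h1t := sum_mult 1 x one_pos T (fun t ht => ⟨(htx t ht).1, (htx t ht).2, one_dvd _⟩)
  have hphi := sum_phi T 1 x ℓ one_pos (fun t ht => ⟨(htx t ht).1, (htx t ht).2, one_dvd _⟩) htau hlog
  rw [Nat.cast_one, div_one] at h1t hphi
  have h1t' : ∑ t ∈ T, (1 / (t : ℝ)) ≤ ℓ := h1t.trans hlog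
  -- the sqrt
  have hs0 : (0 : ℝ) ≤ (Nat.sqrt y : ℝ) := Nat.cast_nonneg _
  have hs : (Nat.sqrt y : ℝ) ≤ X ^ θ := by
    have h1 : (Nat.sqrt y : ℝ) ≤ Real.sqrt y := Real.nat_sqrt_le_real_sqrt
    have h2 : Real.sqrt y ≤ Real.sqrt X := Real.sqrt_le_sqrt ((Nat.cast_le (α := ℝ)).2 hy)
    have h3 : Real.sqrt X = X ^ (1 / 2 : ℝ) := Real.sqrt_eq_rpow X
    exact h1.trans (h2.trans (h3.le.trans (rle hθ1)))
  have hsq : (Nat.sqrt y : ℝ) / q0 ≤ Z := div_le_div_of_nonneg_right hs hqr.le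
  have hq1 : 1 ≤ Z := by
    rw [hZ, one_le_div hqr]
    exact hqκ.trans (rle (by linarith))
  -- main part
  have hS1 : ∑ t ∈ T, |∑ n ∈ Icc 1 y, Fw n * (ArithmeticFunction.vonMangoldt n * ww q0 c t n)| ≤
      2 * (X ^ (1 - ε') / q0) := by
    apply part_sum T (fun t n => ArithmeticFunction.vonMangoldt n * ww q0 c t n) y
    · have := (rpos (1 - ε')).le; positivity
    · intro y' hy'
      exact hx q0 hq hqκ c hc T hT y' (hy'.trans hy)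
  have hS2 : ∑ t ∈ T, (tau (q0 * t) * ((Nat.sqrt y : ℝ) / ((q0 * t : ℕ) : ℝ) + 1)) ≤ 2 * (ℓ ^ 2 * Z) := by
    calc ∑ t ∈ T, (tau (q0 * t) * ((Nat.sqrt y : ℝ) / ((q0 * t : ℕ) : ℝ) + 1))
        ≤ ∑ t ∈ T, ℓ * (((Nat.sqrt y : ℝ) / q0) * (1 / (t : ℝ)) + 1) := by
          refine sum_le_sum fun t ht => ?_
          have h2 := htau (q0 * t) (Nat.mul_pos hq (htx t ht).1).ne' (hqtx t ht)
          have e : (Nat.sqrt y : ℝ) / ((q0 * t : ℕ) : ℝ) = ((Nat.sqrt y : ℝ) / q0) * (1 / (t : ℝ)) := by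
            push_cast
            rw [div_mul_div_comm, mul_one]
          rw [e]
          exact mul_le_mul_of_nonneg_right h2 (by positivity)
      _ = ℓ * (((Nat.sqrt y : ℝ) / q0) * ∑ t ∈ T, (1 / (t : ℝ)) + T.card) := by
          rw [← mul_sum, sum_add_distrib, ← mul_sum, sum_const, nsmul_eq_mul, mul_one]
      _ ≤ ℓ * (Z * ℓ + Z) := by
          have : 0 ≤ ∑ t ∈ T, (1 / (t : ℝ)) := sum_nonneg fun t _ => by positivity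
          gcongr
      _ ≤ 2 * (ℓ ^ 2 * Z) := by nlinarith [mul_nonneg hℓ0 hZ0, mul_nonneg (mul_nonneg hℓ0 hZ0) (by linarith : 0 ≤ ℓ - 1)]
  have hS3 : ∑ t ∈ T, ((1 / (Nat.totient t : ℝ)) * (tau q0 * ((Nat.sqrt y : ℝ) / q0 + 1))) ≤ 2 * (ℓ ^ 3 * Z) := by
    rw [← sum_mul]
    have h2 := htau q0 hq.ne' hq0x
    calc (∑ t ∈ T, (1 / (Nat.totient t : ℝ))) * (tau q0 * ((Nat.sqrt y : ℝ) / q0 + 1))
        ≤ ℓ ^ 2 * (ℓ * (Z + Z)) := by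
          have : 0 ≤ tau q0 := OB.tau_nonneg _
          gcongr
      _ = _ := by ring
  have hS4 : ∑ t ∈ T, (2 * (((⌊(y : ℝ) ^ (1 / 3 : ℝ)⌋₊ : ℕ) : ℝ) * (Nat.log 2 y : ℝ))) ≤
      4 * (ℓ * (X ^ (1 / 3 : ℝ) * Z)) := by
    rw [sum_const, nsmul_eq_mul]
    have h2 : ((⌊(y : ℝ) ^ (1 / 3 : ℝ)⌋₊ : ℕ) : ℝ) ≤ X ^ (1 / 3 : ℝ) := by
      refine (Nat.floor_le (Real.rpow_nonneg (Nat.cast_nonneg y) _)).trans ?_
      exact Real.rpow_le_rpow (Nat.cast_nonneg y) ((Nat.cast_le (α := ℝ)).2 hy) (by norm_num)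
    have h3 := log2_le y x hy ℓ (by omega) hlog
    calc (T.card : ℝ) * (2 * (((⌊(y : ℝ) ^ (1 / 3 : ℝ)⌋₊ : ℕ) : ℝ) * (Nat.log 2 y : ℝ)))
        ≤ Z * (2 * (X ^ (1 / 3 : ℝ) * (2 * ℓ))) := by
          have := (rpos (1 / 3)).le
          gcongr
      _ = _ := by ring
  have hS5 : ∑ t ∈ T, ((1 / (Nat.totient t : ℝ)) * tau t) ≤ ℓ ^ 3 * Z := by
    calc ∑ t ∈ T, ((1 / (Nat.totient t : ℝ)) * tau t) ≤ ∑ t ∈ T, ((1 / (Nat.totient t : ℝ)) * ℓ) :=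
          sum_le_sum fun t ht => mul_le_mul_of_nonneg_left (htau t (htx t ht).1.ne' (htx t ht).2) (by positivity)
      _ = (∑ t ∈ T, (1 / (Nat.totient t : ℝ))) * ℓ := by rw [← sum_mul]
      _ ≤ ℓ ^ 2 * ℓ := mul_le_mul_of_nonneg_right hphi hℓ0
      _ = ℓ ^ 3 * 1 := by ring
      _ ≤ ℓ ^ 3 * Z := mul_le_mul_of_nonneg_left hq1 (by positivity)
  have htot : ∑ t ∈ T, |pn y (q0 * t) c - pn y q0 c / (Nat.totient t : ℝ)| ≤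
      2 * (X ^ (1 - ε') / q0) + 9 * (ℓ ^ 3 * (X ^ (1 / 3 : ℝ) * Z)) := by
    refine (sum_le_sum fun t ht => pn_one y q0 t c (hT t ht).1 (htx t ht).1 hq).trans ?_
    rw [sum_add_distrib, sum_add_distrib, sum_add_distrib, sum_add_distrib]
    have h3 : 1 ≤ X ^ (1 / 3 : ℝ) := Real.one_le_rpow hX1 (by norm_num)
    have hw : 0 ≤ ℓ ^ 3 * Z := by positivity
    have h4 : ℓ ^ 2 * Z ≤ ℓ ^ 3 * (X ^ (1 / 3 : ℝ) * Z) := by
      have h5 : ℓ ^ 2 ≤ ℓ ^ 3 := pow_le_pow_right₀ hℓ1 (by norm_num)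
      have h6 : Z ≤ X ^ (1 / 3 : ℝ) * Z := le_mul_of_one_le_left hZ0 h3
      exact mul_le_mul h5 h6 hZ0 (by positivity)
    have h5 : ℓ ^ 3 * Z ≤ ℓ ^ 3 * (X ^ (1 / 3 : ℝ) * Z) :=
      mul_le_mul_of_nonneg_left (le_mul_of_one_le_left hZ0 h3) (by positivity)
    have h6 : ℓ * (X ^ (1 / 3 : ℝ) * Z) ≤ ℓ ^ 3 * (X ^ (1 / 3 : ℝ) * Z) := by
      apply mul_le_mul_of_nonneg_right _ (by positivity)
      calc ℓ = ℓ ^ 1 := (pow_one ℓ).symm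
        _ ≤ ℓ ^ 3 := pow_le_pow_right₀ hℓ1 (by norm_num)
    linarith
  refine htot.trans ?_
  have h7 : ℓ ^ 3 * (X ^ (1 / 3 : ℝ) * Z) ≤ X ^ (9 / 10 : ℝ) / q0 := by
    rw [hZ, hℓ, pw hX0, mul_div_assoc', mul_div_assoc', radd, radd]
    apply div_le_div_of_nonneg_right _ hqr.le
    apply rle
    push_cast
    linarith
  have h8 : 11 * X ^ (9 / 10 : ℝ) ≤ X ^ (1 - δ) := by
    calc 11 * X ^ (9 / 10 : ℝ) ≤ X ^ δ * X ^ (9 / 10 : ℝ) := mul_le_mul_of_nonneg_right hx11 (rpos _).le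
      _ = X ^ (δ + 9 / 10) := radd _ _
      _ ≤ X ^ (1 - δ) := rle (by linarith)
  have h9 : 11 * X ^ (1 - ε') ≤ X ^ (1 - δ) := by
    calc 11 * X ^ (1 - ε') ≤ X ^ δ * X ^ (1 - ε') := mul_le_mul_of_nonneg_right hx11 (rpos _).le
      _ = X ^ (δ + (1 - ε')) := radd _ _
      _ ≤ X ^ (1 - δ) := rle (by linarith)
  calc 2 * (X ^ (1 - ε') / q0) + 9 * (ℓ ^ 3 * (X ^ (1 / 3 : ℝ) * Z))
      ≤ 2 * (X ^ (1 - ε') / q0) + 9 * (X ^ (9 / 10 : ℝ) / q0) := by linarith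
    _ = (2 * X ^ (1 - ε') + 9 * X ^ (9 / 10 : ℝ)) / q0 := by ring
    _ ≤ X ^ (1 - δ) / q0 := by
        apply div_le_div_of_nonneg_right _ hqr.le
        linarith

end Pool.Agent.R503.N
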