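import Mathlib
import Pool.Agent.R503.N.PiC
import Pool.Agent.H442R2.KF.Bv
import Pool.Agent.H442R2.EHI.PntErr
import Pool.Agent.H442R2.EHI.FinalOf

/-! Together with the theorem of Bombieri and Vinogradov and the prime number theorem (helper503). -/

open Finset Filter

namespace Pool.Agent.R503.N

open Pool.Agent.Y826.Z Pool.Agent.Y826.Z.OB
open Pool.Agent.H442R2.KF

/-- `li` -/
noncomputable def lin (x : ℕ) : ℝ := ∫ t in (2 : ℝ)..x, 1 / Real.log t

lemma log_ge1 {x : ℕ} (hx : 3 ≤ x) : 1 ≤ Real.log x := TaskBV.log_ge_one hx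

lemma log_pow_le' (U : ℕ) : ∃ C : ℝ, 0 < C ∧ ∀ x : ℕ, 3 ≤ x → Real.log x ^ U ≤ C * x := by
  have hev : ∀ᶠ X : ℝ in atTop, 1 * Real.log X ^ U ≤ X ^ (1 : ℝ) := Pool.Agent.Y61.Z.ev_log_rpow 1 U one_pos
  obtain ⟨x0, hx0⟩ := eventually_atTop.1 (tendsto_natCast_atTop_atTop.eventually hev)
  refine ⟨1 + Real.log x0 ^ U, ?_, fun x hx => ?_⟩
  · have := pow_nonneg (Real.log_natCast_nonneg x0) U
    linarith
  have hl := log_ge1 hx
  have h0 := pow_nonneg (Real.log_natCast_nonneg x0) U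
  have hx1 : (1 : ℝ) ≤ x := by exact_mod_cast (by omega : 1 ≤ x)
  rcases Nat.lt_or_ge x x0 with h | h
  · have h1 : Real.log x ≤ Real.log x0 := Real.log_le_log (by linarith) (by exact_mod_cast h.le)
    have h2 : Real.log x ^ U ≤ Real.log x0 ^ U := pow_le_pow_left₀ (by linarith) h1 U
    nlinarith
  · have h1 := hx0 x h
    rw [one_mul, Real.rpow_one] at h1
    nlinarith

theorem pnt_lin (U : ℕ) : ∃ C : ℝ, 0 < C ∧ ∀ N : ℕ, 3 ≤ N →
    |(piN N : ℝ) - lin N| ≤ C * (N / Real.log N ^ U) := by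
  obtain ⟨C, hC⟩ := Pool.Agent.H442R2.EHI.pnt_err U
  obtain ⟨C', hC', h'⟩ := log_pow_le' U
  refine ⟨|C| + 2 * C', by positivity, fun N hN => ?_⟩
  have h1 := hC N (by omega)
  have h2 := Pool.Agent.H442R2.EHI.FinalOf.lis_sub N (by omega)
  have h3 := h' N hN
  have hl := log_ge1 hN
  have hl0 : 0 < Real.log N := by linarith
  have h5 : 0 ≤ (N : ℝ) / Real.log N ^ U := by positivity
  have h6 : (piN N : ℝ) = (((Icc 1 N).filter (fun p : ℕ => p.Prime)).card : ℝ) := rfl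
  have h7 : |(piN N : ℝ) - lin N| ≤ |(piN N : ℝ) - Pool.Agent.H442R2.EHI.lis N| +
      |Pool.Agent.H442R2.EHI.lis N - lin N| := by
    have := abs_add_le ((piN N : ℝ) - Pool.Agent.H442R2.EHI.lis N)
      (Pool.Agent.H442R2.EHI.lis N - lin N)
    rwa [sub_add_sub_cancel] at this
  have h8 : |(piN N : ℝ) - Pool.Agent.H442R2.EHI.lis N| ≤ |C| * (N / Real.log N ^ U) := by
    rw [h6]
    refine h1.trans ?_
    rw [mul_div_assoc]
    exact mul_le_mul_of_nonneg_right (le_abs_self C) h5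
  have h9 : |Pool.Agent.H442R2.EHI.lis N - lin N| ≤ 2 := h2
  have h10 : (2 : ℝ) ≤ 2 * C' * (N / Real.log N ^ U) := by
    have hp : 0 < Real.log N ^ U := by positivity
    have : 1 ≤ C' * (N / Real.log N ^ U) := by
      rw [mul_div_assoc', one_le_div hp]
      exact h3
    linarith
  calc |(piN N : ℝ) - lin N| ≤ |C| * (N / Real.log N ^ U) + 2 := by linarith
    _ ≤ |C| * (N / Real.log N ^ U) + 2 * C' * (N / Real.log N ^ U) := by linarith
    _ = _ := by ring

lemma sum_inv_phi (x : ℕ) (hx : 3 ≤ x) (S : Finset ℕ) (hS : S ⊆ Icc 1 x) :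
    ∑ t ∈ S, 1 / (Nat.totient t : ℝ) ≤ 4 * Real.log x ^ 2 := by
  have hl := log_ge1 hx
  calc ∑ t ∈ S, 1 / (Nat.totient t : ℝ) ≤ ∑ t ∈ Icc 1 x, 1 / (Nat.totient t : ℝ) :=
        sum_le_sum_of_subset_of_nonneg hS fun i _ _ => by positivity
    _ ≤ ∑ t ∈ Icc 1 x, Pool.Agent.Y826.Z.tau t ^ 1 / t := by
        refine sum_le_sum fun t ht => ?_
        rw [pow_one]
        exact Pool.Agent.Y61.Z.one_div_totient_le t (mem_Icc.1 ht).1
    _ ≤ (1 + Real.log x) ^ (2 ^ 1) := Pool.Agent.Y61.Z.tau_moment_div 1 x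
    _ ≤ (2 * Real.log x) ^ (2 ^ 1) := by
        apply pow_le_pow_left₀ (by linarith)
        linarith
    _ = _ := by ring

/-- the natural number representing a class -/
noncomputable def rep (q : ℕ) (c : ℤ) : ℕ := open Classical in if IsCoprime c (q : ℤ) then (c % (q : ℤ)).toNat else 1

lemma rep_coprime (q : ℕ) (c : ℤ) (hq : 0 < q) : Nat.Coprime (rep q c) q := by
  unfold rep
  split_ifs with h
  · have h1 : 0 ≤ c % (q : ℤ) := Int.emod_nonneg _ (by exact_mod_cast hq.ne')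
    rw [← Nat.isCoprime_iff_coprime, Int.toNat_of_nonneg h1]
    have h2 : c % (q : ℤ) = c + (q : ℤ) * (-(c / q)) := by
      have := Int.emod_add_mul_ediv c q
      linarith
    rw [h2]
    exact h.add_mul_left_left _
  · exact Nat.coprime_one_left q

lemma pn_rep (x q : ℕ) (c : ℤ) (hq : 0 < q) (hc : IsCoprime c (q : ℤ)) : pn x q c = (piAP x q (rep q c) : ℝ) := by
  unfold pn piAP
  congr 2
  apply filter_congr
  intro p _
  apply and_congr_right
  intro _
  unfold rep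
  rw [if_pos hc, ← Int.natCast_modEq_iff, Int.toNat_of_nonneg (Int.emod_nonneg _ (by exact_mod_cast hq.ne')),
    Int.modEq_iff_dvd, dvd_sub_comm]
  have h2 : c % (q : ℤ) = c + (q : ℤ) * (-(c / q)) := by
    have := Int.emod_add_mul_ediv c q
    linarith
  rw [h2]
  constructor
  · intro h
    have : c + (q : ℤ) * (-(c / q)) - p = (c - p) + q * (-(c / q)) := by ring
    rw [this]
    exact dvd_add h (dvd_mul_right _ _)
  · intro h
    have : c - (p : ℤ) = (c + q * (-(c / q)) - p) + q * (c / q) := by ring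
    rw [this]
    exact dvd_add h (dvd_mul_right _ _)

/-- one modulus `q0` -/
lemma one_q (x q0 : ℕ) (c : ℤ) (T : Finset ℕ) (hx : 3 ≤ x) (hq : 0 < q0) (hT : T ⊆ Icc 1 x)
    (hcop : ∀ t ∈ T, q0.Coprime t) (hc : IsCoprime c (q0 : ℤ)) :
    ∑ t ∈ T, |pn x (q0 * t) c - lin x / (Nat.totient (q0 * t) : ℝ)| ≤
      ∑ t ∈ T, |pn x (q0 * t) c - pn x q0 c / (Nat.totient t : ℝ)| +
      4 * Real.log x ^ 2 * (|Er x q0 (rep q0 c)| + |(piN x : ℝ) - lin x| / (Nat.totient q0 : ℝ)) := by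
  have h1 : ∀ t ∈ T, |pn x (q0 * t) c - lin x / (Nat.totient (q0 * t) : ℝ)| ≤
      |pn x (q0 * t) c - pn x q0 c / (Nat.totient t : ℝ)| +
      1 / (Nat.totient t : ℝ) * (|Er x q0 (rep q0 c)| + |(piN x : ℝ) - lin x| / (Nat.totient q0 : ℝ)) := by
    intro t ht
    have e : pn x (q0 * t) c - lin x / (Nat.totient (q0 * t) : ℝ) =
        (pn x (q0 * t) c - pn x q0 c / (Nat.totient t : ℝ)) +
        1 / (Nat.totient t : ℝ) * (Er x q0 (rep q0 c) + ((piN x : ℝ) - lin x) / (Nat.totient q0 : ℝ)) := by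
      have e1 : Er x q0 (rep q0 c) = pn x q0 c - (piN x : ℝ) / (Nat.totient q0 : ℝ) := by
        unfold Er
        rw [pn_rep x q0 c hq hc]
      rw [e1, Nat.totient_mul (hcop t ht)]
      push_cast
      have a1 : (0 : ℝ) < Nat.totient q0 := by exact_mod_cast Nat.totient_pos.2 hq
      have a2 : (0 : ℝ) < Nat.totient t := by exact_mod_cast Nat.totient_pos.2 (mem_Icc.1 (hT ht)).1
      field_simp
      ring
    rw [e]
    refine (abs_add_le _ _).trans (add_le_add le_rfl ?_)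
    rw [abs_mul, abs_of_nonneg (by positivity : (0 : ℝ) ≤ 1 / (Nat.totient t : ℝ))]
    apply mul_le_mul_of_nonneg_left _ (by positivity)
    refine (abs_add_le _ _).trans (add_le_add le_rfl ?_)
    rw [abs_div, Nat.abs_cast]
  refine (sum_le_sum h1).trans ?_
  rw [sum_add_distrib, ← sum_mul]
  apply add_le_add le_rfl
  exact mul_le_mul_of_nonneg_right (sum_inv_phi x hx T hT) (by positivity)

end Pool.Agent.R503.N
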