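import Mathlib
import Pool.Agent.R503.N.Fin

/-! The final form with `li` (helper503). -/

open Finset Filter

namespace Pool.Agent.R503.N

open Pool.Agent.Y826.Z Pool.Agent.Y826.Z.OB
open Pool.Agent.H442R2.KF

/-- large `x` -/
lemma fin_large (x : ℕ) (hx : 3 ≤ x) (U : ℕ) (κ C1 C2 B : ℝ) (S : Finset ℕ) (T : ℕ → Finset ℕ) (a : ℕ → ℤ)
    (hC1 : 0 ≤ C1) (hC2 : 0 ≤ C2)
    (hS : ∀ q ∈ S, 0 < q ∧ q ≤ x ∧ (q : ℝ) ≤ (x : ℝ) ^ κ ∧ IsCoprime (a q) (q : ℤ))
    (hT : ∀ q ∈ S, T q ⊆ Icc 1 x) (hco : ∀ q ∈ S, ∀ t ∈ T q, q.Coprime t)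
    (hmain : ∀ q ∈ S, ∑ t ∈ T q, |pn x (q * t) (a q) - pn x q (a q) / (Nat.totient t : ℝ)| ≤ B / q) (hB0 : 0 ≤ B)
    (hB : B * (1 + Real.log x) ≤ x / Real.log x ^ U)
    (hbv : ∀ b : ℕ → ℕ, (∀ d, 1 ≤ d → Nat.Coprime (b d) d) →
      ∑ d ∈ Icc 1 ⌊(x : ℝ) ^ κ⌋₊, |Er x d (b d)| ≤ C1 * (x / Real.log x ^ (U + 2)))
    (hpnt : |(piN x : ℝ) - lin x| ≤ C2 * (x / Real.log x ^ (U + 4))) :
    ∑ q ∈ S, ∑ t ∈ T q, |pn x (q * t) (a q) - lin x / (Nat.totient (q * t) : ℝ)| ≤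
      (1 + 4 * C1 + 16 * C2) * (x / Real.log x ^ U) := by
  classical
  have hl := log_ge1 hx
  have hl0 : 0 < Real.log x := by linarith
  have hxr : (0 : ℝ) < x := by exact_mod_cast (by omega : 0 < x)
  refine (sum_le_sum fun q hq => one_q x q (a q) (T q) hx (hS q hq).1 (hT q hq) (hco q hq) (hS q hq).2.2.2).trans ?_
  rw [sum_add_distrib, ← mul_sum, sum_add_distrib]
  have h1 : ∑ q ∈ S, ∑ t ∈ T q, |pn x (q * t) (a q) - pn x q (a q) / (Nat.totient t : ℝ)| ≤ x / Real.log x ^ U := by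
    refine (sum_le_sum hmain).trans ?_
    have e : ∑ q ∈ S, B / (q : ℝ) = B * ∑ q ∈ S, (1 / (q : ℝ)) := by
      rw [mul_sum]
      exact sum_congr rfl fun q _ => by ring
    rw [e]
    have h2 := sum_mult 1 x one_pos S (fun q hq => ⟨(hS q hq).1, (hS q hq).2.1, one_dvd _⟩)
    rw [Nat.cast_one, div_one] at h2
    exact (mul_le_mul_of_nonneg_left h2 hB0).trans hB
  have h2 : ∑ q ∈ S, |Er x q (rep q (a q))| ≤ C1 * (x / Real.log x ^ (U + 2)) := by
    refine le_trans ?_ (hbv (fun q => rep q (a q)) (fun d hd => rep_coprime d (a d) hd))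
    apply sum_le_sum_of_subset_of_nonneg
    · intro q hq
      rw [mem_Icc]
      exact ⟨(hS q hq).1, Nat.le_floor (hS q hq).2.2.1⟩
    · intro i _ _
      exact abs_nonneg _
  have h3 : ∑ q ∈ S, |(piN x : ℝ) - lin x| / (Nat.totient q : ℝ) ≤
      C2 * (x / Real.log x ^ (U + 4)) * (4 * Real.log x ^ 2) := by
    have e : ∑ q ∈ S, |(piN x : ℝ) - lin x| / (Nat.totient q : ℝ) =
        |(piN x : ℝ) - lin x| * ∑ q ∈ S, (1 / (Nat.totient q : ℝ)) := by
      rw [mul_sum]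
      exact sum_congr rfl fun q _ => by ring
    rw [e]
    have h4 := sum_inv_phi x hx S (fun q hq => mem_Icc.2 ⟨(hS q hq).1, (hS q hq).2.1⟩)
    exact mul_le_mul hpnt h4 (sum_nonneg fun q _ => by positivity) (by positivity)
  have h4 : 4 * Real.log x ^ 2 * (∑ q ∈ S, |Er x q (rep q (a q))| +
      ∑ q ∈ S, |(piN x : ℝ) - lin x| / (Nat.totient q : ℝ)) ≤
      4 * Real.log x ^ 2 * (C1 * (x / Real.log x ^ (U + 2)) + C2 * (x / Real.log x ^ (U + 4)) * (4 * Real.log x ^ 2)) :=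
    mul_le_mul_of_nonneg_left (add_le_add h2 h3) (by positivity)
  refine (add_le_add h1 h4).trans (le_of_eq ?_)
  rw [pow_add, pow_add]
  field_simp
  ring

theorem fin_all (θ κ : ℝ) (hθ1 : 1 / 2 ≤ θ) (hθ : θ < 43 / 84) (hκ0 : 0 ≤ κ) (hκ : κ < 1 / 3) :
    ∃ η : ℝ, 0 < η ∧ ∀ ε1 : ℝ, 0 < ε1 → ∀ U : ℕ, ∃ C : ℝ, 0 < C ∧ ∀ x : ℕ, 3 ≤ x → ∀ (a : ℕ → ℤ)
      (S : Finset ℕ) (T : ℕ → Finset ℕ),
      (∀ q ∈ S, 0 < q ∧ (q : ℝ) ≤ (x : ℝ) ^ κ ∧ IsCoprime (a q) (q : ℤ)) →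
      (∀ q ∈ S, ∀ t ∈ T q, Mo x q (a q) θ ε1 η t) →
      ∑ q ∈ S, ∑ t ∈ T q, |pn x (q * t) (a q) - lin x / (Nat.totient (q * t) : ℝ)| ≤
        C * (x / Real.log x ^ U) := by
  obtain ⟨η, hη, hmain⟩ := pi_all θ κ hθ1 hθ hκ0 hκ
  refine ⟨η, hη, fun ε1 hε1 U => ?_⟩
  obtain ⟨ε, hε, hev⟩ := hmain ε1 hε1
  obtain ⟨C1, hC1, hbv⟩ := bv κ (by linarith) (U + 2)
  obtain ⟨C2, hC2, hpnt⟩ := pnt_lin (U + 4)
  have hlog : ∀ᶠ x : ℕ in atTop, 2 * Real.log x ^ (U + 1) ≤ (x : ℝ) ^ ε :=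
    tendsto_natCast_atTop_atTop.eventually (Pool.Agent.Y61.Z.ev_log_rpow 2 (U + 1) hε)
  obtain ⟨x0, hx0⟩ := eventually_atTop.1 (hev.and hlog)
  set Bd : ℕ → ℝ := fun x => (x : ℝ) * ((x : ℝ) * ((x : ℝ) + |lin x|)) * Real.log x ^ U / x with hBd
  have hBd0 : ∀ x, 0 ≤ Bd x := by
    intro x
    have := Real.log_natCast_nonneg x
    rw [hBd]
    positivity
  refine ⟨(1 + 4 * C1 + 16 * C2) + ∑ x ∈ range x0, Bd x, ?_, ?_⟩
  · have : 0 ≤ ∑ x ∈ range x0, Bd x := sum_nonneg fun x _ => hBd0 x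
    linarith
  intro x hx a S T hS hT
  have hl := log_ge1 hx
  have hl0 : 0 < Real.log x := by linarith
  have hx1 : (1 : ℝ) ≤ x := by exact_mod_cast (by omega : 1 ≤ x)
  have hxr : (0 : ℝ) < x := by linarith
  have hsum0 : 0 ≤ ∑ x ∈ range x0, Bd x := sum_nonneg fun x _ => hBd0 x
  have hmain0 : 0 ≤ (x : ℝ) / Real.log x ^ U := by positivity
  have hSx : ∀ q ∈ S, q ≤ x := by
    intro q hq
    have h1 : (q : ℝ) ≤ x := by
      refine (hS q hq).2.1.trans ?_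
      calc (x : ℝ) ^ κ ≤ (x : ℝ) ^ (1 : ℝ) := Real.rpow_le_rpow_of_exponent_le hx1 (by linarith)
        _ = x := Real.rpow_one _
    exact_mod_cast h1
  have hTx : ∀ q ∈ S, T q ⊆ Icc 1 x := by
    intro q hq t ht
    rw [mem_Icc]
    refine ⟨(hT q hq t ht).pos, ?_⟩
    have h1 : (t : ℝ) ≤ x := by
      have h2 : (t : ℝ) ≤ q * t := le_mul_of_one_le_left (Nat.cast_nonneg t) (by exact_mod_cast (hS q hq).1)
      refine h2.trans ((hT q hq t ht).2.2.2.trans ?_)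
      calc (x : ℝ) ^ θ ≤ (x : ℝ) ^ (1 : ℝ) := Real.rpow_le_rpow_of_exponent_le hx1 (by linarith)
        _ = x := Real.rpow_one _
    exact_mod_cast h1
  rcases Nat.lt_or_ge x x0 with h | h
  · -- small `x`
    have h1 : ∑ q ∈ S, ∑ t ∈ T q, |pn x (q * t) (a q) - lin x / (Nat.totient (q * t) : ℝ)| ≤
        (x : ℝ) * ((x : ℝ) * ((x : ℝ) + |lin x|)) := by
      have h2 : ∀ q ∈ S, ∀ t ∈ T q, |pn x (q * t) (a q) - lin x / (Nat.totient (q * t) : ℝ)| ≤ (x : ℝ) + |lin x| := by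
        intro q hq t ht
        refine (abs_sub _ _).trans (add_le_add ?_ ?_)
        · rw [abs_of_nonneg (by unfold pn; positivity)]
          unfold pn
          exact_mod_cast (card_filter_le _ _).trans (by simp)
        · rw [abs_div, Nat.abs_cast]
          have h3 : 0 < q * t := Nat.mul_pos (hS q hq).1 (hT q hq t ht).pos
          have h4 : (1 : ℝ) ≤ (Nat.totient (q * t) : ℝ) := by exact_mod_cast Nat.totient_pos.2 h3
          exact div_le_self (abs_nonneg _) h4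
      have h3 : ∀ q ∈ S, ∑ t ∈ T q, |pn x (q * t) (a q) - lin x / (Nat.totient (q * t) : ℝ)| ≤
          (x : ℝ) * ((x : ℝ) + |lin x|) := by
        intro q hq
        refine (sum_le_sum (h2 q hq)).trans ?_
        rw [sum_const, nsmul_eq_mul]
        apply mul_le_mul_of_nonneg_right _ (by positivity)
        have := card_le_card (hTx q hq)
        rw [Nat.card_Icc, Nat.add_sub_cancel] at this
        exact_mod_cast this
      refine (sum_le_sum h3).trans ?_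
      rw [sum_const, nsmul_eq_mul]
      apply mul_le_mul_of_nonneg_right _ (by positivity)
      have h5 : S ⊆ Icc 1 x := fun q hq => mem_Icc.2 ⟨(hS q hq).1, hSx q hq⟩
      have := card_le_card h5
      rw [Nat.card_Icc, Nat.add_sub_cancel] at this
      exact_mod_cast this
    refine h1.trans ?_
    have h2 : (x : ℝ) * ((x : ℝ) * ((x : ℝ) + |lin x|)) = Bd x * (x / Real.log x ^ U) := by
      rw [hBd]
      field_simp
    rw [h2]
    have h3 : Bd x ≤ ∑ x ∈ range x0, Bd x := single_le_sum (fun i _ => hBd0 i) (mem_range.2 h)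
    apply mul_le_mul_of_nonneg_right _ hmain0
    linarith
  · -- large `x`
    obtain ⟨h1, h2⟩ := hx0 x h
    have h3 := fin_large x hx U κ C1 C2 ((x : ℝ) ^ (1 - ε)) S T a hC1.le hC2.le
      (fun q hq => ⟨(hS q hq).1, hSx q hq, (hS q hq).2.1, (hS q hq).2.2⟩) hTx
      (fun q hq t ht => (Nat.squarefree_mul_iff.1 (hT q hq t ht).1).1)
      (fun q hq => h1 q (hS q hq).1 (hS q hq).2.1 (a q) (hS q hq).2.2 (T q) (hT q hq) x le_rfl)
      (by positivity) (by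
        rw [le_div_iff₀ (by positivity)]
        have e : (x : ℝ) = (x : ℝ) ^ (1 - ε) * (x : ℝ) ^ ε := by
          rw [← Real.rpow_add hxr]
          have : 1 - ε + ε = 1 := by ring
          rw [this, Real.rpow_one]
        have h4 : (1 + Real.log x) * Real.log x ^ U ≤ (x : ℝ) ^ ε := by
          calc (1 + Real.log x) * Real.log x ^ U ≤ (2 * Real.log x) * Real.log x ^ U := by
                apply mul_le_mul_of_nonneg_right _ (by positivity)
                linarith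
            _ = 2 * Real.log x ^ (U + 1) := by ring
            _ ≤ _ := h2
        calc (x : ℝ) ^ (1 - ε) * (1 + Real.log x) * Real.log x ^ U
            = (x : ℝ) ^ (1 - ε) * ((1 + Real.log x) * Real.log x ^ U) := by ring
          _ ≤ (x : ℝ) ^ (1 - ε) * (x : ℝ) ^ ε := mul_le_mul_of_nonneg_left h4 (by positivity)
          _ = x := e.symm)
      (fun b hb => hbv x hx b hb) (hpnt x hx)
    refine h3.trans ?_
    apply mul_le_mul_of_nonneg_right _ hmain0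
    linarith

end Pool.Agent.R503.N
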