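import Mathlib
import Pool.Agent.R503.N.PiC

/-! The maximum over the heights inside (helper503). -/

open Finset Filter

namespace Pool.Agent.R503.N

open Pool.Agent.Y826.Z Pool.Agent.Y826.Z.OB

lemma pn_sub (y' y q : ℕ) (c : ℤ) (h : y' ≤ y) :
    pn y q c - pn y' q c = ∑ n ∈ Ioc y' y, ind (n.Prime ∧ (q : ℤ) ∣ (n : ℤ) - c) := by
  rw [pn_eq, pn_eq]
  have e1 : Icc 1 y = Icc 1 y' ∪ Ioc y' y := by
    ext n; simp only [mem_Icc, mem_Ioc, mem_union]; omega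
  have e2 : Disjoint (Icc 1 y') (Ioc y' y) := by
    rw [disjoint_left]
    intro n hn hn'
    rw [mem_Icc] at hn
    rw [mem_Ioc] at hn'
    omega
  rw [e1, sum_union e2]
  ring

lemma pn_sub_le (y' y q L : ℕ) (c : ℤ) (h : y' ≤ y) (hL : y - y' ≤ L) (hq : 0 < q) :
    0 ≤ pn y q c - pn y' q c ∧ pn y q c - pn y' q c ≤ (L : ℝ) / q + 1 := by
  rw [pn_sub y' y q c h]
  constructor
  · exact sum_nonneg fun n _ => ind_nonneg _
  · have h1 : ∑ n ∈ Ioc y' y, ind (n.Prime ∧ (q : ℤ) ∣ (n : ℤ) - c) ≤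
        ∑ n ∈ Ioc y' y, ind ((q : ℤ) ∣ (n : ℤ) - c) := by
      refine sum_le_sum fun n _ => ?_
      unfold ind
      by_cases h1 : n.Prime <;> by_cases h2 : (q : ℤ) ∣ (n : ℤ) - c <;> simp [h1, h2]
    refine h1.trans ((sum_cls y' y q hq c).trans ?_)
    have h2 : ((y - y' : ℕ) : ℝ) ≤ L := by exact_mod_cast hL
    have h3 : (0 : ℝ) < q := by exact_mod_cast hq
    gcongr

/-- the main estimate for primes, with the maximum over the heights inside -/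
theorem pi_max (θ κ : ℝ) (hθ1 : 1 / 2 ≤ θ) (hθ : θ < 43 / 84) (hκ0 : 0 ≤ κ) (hκ : κ < 1 / 3) :
    ∃ η : ℝ, 0 < η ∧ ∀ ε1 : ℝ, 0 < ε1 → ∃ ε : ℝ, 0 < ε ∧ ∀ᶠ x : ℕ in atTop, ∀ q0 : ℕ, 0 < q0 →
      (q0 : ℝ) ≤ (x : ℝ) ^ κ → ∀ c : ℤ, IsCoprime c (q0 : ℤ) → ∀ T : Finset ℕ,
      (∀ t ∈ T, Mo x q0 c θ ε1 η t) → ∀ y : ℕ → ℕ, (∀ t, y t ≤ x) →
      ∑ t ∈ T, |pn (y t) (q0 * t) c - pn (y t) q0 c / (Nat.totient t : ℝ)| ≤ (x : ℝ) ^ (1 - ε) / q0 := by
  obtain ⟨η, hη, hmain⟩ := pi_all θ κ hθ1 hθ hκ0 hκ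
  refine ⟨η, hη, fun ε1 hε1 => ?_⟩
  obtain ⟨ε', hε', hev⟩ := hmain ε1 hε1
  set δ : ℝ := min (ε' / 2) (1 / 5) with hδ
  have hδ0 : 0 < δ := lt_min (by positivity) (by norm_num)
  have hδ1 : δ ≤ ε' / 2 := min_le_left _ _
  have hδ2 : δ ≤ 1 / 5 := min_le_right _ _
  refine ⟨δ / 4, by positivity, ?_⟩
  have h11 : ∀ᶠ x : ℕ in atTop, (8 : ℝ) ≤ (x : ℝ) ^ (δ / 4) :=
    tendsto_natCast_atTop_atTop.eventually (Pool.Agent.Y61.Z.ev_rpow _ (by positivity))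
  filter_upwards [hev, ev_basic (δ / 8) (by positivity), h11] with x hx hx2 hx11 q0 hq hqκ c hc T hT y hy
  obtain ⟨htau, hlog, hlog1, hx256⟩ := hx2
  have hX : (256 : ℝ) ≤ x := by exact_mod_cast hx256
  set X : ℝ := (x : ℝ) with hXdef
  have hX0 : 0 < X := by linarith
  have hX1 : 1 ≤ X := by linarith
  have rle : ∀ {a b : ℝ}, a ≤ b → X ^ a ≤ X ^ b := fun h => Real.rpow_le_rpow_of_exponent_le hX1 h
  have radd : ∀ a b : ℝ, X ^ a * X ^ b = X ^ (a + b) := fun a b => (Real.rpow_add hX0 a b).symm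
  have rpos : ∀ a : ℝ, 0 < X ^ a := fun a => Real.rpow_pos_of_pos hX0 a
  have hqr : (0 : ℝ) < q0 := by exact_mod_cast hq
  set ℓ : ℝ := X ^ (δ / 8) with hℓ
  have hℓ1 : 1 ≤ ℓ := Real.one_le_rpow hX1 (by positivity)
  have hℓ0 : 0 ≤ ℓ := by linarith
  have hcard := card_Mo (by omega : 0 < x) hq T hT
  have hθX : X ^ θ ≤ X := by
    calc X ^ θ ≤ X ^ (1 : ℝ) := rle (by linarith)
      _ = X := Real.rpow_one X
  have hqtx : ∀ t ∈ T, q0 * t ≤ x := by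
    intro t ht
    have h1 := ((hT t ht).2.2.2).trans hθX
    have h2 : ((q0 * t : ℕ) : ℝ) ≤ (x : ℝ) := by push_cast; exact h1
    exact (Nat.cast_le (α := ℝ)).1 h2
  have htx : ∀ t ∈ T, 0 < t ∧ t ≤ x := by
    intro t ht
    refine ⟨(hT t ht).pos, (Nat.le_mul_of_pos_left t hq).trans (hqtx t ht)⟩
  have h1t := sum_mult 1 x one_pos T (fun t ht => ⟨(htx t ht).1, (htx t ht).2, one_dvd _⟩)
  have hphi := sum_phi T 1 x ℓ one_pos (fun t ht => ⟨(htx t ht).1, (htx t ht).2, one_dvd _⟩) htau hlog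
  rw [Nat.cast_one, div_one] at h1t hphi
  have h1t' : ∑ t ∈ T, (1 / (t : ℝ)) ≤ ℓ ^ 2 := (h1t.trans hlog).trans (by nlinarith)
  -- the grid
  set L : ℕ := ⌊X ^ (1 - δ)⌋₊ with hL
  have hLr : (L : ℝ) ≤ X ^ (1 - δ) := Nat.floor_le (rpos _).le
  have h8 : 8 ≤ X ^ (1 - δ) := hx11.trans (rle (by linarith))
  have hL0 : 0 < L := Nat.floor_pos.2 (by linarith)
  have hLr0 : (0 : ℝ) < L := by exact_mod_cast hL0
  have hL2 : X ^ (1 - δ) ≤ 2 * L := by
    have := Nat.lt_floor_add_one (X ^ (1 - δ))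
    have h1 : (1 : ℝ) ≤ L := by exact_mod_cast hL0
    linarith
  have hJ : ((x / L + 1 : ℕ) : ℝ) ≤ 3 * X ^ δ := by
    have h1 : ((x / L : ℕ) : ℝ) ≤ X / L := Nat.cast_div_le
    have h2 : X / L ≤ 2 * X ^ δ := by
      rw [div_le_iff₀ hLr0]
      have h3 : X = X ^ δ * X ^ (1 - δ) := by
        rw [radd]
        have : δ + (1 - δ) = 1 := by ring
        rw [this, Real.rpow_one]
      calc X = X ^ δ * X ^ (1 - δ) := h3
        _ ≤ X ^ δ * (2 * L) := mul_le_mul_of_nonneg_left hL2 (rpos _).le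
        _ = _ := by ring
    have h4 : 1 ≤ X ^ δ := Real.one_le_rpow hX1 hδ0.le
    push_cast
    linarith
  -- the two parts
  have h1 : ∀ t ∈ T, |pn (y t) (q0 * t) c - pn (y t) q0 c / (Nat.totient t : ℝ)| ≤
      (∑ j ∈ range (x / L + 1), |pn (L * j) (q0 * t) c - pn (L * j) q0 c / (Nat.totient t : ℝ)|) +
      ((((L : ℝ) / q0) * (1 / (t : ℝ)) + 1) + (1 / (Nat.totient t : ℝ)) * ((L : ℝ) / q0 + 1)) := by
    intro t ht
    have hyj : L * (y t / L) ≤ y t := Nat.mul_div_le _ _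
    have hyj2 : y t - L * (y t / L) ≤ L := by
      have := Nat.div_add_mod (y t) L
      have := Nat.mod_lt (y t) hL0
      omega
    have a1 := pn_sub_le (L * (y t / L)) (y t) (q0 * t) L c hyj hyj2 (Nat.mul_pos hq (htx t ht).1)
    have a2 := pn_sub_le (L * (y t / L)) (y t) q0 L c hyj hyj2 hq
    have e : (L : ℝ) / ((q0 * t : ℕ) : ℝ) = ((L : ℝ) / q0) * (1 / (t : ℝ)) := by
      push_cast
      rw [div_mul_div_comm, mul_one]
    rw [e] at a1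
    have hj : y t / L ∈ range (x / L + 1) := by
      rw [mem_range]
      exact Nat.lt_succ_of_le (Nat.div_le_div_right (hy t))
    have a3 := single_le_sum (f := fun j => |pn (L * j) (q0 * t) c - pn (L * j) q0 c / (Nat.totient t : ℝ)|)
      (fun i _ => abs_nonneg _) hj
    have hφ : (0 : ℝ) ≤ 1 / (Nat.totient t : ℝ) := by positivity
    set A1 := pn (y t) (q0 * t) c
    set A2 := pn (L * (y t / L)) (q0 * t) c
    set B1 := pn (y t) q0 c
    set B2 := pn (L * (y t / L)) q0 c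
    have e2 : A1 - B1 / (Nat.totient t : ℝ) = (A2 - B2 / (Nat.totient t : ℝ)) +
        ((A1 - A2) - (1 / (Nat.totient t : ℝ)) * (B1 - B2)) := by ring
    rw [e2]
    refine (abs_add_le _ _).trans (add_le_add a3 ?_)
    have b1 := mul_nonneg hφ a2.1
    have b2 := mul_le_mul_of_nonneg_left a2.2 hφ
    have b3 : 0 ≤ (L : ℝ) / q0 * (1 / (t : ℝ)) + 1 := by positivity
    rw [abs_le]
    constructor
    · linarith [a1.1, a1.2]
    · linarith [a1.1, a1.2]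
  refine (sum_le_sum h1).trans ?_
  rw [sum_add_distrib, sum_comm, sum_add_distrib, sum_add_distrib, ← mul_sum, ← sum_mul, sum_const,
    nsmul_eq_mul, mul_one]
  have hgrid : ∑ j ∈ range (x / L + 1), ∑ t ∈ T, |pn (L * j) (q0 * t) c - pn (L * j) q0 c / (Nat.totient t : ℝ)| ≤
      3 * X ^ δ * (X ^ (1 - ε') / q0) := by
    have h2 : ∀ j ∈ range (x / L + 1), ∑ t ∈ T, |pn (L * j) (q0 * t) c - pn (L * j) q0 c / (Nat.totient t : ℝ)| ≤
        X ^ (1 - ε') / q0 := by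
      intro j hj
      rw [mem_range] at hj
      apply hx q0 hq hqκ c hc T hT
      calc L * j ≤ L * (x / L) := Nat.mul_le_mul_left L (by omega)
        _ ≤ x := Nat.mul_div_le _ _
    refine (sum_le_sum h2).trans ?_
    rw [sum_const, card_range, nsmul_eq_mul]
    exact mul_le_mul_of_nonneg_right hJ (by have := (rpos (1 - ε')).le; positivity)
  set Z : ℝ := X ^ (1 - δ) / q0 with hZ
  have hZ0 : 0 ≤ Z := by have := (rpos (1 - δ)).le; positivity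
  have hLZ : (L : ℝ) / q0 ≤ Z := div_le_div_of_nonneg_right hLr hqr.le
  have hcZ : (T.card : ℝ) ≤ Z := by
    refine hcard.trans (div_le_div_of_nonneg_right (rle (by linarith)) hqr.le)
  have h1Z : 1 ≤ Z := by
    rw [hZ, one_le_div hqr]
    exact hqκ.trans (rle (by linarith))
  have hg2 : 3 * X ^ δ * (X ^ (1 - ε') / q0) ≤ 3 * Z := by
    have : X ^ δ * (X ^ (1 - ε') / q0) ≤ Z := by
      rw [hZ, mul_div_assoc', radd]
      exact div_le_div_of_nonneg_right (rle (by linarith)) hqr.le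
    linarith
  have h1t0 : 0 ≤ ∑ t ∈ T, (1 / (t : ℝ)) := sum_nonneg fun t _ => by positivity
  have hp0 : 0 ≤ ∑ t ∈ T, (1 / (Nat.totient t : ℝ)) := sum_nonneg fun t _ => by positivity
  have hfin : ∑ j ∈ range (x / L + 1), ∑ t ∈ T, |pn (L * j) (q0 * t) c - pn (L * j) q0 c / (Nat.totient t : ℝ)| +
      (((L : ℝ) / q0) * ∑ t ∈ T, (1 / (t : ℝ)) + (T.card : ℝ) +
        (∑ t ∈ T, (1 / (Nat.totient t : ℝ))) * ((L : ℝ) / q0 + 1)) ≤ 8 * (ℓ ^ 2 * Z) := by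
    have c1 : ((L : ℝ) / q0) * ∑ t ∈ T, (1 / (t : ℝ)) ≤ Z * ℓ ^ 2 := by gcongr
    have c2 : (∑ t ∈ T, (1 / (Nat.totient t : ℝ))) * ((L : ℝ) / q0 + 1) ≤ ℓ ^ 2 * (Z + Z) := by gcongr
    have c3 : Z ≤ ℓ ^ 2 * Z := le_mul_of_one_le_left hZ0 (one_le_pow₀ hℓ1)
    linarith [hgrid.trans hg2]
  refine hfin.trans ?_
  calc 8 * (ℓ ^ 2 * Z) ≤ X ^ (δ / 4) * (ℓ ^ 2 * Z) := mul_le_mul_of_nonneg_right hx11 (by positivity)
    _ = X ^ (1 - δ / 4 * 2) / q0 := by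
        rw [hℓ, hZ, pw hX0, mul_div_assoc', mul_div_assoc', radd, radd]
        congr 2
        push_cast
        ring
    _ ≤ X ^ (1 - δ / 4) / q0 := by
        apply div_le_div_of_nonneg_right _ hqr.le
        apply rle
        linarith

end Pool.Agent.R503.N
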